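import Pool.Agent.H29.Axis

/-!
# Minimal convex sets and finite index subgroups; intersections of convex cocompact subgroups
-/

open Set Filter Topology Metric
open Pool.Agent.H29

set_option linter.unusedSectionVars false

namespace Pool.Agent.H74.CC

variable {G X : Type*} [Group G] [MetricSpace X] [IsCAT0 X] [ProperSpace X]
  [MulAction G X] [IsIsometricSMul G X]

/-! ### finite index subgroups -/

lemma gconvexFun_sq {f : X → ℝ} (hf : GConvexFun f) (h0 : ∀ x, 0 ≤ f x) :
    GConvexFun (fun x => f x ^ 2) := by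
  intro x y t ht
  have h1 := hf x y t ht
  have h2 := h0 (pt x y t)
  have h3 := h0 x
  have h4 := h0 y
  have h5 : f (pt x y t) ^ 2 ≤ ((1 - t) * f x + t * f y) ^ 2 := pow_le_pow_left₀ h2 h1 2
  have h6 : (0 : ℝ) ≤ t * (1 - t) := mul_nonneg ht.1 (by linarith [ht.2])
  show f (pt x y t) ^ 2 ≤ (1 - t) * f x ^ 2 + t * f y ^ 2
  nlinarith [mul_nonneg h6 (sq_nonneg (f x - f y))]

lemma gconvexFun_sum {ι : Type*} (s : Finset ι) {f : ι → X → ℝ} (hf : ∀ i ∈ s, GConvexFun (f i)) :
    GConvexFun (fun x => ∑ i ∈ s, f i x) := by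
  intro x y t ht
  show ∑ i ∈ s, f i (pt x y t) ≤ (1 - t) * ∑ i ∈ s, f i x + t * ∑ i ∈ s, f i y
  rw [Finset.mul_sum, Finset.mul_sum, ← Finset.sum_add_distrib]
  exact Finset.sum_le_sum (fun i hi => hf i hi x y t ht)

lemma gconvexFun_comp_smul {f : X → ℝ} (hf : GConvexFun f) (g : G) :
    GConvexFun (fun x => f (g • x)) := by
  intro x y t ht
  show f (g • pt x y t) ≤ _
  rw [smul_pt g x y ht]
  exact hf _ _ t ht

/-- A set which is minimal for a group is minimal for its finite index subgroups. -/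
theorem isMinl_of_finiteIndex {C C' : Subgroup G} (hle : C' ≤ C) (hidx : C'.relIndex C ≠ 0)
    {A : Set X} (hA : IsMinl C A) : IsMinl C' A := by
  refine ⟨⟨hA.isNC.closed, hA.isNC.convex, fun n hn => hA.isNC.inv n (hle hn)⟩, hA.ne, ?_⟩
  intro D hD hne hsub
  by_contra hcon
  obtain ⟨y, hyA, hyD⟩ : ∃ y ∈ A, y ∉ D := by
    by_contra h
    push Not at h
    exact hcon (Subset.antisymm hsub h)
  have hfin : Finite (C ⧸ C'.subgroupOf C) := by
    have : (C'.subgroupOf C).FiniteIndex := ⟨hidx⟩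
    exact Subgroup.finite_quotient_of_finiteIndex
  have := Fintype.ofFinite (C ⧸ C'.subgroupOf C)
  set φ : (C ⧸ C'.subgroupOf C) → X → ℝ := fun q x => infDist (((q.out : C) : G)⁻¹ • x) D with hφ
  have hφmk : ∀ (c : C) (x : X), φ (QuotientGroup.mk c) x = infDist ((c : G)⁻¹ • x) D := by
    intro c x
    obtain ⟨h, hh⟩ := QuotientGroup.mk_out_eq_mul (C'.subgroupOf C) c
    simp only [hφ]
    rw [hh]
    have h2 : ((h : C) : G) ∈ C' := h.2
    have e : (((c * (h : C) : C) : G))⁻¹ • x = ((h : C) : G)⁻¹ • (c : G)⁻¹ • x := by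
      rw [smul_smul, Subgroup.coe_mul, mul_inv_rev]
    rw [e, hD.infDist_smul (C'.inv_mem h2)]
  set F : X → ℝ := fun x => ∑ q : C ⧸ C'.subgroupOf C, φ q x ^ 2 with hF
  have hconvD : GConvexFun (fun x => infDist x D) := gconvexFun_infDist hD.closed hne hD.convex
  have hconv1 : ∀ q, GConvexFun (fun x => φ q x ^ 2) := by
    intro q
    apply gconvexFun_sq
    · exact gconvexFun_comp_smul hconvD _
    · intro x; exact infDist_nonneg
  have hFconv : GConvexFun F := gconvexFun_sum _ (fun q _ => hconv1 q)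
  have hφcont : ∀ q, Continuous (φ q) := fun q =>
    (continuous_infDist_pt D).comp (isometry_smul X _).continuous
  have hFcont : Continuous F := continuous_finsetSum _ (fun q _ => (hφcont q).pow 2)
  have hFinv : ∀ n ∈ C, ∀ x, F (n • x) = F x := by
    intro n hn x
    simp only [hF]
    apply Fintype.sum_equiv (MulAction.toPerm ((⟨n, hn⟩ : C)⁻¹))
    intro q
    induction q using QuotientGroup.induction_on with
    | H c =>
      rw [MulAction.toPerm_apply]
      have e1 : ((⟨n, hn⟩ : C)⁻¹) • (QuotientGroup.mk c : C ⧸ C'.subgroupOf C) =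
          QuotientGroup.mk ((⟨n, hn⟩ : C)⁻¹ * c) := rfl
      rw [e1, hφmk, hφmk]
      congr 2
      rw [smul_smul]
      congr 1
      push_cast
      group
  set p := proj D y with hp
  have hpD : p ∈ D := proj_mem hD.closed hne y
  have hpA : p ∈ A := hsub hpD
  set m := pt p y (1 / 2) with hm
  have hmA : m ∈ A := hA.isNC.convex p hpA y hyA _ half_mem_I
  have c1 := hA.const hFconv hFcont hFinv hmA hpA
  have c2 := hA.const hFconv hFcont hFinv hmA hyA
  -- strict convexity at the trivial coset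
  have hδ : 0 < infDist y D := by
    rcases lt_or_eq_of_le (infDist_nonneg (x := y) (s := D)) with h | h
    · exact h
    · exact absurd ((hD.closed.mem_iff_infDist_zero hne).mpr h.symm) hyD
  set q1 : C ⧸ C'.subgroupOf C := QuotientGroup.mk 1 with hq1
  have e0 : ∀ x, φ q1 x = infDist x D := by
    intro x
    rw [hq1, hφmk]
    simp
  have hp0 : infDist p D = 0 := infDist_zero_of_mem hpD
  have hstrict : φ q1 m ^ 2 < (1 - 1 / 2) * φ q1 p ^ 2 + 1 / 2 * φ q1 y ^ 2 := by
    rw [e0, e0, e0, hp0]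
    have h1 := hconvD p y _ half_mem_I
    simp only [hp0] at h1
    have h2 : infDist m D ≤ 1 / 2 * infDist y D := by
      rw [hm]; linarith
    have h3 := infDist_nonneg (x := m) (s := D)
    nlinarith
  have hlt : F m < (1 - 1 / 2) * F p + 1 / 2 * F y := by
    simp only [hF]
    rw [Finset.mul_sum, Finset.mul_sum, ← Finset.sum_add_distrib]
    apply Finset.sum_lt_sum
    · intro q _
      exact hconv1 q p y _ half_mem_I
    · exact ⟨q1, Finset.mem_univ _, hstrict⟩
  rw [← c1, ← c2] at hlt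
  linarith

/-! ### existence of minimal sets -/

/-- The subgroup `C` acts cocompactly on the set `Y`. -/
def CocompactOn (C : Subgroup G) (Y : Set X) : Prop :=
  ∃ K : Set X, IsCompact K ∧ ∀ p ∈ Y, ∃ c ∈ C, c • p ∈ K

lemma CocompactOn.mono {C : Subgroup G} {Y Y' : Set X} (h : CocompactOn C Y) (hle : Y' ⊆ Y) :
    CocompactOn C Y' := by
  obtain ⟨K, hK, hc⟩ := h
  exact ⟨K, hK, fun p hp => hc p (hle hp)⟩

theorem exists_isMinl {C : Subgroup G} {Y : Set X} (hY : IsNC C Y) (hne : Y.Nonempty)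
    (hcoc : CocompactOn C Y) : ∃ A ⊆ Y, IsMinl C A := by
  obtain ⟨K, hK, hcov⟩ := hcoc
  set S : Set (Set X) := {D | IsNC C D ∧ D.Nonempty ∧ D ⊆ Y} with hS
  have hmeet : ∀ D ∈ S, (D ∩ K).Nonempty := by
    intro D hD
    obtain ⟨p, hp⟩ := hD.2.1
    obtain ⟨c, hc, hcK⟩ := hcov p (hD.2.2 hp)
    exact ⟨c • p, hD.1.inv c hc p hp, hcK⟩
  obtain ⟨A, hAY, hA⟩ := zorn_superset_nonempty S (by
    intro ch hch hchain hchne
    refine ⟨⋂₀ ch, ⟨⟨?_, ?_, ?_⟩, ?_, ?_⟩, fun s hs => sInter_subset_of_mem hs⟩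
    · exact isClosed_sInter (fun D hD => (hch hD).1.closed)
    · exact GConvex.sInter (fun D hD => (hch hD).1.convex)
    · intro n hn x hx D hD
      exact (hch hD).1.inv n hn x (hx D hD)
    · have hne' : Nonempty ch := hchne.to_subtype
      have := IsCompact.nonempty_iInter_of_directed_nonempty_isCompact_isClosed
        (fun D : ch => (D : Set X) ∩ K) (by
          intro D1 D2
          rcases hchain.total D1.2 D2.2 with h | h
          · exact ⟨D1, subset_refl _, inter_subset_inter_left _ h⟩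
          · exact ⟨D2, inter_subset_inter_left _ h, subset_refl _⟩)
        (fun D => hmeet _ (hch D.2))
        (fun D => hK.inter_left (hch D.2).1.closed)
        (fun D => (hch D.2).1.closed.inter hK.isClosed)
      obtain ⟨z, hz⟩ := this
      refine ⟨z, fun D hD => ?_⟩
      exact (mem_iInter.mp hz ⟨D, hD⟩).1
    · obtain ⟨D, hD⟩ := hchne
      exact (sInter_subset_of_mem hD).trans (hch hD).2.2) Y ⟨hY, hne, subset_refl _⟩
  refine ⟨A, hAY, hA.prop.1, hA.prop.2.1, ?_⟩
  intro D hD hDne hDA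
  exact Subset.antisymm hDA (hA.le_of_le ⟨hD, hDne, hDA.trans hA.prop.2.2⟩ hDA)

/-! ### intersections of convex cocompact subgroups -/

/-- The intersection of two subgroups acting cocompactly on `Y` and `Z` acts cocompactly on the
points of `Y` near `Z`. -/
theorem cocompactOn_inf [ProperlyDiscontinuousSMul G X] {C A : Subgroup G} {Y Z : Set X}
    (hC : CocompactOn C Y) (hA : CocompactOn A Z) (hZ : IsClosed Z) (hZne : Z.Nonempty) (M : ℝ) :
    CocompactOn (C ⊓ A) (Y ∩ {z | infDist z Z ≤ M}) := by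
  classical
  obtain ⟨K1, hK1, hc1⟩ := hC
  obtain ⟨K2, hK2, hc2⟩ := hA
  set K2' := Metric.cthickening M K2 with hK2'
  have hK2c : IsCompact K2' := hK2.cthickening
  set F : Set G := {g | ((fun x => g • x) '' K1 ∩ K2').Nonempty} with hF
  have hFfin : F.Finite := ProperlyDiscontinuousSMul.finite_disjoint_inter_image (Γ := G) hK1 hK2c
  set F' : Set G := {g | g ∈ F ∧ ∃ a ∈ A, ∃ c ∈ C, g = a * c⁻¹} with hF'
  have hF'fin : F'.Finite := hFfin.subset (fun g h => h.1)
  have hch : ∀ g : G, ∃ c : G, g ∈ F' → c ∈ C ∧ ∃ a ∈ A, g = a * c⁻¹ := by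
    intro g
    by_cases hg : g ∈ F'
    · obtain ⟨_, a, ha, c, hc, h⟩ := hg
      exact ⟨c, fun _ => ⟨hc, a, ha, h⟩⟩
    · exact ⟨1, fun h => absurd h hg⟩
  choose cf hcf using hch
  refine ⟨⋃ g ∈ F', (fun x => (cf g)⁻¹ • x) '' K1, ?_, ?_⟩
  · apply hF'fin.isCompact_biUnion
    intro g _
    exact hK1.image (isometry_smul X (cf g)⁻¹).continuous
  · rintro z ⟨hzY, hzZ⟩
    obtain ⟨c, hc, hcz⟩ := hc1 z hzY
    obtain ⟨q, hqZ, hq⟩ := hZ.exists_infDist_eq_dist hZne z
    obtain ⟨a, ha, haq⟩ := hc2 q hqZ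
    have haz : a • z ∈ K2' := by
      apply Metric.mem_cthickening_of_dist_le (a • z) (a • q) M K2 haq
      rw [dist_smul, ← hq]
      exact hzZ
    have hg : a * c⁻¹ ∈ F' := by
      refine ⟨⟨a • z, ⟨c • z, hcz, ?_⟩, haz⟩, a, ha, c, hc, rfl⟩
      show (a * c⁻¹) • c • z = a • z
      rw [smul_smul, inv_mul_cancel_right]
    obtain ⟨hc', a', ha', hga⟩ := hcf (a * c⁻¹) hg
    set c' := cf (a * c⁻¹) with hc'def
    have hh : a'⁻¹ * a = c'⁻¹ * c := by
      have : a * c⁻¹ = a' * c'⁻¹ := hga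
      calc a'⁻¹ * a = a'⁻¹ * (a * c⁻¹) * c := by group
        _ = a'⁻¹ * (a' * c'⁻¹) * c := by rw [this]
        _ = c'⁻¹ * c := by group
    refine ⟨c'⁻¹ * c, ⟨C.mul_mem (C.inv_mem hc') hc, ?_⟩, ?_⟩
    · rw [← hh]
      exact A.mul_mem (A.inv_mem ha') ha
    · rw [mem_iUnion₂]
      refine ⟨a * c⁻¹, hg, c • z, hcz, ?_⟩
      show (cf (a * c⁻¹))⁻¹ • c • z = _
      rw [smul_smul]

/-- Finite index criterion. -/
theorem relIndex_ne_zero_of_cover [ProperlyDiscontinuousSMul G X] {C A : Subgroup G} {p : X}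
    {K : Set X} (hK : IsCompact K) (h : ∀ c ∈ C, ∃ a ∈ C ⊓ A, a • c • p ∈ K) :
    A.relIndex C ≠ 0 := by
  classical
  have hfin : {g : G | g • p ∈ K}.Finite := by
    apply (ProperlyDiscontinuousSMul.finite_disjoint_inter_image (Γ := G)
      (isCompact_singleton (x := p)) hK).subset
    intro g hg
    exact ⟨g • p, ⟨p, rfl, rfl⟩, hg⟩
  -- the cosets `(C ⊓ A) c`
  have hfinQ : Finite (C ⧸ A.subgroupOf C) := by
    have key : ∀ c : C, ∃ f ∈ {g : G | g • p ∈ K}, ∃ a ∈ C ⊓ A, f = a * (c : G)⁻¹ := by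
      intro c
      obtain ⟨a, ha, haK⟩ := h (c : G)⁻¹ (C.inv_mem c.2)
      exact ⟨a * (c : G)⁻¹, by show (a * (c : G)⁻¹) • p ∈ K; rwa [mul_smul], a, ha, rfl⟩
    choose f hf a ha hfa using key
    have hfinset : Finite {g : G | g • p ∈ K} := hfin
    let φ : (C ⧸ A.subgroupOf C) → {g : G | g • p ∈ K} := fun q => ⟨f q.out, hf q.out⟩
    apply Finite.of_injective φ
    intro q1 q2 hq
    have h1 : f q1.out = f q2.out := congrArg Subtype.val hq
    rw [hfa, hfa] at h1
    rw [← QuotientGroup.out_eq' q1, ← QuotientGroup.out_eq' q2]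
    rw [QuotientGroup.eq]
    rw [Subgroup.mem_subgroupOf]
    have h2 : (((q1.out)⁻¹ * q2.out : C) : G) = (a q1.out)⁻¹ * a q2.out := by
      push_cast
      calc ((q1.out : C) : G)⁻¹ * ((q2.out : C) : G) =
            (a q1.out)⁻¹ * (a q1.out * ((q1.out : C) : G)⁻¹) * ((q2.out : C) : G) := by group
        _ = (a q1.out)⁻¹ * (a q2.out * ((q2.out : C) : G)⁻¹) * ((q2.out : C) : G) := by rw [h1]
        _ = _ := by group
    rw [h2]
    exact A.mul_mem (A.inv_mem (ha _).2) (ha _).2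
  have : (A.subgroupOf C).FiniteIndex := Subgroup.finiteIndex_of_finite_quotient
  exact this.index_ne_zero

end Pool.Agent.H74.CC
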