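import Pool.Agent.H29.Stable
import Pool.Agent.H74.CC1

/-!
# Commensurated convex cocompact subgroups
-/

open Set Filter Topology Metric
open Pool.Agent.H29

set_option linter.unusedSectionVars false

namespace Pool.Agent.H74.CC

universe u

variable {G : Type*} {X : Type u} [Group G] [MetricSpace X] [IsCAT0 X] [ProperSpace X]
  [MulAction G X] [IsIsometricSMul G X]

lemma comm2_refl (C : Subgroup G) : Comm2 C C := by
  constructor <;> · rw [Subgroup.relIndex_self]; exact one_ne_zero

lemma comm2_inf {C1 C2 C : Subgroup G} (h1 : Comm2 C1 C) (h2 : Comm2 C2 C) :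
    Comm2 (C1 ⊓ C2) C := by
  refine ⟨Subgroup.relIndex_inf_ne_zero h1.1 h2.1, ?_⟩
  exact relIndex_mono_right inf_le_left h1.2

lemma comm2_inf_relIndex {C1 C2 C : Subgroup G} (h1 : Comm2 C1 C) (h2 : Comm2 C2 C) :
    (C1 ⊓ C2).relIndex C1 ≠ 0 := by
  rw [Subgroup.inf_relIndex_left]
  exact (h1.trans h2.symm).2

/-- The point `x` lies in a minimal set of a subgroup commensurable to `C`. -/
def MinPt (C : Subgroup G) (x : X) : Prop :=
  ∃ C' : Subgroup G, Comm2 C' C ∧ IsMinl C' (nhull C' x)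

open Classical in
/-- the minimal set through a point -/
noncomputable def mh (C : Subgroup G) (x : X) : Set X :=
  if h : MinPt C x then nhull h.choose x else ∅

lemma nhull_of_le {C' C3 : Subgroup G} {x : X} (h : IsMinl C' (nhull C' x)) (hle : C3 ≤ C')
    (hidx : C3.relIndex C' ≠ 0) : IsMinl C3 (nhull C' x) ∧ nhull C3 x = nhull C' x := by
  have h1 := isMinl_of_finiteIndex hle hidx h
  exact ⟨h1, h1.eq_nhull (mem_nhull C' x)⟩

lemma nhull_unique {C C1 C2 : Subgroup G} {x : X} (h1 : Comm2 C1 C) (h2 : Comm2 C2 C)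
    (m1 : IsMinl C1 (nhull C1 x)) (m2 : IsMinl C2 (nhull C2 x)) : nhull C1 x = nhull C2 x := by
  have e1 := (nhull_of_le m1 inf_le_left (comm2_inf_relIndex h1 h2)).2
  have e2 := (nhull_of_le m2 inf_le_left (comm2_inf_relIndex h2 h1)).2
  rw [← e1, ← e2, inf_comm]

lemma MinPt.spec {C : Subgroup G} {x : X} (h : MinPt C x) :
    ∃ C' : Subgroup G, Comm2 C' C ∧ IsMinl C' (mh C x) ∧ nhull C' x = mh C x := by
  refine ⟨h.choose, h.choose_spec.1, ?_, ?_⟩
  · unfold mh
    rw [dif_pos h]
    exact h.choose_spec.2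
  · unfold mh
    rw [dif_pos h]

lemma MinPt.mem {C : Subgroup G} {x : X} (h : MinPt C x) : x ∈ mh C x := by
  obtain ⟨C', _, _, he⟩ := h.spec
  rw [← he]
  exact mem_nhull C' x

lemma mh_eq {C C' : Subgroup G} {x : X} (h : Comm2 C' C) (hm : IsMinl C' (nhull C' x)) :
    mh C x = nhull C' x := by
  have hx : MinPt C x := ⟨C', h, hm⟩
  obtain ⟨C1, h1, hm1, he⟩ := hx.spec
  rw [← he]
  rw [← he] at hm1
  exact nhull_unique h1 h hm1 hm

lemma mh_eq_of_isMinl {C C' : Subgroup G} {x : X} {A : Set X} (h : Comm2 C' C)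
    (hm : IsMinl C' A) (hx : x ∈ A) : MinPt C x ∧ mh C x = A := by
  have e := hm.eq_nhull hx
  have hm' : IsMinl C' (nhull C' x) := by rw [e]; exact hm
  exact ⟨⟨C', h, hm'⟩, by rw [mh_eq h hm', e]⟩

lemma MinPt.of_mem {C : Subgroup G} {x y : X} (h : MinPt C x) (hy : y ∈ mh C x) :
    MinPt C y ∧ mh C y = mh C x := by
  obtain ⟨C', h1, hm, _⟩ := h.spec
  exact mh_eq_of_isMinl h1 hm hy

/-- common subgroups -/
lemma exists_common {C : Subgroup G} {x y z : X} (hx : MinPt C x) (hy : MinPt C y)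
    (hz : MinPt C z) : ∃ C' : Subgroup G, Comm2 C' C ∧ IsMinl C' (mh C x) ∧
      IsMinl C' (mh C y) ∧ IsMinl C' (mh C z) := by
  obtain ⟨C1, h1, m1, _⟩ := hx.spec
  obtain ⟨C2, h2, m2, _⟩ := hy.spec
  obtain ⟨C3, h3, m3, _⟩ := hz.spec
  have h12 := comm2_inf h1 h2
  have h123 := comm2_inf h12 h3
  refine ⟨C1 ⊓ C2 ⊓ C3, h123, ?_, ?_, ?_⟩
  · apply isMinl_of_finiteIndex _ _ m1
    · exact inf_le_left.trans inf_le_left
    · exact (h123.trans h1.symm).1
  · apply isMinl_of_finiteIndex _ _ m2
    · exact inf_le_left.trans inf_le_right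
    · exact (h123.trans h2.symm).1
  · apply isMinl_of_finiteIndex _ _ m3
    · exact inf_le_right
    · exact (h123.trans h3.symm).1

/-! ### translates -/

lemma isNC_smul {C : Subgroup G} {D : Set X} (hD : IsNC C D) (g : G) :
    IsNC (C.map (MulAut.conj g).toMonoidHom) ((fun x => g • x) '' D) := by
  have hpre : (fun x : X => g • x) '' D = (fun x : X => g⁻¹ • x) ⁻¹' D := by
    ext x
    constructor
    · rintro ⟨y, hy, rfl⟩
      show g⁻¹ • g • y ∈ D
      rwa [inv_smul_smul]
    · intro hx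
      exact ⟨g⁻¹ • x, hx, smul_inv_smul g x⟩
  rw [hpre]
  refine ⟨hD.closed.preimage (isometry_smul X g⁻¹).continuous, ?_, ?_⟩
  · intro x hx y hy t ht
    show g⁻¹ • pt x y t ∈ D
    rw [smul_pt _ _ _ ht]
    exact hD.convex _ hx _ hy t ht
  · intro n hn x hx
    rw [mem_map_conj] at hn
    have := hD.inv _ hn _ hx
    show g⁻¹ • n • x ∈ D
    rwa [show (g⁻¹ * n * g) • g⁻¹ • x = g⁻¹ • n • x by
      rw [mul_smul, mul_smul, smul_inv_smul]] at this

lemma isMinl_smul {C : Subgroup G} {A : Set X} (hA : IsMinl C A) (g : G) :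
    IsMinl (C.map (MulAut.conj g).toMonoidHom) ((fun x => g • x) '' A) := by
  refine ⟨isNC_smul hA.isNC g, hA.ne.image _, ?_⟩
  intro D hD hne hsub
  have h0 := isNC_smul hD g⁻¹
  have e : (C.map (MulAut.conj g).toMonoidHom).map (MulAut.conj g⁻¹).toMonoidHom = C := by
    ext k
    rw [mem_map_conj, mem_map_conj]
    have : g⁻¹ * (g⁻¹⁻¹ * k * g⁻¹) * g = k := by group
    rw [this]
  rw [e] at h0
  have h1 := hA.min ((fun x => g⁻¹ • x) '' D) h0 (hne.image _) (by
    rintro _ ⟨y, hy, rfl⟩
    obtain ⟨z, hz, rfl⟩ := hsub hy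
    show g⁻¹ • g • z ∈ A
    rwa [inv_smul_smul])
  rw [← h1]
  ext x
  constructor
  · intro hx
    exact ⟨g⁻¹ • x, ⟨x, hx, rfl⟩, smul_inv_smul g x⟩
  · rintro ⟨_, ⟨y, hy, rfl⟩, rfl⟩
    show g • g⁻¹ • y ∈ D
    rwa [smul_inv_smul]

lemma comm2_conj {C C' : Subgroup G} (g : G) (h : Comm2 C' C) :
    Comm2 (C'.map (MulAut.conj g).toMonoidHom) (C.map (MulAut.conj g).toMonoidHom) :=
  ⟨by rw [relIndex_conj]; exact h.1, by rw [relIndex_conj]; exact h.2⟩

lemma MinPt.smul {C : Subgroup G}
    (hcomm : ∀ g : G, Comm2 (C.map (MulAut.conj g).toMonoidHom) C) {x : X} (h : MinPt C x)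
    (g : G) : MinPt C (g • x) := by
  obtain ⟨C', h1, hm, _⟩ := h.spec
  exact (mh_eq_of_isMinl ((comm2_conj g h1).trans (hcomm g)) (isMinl_smul hm g)
    ⟨x, h.mem, rfl⟩).1

lemma MinPt.mid {C : Subgroup G} {x y : X} (hx : MinPt C x) (hy : MinPt C y) :
    MinPt C (pt x y (1 / 2)) := by
  obtain ⟨C', h1, m1, m2, _⟩ := exists_common hx hy hy
  have e1 := m1.eq_nhull hx.mem
  have e2 := m2.eq_nhull hy.mem
  rw [← e1] at m1
  rw [← e2] at m2
  exact ⟨C', h1, isMinl_mid m1 m2⟩

/-! ### density -/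

lemma continuous_mid : Continuous (fun z : X × X => pt z.1 z.2 (1 / 2)) := by
  have : LipschitzWith 1 (fun z : X × X => pt z.1 z.2 (1 / 2)) := by
    apply LipschitzWith.of_dist_le_mul
    intro z w
    have h := dist_pt_pt_le z.1 z.2 w.1 w.2 half_mem_I
    have h1 : dist z.1 w.1 ≤ dist z w := by rw [Prod.dist_eq]; exact le_max_left _ _
    have h2 : dist z.2 w.2 ≤ dist z w := by rw [Prod.dist_eq]; exact le_max_right _ _
    simp only [NNReal.coe_one, one_mul]
    linarith
  exact this.continuous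

theorem dense_minPt [Nonempty X] (hgc : GeodesicallyComplete X) (hcoc : Cocompact G X)
    {C : Subgroup G} (hcomm : ∀ g : G, Comm2 (C.map (MulAut.conj g).toMonoidHom) C)
    (hne : ∃ x : X, MinPt C x) : Dense {x : X | MinPt C x} := by
  set M : Set X := {x : X | MinPt C x} with hM
  have hcl : IsClosed (closure M) := isClosed_closure
  have hconv : GConvex (closure M) := by
    apply gconvex_of_midpoint hcl
    intro x hx y hy
    have hxy : (x, y) ∈ closure (M ×ˢ M) := by
      rw [closure_prod_eq]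
      exact ⟨hx, hy⟩
    have := (continuous_mid (X := X)).continuousOn.image_closure (s := M ×ˢ M)
    have h2 := this ⟨(x, y), hxy, rfl⟩
    apply closure_mono _ h2
    rintro _ ⟨⟨a, b⟩, ⟨ha, hb⟩, rfl⟩
    exact MinPt.mid ha hb
  have hinv : ∀ (g : G) (x : X), x ∈ closure M → g • x ∈ closure M := by
    intro g x hx
    have h1 : g • x ∈ (fun x => g • x) '' closure M := ⟨x, hx, rfl⟩
    have h2 := image_closure_subset_closure_image (isometry_smul X g).continuous h1
    apply closure_mono _ h2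
    rintro _ ⟨a, ha, rfl⟩
    exact MinPt.smul hcomm ha g
  have hNC : IsNC (⊤ : Subgroup G) (closure M) := ⟨hcl, hconv, fun n _ x hx => hinv n x hx⟩
  obtain ⟨R, hR⟩ := hcoc.bdd (f := fun x => infDist x (closure M)) (continuous_infDist_pt _)
    (fun g x => hNC.infDist_smul (Subgroup.mem_top g) x)
  obtain ⟨x0, hx0⟩ := hne
  have := hgc.eq_univ hcl ⟨x0, subset_closure hx0⟩ hconv hR
  exact dense_iff_closure_eq.mpr this

/-! ### the splitting -/

section Split

variable {C : Subgroup G} {x y z w o : X}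

lemma pythM (hx : MinPt C x) (hy : MinPt C y) :
    dist x y ^ 2 = dist (proj (mh C y) x) y ^ 2 + infDist x (mh C y) ^ 2 := by
  obtain ⟨C', _, m1, m2, _⟩ := exists_common hx hy hy
  exact m1.pyth' m2 hx.mem hy.mem

lemma closedM (hx : MinPt C x) : IsClosed (mh C x) := by
  obtain ⟨C', _, m1, _⟩ := hx.spec
  exact m1.isNC.closed

lemma neM (hx : MinPt C x) : (mh C x).Nonempty := ⟨x, hx.mem⟩

lemma convM (hx : MinPt C x) : GConvex (mh C x) := by
  obtain ⟨C', _, m1, _⟩ := hx.spec
  exact m1.isNC.convex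

lemma projM_mem (hx : MinPt C x) (y : X) : proj (mh C x) y ∈ mh C x :=
  proj_mem (closedM hx) (neM hx) y

lemma proj_projM (hx : MinPt C x) (hy : MinPt C y) (hz : z ∈ mh C x) :
    proj (mh C x) (proj (mh C y) z) = z := by
  obtain ⟨C', _, m1, m2, _⟩ := exists_common hx hy hy
  exact m1.proj_proj m2 hz

lemma dist_projM (hx : MinPt C x) (hy : MinPt C y) (hz : z ∈ mh C x) (hw : w ∈ mh C x) :
    dist (proj (mh C y) z) (proj (mh C y) w) = dist z w := by
  obtain ⟨C', _, m1, m2, _⟩ := exists_common hx hy hy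
  exact m1.dist_proj_proj m2 hz hw

lemma compM (hx : MinPt C x) (hy : MinPt C y) (ho : MinPt C o) (hz : z ∈ mh C x) :
    proj (mh C o) (proj (mh C y) z) = proj (mh C o) z := by
  obtain ⟨C', _, m1, m2, m3⟩ := exists_common hx hy ho
  exact m1.proj_comp m2 m3 hz

lemma dist_constM (hx : MinPt C x) (hy : MinPt C y) (hz : z ∈ mh C x) (hw : w ∈ mh C x) :
    infDist z (mh C y) = infDist w (mh C y) := by
  obtain ⟨C', _, m1, m2, _⟩ := exists_common hx hy hy
  exact m1.dist_const m2 hz hw

/-- the transversal coordinate -/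
noncomputable def qM (C : Subgroup G) (o : X) (x : X) : X := proj (mh C x) o

lemma qM_eq (ho : MinPt C o) (hx : MinPt C x) (hy : MinPt C y) :
    proj (mh C y) (qM C o x) = qM C o y := by
  have h0 : ∀ {x}, MinPt C x → proj (mh C o) (qM C o x) = o := fun hx =>
    proj_projM ho hx ho.mem
  have a1 : proj (mh C o) (proj (mh C y) (qM C o x)) = proj (mh C o) (qM C o y) := by
    rw [compM hx hy ho (z := qM C o x) (projM_mem hx o), h0 hx, h0 hy]
  have a2 := dist_projM hy ho (projM_mem hy (qM C o x)) (projM_mem hy o)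
  have a3 : dist (proj (mh C o) (proj (mh C y) (qM C o x)))
      (proj (mh C o) (proj (mh C y) o)) = 0 := by
    rw [show proj (mh C y) o = qM C o y from rfl, a1, dist_self]
  rw [a3] at a2
  exact dist_eq_zero.mp a2.symm

lemma distM (ho : MinPt C o) (hx : MinPt C x) (hy : MinPt C y) :
    dist x y ^ 2 = dist (proj (mh C o) x) (proj (mh C o) y) ^ 2 +
      dist (qM C o x) (qM C o y) ^ 2 := by
  rw [pythM hx hy]
  have e1 : dist (proj (mh C y) x) y = dist (proj (mh C o) x) (proj (mh C o) y) := by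
    have h1 := dist_projM hy ho (projM_mem hy x) hy.mem
    rw [compM hx hy ho hx.mem] at h1
    exact h1.symm
  have e2 : infDist x (mh C y) = dist (qM C o x) (qM C o y) := by
    rw [dist_constM hx hy hx.mem (projM_mem hx o), ← dist_proj (closedM hy) (neM hy),
      show proj (mh C x) o = qM C o x from rfl, qM_eq ho hx hy]
  rw [e1, e2]

theorem commensurated_split [Nonempty X] [ProperlyDiscontinuousSMul G X]
    (hgc : GeodesicallyComplete X) (hcoc : Cocompact G X) (hirr : MetricIrreducible X)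
    {C : Subgroup G} (hcomm : ∀ g : G, Comm2 (C.map (MulAut.conj g).toMonoidHom) C)
    {Y : Set X} (hY : IsNC C Y) (hYne : Y.Nonempty) (hYc : CocompactOn C Y) :
    (C : Set G).Finite ∨ C.relIndex ⊤ ≠ 0 := by
  obtain ⟨A, hAY, hA⟩ := exists_isMinl hY hYne hYc
  obtain ⟨o, hoA⟩ := hA.ne
  obtain ⟨ho, heA⟩ := mh_eq_of_isMinl (comm2_refl C) hA hoA
  have hdense := dense_minPt hgc hcoc hcomm ⟨o, ho⟩
  set M : Set X := {x : X | MinPt C x} with hM
  set p : X → X := fun x => proj A x with hp
  have hpc : Continuous p := by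
    have : LipschitzWith 1 p := by
      apply LipschitzWith.of_dist_le_mul
      intro x y
      simp only [NNReal.coe_one, one_mul]
      exact proj_lipschitz hA.isNC.closed hA.ne hA.isNC.convex x y
    exact this.continuous
  set q0 : M → X := fun x => qM C o x with hq0
  have hq0lip : LipschitzWith 1 q0 := by
    apply LipschitzWith.of_dist_le_mul
    intro x y
    simp only [NNReal.coe_one, one_mul]
    have h1 := distM ho x.2 y.2
    have h2 : dist (q0 x) (q0 y) ^ 2 ≤ dist (x : X) y ^ 2 := by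
      rw [h1]
      have := sq_nonneg (dist (proj (mh C o) (x : X)) (proj (mh C o) (y : X)))
      simp only [hq0]
      linarith
    exact (pow_le_pow_iff_left₀ dist_nonneg dist_nonneg two_ne_zero).mp h2
  set q : X → X := hdense.extend q0 with hq
  have hqlip : LipschitzWith 1 q := hdense.lipschitzWith_extend hq0lip
  have hqc : Continuous q := hqlip.continuous
  have hqM : ∀ x, MinPt C x → q x = qM C o x := by
    intro x hx
    exact hdense.extend_eq hq0lip.continuous ⟨x, hx⟩
  have hdist : ∀ x x', dist x x' ^ 2 = dist (p x) (p x') ^ 2 + dist (q x) (q x') ^ 2 := by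
    have hclosed : IsClosed {z : X × X | dist z.1 z.2 ^ 2 =
        dist (p z.1) (p z.2) ^ 2 + dist (q z.1) (q z.2) ^ 2} := by
      apply isClosed_eq
      · fun_prop
      · fun_prop
    have hd2 : Dense {z : X × X | dist z.1 z.2 ^ 2 =
        dist (p z.1) (p z.2) ^ 2 + dist (q z.1) (q z.2) ^ 2} := by
      apply (hdense.prod hdense).mono
      rintro ⟨x, y⟩ ⟨hx, hy⟩
      have h1 := distM ho hx hy
      show dist x y ^ 2 = dist (p x) (p y) ^ 2 + dist (q x) (q y) ^ 2
      rw [hqM x hx, hqM y hy, h1, heA]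
    have h3 := hclosed.closure_eq
    rw [hd2.closure_eq] at h3
    intro x x'
    have : (x, x') ∈ (univ : Set (X × X)) := mem_univ _
    rw [h3] at this
    exact this
  have hsurjM : ∀ x y, MinPt C y → ∃ z, p z = p x ∧ q z = q y := by
    intro x y hy
    have hpx : p x ∈ mh C o := by
      rw [heA]
      exact proj_mem hA.isNC.closed hA.ne x
    refine ⟨proj (mh C y) (p x), ?_, ?_⟩
    · have := proj_projM ho hy hpx
      rw [heA] at this
      exact this
    · have hmem := projM_mem hy (p x)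
      obtain ⟨h1, h2⟩ := hy.of_mem hmem
      rw [hqM _ h1, hqM _ hy]
      unfold qM
      rw [h2]
  have hsurj : ∀ x y, ∃ z, p z = p x ∧ q z = q y := by
    intro x y
    obtain ⟨u, huM, hu⟩ := mem_closure_iff_seq_limit.mp (hdense y)
    choose v hv1 hv2 using fun n => hsurjM x (u n) (huM n)
    have hvc : CauchySeq v := by
      have huc := hu.cauchySeq
      rw [Metric.cauchySeq_iff] at huc ⊢
      intro ε hε
      obtain ⟨N, hN⟩ := huc ε hε
      refine ⟨N, fun m hm n hn => ?_⟩
      have h1 := hdist (v m) (v n)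
      rw [hv1, hv1, dist_self, hv2, hv2] at h1
      have h2 : dist (q (u m)) (q (u n)) ≤ dist (u m) (u n) := by
        have := hqlip.dist_le_mul (u m) (u n)
        simpa using this
      have h3 := hN m hm n hn
      have h4 : dist (v m) (v n) ^ 2 = dist (q (u m)) (q (u n)) ^ 2 := by rw [h1]; ring
      have h5 : dist (v m) (v n) = dist (q (u m)) (q (u n)) :=
        (pow_left_inj₀ dist_nonneg dist_nonneg two_ne_zero).mp h4
      rw [h5]
      linarith
    obtain ⟨z, hz⟩ := cauchySeq_tendsto_of_complete hvc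
    refine ⟨z, ?_, ?_⟩
    · have h1 := (hpc.tendsto z).comp hz
      have h2 : (p ∘ v) = fun _ => p x := funext hv1
      rw [h2] at h1
      exact (tendsto_nhds_unique h1 tendsto_const_nhds)
    · have h1 := (hqc.tendsto z).comp hz
      have h2 := (hqc.tendsto y).comp hu
      have h3 : (q ∘ v) = (q ∘ u) := funext hv2
      rw [h3] at h1
      exact tendsto_nhds_unique h1 h2
  rcases hirr.elim hdist hsurj with h | h
  · left
    have hfix : ∀ c ∈ C, c • o = o := by
      intro c hc
      have h1 := hA.isNC.inv c hc o hoA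
      have e1 : p (c • o) = c • o := proj_of_mem hA.isNC.closed hA.isNC.convex h1
      have e2 : p o = o := proj_of_mem hA.isNC.closed hA.isNC.convex hoA
      rw [← e1, h (c • o) o, e2]
    exact (finite_stab (G := G) o).subset (fun c hc => hfix c hc)
  · right
    have hMA : M ⊆ A := by
      intro x hx
      have h1 : qM C o x = o := by
        rw [← hqM x hx, h x o, hqM o ho]
        unfold qM
        exact proj_of_mem (closedM ho) (convM ho) ho.mem
      have h2 : o ∈ mh C x := by
        rw [← h1]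
        exact projM_mem hx o
      have h3 := (hx.of_mem h2).2
      rw [← heA, h3]
      exact hx.mem
    have hAu : ∀ x, x ∈ A := by
      intro x
      have := closure_mono hMA (hdense x)
      rwa [hA.isNC.closed.closure_eq] at this
    obtain ⟨K, hK, hcov⟩ := hYc
    apply relIndex_ne_zero_of_cover (p := o) hK
    intro c _
    obtain ⟨a, ha, haK⟩ := hcov (c • o) (hAY (hAu _))
    exact ⟨a, ⟨Subgroup.mem_top a, ha⟩, haK⟩

end Split

end Pool.Agent.H74.CC
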