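import Pool.Agent.H29.Axis

/-!
# Asymptotic rays and flat half-planes
-/

open Set Filter Topology Metric
open Pool.Agent.H29

set_option linter.unusedSectionVars false

namespace Pool.Agent.H74.CC

variable {X : Type*} [MetricSpace X] [IsCAT0 X] [ProperSpace X]

/-- The line `c` bounds a flat half-plane contained in `Y`. -/
def BoundsHalfPlaneIn (Y : Set X) (c : ℝ → X) : Prop :=
  ∃ F : ℝ → ℝ → X, (∀ t, F t 0 = c t) ∧ (∀ t s : ℝ, 0 ≤ s → F t s ∈ Y) ∧
    ∀ t s t' s' : ℝ, 0 ≤ s → 0 ≤ s' →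
      dist (F t s) (F t' s') ^ 2 = (t - t') ^ 2 + (s - s') ^ 2

/-- the Busemann function of a ray -/
noncomputable def busR (ρ : ℝ → X) (x : X) : ℝ := bus (fun n : ℕ => ρ n) 1 x

lemma isDR_ray {ρ : ℝ → X} (hρ : IsRay ρ) : IsDR (fun n : ℕ => ρ n) 1 := by
  intro m n
  rw [hρ _ _ (Nat.cast_nonneg m) (Nat.cast_nonneg n), one_mul]

lemma busR_tendsto {ρ : ℝ → X} (hρ : IsRay ρ) (x : X) :
    Tendsto (fun n : ℕ => dist x (ρ n) - n) atTop (𝓝 (busR ρ x)) := by
  have := (isDR_ray hρ).tendsto x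
  simpa only [busR, one_mul] using this

lemma busR_lip {ρ : ℝ → X} (hρ : IsRay ρ) (x y : X) : busR ρ x ≤ busR ρ y + dist x y :=
  (isDR_ray hρ).bus_lip x y

lemma busR_apply {ρ : ℝ → X} (hρ : IsRay ρ) (n : ℕ) : busR ρ (ρ n) = -(n : ℝ) := by
  have := (isDR_ray hρ).bus_apply n
  rwa [one_mul] at this

lemma gconvexFun_busR {ρ : ℝ → X} (hρ : IsRay ρ) : GConvexFun (busR ρ) :=
  (isDR_ray hρ).gconvexFun_bus

lemma continuous_busR {ρ : ℝ → X} (hρ : IsRay ρ) : Continuous (busR ρ) :=
  (isDR_ray hρ).continuous_bus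

/-- **Asymptotic rays.** -/
theorem exists_asym {ρ : ℝ → X} (hρ : IsRay ρ) (p : X) :
    ∃ r : ℝ → X, r 0 = p ∧ IsRay r ∧
      (∀ x u, 0 ≤ u → dist x (r u) ^ 2 ≤ dist x p ^ 2 + u ^ 2 + 2 * u * (busR ρ x - busR ρ p)) ∧
      (∀ u, 0 ≤ u → busR ρ (r u) = busR ρ p - u) ∧
      (∀ f : X → ℝ, GConvexFun f → Continuous f → (∃ M, ∀ t, 0 ≤ t → f (ρ t) ≤ M) →
        ∀ u, 0 ≤ u → f (r u) ≤ f p) := by
  set U : Ultrafilter ℕ := Filter.hyperfilter ℕ with hU
  have hUle : (U : Filter ℕ) ≤ atTop := by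
    rw [← Nat.cofinite_eq_atTop]
    exact Filter.hyperfilter_le_cofinite
  set d : ℕ → ℝ := fun n => dist p (ρ n) with hd
  have hdlim : Tendsto (fun n => d n - n) atTop (𝓝 (busR ρ p)) := busR_tendsto hρ p
  have hncast : Tendsto (fun n : ℕ => (n : ℝ)) atTop atTop := tendsto_natCast_atTop_atTop
  have hdtop : Tendsto d atTop atTop := by
    have := hdlim.add_atTop hncast
    simpa using this
  have hlam : ∀ u : ℝ, Tendsto (fun n => u / d n) atTop (𝓝 0) := fun u =>
    hdtop.const_div_atTop u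
  have hev : ∀ u : ℝ, ∀ᶠ n in atTop, u ≤ d n ∧ 0 < d n := fun u =>
    (hdtop.eventually_ge_atTop u).and (hdtop.eventually_gt_atTop 0)
  set σ : ℕ → ℝ → X := fun n u => pt p (ρ n) (u / d n) with hσ
  have hI : ∀ {u : ℝ}, 0 ≤ u → ∀ᶠ n in atTop, u / d n ∈ Icc (0 : ℝ) 1 ∧ 0 < d n := by
    intro u hu
    filter_upwards [hev u] with n hn
    exact ⟨⟨div_nonneg hu hn.2.le, (div_le_one hn.2).mpr hn.1⟩, hn.2⟩
  have hdist0 : ∀ {u : ℝ}, 0 ≤ u → ∀ᶠ n in atTop, dist p (σ n u) = u := by
    intro u hu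
    filter_upwards [hI hu] with n hn
    rw [hσ, dist_left_pt _ _ hn.1, div_mul_cancel₀ _ hn.2.ne']
  set σ' : ℕ → ℝ → X := fun n u => σ n (max u 0) with hσ'
  obtain ⟨r, hr⟩ := exists_limit_map U σ' p (by
    intro t
    refine ⟨max t 0, hUle ?_⟩
    filter_upwards [hdist0 (le_max_right t 0)] with n hn
    rw [dist_comm]
    exact hn.le)
  have hr' : ∀ u, 0 ≤ u → Tendsto (fun n => σ n u) U (𝓝 (r u)) := by
    intro u hu
    have := hr u
    simpa [hσ', max_eq_left hu] using this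
  refine ⟨r, ?_, ?_, ?_, ?_, ?_⟩
  · have h1 := hr' 0 le_rfl
    have h2 : (fun n => σ n 0) = fun _ => p := by
      funext n
      simp [hσ]
    rw [h2] at h1
    exact tendsto_nhds_unique h1 tendsto_const_nhds
  · intro s t hs ht
    have h1 : Tendsto (fun n => dist (σ n s) (σ n t)) U (𝓝 (dist (r s) (r t))) :=
      (hr' s hs).dist (hr' t ht)
    have h2 : Tendsto (fun n => dist (σ n s) (σ n t)) U (𝓝 |s - t|) := by
      apply tendsto_const_nhds.congr'
      apply hUle
      filter_upwards [hI hs, hI ht] with n h1 h2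
      rw [hσ, dist_pt_pt _ _ h1.1 h2.1, ← sub_div, abs_div, abs_of_pos h1.2]
      exact (div_mul_cancel₀ _ h1.2.ne').symm
    exact tendsto_nhds_unique h1 h2
  · intro x u hu
    set e : ℕ → ℝ := fun n => dist x (ρ n) with he
    have helim : Tendsto (fun n => e n - n) atTop (𝓝 (busR ρ x)) := busR_tendsto hρ x
    have hed : Tendsto (fun n => e n - d n) atTop (𝓝 (busR ρ x - busR ρ p)) := by
      have := helim.sub hdlim
      simpa using this
    have h1 : Tendsto (fun n => dist x (σ n u) ^ 2) U (𝓝 (dist x (r u) ^ 2)) :=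
      (tendsto_const_nhds.dist (hr' u hu)).pow 2
    have h2 : Tendsto (fun n => (1 - u / d n) * dist x p ^ 2 +
        (u * (e n - d n) * (2 + (e n - d n) / d n) + u ^ 2)) atTop
        (𝓝 ((1 - 0) * dist x p ^ 2 +
          (u * (busR ρ x - busR ρ p) * (2 + 0) + u ^ 2))) := by
      apply Tendsto.add
      · exact (tendsto_const_nhds.sub (hlam u)).mul tendsto_const_nhds
      · apply Tendsto.add _ tendsto_const_nhds
        apply (tendsto_const_nhds.mul hed).mul
        apply tendsto_const_nhds.add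
        exact hed.div_atTop hdtop
    have h3 : dist x (r u) ^ 2 ≤ (1 - 0) * dist x p ^ 2 +
        (u * (busR ρ x - busR ρ p) * (2 + 0) + u ^ 2) := by
      apply le_of_tendsto_of_tendsto h1 (h2.mono_left hUle)
      apply hUle
      filter_upwards [hI hu] with n hn
      have h4 := cn_pt x p (ρ n) hn.1
      have hdn := hn.2
      have hdd : dist p (ρ n) = d n := rfl
      rw [hdd] at h4
      have e1 : (1 - u / d n) * dist x p ^ 2 + u / d n * dist x (ρ n) ^ 2 -
          u / d n * (1 - u / d n) * d n ^ 2 = (1 - u / d n) * dist x p ^ 2 +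
          (u * (e n - d n) * (2 + (e n - d n) / d n) + u ^ 2) := by
        simp only [he]
        field_simp
        ring
      rw [← e1]
      exact h4
    linarith
  · intro u hu
    apply le_antisymm
    · have h1 : Tendsto (fun n => busR ρ (σ n u)) U (𝓝 (busR ρ (r u))) :=
        ((continuous_busR hρ).tendsto _).comp (hr' u hu)
      have h2 : Tendsto (fun n : ℕ => (1 - u / d n) * busR ρ p + (-u + u * (d n - n) / d n))
          atTop (𝓝 ((1 - 0) * busR ρ p + (-u + 0))) := by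
        apply Tendsto.add
        · exact (tendsto_const_nhds.sub (hlam u)).mul tendsto_const_nhds
        · apply tendsto_const_nhds.add
          exact (tendsto_const_nhds.mul hdlim).div_atTop hdtop
      have h3 : busR ρ (r u) ≤ (1 - 0) * busR ρ p + (-u + 0) := by
        apply le_of_tendsto_of_tendsto h1 (h2.mono_left hUle)
        apply hUle
        filter_upwards [hI hu] with n hn
        have h4 := gconvexFun_busR hρ p (ρ n) (u / d n) hn.1
        rw [busR_apply hρ] at h4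
        have hdn := hn.2
        have e1 : (1 - u / d n) * busR ρ p + u / d n * -(n : ℝ) =
            (1 - u / d n) * busR ρ p + (-u + u * (d n - n) / d n) := by
          field_simp
          ring
        rw [← e1]
        exact h4
      linarith
    · have h1 := busR_lip hρ p (r u)
      have h2 : dist p (r u) = u := by
        have h3 : Tendsto (fun n => dist p (σ n u)) U (𝓝 (dist p (r u))) :=
          tendsto_const_nhds.dist (hr' u hu)
        have h4 : Tendsto (fun n => dist p (σ n u)) U (𝓝 u) := by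
          apply tendsto_const_nhds.congr'
          apply hUle
          filter_upwards [hdist0 hu] with n hn
          exact hn.symm
        exact tendsto_nhds_unique h3 h4
      linarith
  · rintro f hf hfc ⟨M, hM⟩ u hu
    have h1 : Tendsto (fun n => f (σ n u)) U (𝓝 (f (r u))) :=
      (hfc.tendsto _).comp (hr' u hu)
    have h2 : Tendsto (fun n : ℕ => (1 - u / d n) * f p + u / d n * M)
        atTop (𝓝 ((1 - 0) * f p + 0 * M)) :=
      ((tendsto_const_nhds.sub (hlam u)).mul tendsto_const_nhds).add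
        ((hlam u).mul tendsto_const_nhds)
    have h3 : f (r u) ≤ (1 - 0) * f p + 0 * M := by
      apply le_of_tendsto_of_tendsto h1 (h2.mono_left hUle)
      apply hUle
      filter_upwards [hI hu] with n hn
      have h4 := hf p (ρ n) (u / d n) hn.1
      have h5 := mul_le_mul_of_nonneg_left (hM n (Nat.cast_nonneg n)) hn.1.1
      calc f (σ n u) ≤ _ := h4
        _ ≤ _ := by linarith
    linarith

/-! ### flat half-planes -/

lemma line_eq {c : ℝ → X} (hc : Isometry c) {z : X} {u s t δ : ℝ}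
    (h0 : dist (c t) z = u) (h1 : dist (c (t + δ)) z ^ 2 ≤ δ ^ 2 + u ^ 2 + 2 * s * δ * u)
    (h2 : dist (c (t - δ)) z ^ 2 ≤ δ ^ 2 + u ^ 2 - 2 * s * δ * u) :
    dist (c (t + δ)) z ^ 2 = δ ^ 2 + u ^ 2 + 2 * s * δ * u := by
  have e := line_pt hc (t + δ) (t - δ) half_mem_I
  have e1 : (1 - 1 / 2 : ℝ) * (t + δ) + 1 / 2 * (t - δ) = t := by ring
  rw [e1] at e
  have h3 := cn_pt z (c (t + δ)) (c (t - δ)) half_mem_I
  rw [← e, dist_comm z (c t), h0, dist_comm z, dist_comm z, hc.dist_eq, Real.dist_eq] at h3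
  have e2 : |t + δ - (t - δ)| ^ 2 = 4 * δ ^ 2 := by
    rw [sq_abs]; ring
  rw [e2] at h3
  nlinarith

theorem halfPlane_of_ray {Y : Set X} (hYc : IsClosed Y) (hYconv : GConvex Y) {c : ℝ → X}
    (hc : Isometry c) (hcY : ∀ t, c t ∈ Y) {ρ : ℝ → X} (hρ : IsRay ρ) (h0 : ρ 0 = c 0)
    (hρY : ∀ t, 0 ≤ t → ρ t ∈ Y) {s : ℝ} (hs : |s| < 1)
    (hle : ∀ t u, 0 ≤ u → dist (c t) (ρ u) ^ 2 ≤ t ^ 2 + u ^ 2 + 2 * s * t * u) :
    BoundsHalfPlaneIn Y c := by
  have hs2 : s ^ 2 < 1 := by
    rw [← sq_abs]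
    have := abs_nonneg s
    nlinarith
  -- equality on the first ray
  have hE1 : ∀ t u, 0 ≤ u → dist (c t) (ρ u) ^ 2 = t ^ 2 + u ^ 2 + 2 * s * t * u := by
    intro t u hu
    have e0 : dist (c 0) (ρ u) = u := by
      rw [← h0, hρ 0 u le_rfl hu, zero_sub, abs_neg, abs_of_nonneg hu]
    have := line_eq hc (t := 0) (δ := t) (s := s) e0
      (by rw [zero_add]; exact hle t u hu)
      (by
        rw [zero_sub]
        have := hle (-t) u hu
        nlinarith)
    rwa [zero_add] at this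
  -- the Busemann function on the line
  have hb : ∀ t, busR ρ (c t) = s * t := by
    intro t
    apply tendsto_nhds_unique (busR_tendsto hρ (c t))
    have hncast : Tendsto (fun n : ℕ => (n : ℝ)) atTop atTop := tendsto_natCast_atTop_atTop
    have hlow : ∀ n : ℕ, s * t ≤ dist (c t) (ρ n) - n := by
      intro n
      have h1 := hE1 t n (Nat.cast_nonneg n)
      have h2 : ((n : ℝ) + s * t) ^ 2 ≤ dist (c t) (ρ n) ^ 2 := by
        rw [h1]
        nlinarith [sq_nonneg t]
      have h3 := abs_le_of_sq_le_sq h2 dist_nonneg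
      have := (abs_le.mp (abs_le_of_sq_le_sq h2 dist_nonneg)).2
      linarith
    have hup : ∀ᶠ n : ℕ in atTop, dist (c t) (ρ n) - n ≤ s * t + t ^ 2 / n := by
      have hlarge : ∀ᶠ n : ℕ in atTop, 2 * |t| + 1 ≤ (n : ℝ) := hncast.eventually_ge_atTop _
      filter_upwards [hlarge] with n hn
      have habs := abs_nonneg t
      have hnpos : (0 : ℝ) < n := by linarith
      have h1 := hE1 t n (Nat.cast_nonneg n)
      have hst : |s * t| ≤ |t| := by
        rw [abs_mul]
        nlinarith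
      have hst' := abs_le.mp hst
      have h2 : dist (c t) (ρ n) ^ 2 ≤ (n + s * t + t ^ 2 / n) ^ 2 := by
        rw [h1]
        have e1 : ((n : ℝ) + s * t + t ^ 2 / n) ^ 2 = (n + s * t) ^ 2 +
          2 * (n + s * t) * (t ^ 2 / n) + (t ^ 2 / n) ^ 2 := by ring
        have e2 : t ^ 2 ≤ 2 * (n + s * t) * (t ^ 2 / n) := by
          rw [mul_div_assoc', le_div_iff₀ hnpos]
          nlinarith [sq_nonneg t]
        rw [e1]
        nlinarith [sq_nonneg (t ^ 2 / (n : ℝ)), mul_nonneg (sq_nonneg t) (sq_nonneg s)]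
      have h3 : 0 ≤ (n : ℝ) + s * t + t ^ 2 / n := by
        have : 0 ≤ t ^ 2 / (n : ℝ) := by positivity
        linarith
      have := (pow_le_pow_iff_left₀ dist_nonneg h3 two_ne_zero).mp h2
      linarith
    have hlim : Tendsto (fun n : ℕ => s * t + t ^ 2 / (n : ℝ)) atTop (𝓝 (s * t + 0)) :=
      tendsto_const_nhds.add (hncast.const_div_atTop _)
    rw [add_zero] at hlim
    exact tendsto_of_tendsto_of_tendsto_of_le_of_le' tendsto_const_nhds hlim
      (Eventually.of_forall hlow) hup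
  -- the rays
  choose P hP0 hPray hPI hPb hPf using fun t : ℝ => exists_asym hρ (c t)
  have hYf : GConvexFun (fun x => infDist x Y) := gconvexFun_infDist hYc ⟨_, hcY 0⟩ hYconv
  have hPY : ∀ t u, 0 ≤ u → P t u ∈ Y := by
    intro t u hu
    have h1 := hPf t (fun x => infDist x Y) hYf (continuous_infDist_pt Y)
      ⟨0, fun t ht => (infDist_zero_of_mem (hρY t ht)).le⟩ u hu
    simp only [infDist_zero_of_mem (hcY t)] at h1
    exact (hYc.mem_iff_infDist_zero ⟨_, hcY 0⟩).mpr (le_antisymm h1 infDist_nonneg)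
  have hP1 : ∀ t t' u, 0 ≤ u → dist (c t') (P t u) ^ 2 ≤
      (t' - t) ^ 2 + u ^ 2 + 2 * s * (t' - t) * u := by
    intro t t' u hu
    have h1 := hPI t (c t') u hu
    rw [hb, hb, hc.dist_eq, Real.dist_eq, sq_abs] at h1
    nlinarith
  have hP2 : ∀ t t' u, 0 ≤ u → dist (c t') (P t u) ^ 2 =
      (t' - t) ^ 2 + u ^ 2 + 2 * s * (t' - t) * u := by
    intro t t' u hu
    have e0 : dist (c t) (P t u) = u := by
      rw [← hP0 t, hPray t 0 u le_rfl hu, zero_sub, abs_neg, abs_of_nonneg hu]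
    have := line_eq hc (t := t) (δ := t' - t) (s := s) e0
      (by
        have := hP1 t t' u hu
        rwa [add_sub_cancel])
      (by
        have := hP1 t (t - (t' - t)) u hu
        nlinarith)
    rwa [add_sub_cancel] at this
  have hP3 : ∀ t u t' u', 0 ≤ u → 0 ≤ u' → dist (P t u) (P t' u') ^ 2 ≤
      (t' - t) ^ 2 + (u' - u) ^ 2 - 2 * s * (t' - t) * (u' - u) := by
    intro t u t' u' hu hu'
    have h1 := hPI t' (P t u) u' hu'
    rw [hb, hPb t u hu, hb, dist_comm (P t u) (c t'), hP2 t t' u hu] at h1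
    nlinarith
  -- orthonormal coordinates
  set κ := Real.sqrt (1 - s ^ 2) with hκ
  have hκpos : 0 < κ := Real.sqrt_pos.mpr (by linarith)
  have hκ2 : κ ^ 2 = 1 - s ^ 2 := Real.sq_sqrt (by linarith)
  set F : ℝ → ℝ → X := fun τ v => P (τ + s * v / κ) (v / κ) with hF
  have hF0 : ∀ t, F t 0 = c t := by
    intro t
    simp only [hF, mul_zero, zero_div, add_zero]
    exact hP0 t
  have hFle : ∀ τ v τ' v', 0 ≤ v → 0 ≤ v' →
      dist (F τ v) (F τ' v') ^ 2 ≤ (τ - τ') ^ 2 + (v - v') ^ 2 := by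
    intro τ v τ' v' hv hv'
    have h1 := hP3 (τ + s * v / κ) (v / κ) (τ' + s * v' / κ) (v' / κ)
      (div_nonneg hv hκpos.le) (div_nonneg hv' hκpos.le)
    have e : (τ' + s * v' / κ - (τ + s * v / κ)) ^ 2 + (v' / κ - v / κ) ^ 2 -
        2 * s * (τ' + s * v' / κ - (τ + s * v / κ)) * (v' / κ - v / κ) =
        (τ - τ') ^ 2 + (v - v') ^ 2 := by
      have e1 : (τ' + s * v' / κ - (τ + s * v / κ)) ^ 2 + (v' / κ - v / κ) ^ 2 -
        2 * s * (τ' + s * v' / κ - (τ + s * v / κ)) * (v' / κ - v / κ) =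
        (τ - τ') ^ 2 + (v - v') ^ 2 * ((1 - s ^ 2) / κ ^ 2) := by
        field_simp
        ring
      rw [e1, hκ2, div_self (by linarith), mul_one]
    rw [e] at h1
    exact h1
  have hFb : ∀ τ' τ v, 0 ≤ v → dist (c τ') (F τ v) ^ 2 = (τ' - τ) ^ 2 + v ^ 2 := by
    intro τ' τ v hv
    have h1 := hP2 (τ + s * v / κ) τ' (v / κ) (div_nonneg hv hκpos.le)
    have e1 : (τ' - (τ + s * v / κ)) ^ 2 + (v / κ) ^ 2 +
        2 * s * (τ' - (τ + s * v / κ)) * (v / κ) =
        (τ' - τ) ^ 2 + v ^ 2 * ((1 - s ^ 2) / κ ^ 2) := by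
      field_simp
      ring
    rw [e1, hκ2, div_self (by linarith), mul_one] at h1
    exact h1
  -- strictly different heights
  have hFlt : ∀ τ v τ' v', 0 ≤ v → v < v' →
      (τ - τ') ^ 2 + (v - v') ^ 2 ≤ dist (F τ v) (F τ' v') ^ 2 := by
    intro τ v τ' v' hv hvv
    have hv' : 0 < v' := lt_of_le_of_lt hv hvv
    -- the line through the two points meets the boundary at `τ0`
    set lam0 : ℝ := v / (v' - v) with hlam0
    have hd : 0 < v' - v := by linarith
    have hlampos : 0 ≤ lam0 := div_nonneg hv hd.le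
    set τ0 : ℝ := τ + lam0 * (τ - τ') with hτ0
    set D := Real.sqrt ((τ - τ') ^ 2 + (v - v') ^ 2) with hD
    have hDpos : 0 ≤ D := Real.sqrt_nonneg _
    have hD2 : D ^ 2 = (τ - τ') ^ 2 + (v - v') ^ 2 := Real.sq_sqrt (by positivity)
    have hv0 : v = lam0 * (v' - v) := by rw [hlam0, div_mul_cancel₀ _ hd.ne']
    have h1 : dist (c τ0) (F τ v) = lam0 * D := by
      have h2 := hFb τ0 τ v hv
      have e : (τ0 - τ) ^ 2 + v ^ 2 = (lam0 * D) ^ 2 := by
        have hv2 : v ^ 2 = lam0 ^ 2 * (v' - v) ^ 2 := by rw [← mul_pow, ← hv0]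
        rw [mul_pow, hD2, hτ0]
        linear_combination hv2
      rw [e] at h2
      exact (pow_left_inj₀ dist_nonneg (by positivity) two_ne_zero).mp h2
    have h3 : dist (c τ0) (F τ' v') = (1 + lam0) * D := by
      have h2 := hFb τ0 τ' v' hv'.le
      have hv1 : v' = (1 + lam0) * (v' - v) := by linear_combination hv0
      have e : (τ0 - τ') ^ 2 + v' ^ 2 = ((1 + lam0) * D) ^ 2 := by
        have hv2 : v' ^ 2 = (1 + lam0) ^ 2 * (v' - v) ^ 2 := by rw [← mul_pow, ← hv1]
        rw [mul_pow, hD2, hτ0]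
        linear_combination hv2
      rw [e] at h2
      exact (pow_left_inj₀ dist_nonneg (by positivity) two_ne_zero).mp h2
    have h4 := dist_triangle (c τ0) (F τ v) (F τ' v')
    rw [h1, h3] at h4
    have h5 : D ≤ dist (F τ v) (F τ' v') := by linarith
    rw [← hD2]
    exact pow_le_pow_left₀ hDpos h5 2
  refine ⟨F, hF0, fun t v hv => hPY _ _ (div_nonneg hv hκpos.le), ?_⟩
  intro τ v τ' v' hv hv'
  apply le_antisymm (hFle τ v τ' v' hv hv')
  rcases lt_trichotomy v v' with h | h | h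
  · exact hFlt τ v τ' v' hv h
  · subst h
    -- let the second height tend to the first
    have key : ∀ ε > 0, |τ - τ'| ≤ dist (F τ v) (F τ' v) + ε := by
      intro ε hε
      have h1 := hFlt τ v τ' (v + ε) hv (by linarith)
      have h2 := hFle τ' v τ' (v + ε) hv (by linarith)
      have h3 : dist (F τ' v) (F τ' (v + ε)) ≤ ε := by
        have : dist (F τ' v) (F τ' (v + ε)) ^ 2 ≤ ε ^ 2 := by
          calc _ ≤ _ := h2
            _ = ε ^ 2 := by ring
        exact (pow_le_pow_iff_left₀ dist_nonneg hε.le two_ne_zero).mp this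
      have h4 : |τ - τ'| ≤ dist (F τ v) (F τ' (v + ε)) := by
        apply abs_le_of_sq_le_sq _ dist_nonneg
        nlinarith [sq_nonneg (v - (v + ε))]
      have h5 := dist_triangle (F τ v) (F τ' v) (F τ' (v + ε))
      linarith
    have h6 : |τ - τ'| ≤ dist (F τ v) (F τ' v) := le_of_forall_pos_le_add key
    have h7 : |τ - τ'| ^ 2 ≤ dist (F τ v) (F τ' v) ^ 2 := pow_le_pow_left₀ (abs_nonneg _) h6 2
    rw [sq_abs] at h7
    linarith [h7, show (v - v) ^ 2 = 0 by ring]
  · have h1 := hFlt τ' v' τ v hv' h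
    rw [dist_comm (F τ' v') (F τ v)] at h1
    nlinarith

end Pool.Agent.H74.CC
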