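import Pool.Agent.H74.CC1
import Pool.Agent.H74.CC3

/-!
# Limits of almost flat sectors
-/

open Set Filter Topology Metric
open Pool.Agent.H29

set_option linter.unusedSectionVars false

namespace Pool.Agent.H74.CC

section Limit

variable {X : Type*} [MetricSpace X] [IsCAT0 X] [ProperSpace X]

/-- A line with longer and longer almost flat sectors on one side bounds a flat half-plane. -/
theorem halfPlane_of_approx {Y : Set X} (hYc : IsClosed Y) (hYconv : GConvex Y) {c : ℝ → X}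
    (hc : Isometry c) (hcY : ∀ t, c t ∈ Y) {σ : ℝ} (hσ : σ < 1)
    (h : ∀ N : ℕ, ∃ r : ℝ → X, ∃ s : ℝ, |s| ≤ σ ∧ r 0 = c 0 ∧
      (∀ u : ℝ, 0 ≤ u → u ≤ N → r u ∈ Y) ∧
      (∀ u v : ℝ, 0 ≤ u → u ≤ N → 0 ≤ v → v ≤ N → dist (r u) (r v) = |u - v|) ∧
      ∀ t u : ℝ, |t| ≤ N → 0 ≤ u → u ≤ N →
        dist (c t) (r u) ^ 2 ≤ t ^ 2 + u ^ 2 + 2 * u * (s * t + 1 / ((N : ℝ) + 1))) :
    BoundsHalfPlaneIn Y c := by
  choose r s hs hr0 hrY hrd hrI using h
  set U : Ultrafilter ℕ := Filter.hyperfilter ℕ with hU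
  have hUle : (U : Filter ℕ) ≤ atTop := by
    rw [← Nat.cofinite_eq_atTop]
    exact Filter.hyperfilter_le_cofinite
  have hbig : ∀ u : ℝ, ∀ᶠ n : ℕ in atTop, u ≤ (n : ℝ) := fun u =>
    tendsto_natCast_atTop_atTop.eventually_ge_atTop u
  -- the limit slope
  obtain ⟨s', hs', hslim⟩ : ∃ s' ∈ Icc (-σ) σ, Tendsto s U (𝓝 s') := by
    have hK := isCompact_Icc (a := -σ) (b := σ)
    rw [isCompact_iff_ultrafilter_le_nhds] at hK
    obtain ⟨y, hy1, hy⟩ := hK (U.map s) (by
      rw [le_principal_iff]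
      show ∀ᶠ j in (U : Filter ℕ), s j ∈ Icc (-σ) σ
      exact Eventually.of_forall (fun j => abs_le.mp (hs j)))
    exact ⟨y, hy1, hy⟩
  obtain ⟨ρ, hρ⟩ := exists_limit_map U (fun n u => r n (max u 0)) (c 0) (by
    intro t
    refine ⟨max t 0, hUle ?_⟩
    filter_upwards [hbig (max t 0)] with n hn
    have h1 := hrd n (max t 0) 0 (le_max_right _ _) hn le_rfl (Nat.cast_nonneg n)
    rw [← hr0 n, h1, sub_zero, abs_of_nonneg (le_max_right _ _)])
  have hρ' : ∀ u, 0 ≤ u → Tendsto (fun n => r n u) U (𝓝 (ρ u)) := by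
    intro u hu
    have := hρ u
    simpa only [max_eq_left hu] using this
  have hray : IsRay ρ := by
    intro u v hu hv
    have h1 : Tendsto (fun n => dist (r n u) (r n v)) U (𝓝 (dist (ρ u) (ρ v))) :=
      (hρ' u hu).dist (hρ' v hv)
    have h2 : Tendsto (fun n => dist (r n u) (r n v)) U (𝓝 |u - v|) := by
      apply tendsto_const_nhds.congr'
      apply hUle
      filter_upwards [hbig u, hbig v] with n h1 h2
      exact (hrd n u v hu h1 hv h2).symm
    exact tendsto_nhds_unique h1 h2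
  refine halfPlane_of_ray hYc hYconv hc hcY hray (s := s') ?_ ?_ ?_ ?_
  · have h1 := hρ' 0 le_rfl
    have h2 : (fun n => r n 0) = fun _ => c 0 := by
      funext n
      exact hr0 n
    rw [h2] at h1
    exact tendsto_nhds_unique h1 tendsto_const_nhds
  · intro u hu
    apply hYc.mem_of_tendsto (hρ' u hu)
    apply hUle
    filter_upwards [hbig u] with n hn
    exact hrY n u hu hn
  · exact lt_of_le_of_lt (abs_le.mpr hs') hσ
  · intro t u hu
    have h1 : Tendsto (fun n => dist (c t) (r n u) ^ 2) U (𝓝 (dist (c t) (ρ u) ^ 2)) :=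
      (tendsto_const_nhds.dist (hρ' u hu)).pow 2
    have h2 : Tendsto (fun n : ℕ => t ^ 2 + u ^ 2 + 2 * u * (s n * t + 1 / ((n : ℝ) + 1))) U
        (𝓝 (t ^ 2 + u ^ 2 + 2 * u * (s' * t + 0))) := by
      apply Tendsto.const_add
      apply Tendsto.const_mul
      apply Tendsto.add
      · exact hslim.mul tendsto_const_nhds
      · exact tendsto_one_div_add_atTop_nhds_zero_nat.mono_left hUle
    have h3 : dist (c t) (ρ u) ^ 2 ≤ t ^ 2 + u ^ 2 + 2 * u * (s' * t + 0) := by
      apply le_of_tendsto_of_tendsto h1 h2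
      apply hUle
      filter_upwards [hbig u, hbig |t|] with n h4 h5
      exact hrI n t u h5 hu h4
    calc dist (c t) (ρ u) ^ 2 ≤ _ := h3
      _ = t ^ 2 + u ^ 2 + 2 * s' * t * u := by ring

/-- points of a line at constant distance from a convex set -/
lemma dist_proj_line {Z : Set X} (hZc : IsClosed Z) (hZne : Z.Nonempty) (hZconv : GConvex Z)
    {L : ℝ → X} (hL : Isometry L) {s : ℝ} (hs : ∀ t, infDist (L t) Z = s) (t : ℝ) :
    dist (L t) (proj Z (L 0)) ^ 2 ≤ t ^ 2 + s ^ 2 := by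
  have h1 := quad (L 0) (L t) (proj Z (L t)) (proj Z (L 0))
  have h2 := proj_obtuse hZc hZne hZconv (L 0) (proj_mem hZc hZne (L t))
  have h3 := dist_proj hZc hZne (L 0)
  have h4 := dist_proj hZc hZne (L t)
  have h5 := hL.dist_eq 0 t
  rw [Real.dist_eq, zero_sub, abs_neg] at h5
  rw [hs] at h3 h4
  rw [h3] at h1 h2
  rw [h4, h5, dist_comm (proj Z (L t)) (proj Z (L 0))] at h1
  have h6 : |t| ^ 2 = t ^ 2 := sq_abs t
  nlinarith [sq_nonneg (|t| - dist (proj Z (L 0)) (proj Z (L t)))]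

end Limit

section Unbounded

variable {G : Type*} {X : Type*} [Group G] [MetricSpace X] [IsCAT0 X] [ProperSpace X]
  [MulAction G X] [IsIsometricSMul G X]

lemma smul_pow_line {k : G} {c : ℝ → X} {a : ℝ} (hax : ∀ t, k • c t = c (t + a)) (n : ℕ) (t : ℝ) :
    k ^ n • c t = c (t + n * a) := by
  induction n with
  | zero => simp
  | succ n ih =>
    rw [pow_succ', mul_smul, ih, hax]
    congr 1
    push_cast
    ring

lemma infDist_line_conv {Z : Set X} (hZc : IsClosed Z) (hZne : Z.Nonempty) (hZconv : GConvex Z)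
    {c : ℝ → X} (hc : Isometry c) : ConvR (fun t => infDist (c t) Z) :=
  (gconvexFun_infDist hZc hZne hZconv).comp_line hc

/-- the distance to an invariant convex set is constant along an axis -/
lemma infDist_line_const {A : Subgroup G} {Z : Set X} (hZ : IsNC A Z) (hZne : Z.Nonempty)
    {c : ℝ → X} (hc : Isometry c) {h : G} (hh : h ∈ A) {b : ℝ} (hb : 0 < b)
    (hax : ∀ t, h • c t = c (t + b)) (s t : ℝ) : infDist (c s) Z = infDist (c t) Z := by
  have hper : Function.Periodic (fun t => infDist (c t) Z) b := by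
    intro t
    show infDist (c (t + b)) Z = infDist (c t) Z
    rw [← hax, hZ.infDist_smul hh]
  have hconv := infDist_line_conv hZ.closed hZne hZ.convex hc
  refine hconv.const_of_bdd (M := infDist (c 0) Z + b) ?_ s t
  intro t
  obtain ⟨y, hy, hfy⟩ := hper.exists_mem_Ico₀ hb t
  show infDist (c t) Z ≤ _
  have h1 : infDist (c y) Z ≤ infDist (c 0) Z + dist (c y) (c 0) :=
    infDist_le_infDist_add_dist
  rw [hc.dist_eq, Real.dist_eq, sub_zero, abs_of_nonneg hy.1] at h1
  have h2 : infDist (c t) Z = infDist (c y) Z := hfy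
  rw [h2]
  linarith [hy.2]

/-- Some translate of the axis diverges from the other convex set. -/
theorem exists_unbdd [ProperlyDiscontinuousSMul G X] {C A : Subgroup G} {Y Z0 : Set X}
    (hY : IsNC C Y) (hYcoc : CocompactOn C Y) (hZ : IsNC A Z0) (hZne : Z0.Nonempty)
    (hZcoc : CocompactOn A Z0) {k : G} (hk : k ∈ C) {c : ℝ → X} (hc : Isometry c)
    (hcY : ∀ t, c t ∈ Y) {a : ℝ} (ha : 0 < a) (hax : ∀ t, k • c t = c (t + a))
    (hnb : ¬ BoundsHalfPlaneIn Y c) (hidx : A.relIndex C = 0) :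
    ∃ g ∈ C, ∀ M, ∃ t, 0 ≤ t ∧ M < infDist (g • c t) Z0 := by
  by_contra hcon
  push Not at hcon
  have hcovf : ∀ M : ℝ, CocompactOn (C ⊓ A) (Y ∩ {z | infDist z Z0 ≤ M}) := fun M =>
    cocompactOn_inf hYcoc hZcoc hZ.closed hZne M
  have hfin : ∀ K : Set X, IsCompact K → {g : G | g • c 0 ∈ K}.Finite := by
    intro K hK
    apply (ProperlyDiscontinuousSMul.finite_disjoint_inter_image (Γ := G)
      (isCompact_singleton (x := c 0)) hK).subset
    intro g hg
    exact ⟨g • c 0, ⟨c 0, rfl, rfl⟩, hg⟩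
  -- powers of conjugates
  have step1 : ∀ g ∈ C, ∃ n : ℕ, 0 < n ∧ g * k ^ n * g⁻¹ ∈ C ⊓ A := by
    intro g hg
    obtain ⟨M, hM⟩ := hcon g hg
    obtain ⟨K, hK, hcov⟩ := hcovf M
    have hmem : ∀ j : ℕ, g • k ^ j • c 0 ∈ Y ∩ {z | infDist z Z0 ≤ M} := by
      intro j
      refine ⟨hY.inv g hg _ (hY.inv _ (C.pow_mem hk j) _ (hcY 0)), ?_⟩
      show infDist (g • k ^ j • c 0) Z0 ≤ M
      rw [smul_pow_line hax]
      exact hM _ (by positivity)
    choose b hb hbK using fun j : ℕ => hcov _ (hmem j)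
    have hmaps : ∀ j : ℕ, b j * g * k ^ j ∈ {g : G | g • c 0 ∈ K} := by
      intro j
      show (b j * g * k ^ j) • c 0 ∈ K
      rw [mul_smul, mul_smul]
      exact hbK j
    have := (hfin K hK).to_subtype
    obtain ⟨i, j, hij, he⟩ := Finite.exists_ne_map_eq_of_infinite
      (fun j : ℕ => (⟨b j * g * k ^ j, hmaps j⟩ : {g : G | g • c 0 ∈ K}))
    rw [Subtype.mk.injEq] at he
    wlog hlt : i < j generalizing i j
    · exact this j i hij.symm he.symm (lt_of_le_of_ne (not_lt.mp hlt) hij.symm)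
    refine ⟨j - i, by omega, ?_⟩
    have e1 : g * k ^ (j - i) * g⁻¹ = (b j)⁻¹ * b i := by
      have e2 : k ^ j = k ^ (j - i) * k ^ i := by
        rw [← pow_add]
        congr 1
        omega
      rw [e2] at he
      have e3 : b i * g = b j * g * k ^ (j - i) := by
        apply mul_right_cancel (b := k ^ i)
        rw [he]
        group
      rw [mul_assoc] at e3
      have e4 : (b j)⁻¹ * (b i * g) = g * k ^ (j - i) := by rw [e3, inv_mul_cancel_left]
      rw [← e4, mul_assoc, mul_assoc, mul_inv_cancel, mul_one]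
    rw [e1]
    exact (C ⊓ A).mul_mem ((C ⊓ A).inv_mem (hb j)) (hb i)
  -- the auxiliary convex set
  set R0 := infDist (c 0) Z0 with hR0
  set Z : Set X := Y ∩ {z | infDist z Z0 ≤ R0} with hZdef
  have hZNC : IsNC (C ⊓ A) Z := by
    have h1 : IsNC (C ⊓ A) Y := ⟨hY.closed, hY.convex, fun n hn => hY.inv n hn.1⟩
    have h2 : IsNC (C ⊓ A) {z | infDist z Z0 ≤ R0} :=
      isNC_sublevel (gconvexFun_infDist hZ.closed hZne hZ.convex) (continuous_infDist_pt Z0)
        (fun n (hn : n ∈ C ⊓ A) x => hZ.infDist_smul hn.2 x) R0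
    exact h1.inter h2
  have hZ'ne : Z.Nonempty := ⟨c 0, hcY 0, le_refl R0⟩
  have hconst : ∀ g ∈ C, ∀ t, infDist (g • c t) Z = infDist (g • c 0) Z := by
    intro g hg t
    obtain ⟨n, hn, hn2⟩ := step1 g hg
    have hL : Isometry (fun t => g • c t) := (isometry_smul X g).comp hc
    refine infDist_line_const hZNC hZ'ne hL hn2 (b := n * a) (by positivity) ?_ t 0
    intro t
    show (g * k ^ n * g⁻¹) • g • c t = g • c (t + n * a)
    rw [smul_smul, inv_mul_cancel_right, mul_smul, smul_pow_line hax]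
  by_cases hbd : ∃ S, ∀ g ∈ C, infDist (g • c 0) Z ≤ S
  · obtain ⟨S, hS⟩ := hbd
    obtain ⟨K, hK, hcov⟩ := hcovf (S + R0)
    refine relIndex_ne_zero_of_cover (p := c 0) hK ?_ hidx
    intro g hg
    apply hcov
    refine ⟨hY.inv g hg _ (hcY 0), ?_⟩
    show infDist (g • c 0) Z0 ≤ S + R0
    have h1 := dist_proj hZNC.closed hZ'ne (g • c 0)
    have h2 := (proj_mem hZNC.closed hZ'ne (g • c 0)).2
    have h3 : infDist (g • c 0) Z0 ≤ infDist (proj Z (g • c 0)) Z0 +
      dist (g • c 0) (proj Z (g • c 0)) := infDist_le_infDist_add_dist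
    have h4 := hS g hg
    have h5 : infDist (proj Z (g • c 0)) Z0 ≤ R0 := h2
    linarith
  · push Not at hbd
    apply hnb
    apply halfPlane_of_approx hY.closed hY.convex hc hcY (σ := 0) zero_lt_one
    intro N
    obtain ⟨g, hg, hgN⟩ := hbd N
    set s := infDist (g • c 0) Z with hs
    have hspos : 0 < s := lt_of_le_of_lt (Nat.cast_nonneg N) hgN
    have hL : Isometry (fun t => g • c t) := (isometry_smul X g).comp hc
    set q := proj Z (g • c 0) with hq
    have hqY : q ∈ Y := (proj_mem hZNC.closed hZ'ne (g • c 0)).1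
    have hdq : dist (g • c 0) q = s := dist_proj hZNC.closed hZ'ne (g • c 0)
    have hI : ∀ u : ℝ, 0 ≤ u → u ≤ N → u / s ∈ Icc (0 : ℝ) 1 := fun u hu huN =>
      ⟨div_nonneg hu hspos.le, (div_le_one hspos).mpr (by linarith)⟩
    refine ⟨fun u => g⁻¹ • pt (g • c 0) q (u / s), 0, by simp, ?_, ?_, ?_, ?_⟩
    · show g⁻¹ • pt (g • c 0) q (0 / s) = c 0
      rw [zero_div, pt_zero, inv_smul_smul]
    · intro u hu huN
      exact hY.inv _ (C.inv_mem hg) _ (hY.convex _ (hY.inv g hg _ (hcY 0)) _ hqY _ (hI u hu huN))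
    · intro u v hu huN hv hvN
      show dist (g⁻¹ • pt (g • c 0) q (u / s)) (g⁻¹ • pt (g • c 0) q (v / s)) = _
      rw [dist_smul, dist_pt_pt _ _ (hI u hu huN) (hI v hv hvN), hdq, ← sub_div, abs_div,
        abs_of_pos hspos]
      exact div_mul_cancel₀ _ hspos.ne'
    · intro t u _ hu huN
      show dist (c t) (g⁻¹ • pt (g • c 0) q (u / s)) ^ 2 ≤ _
      have e1 : dist (c t) (g⁻¹ • pt (g • c 0) q (u / s)) =
          dist (g • c t) (pt (g • c 0) q (u / s)) := by
        rw [← dist_smul g (c t), smul_inv_smul]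
      have h1 := cn_pt (g • c t) (g • c 0) q (hI u hu huN)
      have h2 := dist_proj_line hZNC.closed hZ'ne hZNC.convex hL (hconst g hg) t
      rw [dist_smul, hc.dist_eq, Real.dist_eq, sub_zero, sq_abs, hdq] at h1
      rw [e1]
      have h3 : u / s * dist (g • c t) q ^ 2 ≤ u / s * (t ^ 2 + s ^ 2) :=
        mul_le_mul_of_nonneg_left h2 (hI u hu huN).1
      have h4 : u / s * (t ^ 2 + s ^ 2) + (1 - u / s) * t ^ 2 - u / s * (1 - u / s) * s ^ 2 =
          t ^ 2 + u ^ 2 := by
        field_simp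
        ring
      have h5 : 0 ≤ 2 * u * (0 * t + 1 / ((N : ℝ) + 1)) := by
        rw [zero_mul, zero_add]
        positivity
      linarith

end Unbounded

end Pool.Agent.H74.CC
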