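import Pool.Agent.H74.CC4
import Pool.Agent.H29.Central

/-!
# North-south behaviour of an axis which bounds no flat half-plane
-/

open Set Filter Topology Metric
open Pool.Agent.H29

set_option linter.unusedSectionVars false

namespace Pool.Agent.H74.CC

lemma convR_iff {h : ℝ → ℝ} (hh : ConvR h) : ConvexOn ℝ univ h := by
  refine ⟨convex_univ, ?_⟩
  intro x _ y _ a b ha hb hab
  have := hh x y b ⟨hb, by linarith⟩
  have e : 1 - b = a := by linarith
  rw [e] at this
  simpa using this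

lemma slope_le {h : ℝ → ℝ} (hh : ConvR h) {x y z w : ℝ} (hxy : x < y) (hyz : y ≤ z)
    (hzw : z < w) : (h y - h x) / (y - x) ≤ (h w - h z) / (w - z) := by
  have hc := convR_iff hh
  rcases eq_or_lt_of_le hyz with rfl | hlt
  · exact hc.slope_mono_adjacent (mem_univ _) (mem_univ _) hxy hzw
  · exact (hc.slope_mono_adjacent (mem_univ _) (mem_univ _) hxy hlt).trans
      (hc.slope_mono_adjacent (mem_univ _) (mem_univ _) hlt hzw)

/-- a convex function whose chords lie in `[-σ, σ]` is almost linear around some point -/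
lemma almost_linear {f : ℝ → ℝ} (hf : ConvR f) {σ : ℝ} {L δ : ℝ} (hL : 0 < L) (hδ : 0 < δ)
    {P : ℕ} (hP : 2 * σ < P * δ) (m : ℕ → ℝ)
    (hm : ∀ i, m i = (f ((i + 2 : ℕ) * L) - f ((i + 1 : ℕ) * L)) / L)
    (hlow : ∀ i ≤ P, -σ ≤ m i) (hup : ∀ i ≤ P, m i ≤ σ) :
    ∃ i < P, ∀ t, |t| ≤ L → f ((i + 2 : ℕ) * L + t) - f ((i + 2 : ℕ) * L) ≤ m i * t + δ * L := by
  have h1 : ∃ i < P, m (i + 1) - m i ≤ δ := by
    by_contra hcon
    push Not at hcon
    have h2 : ∀ i ≤ P, m 0 + i * δ ≤ m i := by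
      intro i
      induction i with
      | zero => intro _; simp
      | succ i ih =>
        intro hi
        have h3 := ih (by omega)
        have h4 := hcon i (by omega)
        push_cast
        linarith
    have h3 := h2 P le_rfl
    have h4 := hup P le_rfl
    have h5 := hlow 0 (Nat.zero_le _)
    linarith
  obtain ⟨i, hi, hmi⟩ := h1
  refine ⟨i, hi, ?_⟩
  intro t ht
  have ht' := abs_le.mp ht
  set p : ℝ := (i + 2 : ℕ) * L with hp
  have e1 : ((i + 1 : ℕ) : ℝ) * L = p - L := by rw [hp]; push_cast; ring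
  have e2 : ((i + 1 + 2 : ℕ) : ℝ) * L = p + L := by rw [hp]; push_cast; ring
  have e3 : ((i + 1 + 1 : ℕ) : ℝ) * L = p := by rw [hp]
  have hmi1 : m i * L = f p - f (p - L) := by
    rw [hm i, e1, div_mul_cancel₀ _ hL.ne']
  have hmi2 : m (i + 1) * L = f (p + L) - f p := by
    rw [hm (i + 1), e2, e3, div_mul_cancel₀ _ hL.ne']
  rcases le_total 0 t with h0 | h0
  · have hI : t / L ∈ Icc (0 : ℝ) 1 := ⟨div_nonneg h0 hL.le, (div_le_one hL).mpr ht'.2⟩
    have h2 := hf p (p + L) _ hI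
    have e4 : (1 - t / L) * p + t / L * (p + L) = p + t := by
      have : t / L * L = t := div_mul_cancel₀ _ hL.ne'
      linear_combination this
    rw [e4] at h2
    have h3 : t / L * (f (p + L) - f p) = m (i + 1) * t := by
      rw [← hmi2]; field_simp
    have h4 : (m (i + 1) - m i) * t ≤ δ * L :=
      mul_le_mul hmi ht'.2 h0 hδ.le
    linarith
  · have hI : -t / L ∈ Icc (0 : ℝ) 1 := ⟨div_nonneg (by linarith) hL.le,
      (div_le_one hL).mpr (by linarith)⟩
    have h2 := hf p (p - L) _ hI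
    have e4 : (1 - -t / L) * p + -t / L * (p - L) = p + t := by
      have : t / L * L = t := div_mul_cancel₀ _ hL.ne'
      linear_combination this
    rw [e4] at h2
    have h3 : -t / L * (f p - f (p - L)) = - (m i * t) := by
      rw [← hmi1]; field_simp
    have h4 : 0 ≤ δ * L := by positivity
    linarith

section NS

variable {G : Type*} {X : Type*} [Group G] [MetricSpace X] [IsCAT0 X] [ProperSpace X]
  [MulAction G X] [IsIsometricSMul G X]

/-- the divergence of the asymptotic ray -/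
lemma busR_diverge {ρ : ℝ → X} (hρ : IsRay ρ) {f : X → ℝ} (hf : GConvexFun f)
    (hfl : ∀ x y, f x ≤ f y + dist x y) (hfc : Continuous f)
    (hb : ∃ M, ∀ t, 0 ≤ t → f (ρ t) ≤ M) {p x : X} {R : ℝ} (hR : 0 < R) (hpx : dist x p = R)
    (hfx : f p + 1 < f x) : (busR ρ p - busR ρ x) / R < 1 - 1 / (2 * R ^ 2) := by
  obtain ⟨r, hr0, hray, hI, _, hfr⟩ := exists_asym hρ p
  have h1 := hfr f hf hfc hb R hR.le
  have h2 := hI x R hR.le
  have h3 := hfl x (r R)
  have h4 : 1 < dist x (r R) := by linarith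
  have h5 : 1 < dist x (r R) ^ 2 := by nlinarith
  rw [hpx] at h2
  rw [div_lt_iff₀ hR]
  have e : (1 - 1 / (2 * R ^ 2)) * R = R - 1 / (2 * R) := by field_simp
  rw [e]
  have h6 : 2 * R * (busR ρ p - busR ρ x) < 2 * R ^ 2 - 1 := by nlinarith
  have h7 : 2 * R * (R - 1 / (2 * R)) = 2 * R ^ 2 - 1 := by field_simp
  have h8 : 2 * R * (busR ρ p - busR ρ x) < 2 * R * (R - 1 / (2 * R)) := by rw [h7]; exact h6
  exact lt_of_mul_lt_mul_left h8 (by positivity)

/-- **North-south.** -/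
theorem halfPlane_of_rays {C : Subgroup G} {Y ZA ZB : Set X} (hY : IsNC C Y) {k : G} (hk : k ∈ C)
    {c : ℝ → X} (hc : Isometry c) (hcY : ∀ t, c t ∈ Y) {a : ℝ} (ha : 0 < a)
    (hax : ∀ t, k • c t = c (t + a))
    (hAc : IsClosed ZA) (hAne : ZA.Nonempty) (hAconv : GConvex ZA)
    (hBc : IsClosed ZB) (hBne : ZB.Nonempty) (hBconv : GConvex ZB)
    (hA : ∀ M, ∃ t, 0 ≤ t ∧ M < infDist (c t) ZA)
    (hB : ∀ M, ∃ t, 0 ≤ t ∧ M < infDist (c (-t)) ZB)
    (h : ∀ n0 : ℕ, ∃ n, n0 ≤ n ∧ ∃ ρ : ℝ → X, IsRay ρ ∧ (∀ t, 0 ≤ t → ρ t ∈ Y) ∧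
      (∃ M, ∀ t, 0 ≤ t → infDist (ρ t) ZA ≤ M) ∧
      (∃ M, ∀ t, 0 ≤ t → infDist ((k ^ n)⁻¹ • ρ t) ZB ≤ M)) :
    BoundsHalfPlaneIn Y c := by
  obtain ⟨R1, hR10, hR1⟩ := hA (infDist (c 0) ZA + 1)
  obtain ⟨R2, hR20, hR2⟩ := hB (infDist (c 0) ZB + 1)
  have hR1pos : 0 < R1 := by
    rcases eq_or_lt_of_le hR10 with h0 | h0
    · rw [← h0] at hR1; linarith
    · exact h0
  have hR2pos : 0 < R2 := by
    rcases eq_or_lt_of_le hR20 with h0 | h0
    · rw [← h0, neg_zero] at hR2; linarith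
    · exact h0
  set ε := min (1 / (2 * R1 ^ 2)) (1 / (2 * R2 ^ 2)) with hε
  have hεpos : 0 < ε := lt_min (by positivity) (by positivity)
  set σ := 1 - ε with hσ
  apply halfPlane_of_approx hY.closed hY.convex hc hcY (σ := σ) (by linarith)
  intro N
  -- the block length
  obtain ⟨m, hm⟩ := exists_nat_gt ((N + R1) / a)
  have hL1 : N + R1 < m * a := by rwa [div_lt_iff₀ ha] at hm
  set L : ℝ := m * a with hL
  have hNnn : (0 : ℝ) ≤ N := Nat.cast_nonneg N
  have hLpos : 0 < L := by linarith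
  have hLR1 : R1 ≤ L := by linarith
  have hLN : (N : ℝ) ≤ L := by linarith
  set δ : ℝ := 1 / ((N : ℝ) + 1) / L with hδ
  have hδpos : 0 < δ := by positivity
  obtain ⟨P, hP⟩ := exists_nat_gt (2 * σ / δ)
  have hP' : 2 * σ < P * δ := by rwa [div_lt_iff₀ hδpos] at hP
  obtain ⟨n0, hn0⟩ := exists_nat_gt (((P + 2 : ℕ) * L + R2) / a)
  obtain ⟨n, hn, ρ, hρ, hρY, hρA, hρB⟩ := h n0
  have hT : ((P + 2 : ℕ) : ℝ) * L + R2 ≤ n * a := by
    have h1 : ((P + 2 : ℕ) * L + R2) < n0 * a := by rwa [div_lt_iff₀ ha] at hn0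
    have h2 : (n0 : ℝ) * a ≤ n * a := by
      apply mul_le_mul_of_nonneg_right _ ha.le
      exact_mod_cast hn
    linarith
  set T : ℝ := n * a with hTdef
  have hfconv : ConvR (fun t => busR ρ (c t)) := (gconvexFun_busR hρ).comp_line hc
  -- the left end
  have hleft : -σ ≤ (busR ρ (c R1) - busR ρ (c 0)) / (R1 - 0) := by
    have h1 := busR_diverge hρ (f := fun x => infDist x ZA)
      (gconvexFun_infDist hAc hAne hAconv) (fun x y => infDist_le_infDist_add_dist)
      (continuous_infDist_pt ZA) hρA (p := c 0) (x := c R1) hR1pos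
      (by rw [hc.dist_eq, Real.dist_eq, sub_zero, abs_of_pos hR1pos]) hR1
    have h2 : ε ≤ 1 / (2 * R1 ^ 2) := min_le_left _ _
    rw [sub_zero]
    have e : (busR ρ (c R1) - busR ρ (c 0)) / R1 = -((busR ρ (c 0) - busR ρ (c R1)) / R1) := by
      ring
    rw [e]
    linarith
  have hright : (busR ρ (c T) - busR ρ (c (T - R2))) / (T - (T - R2)) ≤ σ := by
    have hkc : ∀ t, (k ^ n)⁻¹ • c t = c (t - T) := by
      intro t
      rw [inv_smul_eq_iff, smul_pow_line hax, hTdef]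
      congr 1
      ring
    have h1 := busR_diverge hρ (f := fun x => infDist ((k ^ n)⁻¹ • x) ZB)
      (gconvexFun_comp_smul (gconvexFun_infDist hBc hBne hBconv) _)
      (fun x y => by
        have := infDist_le_infDist_add_dist (s := ZB) (x := (k ^ n)⁻¹ • x) (y := (k ^ n)⁻¹ • y)
        rwa [dist_smul] at this)
      ((continuous_infDist_pt ZB).comp (isometry_smul X _).continuous) hρB
      (p := c T) (x := c (T - R2)) hR2pos
      (by rw [hc.dist_eq, Real.dist_eq, sub_sub_cancel_left, abs_neg, abs_of_pos hR2pos])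
      (by
        show infDist ((k ^ n)⁻¹ • c T) ZB + 1 < infDist ((k ^ n)⁻¹ • c (T - R2)) ZB
        rw [hkc, hkc, sub_self, sub_sub_cancel_left]
        exact hR2)
    have h2 : ε ≤ 1 / (2 * R2 ^ 2) := min_le_right _ _
    rw [sub_sub_cancel]
    linarith
  set M : ℕ → ℝ := fun i => (busR ρ (c ((i + 2 : ℕ) * L)) - busR ρ (c ((i + 1 : ℕ) * L))) / L
    with hMdef
  have hlowM : ∀ i ≤ P, -σ ≤ M i := by
    intro i _
    apply hleft.trans
    have h1 := slope_le hfconv (x := 0) (y := R1) (z := (i + 1 : ℕ) * L) (w := (i + 2 : ℕ) * L)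
      hR1pos (by
        have : (1 : ℝ) ≤ ((i + 1 : ℕ) : ℝ) := by push_cast; linarith [Nat.cast_nonneg (α := ℝ) i]
        nlinarith) (by push_cast; linarith)
    have e : ((i + 2 : ℕ) : ℝ) * L - (i + 1 : ℕ) * L = L := by push_cast; ring
    rw [e] at h1
    exact h1
  have hupM : ∀ i ≤ P, M i ≤ σ := by
    intro i hi
    refine le_trans ?_ hright
    have h1 := slope_le hfconv (x := (i + 1 : ℕ) * L) (y := (i + 2 : ℕ) * L) (z := T - R2) (w := T)
      (by push_cast; linarith) (by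
        have : ((i + 2 : ℕ) : ℝ) ≤ ((P + 2 : ℕ) : ℝ) := by
          exact_mod_cast Nat.add_le_add_right hi 2
        nlinarith) (by linarith)
    have e : ((i + 2 : ℕ) : ℝ) * L - (i + 1 : ℕ) * L = L := by push_cast; ring
    rw [e] at h1
    exact h1
  obtain ⟨i, hi, hlin⟩ := almost_linear hfconv hLpos hδpos hP' M (fun i => rfl) hlowM hupM
  set p : ℝ := (i + 2 : ℕ) * L with hp
  have hpk : p = ((i + 2) * m : ℕ) * a := by rw [hp, hL]; push_cast; ring
  set J : ℕ := (i + 2) * m with hJ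
  set s : ℝ := (busR ρ (c p) - busR ρ (c ((i + 1 : ℕ) * L))) / L with hs
  obtain ⟨r, hr0, hray, hI, _, hfr⟩ := exists_asym hρ (c p)
  have hkJ : ∀ t, k ^ J • c t = c (p + t) := by
    intro t
    rw [smul_pow_line hax, ← hpk, add_comm]
  refine ⟨fun u => (k ^ J)⁻¹ • r u, s, abs_le.mpr ⟨hlowM i hi.le, hupM i hi.le⟩, ?_, ?_, ?_, ?_⟩
  · show (k ^ J)⁻¹ • r 0 = c 0
    rw [hr0, inv_smul_eq_iff, hkJ, add_zero]
  · intro u hu _
    apply hY.inv _ (C.inv_mem (C.pow_mem hk J))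
    have h1 := hfr (fun x => infDist x Y) (gconvexFun_infDist hY.closed ⟨_, hcY 0⟩ hY.convex)
      (continuous_infDist_pt Y) ⟨0, fun t ht => (infDist_zero_of_mem (hρY t ht)).le⟩ u hu
    simp only [infDist_zero_of_mem (hcY p)] at h1
    exact (hY.closed.mem_iff_infDist_zero ⟨_, hcY 0⟩).mpr (le_antisymm h1 infDist_nonneg)
  · intro u v hu _ hv _
    show dist ((k ^ J)⁻¹ • r u) ((k ^ J)⁻¹ • r v) = _
    rw [dist_smul]
    exact hray u v hu hv
  · intro t u ht hu huN
    show dist (c t) ((k ^ J)⁻¹ • r u) ^ 2 ≤ _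
    have e1 : dist (c t) ((k ^ J)⁻¹ • r u) = dist (c (p + t)) (r u) := by
      rw [← dist_smul (k ^ J) (c t), smul_inv_smul, hkJ]
    have h1 := hI (c (p + t)) u hu
    have h2 := hlin t (ht.trans hLN)
    rw [e1]
    rw [hc.dist_eq, Real.dist_eq, add_sub_cancel_left, sq_abs] at h1
    have h3 : δ * L = 1 / ((N : ℝ) + 1) := by
      rw [hδ]; field_simp
    rw [h3] at h2
    have h4 := mul_le_mul_of_nonneg_left h2 (by linarith : (0 : ℝ) ≤ 2 * u)
    linarith

end NS

end Pool.Agent.H74.CC
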