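import Pool.Agent.H74.CC5
import Pool.Agent.H74.CC2

/-!
# Property P: two one-sided infinite index conditions give a finite intersection
-/

open Set Filter Topology Metric
open Pool.Agent.H29

set_option linter.unusedSectionVars false

namespace Pool.Agent.H74.CC

variable {G : Type*} {X : Type*} [Group G] [MetricSpace X] [IsCAT0 X] [ProperSpace X]
  [MulAction G X] [IsIsometricSMul G X]

lemma cocompactOn_smul {C : Subgroup G} {Y : Set X} (h : CocompactOn C Y) (g : G) :
    CocompactOn (C.map (MulAut.conj g).toMonoidHom) ((fun x => g • x) '' Y) := by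
  obtain ⟨K, hK, hc⟩ := h
  refine ⟨(fun x => g • x) '' K, hK.image (isometry_smul X g).continuous, ?_⟩
  rintro _ ⟨p, hp, rfl⟩
  obtain ⟨c, hc1, hc2⟩ := hc p hp
  refine ⟨g * c * g⁻¹, ⟨c, hc1, rfl⟩, c • p, hc2, ?_⟩
  show g • c • p = (g * c * g⁻¹) • g • p
  rw [smul_smul, smul_smul, inv_mul_cancel_right]

lemma infDist_smul_image (g : G) (x : X) (D : Set X) :
    infDist x ((fun y => g • y) '' D) = infDist (g⁻¹ • x) D := by
  have := Metric.infDist_image (isometry_smul X g) (x := g⁻¹ • x) (t := D)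
  rwa [smul_inv_smul] at this

/-- a ray along which invariant convex functions do not increase -/
lemma ray_of_infinite [ProperlyDiscontinuousSMul G X] {D : Subgroup G} (hD : (D : Set G).Infinite)
    {I : Type*} (f : I → X → ℝ) (hconv : ∀ i, GConvexFun (f i)) (hcont : ∀ i, Continuous (f i))
    (hinv : ∀ i, ∀ g ∈ D, ∀ x, f i (g • x) = f i x) (p : X) :
    ∃ ρ : ℝ → X, ρ 0 = p ∧ IsRay ρ ∧ ∀ i t, 0 ≤ t → f i (ρ t) ≤ f i p := by
  apply exists_ray f hconv hcont p
  intro S k
  obtain ⟨g, hg, hgk⟩ := exists_far (X := X) hD p k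
  refine ⟨g • p, hgk, fun i _ => ?_⟩
  rw [hinv i g hg]
  have : 0 ≤ dist p (g • p) / ((k : ℝ) + 1) := by positivity
  linarith

lemma BoundsHalfPlaneIn.smul {Y : Set X} {c : ℝ → X} (g : G) (hY : ∀ x ∈ Y, g • x ∈ Y)
    (h : BoundsHalfPlaneIn Y c) : BoundsHalfPlaneIn Y (fun t => g • c t) := by
  obtain ⟨F, h1, h2, h3⟩ := h
  refine ⟨fun t s => g • F t s, fun t => congrArg _ (h1 t), fun t s hs => hY _ (h2 t s hs), ?_⟩
  intro t s t' s' hs hs'
  show dist (g • F t s) (g • F t' s') ^ 2 = _
  rw [dist_smul]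
  exact h3 t s t' s' hs hs'

lemma BoundsHalfPlaneIn.rev {X : Type*} [MetricSpace X] {Y : Set X} {c : ℝ → X}
    (h : BoundsHalfPlaneIn Y c) : BoundsHalfPlaneIn Y (fun t => c (-t)) := by
  obtain ⟨F, h1, h2, h3⟩ := h
  refine ⟨fun t s => F (-t) s, fun t => h1 _, fun t s hs => h2 _ s hs, ?_⟩
  intro t s t' s' hs hs'
  rw [h3 _ _ _ _ hs hs']
  ring

/-- **Property P.** -/
theorem exists_finite_inf [ProperlyDiscontinuousSMul G X] {C A B : Subgroup G} {Y ZA ZB : Set X}
    (hY : IsNC C Y) (hYcoc : CocompactOn C Y)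
    (hA : IsNC A ZA) (hAne : ZA.Nonempty) (hAcoc : CocompactOn A ZA)
    (hB : IsNC B ZB) (hBne : ZB.Nonempty) (hBcoc : CocompactOn B ZB)
    {k : G} (hk : k ∈ C) {c : ℝ → X} (hc : Isometry c) (hcY : ∀ t, c t ∈ Y) {a : ℝ} (ha : 0 < a)
    (hax : ∀ t, k • c t = c (t + a)) (hnb : ¬ BoundsHalfPlaneIn Y c)
    (hA0 : A.relIndex C = 0) (hB0 : B.relIndex C = 0) :
    ∃ h ∈ C, ((C ⊓ A ⊓ B.map (MulAut.conj h).toMonoidHom : Subgroup G) : Set G).Finite := by
  by_contra hcon
  push Not at hcon
  obtain ⟨c1, hc1, hu1⟩ := exists_unbdd hY hYcoc hA hAne hAcoc hk hc hcY ha hax hnb hA0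
  obtain ⟨c2, hc2, hu2⟩ := exists_unbdd hY hYcoc hB hBne hBcoc (C.inv_mem hk)
    (isometry_comp_neg hc) (fun t => hcY (-t)) ha (by
      intro t
      show k⁻¹ • c (-t) = c (-(t + a))
      rw [inv_smul_eq_iff, hax]
      congr 1
      ring) (fun h => hnb (by
        have := h.rev
        simpa only [neg_neg] using this)) hB0
  set k1 := c1 * k * c1⁻¹ with hk1
  set u := c1 * c2⁻¹ with hu
  have hk1C : k1 ∈ C := C.mul_mem (C.mul_mem hc1 hk) (C.inv_mem hc1)
  have huC : u ∈ C := C.mul_mem hc1 (C.inv_mem hc2)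
  apply hnb
  have hfinal : BoundsHalfPlaneIn Y (fun t => c1 • c t) := by
    have hBu := isNC_smul hB u
    refine halfPlane_of_rays hY hk1C (c := fun t => c1 • c t) ((isometry_smul X c1).comp hc)
      (fun t => hY.inv c1 hc1 _ (hcY t)) ha ?_ hA.closed hAne hA.convex hBu.closed
      (hBne.image _) hBu.convex hu1 ?_ ?_
    · intro t
      show (c1 * k * c1⁻¹) • c1 • c t = c1 • c (t + a)
      rw [smul_smul, inv_mul_cancel_right, mul_smul, hax]
    · intro M
      obtain ⟨t, ht0, ht⟩ := hu2 M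
      refine ⟨t, ht0, ?_⟩
      show M < infDist (c1 • c (-t)) _
      rw [infDist_smul_image, smul_smul]
      have e : u⁻¹ * c1 = c2 := by rw [hu]; group
      rw [e]
      exact ht
    · intro n0
      refine ⟨n0, le_rfl, ?_⟩
      have hD := hcon (k1 ^ n0 * u) (C.mul_mem (C.pow_mem hk1C n0) huC)
      obtain ⟨ρ, hρ0, hρ, hρf⟩ := ray_of_infinite (X := X) hD (I := Fin 3)
        ![fun x => infDist x Y, fun x => infDist x ZA,
          fun x => infDist ((k1 ^ n0)⁻¹ • x) ((fun y => u • y) '' ZB)] (by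
          intro i
          fin_cases i
          · exact gconvexFun_infDist hY.closed ⟨_, hcY 0⟩ hY.convex
          · exact gconvexFun_infDist hA.closed hAne hA.convex
          · exact gconvexFun_comp_smul
              (gconvexFun_infDist hBu.closed (hBne.image _) hBu.convex) _) (by
          intro i
          fin_cases i
          · exact continuous_infDist_pt Y
          · exact continuous_infDist_pt ZA
          · exact (continuous_infDist_pt _).comp (isometry_smul X _).continuous) (by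
          intro i g hg x
          fin_cases i
          · exact hY.infDist_smul hg.1.1 x
          · exact hA.infDist_smul hg.1.2 x
          · show infDist ((k1 ^ n0)⁻¹ • g • x) _ = infDist ((k1 ^ n0)⁻¹ • x) _
            have h1 : g ∈ B.map (MulAut.conj (k1 ^ n0 * u)).toMonoidHom := hg.2
            have h2 : (k1 ^ n0)⁻¹ * g * (k1 ^ n0) ∈ B.map (MulAut.conj u).toMonoidHom := by
              rw [mem_map_conj] at h1 ⊢
              have e : (k1 ^ n0 * u)⁻¹ * g * (k1 ^ n0 * u) =
                u⁻¹ * ((k1 ^ n0)⁻¹ * g * (k1 ^ n0)) * u := by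
                rw [mul_inv_rev]
                simp only [mul_assoc]
              rwa [e] at h1
            have h3 := hBu.infDist_smul h2 ((k1 ^ n0)⁻¹ • x)
            rw [← h3]
            congr 1
            rw [smul_smul, smul_smul]
            congr 1
            simp only [mul_assoc, mul_inv_cancel, mul_one]) (c1 • c 0)
      have hpY : infDist (c1 • c 0) Y = 0 := infDist_zero_of_mem (hY.inv c1 hc1 _ (hcY 0))
      refine ⟨ρ, hρ, ?_, ?_, ?_⟩
      · intro t ht
        have h1 := hρf 0 t ht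
        have h2 : infDist (ρ t) Y ≤ infDist (c1 • c 0) Y := h1
        rw [hpY] at h2
        exact (hY.closed.mem_iff_infDist_zero ⟨_, hcY 0⟩).mpr (le_antisymm h2 infDist_nonneg)
      · exact ⟨_, fun t ht => hρf 1 t ht⟩
      · exact ⟨_, fun t ht => hρf 2 t ht⟩
  have := hfinal.smul c1⁻¹ (fun x hx => hY.inv _ (C.inv_mem hc1) x hx)
  simpa only [inv_smul_smul] using this

end Pool.Agent.H74.CC
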