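import Pool.Agent.H74.CC6

/-!
# Segments in trees: ordered quadruples, translations and flips
-/

open Set Filter Topology Metric
open Pool.Agent.H29

set_option linter.unusedSectionVars false

namespace Pool.Agent.H74.CC

section Ord

variable {G V : Type*} [Group G] [MulAction G V] {d : V → V → ℕ}

/-- the four points appear in this order on a geodesic -/
def Ord (d : V → V → ℕ) (a b c e : V) : Prop := d a b + d b c + d c e = d a e

lemma Ord.bt1 (hd : TreeLike d) {a b c e : V} (h : Ord d a b c e) : Bt d a b c := by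
  have t1 := hd.tri a b c
  have t2 := hd.tri a c e
  unfold Ord at h
  unfold Bt
  omega

lemma Ord.bt2 (hd : TreeLike d) {a b c e : V} (h : Ord d a b c e) : Bt d b c e := by
  have t1 := hd.tri b c e
  have t2 := hd.tri a b e
  unfold Ord at h
  unfold Bt
  omega

lemma Ord.bt3 (hd : TreeLike d) {a b c e : V} (h : Ord d a b c e) : Bt d a b e := by
  have t1 := hd.tri b c e
  have t2 := hd.tri a b e
  unfold Ord at h
  unfold Bt
  omega

lemma Ord.bt4 (hd : TreeLike d) {a b c e : V} (h : Ord d a b c e) : Bt d a c e := by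
  have t1 := hd.tri a b c
  have t2 := hd.tri a c e
  unfold Ord at h
  unfold Bt
  omega

lemma Ord.symm (hd : TreeLike d) {a b c e : V} (h : Ord d a b c e) : Ord d e c b a := by
  unfold Ord at *
  rw [hd.symm e c, hd.symm c b, hd.symm b a, hd.symm e a]
  omega

lemma Ord.smul (hiso : ∀ (g : G) v w, d (g • v) (g • w) = d v w) {a b c e : V}
    (h : Ord d a b c e) (g : G) : Ord d (g • a) (g • b) (g • c) (g • e) := by
  unfold Ord at *
  rw [hiso, hiso, hiso, hiso]
  exact h

lemma ord_of_bt (hd : TreeLike d) {a b c e : V} (h1 : Bt d a b c) (h2 : Bt d b c e)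
    (hne : b ≠ c) : Ord d a b c e := (Bt.concat hd h1 h2 hne).symm

lemma ord_of_bt' {a b c e : V} (h1 : Bt d a b c) (h2 : Bt d a c e) : Ord d a b c e := by
  unfold Ord Bt at *
  omega

lemma ord_of_bt'' {a b c e : V} (h1 : Bt d a b e) (h2 : Bt d b c e) : Ord d a b c e := by
  unfold Ord Bt at *
  omega

lemma Ord.trans (hd : TreeLike d) {a b x y u v : V} (h1 : Ord d a b x y) (h2 : Ord d x y u v)
    (hne : x ≠ y) : Ord d a b u v := by
  have e1 := ord_of_bt hd (h1.bt2 hd) (h2.bt1 hd) hne
  have e2 := ord_of_bt hd (h1.bt4 hd) (h2.bt3 hd) hne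
  have e3 := h1.bt1 hd
  have e4 := h2.bt2 hd
  have e5 := h1.bt2 hd
  have e6 := h2.bt1 hd
  have e7 := h1.bt4 hd
  have e8 := h2.bt3 hd
  have t1 := hd.tri b x u
  have t2 := hd.tri b u y
  unfold Ord Bt at *
  omega

/-- the translate of `(x, y)` lies beyond `y`, with the same orientation -/
def Pos (d : V → V → ℕ) (x y : V) (g : G) : Prop := Ord d x y (g • x) (g • y)

/-- the translate of `(x, y)` lies beyond `y`, with the opposite orientation -/
def Flip (d : V → V → ℕ) (x y : V) (g : G) : Prop := Ord d x y (g • y) (g • x)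

variable {x y : V} {g r : G}

lemma Flip.inv (hd : TreeLike d) (hiso : ∀ (g : G) v w, d (g • v) (g • w) = d v w)
    (h : Flip d x y g) : Flip d x y g⁻¹ := by
  have h1 := (Ord.smul hiso h g⁻¹).symm hd
  rwa [inv_smul_smul, inv_smul_smul] at h1

lemma Pos.inv (hd : TreeLike d) (hiso : ∀ (g : G) v w, d (g • v) (g • w) = d v w)
    (h : Pos d x y g) : Pos d y x g⁻¹ := by
  have h1 := (Ord.smul hiso h g⁻¹).symm hd
  rwa [inv_smul_smul, inv_smul_smul] at h1

lemma Pos.mul_flip (hd : TreeLike d) (hiso : ∀ (g : G) v w, d (g • v) (g • w) = d v w)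
    (hxy : x ≠ y) (h : Pos d x y g) (hr : Flip d x y r) : Flip d x y (g * r) := by
  have h1 := Ord.smul hiso hr g
  rw [← mul_smul, ← mul_smul] at h1
  exact Ord.trans hd h h1 (fun he => hxy (MulAction.injective _ he))

lemma Flip.mul_flip (hd : TreeLike d) (hiso : ∀ (g : G) v w, d (g • v) (g • w) = d v w)
    (hxy : x ≠ y) (h : Flip d y x g) (hr : Flip d x y r) : Pos d y x (g * r) := by
  have h1 := Ord.smul hiso hr g
  rw [← mul_smul, ← mul_smul] at h1
  exact Ord.trans hd h h1 (fun he => hxy (MulAction.injective _ he))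

variable (x y) in
/-- the stabiliser of a pair -/
abbrev stab2 : Subgroup G := MulAction.stabilizer G x ⊓ MulAction.stabilizer G y

lemma stab2_swap : (stab2 x y : Subgroup G) = stab2 y x := inf_comm _ _

lemma map_conj_conj (C : Subgroup G) (g h : G) :
    (C.map (MulAut.conj h).toMonoidHom).map (MulAut.conj g).toMonoidHom =
      C.map (MulAut.conj (g * h)).toMonoidHom := by
  ext k
  rw [mem_map_conj, mem_map_conj, mem_map_conj, mul_inv_rev]
  simp only [mul_assoc]

/-- the commensurator, as a predicate -/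
def Cm (C : Subgroup G) (g : G) : Prop := Comm2 (C.map (MulAut.conj g).toMonoidHom) C

lemma Cm.mul {C : Subgroup G} {g h : G} (hg : Cm C g) (hh : Cm C h) : Cm C (g * h) := by
  unfold Cm
  rw [← map_conj_conj]
  exact (comm2_conj g hh).trans hg

lemma Cm.inv {C : Subgroup G} {g : G} (hg : Cm C g) : Cm C g⁻¹ := by
  have h1 := (comm2_conj g⁻¹ hg).symm
  rw [map_conj_conj, inv_mul_cancel] at h1
  have e : C.map (MulAut.conj (1 : G)).toMonoidHom = C := by
    ext k
    rw [mem_map_conj]
    simp
  rw [e] at h1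
  exact h1

lemma Cm.one (C : Subgroup G) : Cm C 1 := by
  have e : C.map (MulAut.conj (1 : G)).toMonoidHom = C := by
    ext k
    rw [mem_map_conj]
    simp
  unfold Cm
  rw [e]
  exact comm2_refl C

lemma Cm.pow {C : Subgroup G} {g : G} (hg : Cm C g) (n : ℕ) : Cm C (g ^ n) := by
  induction n with
  | zero => rw [pow_zero]; exact Cm.one C
  | succ n ih => rw [pow_succ]; exact ih.mul hg

lemma Cm.of_mul_left {C : Subgroup G} {g h : G} (hg : Cm C g) (h1 : Cm C (g * h)) : Cm C h := by
  have := hg.inv.mul h1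
  rwa [inv_mul_cancel_left] at this

lemma Cm.of_mul_right {C : Subgroup G} {g h : G} (hh : Cm C h) (h1 : Cm C (g * h)) : Cm C g := by
  have := h1.mul hh.inv
  rwa [mul_inv_cancel_right] at this

/-- stability to the right of `y` -/
def StabR (d : V → V → ℕ) (C : Subgroup G) (x y : V) : Prop :=
  ∀ g : G, Pos d x y g ∨ Flip d x y g → (C.map (MulAut.conj g).toMonoidHom).relIndex C ≠ 0

section

variable {C : Subgroup G}

lemma StabR.flip (hd : TreeLike d) (hiso : ∀ (g : G) v w, d (g • v) (g • w) = d v w)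
    (hS : StabR d C x y) (hg : Flip d x y g) : Cm C g := by
  refine ⟨hS g (Or.inr hg), ?_⟩
  have h1 := hS g⁻¹ (Or.inr (hg.inv hd hiso))
  rw [← relIndex_conj g, map_conj_conj, mul_inv_cancel] at h1
  have e : C.map (MulAut.conj (1 : G)).toMonoidHom = C := by
    ext k
    rw [mem_map_conj]
    simp
  rwa [e] at h1

lemma StabR.pos (hd : TreeLike d) (hiso : ∀ (g : G) v w, d (g • v) (g • w) = d v w)
    (hxy : x ≠ y) (hS : StabR d C x y) (hr : Flip d x y r) (hg : Pos d x y g) : Cm C g :=
  (hS.flip hd hiso hr).of_mul_right (hS.flip hd hiso (hg.mul_flip hd hiso hxy hr))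

lemma StabR.pos' (hd : TreeLike d) (hiso : ∀ (g : G) v w, d (g • v) (g • w) = d v w)
    (hxy : x ≠ y) (hS : StabR d C x y) (hr : Flip d x y r) (hg : Pos d y x g) : Cm C g := by
  have := (hS.pos hd hiso hxy hr (hg.inv hd hiso)).inv
  rwa [inv_inv] at this

lemma StabR.flip' (hd : TreeLike d) (hiso : ∀ (g : G) v w, d (g • v) (g • w) = d v w)
    (hxy : x ≠ y) (hS : StabR d C x y) (hr : Flip d x y r) (hg : Flip d y x g) : Cm C g :=
  (hS.flip hd hiso hr).of_mul_right (hS.pos' hd hiso hxy hr (hg.mul_flip hd hiso hxy hr))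

end

variable {τ : G}

lemma tax_pos (hd : TreeLike d) (h : TAx d τ x y) : Pos d x y τ :=
  ord_of_bt hd h.a1 h.a2 h.ne'

lemma tax_exists_neg (hd : TreeLike d) (hiso : ∀ (g : G) v w, d (g • v) (g • w) = d v w)
    (h : TAx d τ x y) (z : V) : ∃ n : ℕ, ∀ m, n ≤ m → Bt d z (τ ^ m • x) (τ ^ m • y) := by
  obtain ⟨n, hn⟩ := h.exists_neg hd hiso z
  refine ⟨n, fun m hm => ?_⟩
  induction m, hm using Nat.le_induction with
  | base => exact hn
  | succ m _ ih =>
    have h1 := (h.step_zpow hd hiso (m : ℤ) (z := z) (by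
      rw [zpow_natCast]; exact ih)).1
    have e : ∀ v : V, τ ^ ((m : ℤ) + 1) • v = τ ^ (m + 1) • v := by
      intro v
      rw [← zpow_natCast]
      push_cast
      rfl
    rwa [e, e] at h1

/-- every element is, up to translations, a flip to the left or a translation to the right -/
lemma tax_trichotomy (hd : TreeLike d) (hiso : ∀ (g : G) v w, d (g • v) (g • w) = d v w)
    (h : TAx d τ x y) (g : G) :
    ∃ n : ℕ, Flip d y x (g * τ ^ n) ∨ Pos d x y (τ * (g * τ ^ n)) := by
  obtain ⟨n1, hn1⟩ := tax_exists_neg hd hiso h (g⁻¹ • x)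
  obtain ⟨n2, hn2⟩ := tax_exists_neg hd hiso h (g⁻¹ • y)
  set n := max n1 n2 with hn
  have h1 := (hn1 n (le_max_left _ _)).smul hiso g
  have h2 := (hn2 n (le_max_right _ _)).smul hiso g
  rw [smul_inv_smul, ← mul_smul, ← mul_smul] at h1 h2
  refine ⟨n, ?_⟩
  set g' := g * τ ^ n with hg'
  by_cases hcase : Bt d y x (g' • x)
  · left
    exact ord_of_bt' hcase h2
  · right
    -- `y`, `τ x`, `τ y`, `τ g' x`
    have hne : τ • x ≠ τ • g' • x := by
      intro he
      apply hcase
      have : x = g' • x := MulAction.injective _ he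
      rw [← this]
      unfold Bt
      rw [hd.self]
      omega
    have hcase' : ¬ Bt d (τ • y) (τ • x) (τ • g' • x) := by
      intro hb
      apply hcase
      have := hb.smul hiso τ⁻¹
      rwa [inv_smul_smul, inv_smul_smul, inv_smul_smul] at this
    have h1' := h1.smul hiso τ
    have hb : Bt d y (τ • x) (τ • g' • x) := by
      have f := hd.four y (τ • y) (τ • x) (τ • g' • x)
      have a2 := h.a2
      have t1 := hd.tri (τ • y) (τ • x) (τ • g' • x)
      have t2 := hd.tri y (τ • x) (τ • g' • x)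
      have s1 := hd.symm (τ • x) (τ • y)
      unfold Bt at *
      omega
    have hc := ord_of_bt hd h.a1 hb h.ne'
    have hc2 := ord_of_bt hd hb h1' hne
    have hb2 : Bt d y (τ • g' • x) (τ • g' • y) := hc2.bt4 hd
    have hb3 : Bt d x y (τ • g' • x) := hc.bt3 hd
    have hb4 : y ≠ τ • g' • x := by
      intro he
      have e1 := hb
      rw [← he] at e1
      have e2 := hd.pos h.ne'
      unfold Bt at e1
      rw [hd.self] at e1
      omega
    have h3 := ord_of_bt hd hb3 hb2 hb4
    show Ord d x y ((τ * g') • x) ((τ * g') • y)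
    rw [mul_smul τ g' x, mul_smul τ g' y]
    exact h3

/-- One-sided stability makes the segment stabiliser commensurated. -/
theorem StabR.all (hd : TreeLike d) (hiso : ∀ (g : G) v w, d (g • v) (g • w) = d v w)
    (h : TAx d τ x y) {C : Subgroup G} (hS : StabR d C x y) (hr : Flip d x y r) (g : G) :
    Cm C g := by
  have hτ : Cm C τ := hS.pos hd hiso h.ne hr (tax_pos hd h)
  obtain ⟨n, hn | hn⟩ := tax_trichotomy hd hiso h g
  · exact (hτ.pow n).of_mul_right (hS.flip' hd hiso h.ne hr hn)
  · exact (hτ.pow n).of_mul_right (hτ.of_mul_left (hS.pos hd hiso h.ne hr hn))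

/-- Extension of a one-sided configuration. -/
lemma exists_extend (hd : TreeLike d) (hiso : ∀ (g : G) v w, d (g • v) (g • w) = d v w)
    (hxy : x ≠ y) {l : G} (hl : Flip d y x l) (hg : Pos d x y g ∨ Flip d x y g) :
    ∃ R : G, Pos d x y R ∧ Bt d y (g • x) (R • y) ∧ Bt d y (g • y) (R • y) := by
  rcases hg with hg | hg
  · refine ⟨g, hg, hg.bt2 hd, ?_⟩
    unfold Bt
    rw [hd.self]
    omega
  · have h1 := hg.mul_flip hd hiso hxy.symm hl
    refine ⟨g * l, h1, ?_, ?_⟩
    · have h2 := Ord.smul hiso hl g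
      rw [← mul_smul, ← mul_smul] at h2
      -- `x, y, g y, g x, g l x, g l y`
      have h3 := ord_of_bt hd (hg.bt2 hd) (h2.bt3 hd) (fun he => hxy (MulAction.injective _ he.symm))
      exact h3.bt4 hd
    · have h2 := Ord.smul hiso hl g
      rw [← mul_smul, ← mul_smul] at h2
      have h3 := ord_of_bt hd (hg.bt2 hd) (h2.bt3 hd) (fun he => hxy (MulAction.injective _ he.symm))
      exact h3.bt3 hd

/-- The square of a translation has an axis through a longer segment. -/
lemma tax_double (hd : TreeLike d) (hiso : ∀ (g : G) v w, d (g • v) (g • w) = d v w)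
    (h : TAx d τ x y) : TAx d (τ * τ) x (τ • y) := by
  have p1 := tax_pos hd h
  have p2 := Ord.smul hiso p1 τ
  have p3 := Ord.smul hiso p2 τ
  have hne1 : τ • x ≠ τ • y := fun he => h.ne (MulAction.injective _ he)
  have hne2 : τ • τ • x ≠ τ • τ • y := fun he => hne1 (MulAction.injective _ he)
  have hne3 : τ • y ≠ τ • τ • x := fun he => h.ne' (MulAction.injective _ he)
  have p1' : Ord d x y (τ • x) (τ • y) := p1
  have q1 : Ord d x (τ • x) (τ • y) (τ • τ • x) := ord_of_bt hd (p1'.bt4 hd) (p2.bt1 hd) hne1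
  have q2 : Ord d (τ • y) (τ • τ • x) (τ • τ • y) (τ • τ • τ • y) :=
    ord_of_bt hd (p2.bt2 hd) (p3.bt3 hd) hne2
  refine ⟨?_, ?_, ?_, ?_⟩
  · intro he
    have h1 := p1'.bt3 hd
    rw [← he] at h1
    have h2 := hd.pos h.ne
    unfold Bt at h1
    rw [hd.self] at h1
    omega
  · rw [mul_smul]; exact hne3
  · rw [mul_smul]; exact q1.bt4 hd
  · rw [mul_smul, mul_smul]
    exact q2.bt3 hd

end Ord

end Pool.Agent.H74.CC
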