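import Pool.Agent.H74.CC7
import Pool.Agent.H29.TreeAxis

/-!
# Groups without fixed end: existence of flips
-/

open Set Filter Topology Metric
open Pool.Agent.H29

set_option linter.unusedSectionVars false

namespace Pool.Agent.H74.CC

section Flips

variable {G V : Type*} [Group G] [MulAction G V] {T : SimpleGraph V}

lemma treeLike_dist (hT : T.IsTree) : TreeLike T.dist where
  self := fun _ => SimpleGraph.dist_self
  symm := fun _ _ => SimpleGraph.dist_comm
  eq_of := fun _ _ h => hT.connected.dist_eq_zero_iff.mp h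
  tri := fun _ _ _ => hT.connected.dist_triangle
  four := tree_four hT

lemma exists_point (hT : T.IsTree) (x : V) (n : ℕ) : ∀ p : V, T.dist x p = n → ∀ i ≤ n,
    ∃ w, T.dist x w = i ∧ Bt T.dist x w p := by
  induction n with
  | zero =>
    intro p hp i hi
    refine ⟨p, by omega, ?_⟩
    unfold Bt
    rw [SimpleGraph.dist_self]
    omega
  | succ n ih =>
    intro p hp i hi
    rcases Nat.eq_or_lt_of_le hi with h | h
    · refine ⟨p, by omega, ?_⟩
      unfold Bt
      rw [SimpleGraph.dist_self]
      omega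
    · have hne : x ≠ p := by
        rintro rfl
        rw [SimpleGraph.dist_self] at hp
        omega
      obtain ⟨z, hz1, hz2⟩ := tree_exists_step hT hne
      obtain ⟨w, hw1, hw2⟩ := ih z (by omega) i (by omega)
      refine ⟨w, hw1, ?_⟩
      have h1 : T.dist z p = 1 := SimpleGraph.dist_eq_one_iff_adj.mpr hz1
      have t1 := hT.connected.dist_triangle (u := w) (v := z) (w := p)
      have t2 := hT.connected.dist_triangle (u := x) (v := w) (w := p)
      unfold Bt at *
      omega

variable {τ : G} {x y : V}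

theorem exists_flip (hT : T.IsTree) (hadj : ∀ (g : G) v w, T.Adj v w → T.Adj (g • v) (g • w))
    (h : TAx T.dist τ x y)
    (hend : ∀ ρ : ℕ → V, (∀ i j, T.dist (ρ i) (ρ (i + j)) = j) →
      ∃ g : G, ∀ m n, ∃ i, g • ρ (m + i) ≠ ρ (n + i)) :
    ∃ r : G, Flip T.dist x y r := by
  by_contra hno
  push Not at hno
  have hd := treeLike_dist hT
  have hiso : ∀ (g : G) v w, T.dist (g • v) (g • w) = T.dist v w := dist_smul_tree hT hadj
  set d := T.dist with hddef
  set σ : G := τ⁻¹ with hσ
  have h' : TAx d σ y x := h.rev hd hiso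
  set s : ℕ → V := fun n => σ ^ n • y with hs
  have hs0 : s 0 = y := by simp [hs]
  have hss : ∀ n m, n ≤ m → Bt d y (s n) (s m) := by
    intro n m hnm
    induction m, hnm using Nat.le_induction with
    | base =>
      unfold Bt
      rw [hd.self]
      omega
    | succ m hm ih =>
      have h1 := h'.zpow hiso (m : ℤ)
      have h2 := (h'.dist_pow hd hiso m).1
      have h3 := h1.a1
      rw [zpow_natCast] at h3
      have e : σ • σ ^ m • y = s (m + 1) := by
        show σ • σ ^ m • y = σ ^ (m + 1) • y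
        rw [smul_smul, ← pow_succ']
      rw [e] at h3
      have h4 : Bt d y (s m) (s (m + 1)) := by
        have hne : σ ^ m • y ≠ σ ^ m • x := fun he => h'.ne (MulAction.injective _ he)
        exact (ord_of_bt hd h2 h3 hne).bt3 hd
      exact ih.trans_left hd h4
  have hsn : ∀ n, n ≤ d y (s n) := fun n => (h'.dist_pow hd hiso n).2
  -- the ray
  choose ρ hρ1' hρ2 using fun i : ℕ => exists_point hT y _ (s i) rfl i (hsn i)
  have hρ1 : ∀ i, d y (ρ i) = i := hρ1'
  have hρs : ∀ i n, i ≤ n → Bt d y (ρ i) (s n) := fun i n hin =>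
    Bt.trans_left hd (hρ2 i) (hss i n hin)
  -- two points on a segment
  have hseg : ∀ a b p : V, Bt d y a p → Bt d y b p → d y a ≤ d y b → Bt d y a b := by
    intro a b p h1 h2 h3
    have f := hd.four y p a b
    have s1 := hd.symm p a
    have s2 := hd.symm p b
    have t := hd.tri y a b
    unfold Bt at *
    omega
  have hray : ∀ i j, d (ρ i) (ρ (i + j)) = j := by
    intro i j
    have h1 := hseg (ρ i) (ρ (i + j)) (s (i + j)) (hρs i (i + j) (by omega))
      (hρs (i + j) (i + j) le_rfl) (by rw [hρ1, hρ1]; omega)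
    have e1 := hρ1 i
    have e2 := hρ1 (i + j)
    unfold Bt at h1
    rw [e1, e2] at h1
    omega
  obtain ⟨g, hg⟩ := hend ρ hray
  -- the translated points
  have hC : ∀ n, ∃ M, ∀ m, M ≤ m → Bt d y (s n) (g • s m) := by
    intro n
    obtain ⟨M, hM⟩ := tax_exists_neg hd hiso h' (g⁻¹ • σ ^ n • x)
    refine ⟨M, fun m hm => ?_⟩
    have h1 := (hM m hm).smul hiso g
    rw [smul_inv_smul] at h1
    have h2 : ¬ Bt d (σ ^ n • x) (s n) (g • s m) := by
      intro hb
      apply hno (τ ^ n * (g * σ ^ m))
      have h3 : Ord d (σ ^ n • x) (σ ^ n • y) (g • σ ^ m • y) (g • σ ^ m • x) :=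
        ord_of_bt' hb h1
      have h4 := h3.smul hiso (τ ^ n)
      have e : ∀ v : V, τ ^ n • σ ^ n • v = v := by
        intro v
        rw [hσ, inv_pow, smul_inv_smul]
      rw [e, e] at h4
      show Ord d x y ((τ ^ n * (g * σ ^ m)) • y) ((τ ^ n * (g * σ ^ m)) • x)
      rw [mul_smul, mul_smul, mul_smul, mul_smul]
      exact h4
    have h5 : Bt d y (s n) (σ ^ n • x) := (h'.dist_pow hd hiso n).1
    have f := hd.four y (σ ^ n • x) (s n) (g • s m)
    have s1 := hd.symm (σ ^ n • x) (s n)
    have t := hd.tri (σ ^ n • x) (s n) (g • s m)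
    have t2 := hd.tri y (s n) (g • s m)
    unfold Bt at *
    omega
  set D := d y (g • y) with hD
  set n0 := D + 1 with hn0
  obtain ⟨i, hi⟩ := hg (d (g • y) (s n0)) (d y (s n0))
  apply hi
  set j0 := d (g • y) (s n0) with hj0
  set i0 := d y (s n0) with hi0
  set N := n0 + (i0 + i) with hN
  obtain ⟨M1, hM1⟩ := hC n0
  obtain ⟨M2, hM2⟩ := hC N
  set m := max (max M1 M2) (j0 + i) with hm
  have hm1 : Bt d y (s n0) (g • s m) := hM1 m (le_trans (le_max_left _ _) (le_max_left _ _))
  have hm2 : Bt d y (s N) (g • s m) := hM2 m (le_trans (le_max_right _ _) (le_max_left _ _))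
  have hm3 : j0 + i ≤ m := le_max_right _ _
  set w := g • s m with hw
  set v := ρ (i0 + i) with hv
  have hv1 : d y v = i0 + i := hρ1 _
  have hv2 : Bt d y v (s N) := hρs _ _ (by omega)
  have hv3 : Bt d y (s n0) v := hseg _ _ (s N) (hss _ _ (by omega)) hv2 (by rw [hv1]; omega)
  have hsN := hss n0 N (by omega)
  have hn0' : D < d y (s n0) := by
    have := hsn n0
    omega
  -- `s n0` lies between `g y` and `w`
  have hE : Bt d (g • y) (s n0) w := by
    have f := hd.four y w (g • y) (s n0)
    have s1 := hd.symm w (s n0)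
    have s2 := hd.symm w (g • y)
    have t := hd.tri (g • y) (s n0) w
    unfold Bt at *
    omega
  have hF : Bt d (g • y) v w ∧ d (g • y) v = j0 + i := by
    have t1 := hd.tri (g • y) (s n0) v
    have t2 := hd.tri (g • y) v w
    have t3 := hd.tri v (s N) w
    have t4 := hd.tri (s n0) v w
    unfold Bt at *
    omega
  have hG : Bt d (g • y) (g • ρ (j0 + i)) w := (hρs (j0 + i) m hm3).smul hiso g
  symm
  apply Bt.unique hd hF.1 hG
  rw [hF.2, hiso, hρ1]

end Flips

end Pool.Agent.H74.CC
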