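import Pool.Agent.H74.CC8

/-!
# Splittings over convex cocompact subgroups with rank one elements
-/

open Set Filter Topology Metric
open Pool.Agent.H29

set_option linter.unusedSectionVars false

namespace Pool.Agent.H74.CC

universe u

variable {G : Type*} {X : Type u} {V : Type*} [Group G] [MetricSpace X] [IsCAT0 X] [ProperSpace X]
  [MulAction G X] [IsIsometricSMul G X] [ProperlyDiscontinuousSMul G X] [MulAction G V]
  {T : SimpleGraph V}

/-- a commensurated convex cocompact segment stabiliser is finite -/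
lemma finite_of_all [Nonempty X] (hgc : GeodesicallyComplete X) (hcoc : Cocompact G X)
    (hirr : MetricIrreducible X) {d : V → V → ℕ} (hd : TreeLike d)
    (hiso : ∀ (g : G) v w, d (g • v) (g • w) = d v w) {τ : G} {x y : V} (h : TAx d τ x y)
    (hall : ∀ g : G, Cm (stab2 x y : Subgroup G) g) {Y : Set X}
    (hY : IsNC (stab2 x y : Subgroup G) Y) (hYne : Y.Nonempty)
    (hYc : CocompactOn (stab2 x y : Subgroup G) Y) :
    {g : G | g • x = x ∧ g • y = y}.Finite := by
  rcases commensurated_split hgc hcoc hirr hall hY hYne hYc with hf | hi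
  · exact hf
  · exfalso
    rw [Subgroup.relIndex_top_right] at hi
    obtain ⟨n, hn, _, hn2⟩ := Subgroup.exists_pow_mem_of_index_ne_zero hi τ
    have h1 : τ ^ n • x = x := hn2.1
    have h2 := (h.dist_pow hd hiso n).2
    rw [h1, hd.self] at h2
    omega

theorem rankOne_of_flips [Nonempty X] (hgc : GeodesicallyComplete X) (hcoc : Cocompact G X)
    (hirr : MetricIrreducible X) (hT : T.IsTree)
    (hadj : ∀ (g : G) v w, T.Adj v w → T.Adj (g • v) (g • w)) {τ : G} {x y : V}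
    (h : TAx T.dist τ x y) {l r : G} (hl : Flip T.dist y x l) (hr : Flip T.dist x y r)
    {Y : Set X} (hY : IsNC (stab2 x y : Subgroup G) Y)
    (hYc : CocompactOn (stab2 x y : Subgroup G) Y)
    {k : G} (hk : k ∈ (stab2 x y : Subgroup G)) {c : ℝ → X} (hc : Isometry c)
    (hcY : ∀ t, c t ∈ Y) {a : ℝ} (ha : 0 < a) (hax : ∀ t, k • c t = c (t + a))
    (hnb : ¬ BoundsHalfPlaneIn Y c) : ∃ g : G, IsRankOne (X := X) g := by
  have hd := treeLike_dist hT
  have hiso : ∀ (g : G) v w, T.dist (g • v) (g • w) = T.dist v w := dist_smul_tree hT hadj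
  have hfin : ∀ (σ : G) (z w : V), TAx T.dist σ z w →
      {g : G | g • z = z ∧ g • w = w}.Finite → IsRankOne (X := X) σ := by
    intro σ z w h hf
    exact TAxis.rankOne (T := T) hcoc hT hadj ⟨h.ne, h.ne', h.a1, h.a2⟩ hf
  have hYne : Y.Nonempty := ⟨_, hcY 0⟩
  by_cases hR : StabR T.dist (stab2 x y : Subgroup G) x y
  · exact ⟨τ, hfin τ x y h (finite_of_all hgc hcoc hirr hd hiso h
      (fun g => hR.all hd hiso h hr g) hY hYne hYc)⟩
  by_cases hL : StabR T.dist (stab2 x y : Subgroup G) y x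
  · exact ⟨τ, hfin τ x y h (finite_of_all hgc hcoc hirr hd hiso h
      (fun g => hL.all hd hiso (h.rev hd hiso) hl g) hY hYne hYc)⟩
  unfold StabR at hR hL
  push Not at hR hL
  obtain ⟨g2, hg2, hi2⟩ := hR
  obtain ⟨g1, hg1, hi1⟩ := hL
  obtain ⟨h0, hh0, hF⟩ := exists_finite_inf hY hYc (isNC_smul hY g1) (hYne.image _)
    (cocompactOn_smul hYc g1) (isNC_smul hY g2) (hYne.image _) (cocompactOn_smul hYc g2)
    hk hc hcY ha hax hnb hi1 hi2
  rw [map_conj_conj] at hF
  have hh0x : h0 • x = x := hh0.1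
  have hh0y : h0 • y = y := hh0.2
  have hg2' : Pos T.dist x y (h0 * g2) ∨ Flip T.dist x y (h0 * g2) := by
    rcases hg2 with hg | hg
    · left
      have := Ord.smul hiso hg h0
      rwa [hh0x, hh0y, ← mul_smul, ← mul_smul] at this
    · right
      have := Ord.smul hiso hg h0
      rwa [hh0x, hh0y, ← mul_smul, ← mul_smul] at this
  obtain ⟨R, hR1, hR2, hR3⟩ := exists_extend hd hiso h.ne hl hg2'
  obtain ⟨L, hL1, hL2, hL3⟩ := exists_extend hd hiso h.ne.symm hr hg1
  -- the translation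
  have e1 : Ord T.dist (L • x) (L • y) x y := Ord.symm hd hL1
  have e2 : Ord T.dist x y (R • x) (R • y) := hR1
  have e3 := Ord.trans hd e1 e2 h.ne
  have e4 := ord_of_bt hd (e1.bt2 hd) (e2.bt1 hd) h.ne
  have hpos := hd.pos h.ne
  have eR : ∀ v : V, (R * L⁻¹) • L • v = R • v := by
    intro v
    rw [mul_smul, inv_smul_smul]
  have hax' : TAx T.dist (R * L⁻¹) (L • x) (L • y) := by
    refine ⟨fun he => h.ne (MulAction.injective _ he), ?_, ?_, ?_⟩
    · rw [eR]
      intro he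
      unfold Ord at e4
      rw [he, hd.self] at e4
      omega
    · rw [eR]
      exact e3.bt1 hd
    · rw [eR, eR]
      exact e3.bt2 hd
  have hax2 := tax_double hd hiso hax'
  rw [eR] at hax2
  refine ⟨_, hfin _ _ _ hax2 (hF.subset ?_)⟩
  rintro g ⟨hgL, hgR⟩
  have e5 := ord_of_bt hd (e1.bt4 hd) (e2.bt3 hd) h.ne
  have hgx : g • x = x := Bt.fix hd hiso (e5.bt3 hd) hgL hgR
  have hgy : g • y = y := Bt.fix hd hiso (e5.bt4 hd) hgL hgR
  refine ⟨⟨⟨hgx, hgy⟩, ?_⟩, ?_⟩
  · rw [SetLike.mem_coe, map_stab]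
    exact ⟨Bt.fix hd hiso hL3 hgx hgL, Bt.fix hd hiso hL2 hgx hgL⟩
  · rw [SetLike.mem_coe, map_stab]
    exact ⟨Bt.fix hd hiso hR2 hgy hgR, Bt.fix hd hiso hR3 hgy hgR⟩

/-- convexity in terms of metric intervals -/
lemma gconvex_of_interval {Y : Set X}
    (h : ∀ p ∈ Y, ∀ q ∈ Y, ∀ z, dist p z + dist z q = dist p q → z ∈ Y) : GConvex Y := by
  intro p hp q hq t ht
  apply h p hp q hq
  rw [dist_left_pt _ _ ht, dist_pt_right _ _ ht]
  ring

theorem rankOne_of_convexCocompact [Nonempty X] (hgc : GeodesicallyComplete X)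
    (hcoc : Cocompact G X) (hirr : MetricIrreducible X) (hT : T.IsTree)
    (hadj : ∀ (g : G) v w, T.Adj v w → T.Adj (g • v) (g • w)) {τ : G} {x y : V}
    (h : TAx T.dist τ x y)
    (hend : ∀ ρ : ℕ → V, (∀ i j, T.dist (ρ i) (ρ (i + j)) = j) →
      ∃ g : G, ∀ m n, ∃ i, g • ρ (m + i) ≠ ρ (n + i))
    {Y : Set X} (hY : IsNC (stab2 x y : Subgroup G) Y)
    (hYc : CocompactOn (stab2 x y : Subgroup G) Y)
    {k : G} (hk : k ∈ (stab2 x y : Subgroup G)) {c : ℝ → X} (hc : Isometry c)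
    (hcY : ∀ t, c t ∈ Y) {a : ℝ} (ha : a ≠ 0) (hax : ∀ t, k • c t = c (t + a))
    (hnb : ¬ BoundsHalfPlaneIn Y c) : ∃ g : G, IsRankOne (X := X) g := by
  have hd := treeLike_dist hT
  have hiso : ∀ (g : G) v w, T.dist (g • v) (g • w) = T.dist v w := dist_smul_tree hT hadj
  obtain ⟨r, hr⟩ := exists_flip hT hadj h hend
  obtain ⟨l, hl⟩ := exists_flip hT hadj (h.rev hd hiso) hend
  rcases lt_or_gt_of_ne ha with h0 | h0
  · refine rankOne_of_flips hgc hcoc hirr hT hadj h hl hr hY hYc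
      ((stab2 x y : Subgroup G).inv_mem hk) hc hcY (a := -a) (by linarith) ?_ hnb
    intro t
    rw [inv_smul_eq_iff, hax]
    congr 1
    ring
  · exact rankOne_of_flips hgc hcoc hirr hT hadj h hl hr hY hYc hk hc hcY h0 hax hnb

end Pool.Agent.H74.CC
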