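import Pool.Agent.H74.CC6

/-!
# Commuting elements act trivially on a rank one minimal set
-/

open Set Filter Topology Metric
open Pool.Agent.H29

set_option linter.unusedSectionVars false

namespace Pool.Agent.H74.CC

section General

variable {X : Type*} [MetricSpace X] [IsCAT0 X] [ProperSpace X]

/-- A line at arbitrarily large constant distance from convex sets bounds a half-plane. -/
theorem halfPlane_of_far {Y : Set X} (hYc : IsClosed Y) (hYconv : GConvex Y) {c : ℝ → X}
    (hc : Isometry c) (hcY : ∀ t, c t ∈ Y)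
    (h : ∀ S : ℝ, ∃ Z : Set X, Z ⊆ Y ∧ IsClosed Z ∧ Z.Nonempty ∧ GConvex Z ∧
      (∀ t, infDist (c t) Z = infDist (c 0) Z) ∧ S < infDist (c 0) Z) :
    BoundsHalfPlaneIn Y c := by
  apply halfPlane_of_approx hYc hYconv hc hcY (σ := 0) zero_lt_one
  intro N
  obtain ⟨Z, hZY, hZc, hZne, hZconv, hZconst, hZN⟩ := h N
  set s := infDist (c 0) Z with hs
  have hspos : 0 < s := lt_of_le_of_lt (Nat.cast_nonneg N) hZN
  set q := proj Z (c 0) with hq
  have hqY : q ∈ Y := hZY (proj_mem hZc hZne (c 0))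
  have hdq : dist (c 0) q = s := dist_proj hZc hZne (c 0)
  have hI : ∀ u : ℝ, 0 ≤ u → u ≤ N → u / s ∈ Icc (0 : ℝ) 1 := fun u hu huN =>
    ⟨div_nonneg hu hspos.le, (div_le_one hspos).mpr (by linarith)⟩
  refine ⟨fun u => pt (c 0) q (u / s), 0, by simp, ?_, ?_, ?_, ?_⟩
  · show pt (c 0) q (0 / s) = c 0
    rw [zero_div, pt_zero]
  · intro u hu huN
    exact hYconv _ (hcY 0) _ hqY _ (hI u hu huN)
  · intro u v hu huN hv hvN
    show dist (pt (c 0) q (u / s)) (pt (c 0) q (v / s)) = _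
    rw [dist_pt_pt _ _ (hI u hu huN) (hI v hv hvN), hdq, ← sub_div, abs_div,
      abs_of_pos hspos]
    exact div_mul_cancel₀ _ hspos.ne'
  · intro t u _ hu huN
    show dist (c t) (pt (c 0) q (u / s)) ^ 2 ≤ _
    have h1 := cn_pt (c t) (c 0) q (hI u hu huN)
    have h2 := dist_proj_line hZc hZne hZconv hc hZconst t
    rw [hc.dist_eq, Real.dist_eq, sub_zero, sq_abs, hdq] at h1
    have h3 : u / s * dist (c t) q ^ 2 ≤ u / s * (t ^ 2 + s ^ 2) :=
      mul_le_mul_of_nonneg_left h2 (hI u hu huN).1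
    have h4 : u / s * (t ^ 2 + s ^ 2) + (1 - u / s) * t ^ 2 - u / s * (1 - u / s) * s ^ 2 =
        t ^ 2 + u ^ 2 := by
      field_simp
      ring
    have h5 : 0 ≤ 2 * u * (0 * t + 1 / ((N : ℝ) + 1)) := by
      rw [zero_mul, zero_add]
      positivity
    linarith

lemma ConvR.ge_of_lt {h : ℝ → ℝ} (hh : ConvR h) {t0 t : ℝ} (h0 : 0 ≤ t0) (hlt : h 0 < h t0)
    (ht : t0 ≤ t) : h t0 ≤ h t := by
  rcases eq_or_lt_of_le h0 with rfl | h0'
  · exact absurd hlt (lt_irrefl _)
  rcases eq_or_lt_of_le ht with rfl | ht'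
  · exact le_rfl
  have h1 := slope_le hh (x := 0) (y := t0) (z := t0) (w := t) h0' le_rfl ht'
  have h2 : 0 < (h t0 - h 0) / (t0 - 0) := div_pos (by linarith) (by linarith)
  have h3 : 0 < (h t - h t0) / (t - t0) := lt_of_lt_of_le h2 h1
  have h4 : 0 < h t - h t0 := by
    have h5 : 0 < t - t0 := by linarith
    have := mul_pos h3 h5
    rwa [div_mul_cancel₀ _ h5.ne'] at this
  linarith

end General

variable {G : Type*} {X : Type*} [Group G] [MetricSpace X] [IsCAT0 X] [ProperSpace X]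
  [MulAction G X] [IsIsometricSMul G X]

lemma smul_zpow_line {k : G} {c : ℝ → X} {a : ℝ} (hax : ∀ t, k • c t = c (t + a)) (n : ℤ) (t : ℝ) :
    k ^ n • c t = c (t + n * a) := by
  cases n with
  | ofNat n =>
    rw [Int.ofNat_eq_natCast, zpow_natCast, smul_pow_line hax]
    push_cast
    rfl
  | negSucc n =>
    rw [zpow_negSucc, inv_smul_eq_iff, smul_pow_line hax]
    congr 1
    push_cast
    ring

lemma inv_line {k : G} {c : ℝ → X} {a : ℝ} (hax : ∀ t, k • c t = c (t + a)) (t : ℝ) :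
    k⁻¹ • c (-t) = c (-(t + a)) := by
  rw [inv_smul_eq_iff, hax]
  congr 1
  ring

lemma isNC_line {k : G} {c : ℝ → X} (hc : Isometry c) {a : ℝ} (hax : ∀ t, k • c t = c (t + a)) :
    IsNC (Subgroup.zpowers k) (range c) := by
  refine ⟨hc.isClosedEmbedding.isClosed_range, ?_, ?_⟩
  · rintro _ ⟨s, rfl⟩ _ ⟨t, rfl⟩ l hl
    exact ⟨_, line_pt hc s t hl⟩
  · rintro n hn _ ⟨t, rfl⟩
    obtain ⟨j, rfl⟩ := Subgroup.mem_zpowers_iff.mp hn
    exact ⟨_, (smul_zpow_line hax j t).symm⟩

lemma cocompactOn_line {k : G} {c : ℝ → X} (hc : Isometry c) {a : ℝ} (ha : 0 < a)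
    (hax : ∀ t, k • c t = c (t + a)) : CocompactOn (Subgroup.zpowers k) (range c) := by
  refine ⟨c '' Icc 0 a, isCompact_Icc.image hc.continuous, ?_⟩
  rintro _ ⟨t, rfl⟩
  refine ⟨k ^ (-⌊t / a⌋), Subgroup.zpow_mem_zpowers k _, ?_⟩
  rw [smul_zpow_line hax]
  refine ⟨_, ⟨?_, ?_⟩, rfl⟩
  · have h1 := Int.floor_le (t / a)
    rw [le_div_iff₀ ha] at h1
    push_cast
    linarith
  · have h1 := Int.lt_floor_add_one (t / a)
    rw [div_lt_iff₀ ha] at h1
    push_cast
    linarith

/-- subgroups of finite index are cocompact -/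
lemma CocompactOn.finiteIndex {H H0 : Subgroup G} {Y : Set X} (h : CocompactOn H Y)
    (hidx : H0.relIndex H ≠ 0) : CocompactOn H0 Y := by
  obtain ⟨K, hK, hc⟩ := h
  have hfin : Finite (H ⧸ H0.subgroupOf H) := by
    have : (H0.subgroupOf H).FiniteIndex := ⟨hidx⟩
    exact Subgroup.finite_quotient_of_finiteIndex
  refine ⟨⋃ q : H ⧸ H0.subgroupOf H, (fun x => ((Quotient.out q : H) : G)⁻¹ • x) '' K,
    isCompact_iUnion (fun q => hK.image (isometry_smul X _).continuous), ?_⟩
  intro p hp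
  obtain ⟨g, hg, hgK⟩ := hc p hp
  set q : H ⧸ H0.subgroupOf H := QuotientGroup.mk ⟨g, hg⟩ with hq
  have h1 : (QuotientGroup.mk (Quotient.out q) : H ⧸ H0.subgroupOf H) =
      QuotientGroup.mk ⟨g, hg⟩ := QuotientGroup.out_eq' q
  rw [QuotientGroup.eq] at h1
  have h2 : ((Quotient.out q : H) : G)⁻¹ * g ∈ H0 := h1
  refine ⟨_, h2, mem_iUnion.mpr ⟨q, g • p, hgK, ?_⟩⟩
  show ((Quotient.out q : H) : G)⁻¹ • g • p = _
  rw [mul_smul]

/-- isometries of `M` commuting with `H0` and moving all points by the same distance -/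
structure Cliff (H0 : Subgroup G) (M : Set X) (D : X → X) (δ : ℝ) : Prop where
  maps : ∀ p ∈ M, D p ∈ M
  iso : ∀ p ∈ M, ∀ q ∈ M, dist (D p) (D q) = dist p q
  comm : ∀ h ∈ H0, ∀ p ∈ M, D (h • p) = h • D p
  disp : ∀ p ∈ M, dist p (D p) = δ

lemma Cliff.double {H0 : Subgroup G} {M : Set X} {D : X → X} {δ : ℝ} (hM : IsNC H0 M)
    (h : Cliff H0 M D δ) : Cliff H0 M (fun p => D (D p)) (2 * δ) := by
  refine ⟨fun p hp => h.maps _ (h.maps p hp), ?_, ?_, ?_⟩
  · intro p hp q hq
    rw [h.iso _ (h.maps p hp) _ (h.maps q hq), h.iso p hp q hq]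
  · intro g hg p hp
    show D (D (g • p)) = g • D (D p)
    rw [h.comm g hg p hp, h.comm g hg _ (h.maps p hp)]
  · intro p hp
    have hp1 := h.maps p hp
    have hp2 := h.maps _ hp1
    set m := pt p (D p) (1 / 2) with hm
    have hmM : m ∈ M := hM.convex p hp _ hp1 _ half_mem_I
    have hDm : D m = pt (D p) (D (D p)) (1 / 2) := by
      apply eq_pt half_mem_I
      · rw [h.iso p hp m hmM, h.iso p hp _ hp1, hm, dist_left_pt _ _ half_mem_I]
      · rw [h.iso m hmM _ hp1, h.iso p hp _ hp1, hm, dist_pt_right _ _ half_mem_I]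
    have h1 := h.disp m hmM
    have h2 : m = pt (D p) p (1 / 2) := by
      rw [hm, pt_comm p (D p) half_mem_I]
      norm_num
    have h3 := dist_pt_pt_left_le (D p) p (D (D p)) half_mem_I
    rw [← h2, ← hDm, h1] at h3
    have h4 := dist_triangle p (D p) (D (D p))
    have h5 := h.iso p hp _ hp1
    have h6 := h.disp p hp
    rw [h5, h6] at h4
    linarith

lemma Cliff.iterate {H0 : Subgroup G} {M : Set X} {D : X → X} {δ : ℝ} (hM : IsNC H0 M)
    (h : Cliff H0 M D δ) (j : ℕ) : ∃ D', Cliff H0 M D' (2 ^ j * δ) := by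
  induction j with
  | zero => exact ⟨D, by simpa using h⟩
  | succ j ih =>
    obtain ⟨D', hD'⟩ := ih
    refine ⟨fun p => D' (D' p), ?_⟩
    have := hD'.double hM
    have e : 2 ^ (j + 1) * δ = 2 * (2 ^ j * δ) := by ring
    rw [e]
    exact this

/-- **Elements commuting with a rank one group act trivially on its minimal set.** -/
theorem proj_smul_eq [ProperlyDiscontinuousSMul G X] {H0 : Subgroup G} {M : Set X}
    (hM : IsMinl H0 M) (hMcoc : CocompactOn H0 M) {k : G} (hk : k ∈ H0) {c : ℝ → X}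
    (hc : Isometry c) (hcM : ∀ t, c t ∈ M) {a : ℝ} (ha : 0 < a) (hax : ∀ t, k • c t = c (t + a))
    (hnb : ¬ BoundsHalfPlaneIn M c) (hcyc : (Subgroup.zpowers k).relIndex H0 = 0) {z : G}
    (hz : ∀ h ∈ H0, z * h = h * z) : ∀ q ∈ M, proj M (z • q) = q := by
  by_contra hcon
  push Not at hcon
  obtain ⟨q, hq, hqne⟩ := hcon
  -- the induced isometry
  have hzM : IsMinl H0 ((fun x => z • x) '' M) := by
    apply hM.image
    · intro p _ q _
      rw [dist_smul]
    · intro n hn p _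
      show z • n • p = n • z • p
      rw [smul_smul, smul_smul, hz n hn]
  have hmem : ∀ p ∈ M, z • p ∈ (fun x => z • x) '' M := fun p hp => ⟨p, hp, rfl⟩
  obtain ⟨δ, hδ⟩ : ∃ δ, Cliff H0 M (fun p => proj M (z • p)) δ := by
    refine ⟨dist q (proj M (z • q)), ?_, ?_, ?_, ?_⟩
    · intro p _
      exact proj_mem hM.isNC.closed hM.ne _
    · intro p hp q hq
      show dist (proj M (z • p)) (proj M (z • q)) = _
      rw [hzM.dist_proj_proj hM (hmem p hp) (hmem q hq), dist_smul]
    · intro n hn p _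
      show proj M (z • n • p) = n • proj M (z • p)
      rw [← hM.isNC.proj_smul hM.ne hn, smul_smul, smul_smul, hz n hn]
    · intro p hp
      have h1 := hzM.pyth' hM (hmem p hp) hp
      have h2 := hzM.pyth' hM (hmem q hq) hq
      have h3 := hzM.dist_const hM (hmem p hp) (hmem q hq)
      have h4 : dist p (z • p) = dist q (z • q) :=
        hM.const (gconvexFun_disp z) (continuous_disp z) (by
          intro n hn x
          show dist (n • x) (z • n • x) = dist x (z • x)
          rw [smul_smul, hz n hn, mul_smul, dist_smul]) hp hq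
      rw [dist_comm (z • p) p, dist_comm (proj M (z • p)) p] at h1
      rw [dist_comm (z • q) q, dist_comm (proj M (z • q)) q] at h2
      have h5 : dist p (proj M (z • p)) ^ 2 = dist q (proj M (z • q)) ^ 2 := by
        rw [h3, h4] at h1
        linarith
      exact (pow_left_inj₀ dist_nonneg dist_nonneg two_ne_zero).mp h5
  have hδpos : 0 < δ := by
    rw [← hδ.disp q hq]
    exact dist_pos.mpr (Ne.symm hqne)
  -- translates of the line
  have hline : ∀ (D : X → X) (δ' : ℝ), Cliff H0 M D δ' →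
      Isometry (fun t => D (c t)) ∧ ∀ t, k • D (c t) = D (c (t + a)) := by
    intro D δ' hD
    refine ⟨Isometry.of_dist_eq (fun s t => ?_), fun t => ?_⟩
    · rw [hD.iso _ (hcM s) _ (hcM t), hc.dist_eq]
    · rw [← hD.comm k hk _ (hcM t), hax]
  obtain ⟨S, hS⟩ : ∃ S, ∀ (D : X → X) (δ' : ℝ), Cliff H0 M D δ' →
      infDist (c 0) (range (fun t => D (c t))) ≤ S := by
    by_contra hno
    push Not at hno
    apply hnb
    apply halfPlane_of_far hM.isNC.closed hM.isNC.convex hc hcM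
    intro S
    obtain ⟨D, δ', hD, hDS⟩ := hno S
    obtain ⟨hD1, hD2⟩ := hline D δ' hD
    have hNC := isNC_line hD1 (fun t => hD2 t)
    refine ⟨range (fun t => D (c t)), ?_, hNC.closed, range_nonempty _, hNC.convex, ?_, hDS⟩
    · rintro _ ⟨t, rfl⟩
      exact hD.maps _ (hcM t)
    · intro t
      exact infDist_line_const hNC (range_nonempty _) hc (Subgroup.mem_zpowers k) ha hax t 0
  -- positions
  have hcNC := isNC_line hc hax
  have hpos : ∀ (D : X → X) (δ' : ℝ), Cliff H0 M D δ' → ∃ t, dist (D (c 0)) (c t) ≤ S := by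
    intro D δ' hD
    obtain ⟨hD1, hD2⟩ := hline D δ' hD
    have hNC := isNC_line hD1 (fun t => hD2 t)
    have h1 := hS D δ' hD
    rw [← dist_proj hNC.closed (range_nonempty _)] at h1
    obtain ⟨t, ht⟩ := proj_mem hNC.closed (range_nonempty (fun t => D (c t))) (c 0)
    rw [← ht, dist_comm] at h1
    have h2 : infDist (D (c t)) (range c) ≤ S :=
      (infDist_le_dist_of_mem (mem_range_self 0)).trans h1
    have h3 := infDist_line_const hcNC (range_nonempty c) hD1 (Subgroup.mem_zpowers k) ha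
      (fun t => hD2 t) t 0
    rw [h3, ← dist_proj hcNC.closed (range_nonempty _)] at h2
    obtain ⟨t', ht'⟩ := proj_mem hcNC.closed (range_nonempty c) (D (c 0))
    exact ⟨t', by rw [ht']; exact h2⟩
  -- diverging translates
  have hccoc := cocompactOn_line hc ha hax
  obtain ⟨h1, hh1, hu1⟩ := exists_unbdd hM.isNC hMcoc hcNC (range_nonempty c) hccoc hk hc hcM ha
    hax hnb hcyc
  obtain ⟨h2, hh2, hu2⟩ := exists_unbdd hM.isNC hMcoc hcNC (range_nonempty c) hccoc
    (H0.inv_mem hk) (isometry_comp_neg hc) (fun t => hcM (-t)) ha (fun t => inv_line hax t)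
    (fun h => hnb (by
      have := h.rev
      simpa only [neg_neg] using this)) hcyc
  have hB : ∀ h ∈ H0, ∀ (D : X → X) (δ' : ℝ), Cliff H0 M D δ' → ∀ t, dist (D (c 0)) (c t) ≤ S →
      infDist (h • c t) (range c) ≤ 2 * S + dist (h • c 0) (c 0) := by
    intro h hh D δ' hD t ht
    have e1 : infDist (h • c t) (range c) ≤ dist (h • c t) (c t) :=
      infDist_le_dist_of_mem (mem_range_self t)
    have e2 := dist_triangle4 (h • c t) (h • D (c 0)) (D (c 0)) (c t)
    rw [dist_smul, dist_comm (c t) (D (c 0))] at e2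
    have e3 : dist (h • D (c 0)) (D (c 0)) = dist (h • c 0) (c 0) := by
      rw [← hD.comm h hh _ (hcM 0), hD.iso _ (hM.isNC.inv h hh _ (hcM 0)) _ (hcM 0)]
    linarith
  have hconv : ∀ h : G, ConvR (fun t => infDist (h • c t) (range c)) := fun h =>
    infDist_line_conv hcNC.closed (range_nonempty c) hcNC.convex ((isometry_smul X h).comp hc)
  obtain ⟨t1, ht10, ht1⟩ := hu1 (max (2 * S + dist (h1 • c 0) (c 0)) (infDist (h1 • c 0) (range c)))
  obtain ⟨t2, ht20, ht2⟩ := hu2 (max (2 * S + dist (h2 • c 0) (c 0)) (infDist (h2 • c 0) (range c)))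
  obtain ⟨j, hj⟩ := exists_nat_gt ((max t1 t2 + S) / δ)
  obtain ⟨D, hD⟩ := hδ.iterate hM.isNC j
  obtain ⟨t, ht⟩ := hpos D _ hD
  have hbig : max t1 t2 < |t| := by
    have e1 := hD.disp _ (hcM 0)
    have e2 := dist_triangle_right (c 0) (c t) (D (c 0))
    have e3 : dist (c 0) (c t) = |t| := by
      rw [hc.dist_eq, Real.dist_eq, zero_sub, abs_neg]
    have e4 := dist_triangle (c 0) (c t) (D (c 0))
    rw [e3, dist_comm (c t)] at e4
    rw [div_lt_iff₀ hδpos] at hj
    have e5 : (j : ℝ) ≤ 2 ^ j := by exact_mod_cast (Nat.lt_two_pow_self (n := j)).le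
    have e6 : (j : ℝ) * δ ≤ 2 ^ j * δ := mul_le_mul_of_nonneg_right e5 hδpos.le
    linarith
  rcases le_total 0 t with h0 | h0
  · rw [abs_of_nonneg h0] at hbig
    have e1 := hB h1 hh1 D _ hD t ht
    have e2 : t1 ≤ t := ((le_max_left _ _).trans_lt hbig).le
    have e3 := ConvR.ge_of_lt (hconv h1) ht10 ((le_max_right _ _).trans_lt ht1) e2
    have e4 := (le_max_left _ _).trans_lt ht1
    linarith
  · rw [abs_of_nonpos h0] at hbig
    have e1 := hB h2 hh2 D _ hD t ht
    have e2 : t2 ≤ -t := ((le_max_right _ _).trans_lt hbig).le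
    have hconv2 : ConvR (fun t => infDist (h2 • c (-t)) (range c)) := (hconv h2).comp_neg
    have e3 := ConvR.ge_of_lt hconv2 ht20 (by
      simp only [neg_zero]
      exact (le_max_right _ _).trans_lt ht2) e2
    have e4 := (le_max_left _ _).trans_lt ht2
    simp only [neg_neg] at e3
    linarith

end Pool.Agent.H74.CC
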