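import Pool.Agent.H74.CD1

/-!
# Rank one factors of commensurable products are commensurable
-/

open Set Filter Topology Metric
open Pool.Agent.H29

set_option linter.unusedSectionVars false

namespace Pool.Agent.H74.CC

variable {G : Type*} {X : Type*} [Group G] [MetricSpace X] [IsCAT0 X] [ProperSpace X]
  [MulAction G X] [IsIsometricSMul G X]

/-- An invariant half-plane free axis may be moved into a minimal set. -/
theorem reduce_min {H : Subgroup G} {Y : Set X} (hY : IsNC H Y) (hYcoc : CocompactOn H Y)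
    {k : G} (hk : k ∈ H) {c : ℝ → X} (hc : Isometry c) (hcY : ∀ t, c t ∈ Y) {a : ℝ} (ha : 0 < a)
    (hax : ∀ t, k • c t = c (t + a)) (hnb : ¬ BoundsHalfPlaneIn Y c) :
    ∃ M ⊆ Y, IsMinl H M ∧ ∃ c' : ℝ → X, Isometry c' ∧ (∀ t, c' t ∈ M) ∧
      (∀ t, k • c' t = c' (t + a)) ∧ ¬ BoundsHalfPlaneIn M c' := by
  obtain ⟨M, hMY, hM⟩ := exists_isMinl hY ⟨_, hcY 0⟩ hYcoc
  set s := infDist (c 0) M with hs
  have hconst : ∀ t, infDist (c t) M = s := fun t =>
    infDist_line_const hM.isNC hM.ne hc hk ha hax t 0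
  set c' : ℝ → X := fun t => proj M (c t) with hc'
  have hd : ∀ t, dist (c t) (c' t) = s := fun t => by
    rw [← hconst t]
    exact dist_proj hM.isNC.closed hM.ne _
  have hmem : ∀ t, c' t ∈ M := fun t => proj_mem hM.isNC.closed hM.ne _
  have hax' : ∀ t, k • c' t = c' (t + a) := by
    intro t
    show k • proj M (c t) = proj M (c (t + a))
    rw [← hM.isNC.proj_smul hM.ne hk, hax]
  have hlip : ∀ u v, dist (c' u) (c' v) ≤ |u - v| := by
    intro u v
    have := proj_lipschitz hM.isNC.closed hM.ne hM.isNC.convex (c u) (c v)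
    rwa [hc.dist_eq, Real.dist_eq] at this
  have hmul : ∀ (t : ℝ) (n m : ℕ), dist (c' t) (c' (t + (m * n : ℕ) * a)) ≤
      m * dist (c' t) (c' (t + n * a)) := by
    intro t n m
    induction m with
    | zero => simp
    | succ m ih =>
      have e1 := dist_triangle (c' t) (c' (t + (m * n : ℕ) * a)) (c' (t + ((m + 1) * n : ℕ) * a))
      have e2 : dist (c' (t + (m * n : ℕ) * a)) (c' (t + ((m + 1) * n : ℕ) * a)) =
          dist (c' t) (c' (t + n * a)) := by
        rw [← dist_smul (k ^ (m * n)) (c' t), smul_pow_line hax', smul_pow_line hax']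
        congr 2
        push_cast
        ring
      rw [e2] at e1
      push_cast at *
      linarith
  have hlow : ∀ (t : ℝ) (n : ℕ), n * a ≤ dist (c' t) (c' (t + n * a)) := by
    intro t n
    by_contra hcon
    push Not at hcon
    set δ := n * a - dist (c' t) (c' (t + n * a)) with hδ
    have hδpos : 0 < δ := by linarith
    obtain ⟨m, hm⟩ := exists_nat_gt (2 * s / δ)
    rw [div_lt_iff₀ hδpos] at hm
    have e1 := hmul t n m
    have e2 := dist_triangle4 (c t) (c' t) (c' (t + (m * n : ℕ) * a)) (c (t + (m * n : ℕ) * a))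
    rw [hd, dist_comm (c' (t + (m * n : ℕ) * a)), hd, hc.dist_eq, Real.dist_eq] at e2
    have e3 : |t - (t + (m * n : ℕ) * a)| = m * n * a := by
      rw [show t - (t + (m * n : ℕ) * a) = -((m : ℝ) * n * a) by push_cast; ring, abs_neg,
        abs_of_nonneg (by positivity)]
    rw [e3] at e2
    have e4 : (m : ℝ) * δ = m * n * a - m * dist (c' t) (c' (t + n * a)) := by rw [hδ]; ring
    linarith
  have hiso' : ∀ u v, u ≤ v → dist (c' u) (c' v) = v - u := by
    intro u v huv
    apply le_antisymm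
    · have := hlip u v
      rwa [abs_sub_comm, abs_of_nonneg (by linarith)] at this
    · obtain ⟨n, hn⟩ := exists_nat_gt ((v - u) / a)
      rw [div_lt_iff₀ ha] at hn
      have e1 := hlow u n
      have e2 := dist_triangle (c' u) (c' v) (c' (u + n * a))
      have e3 := hlip v (u + n * a)
      rw [abs_sub_comm, abs_of_nonneg (by linarith)] at e3
      linarith
  have hiso : Isometry c' := by
    apply Isometry.of_dist_eq
    intro u v
    rw [Real.dist_eq]
    rcases le_total u v with h | h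
    · rw [hiso' u v h, abs_sub_comm, abs_of_nonneg (by linarith)]
    · rw [dist_comm, hiso' v u h, abs_of_nonneg (by linarith)]
  refine ⟨M, hMY, hM, c', hiso, hmem, hax', ?_⟩
  rintro ⟨F, hF0, hFM, hFd⟩
  apply hnb
  -- the ray orthogonal to `c'`
  set ρ : ℝ → X := fun u => F 0 u with hρ
  have hray : IsRay ρ := by
    intro u v hu hv
    have h1 := hFd 0 u 0 v hu hv
    rw [sub_self, zero_pow two_ne_zero, zero_add] at h1
    have h2 := abs_le_of_sq_le_sq (le_of_eq h1.symm) dist_nonneg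
    have h3 : dist (ρ u) (ρ v) ^ 2 = |u - v| ^ 2 := by rw [sq_abs]; exact h1
    exact (pow_left_inj₀ dist_nonneg (abs_nonneg _) two_ne_zero).mp h3
  have hdρ : ∀ t u, 0 ≤ u → dist (c' t) (ρ u) ^ 2 = t ^ 2 + u ^ 2 := by
    intro t u hu
    have := hFd t 0 0 u le_rfl hu
    rw [hF0] at this
    rw [this]
    ring
  have hb' : ∀ t, busR ρ (c' t) = 0 := by
    intro t
    apply tendsto_nhds_unique (busR_tendsto hray (c' t))
    have hncast : Tendsto (fun n : ℕ => (n : ℝ)) atTop atTop := tendsto_natCast_atTop_atTop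
    have hlim : Tendsto (fun n : ℕ => t ^ 2 / (n : ℝ)) atTop (𝓝 0) := hncast.const_div_atTop _
    refine tendsto_of_tendsto_of_tendsto_of_le_of_le' tendsto_const_nhds hlim ?_ ?_
    · filter_upwards with n
      have h1 := hdρ t n (Nat.cast_nonneg n)
      have h2 : (n : ℝ) ^ 2 ≤ dist (c' t) (ρ n) ^ 2 := by rw [h1]; nlinarith [sq_nonneg t]
      have := (pow_le_pow_iff_left₀ (Nat.cast_nonneg n) dist_nonneg two_ne_zero).mp h2
      linarith
    · filter_upwards [hncast.eventually_gt_atTop 0] with n hn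
      have h1 := hdρ t n (Nat.cast_nonneg n)
      have h2 : dist (c' t) (ρ n) ^ 2 ≤ (n + t ^ 2 / n) ^ 2 := by
        rw [h1]
        have e : ((n : ℝ) + t ^ 2 / n) ^ 2 = n ^ 2 + 2 * t ^ 2 + (t ^ 2 / n) ^ 2 := by
          field_simp
          ring
        rw [e]
        nlinarith [sq_nonneg (t ^ 2 / (n : ℝ)), sq_nonneg t]
      have h3 : 0 ≤ (n : ℝ) + t ^ 2 / n := by positivity
      have := (pow_le_pow_iff_left₀ dist_nonneg h3 two_ne_zero).mp h2
      linarith
  have hbc : ∀ t, busR ρ (c t) = busR ρ (c 0) := by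
    intro t
    have hconv : ConvR (fun t => busR ρ (c t)) := (gconvexFun_busR hray).comp_line hc
    refine hconv.const_of_bdd (M := s) ?_ t 0
    intro t
    have h1 := busR_lip hray (c t) (c' t)
    rw [hb', hd, zero_add] at h1
    exact h1
  obtain ⟨r, hr0, hrray, hrI, _, hrf⟩ := exists_asym hray (c 0)
  refine halfPlane_of_ray hY.closed hY.convex hc hcY hrray hr0 ?_ (s := 0) (by simp) ?_
  · intro u hu
    have h1 := hrf (fun x => infDist x Y) (gconvexFun_infDist hY.closed ⟨_, hcY 0⟩ hY.convex)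
      (continuous_infDist_pt Y)
      ⟨0, fun t ht => (infDist_zero_of_mem (hMY (hFM 0 t ht))).le⟩ u hu
    simp only [infDist_zero_of_mem (hcY 0)] at h1
    exact (hY.closed.mem_iff_infDist_zero ⟨_, hcY 0⟩).mpr (le_antisymm h1 infDist_nonneg)
  · intro t u hu
    have h1 := hrI (c t) u hu
    rw [hbc t, hc.dist_eq, Real.dist_eq, sub_zero, sq_abs] at h1
    linarith

/-- data of a rank one group acting on its minimal set -/
structure R1 (H : Subgroup G) (M : Set X) : Prop where
  min : IsMinl H M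
  coc : CocompactOn H M
  ax : ∃ k ∈ H, ∃ c : ℝ → X, Isometry c ∧ (∀ t, c t ∈ M) ∧ ∃ a : ℝ, 0 < a ∧
    (∀ t, k • c t = c (t + a)) ∧ ¬ BoundsHalfPlaneIn M c ∧ (Subgroup.zpowers k).relIndex H = 0

/-- finite index subgroups of rank one groups are rank one groups -/
lemma R1.finiteIndex {H H0 : Subgroup G} {M : Set X} (h : R1 H M) (hle : H0 ≤ H)
    (hidx : H0.relIndex H ≠ 0) : R1 H0 M := by
  obtain ⟨k, hk, c, hc, hcM, a, ha, hax, hnb, hcyc⟩ := h.ax
  refine ⟨isMinl_of_finiteIndex hle hidx h.min, h.coc.finiteIndex hidx, ?_⟩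
  obtain ⟨n, hn, _, hn2⟩ := Subgroup.exists_pow_mem_of_relIndex_ne_zero hidx hk
  refine ⟨k ^ n, hn2.1, c, hc, hcM, n * a, by positivity, fun t => smul_pow_line hax n t, hnb, ?_⟩
  by_contra hcon
  apply relIndex_mono_left (H' := Subgroup.zpowers k) _
    (Subgroup.relIndex_ne_zero_trans hcon hidx) hcyc
  rw [Subgroup.zpowers_le]
  exact Subgroup.pow_mem _ (Subgroup.mem_zpowers k) n

lemma R1.proj_smul_eq [ProperlyDiscontinuousSMul G X] {H : Subgroup G} {M : Set X} (h : R1 H M)
    {z : G} (hz : ∀ g ∈ H, z * g = g * z) : ∀ q ∈ M, proj M (z • q) = q := by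
  obtain ⟨k, hk, c, hc, hcM, a, ha, hax, hnb, hcyc⟩ := h.ax
  exact CC.proj_smul_eq h.min h.coc hk hc hcM ha hax hnb hcyc hz

/-- Pythagoras for commuting elements -/
lemma R1.pyth [ProperlyDiscontinuousSMul G X] {H : Subgroup G} {M : Set X} (h : R1 H M)
    {z : G} (hz : ∀ g ∈ H, z * g = g * z) {q : X} (hq : q ∈ M) {g : G} (hg : g ∈ H) :
    dist ((z * g) • q) q ^ 2 = dist (g • q) q ^ 2 + dist (z • q) q ^ 2 := by
  have hM := h.min
  have hzM : IsMinl H ((fun x => z • x) '' M) := by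
    apply hM.image
    · intro p _ q _
      rw [dist_smul]
    · intro n hn p _
      show z • n • p = n • z • p
      rw [smul_smul, smul_smul, hz n hn]
  have hgq : g • q ∈ M := hM.isNC.inv g hg q hq
  have h1 := hzM.pyth' hM ⟨g • q, hgq, rfl⟩ hq
  have h2 := h.proj_smul_eq hz (g • q) hgq
  have h3 := dist_proj hM.isNC.closed hM.ne (z • g • q)
  simp only at h1
  rw [← h3, h2] at h1
  rw [mul_smul, h1]
  congr 2
  rw [smul_smul, hz g hg, mul_smul, dist_smul]

/-- **Torsion.** -/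
theorem R1.torsion [ProperlyDiscontinuousSMul G X] [Nonempty X] (hcoc : Cocompact G X)
    {H H0 : Subgroup G} {M : Set X} (h : R1 H M) (h0 : R1 H0 M) {z w g : G}
    (hz : ∀ v ∈ H, z * v = v * z) (hz' : ∀ v ∈ H0, (g * z * g⁻¹) * v = v * (g * z * g⁻¹))
    (hw : w ∈ H) (hm : g * (z * w) * g⁻¹ ∈ H0) : ∃ n : ℕ, 0 < n ∧ z ^ n = 1 := by
  by_contra hcon
  push Not at hcon
  obtain ⟨γ, hγ, l, hl, hγax⟩ := exists_axis (X := X) hcoc hcon
  obtain ⟨q, hq⟩ := h.min.ne
  set R := dist q (γ 0) with hR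
  set D := dist (g • q) q with hD
  have hzn : ∀ n : ℕ, ∀ v ∈ H, z ^ n * v = v * z ^ n := by
    intro n v hv
    exact (Commute.pow_left (show Commute z v from hz v hv) n)
  have hzn' : ∀ n : ℕ, ∀ v ∈ H0, ((g * z * g⁻¹) ^ n)⁻¹ * v = v * ((g * z * g⁻¹) ^ n)⁻¹ := by
    intro n v hv
    exact ((Commute.pow_left (show Commute (g * z * g⁻¹) v from hz' v hv) n).inv_left)
  have hL : ∀ n : ℕ, n * l - 2 * R ≤ dist (z ^ n • q) q := by
    intro n
    have e1 := dist_triangle4 (γ 0) q (z ^ n • q) (z ^ n • γ 0)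
    rw [dist_smul, smul_pow_line hγax, hγ.dist_eq, Real.dist_eq, dist_comm (γ 0) q,
      dist_comm q (z ^ n • q)] at e1
    have e2 : |(0 : ℝ) - (0 + n * l)| = n * l := by
      rw [zero_add, zero_sub, abs_neg, abs_of_nonneg (by positivity)]
    rw [e2] at e1
    linarith
  have hA : ∀ n : ℕ, dist (w ^ n • q) q ^ 2 + dist (z ^ n • q) q ^ 2 ≤
      (dist (w ^ n • q) q + 4 * D) ^ 2 := by
    intro n
    have e1 := h.pyth (hzn n) hq (H.pow_mem hw n)
    set u := g * (z * w) * g⁻¹ with hu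
    have hun : u ^ n = g * (z ^ n * w ^ n) * g⁻¹ := by
      rw [hu, conj_pow, (show Commute z w from hz w hw).mul_pow]
    have huH : u ^ n ∈ H0 := H0.pow_mem hm n
    have huq : u ^ n • q ∈ M := h0.min.isNC.inv _ huH q hq
    have e2 := h0.proj_smul_eq (hzn' n) _ huq
    have e3 := proj_lipschitz h0.min.isNC.closed h0.min.ne h0.min.isNC.convex
      (((g * z * g⁻¹) ^ n)⁻¹ • u ^ n • q) q
    rw [e2, proj_of_mem h0.min.isNC.closed h0.min.isNC.convex hq] at e3
    have e4 : ((g * z * g⁻¹) ^ n)⁻¹ • u ^ n • q = (g * w ^ n * g⁻¹) • q := by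
      rw [smul_smul, hun, conj_pow]
      congr 1
      group
    rw [e4] at e3
    have e5 : dist ((g * w ^ n * g⁻¹) • q) q ≤ dist (w ^ n • q) q + 2 * D := by
      have t := dist_triangle4 ((g * w ^ n * g⁻¹) • q) ((g * w ^ n * g⁻¹) • g • q) (g • q) q
      rw [dist_smul, dist_comm q (g • q)] at t
      have t2 : dist ((g * w ^ n * g⁻¹) • g • q) (g • q) = dist (w ^ n • q) q := by
        rw [smul_smul, inv_mul_cancel_right, mul_smul, dist_smul]
      rw [t2] at t
      linarith
    have e6 : dist ((z ^ n * w ^ n) • q) q ≤ dist (u ^ n • q) q + 2 * D := by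
      have t := dist_triangle4 (g • (z ^ n * w ^ n) • q) (u ^ n • q) q (g • q)
      rw [dist_smul, dist_comm q (g • q)] at t
      have t2 : dist (g • (z ^ n * w ^ n) • q) (u ^ n • q) = D := by
        have : g • (z ^ n * w ^ n) • q = u ^ n • g • q := by
          rw [hun, smul_smul, smul_smul, inv_mul_cancel_right]
        rw [this, dist_smul]
      rw [t2] at t
      linarith
    rw [← e1]
    apply pow_le_pow_left₀ dist_nonneg
    linarith
  have hlin : ∀ n : ℕ, dist (w ^ n • q) q ≤ n * dist (w • q) q := by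
    intro n
    induction n with
    | zero => simp
    | succ n ih =>
      have t := dist_triangle (w ^ (n + 1) • q) (w ^ n • q) q
      rw [pow_succ, mul_smul, dist_smul] at t
      rw [pow_succ, mul_smul]
      push_cast
      linarith
  -- contradiction for large `n`
  set A1 := dist (w • q) q with hA1
  have hDnn : 0 ≤ D := dist_nonneg
  have hRnn : 0 ≤ R := dist_nonneg
  have hA1nn : 0 ≤ A1 := dist_nonneg
  obtain ⟨n, hn⟩ := exists_nat_gt ((8 * D * A1 + 16 * D ^ 2 + 4 * l * R + 1) / l ^ 2)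
  have hl2 : 0 < l ^ 2 := by positivity
  rw [div_lt_iff₀ hl2] at hn
  have hn1 : (1 : ℝ) ≤ n := by
    have : n ≠ 0 := by
      rintro rfl
      rw [Nat.cast_zero, zero_mul] at hn
      nlinarith [mul_nonneg hDnn hA1nn, sq_nonneg D, mul_nonneg hl.le hRnn]
    exact_mod_cast Nat.one_le_iff_ne_zero.mpr this
  obtain ⟨n2, hn2⟩ := exists_nat_gt (2 * R / l)
  rw [div_lt_iff₀ hl] at hn2
  set N := max n n2 with hN
  have hNn : (n : ℝ) ≤ N := by exact_mod_cast le_max_left n n2
  have hNn2 : (n2 : ℝ) ≤ N := by exact_mod_cast le_max_right n n2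
  have hN1 : (1 : ℝ) ≤ N := hn1.trans hNn
  have f1 := hA N
  have f2 := hL N
  have f3 := hlin N
  have f4 : 0 ≤ N * l - 2 * R := by nlinarith
  have f5 : (N * l - 2 * R) ^ 2 ≤ dist (z ^ N • q) q ^ 2 := pow_le_pow_left₀ f4 f2 2
  have f6 : (N * l - 2 * R) ^ 2 ≤ 8 * D * (N * A1) + 16 * D ^ 2 := by nlinarith
  have f7 : (N : ℝ) * (N * l ^ 2) ≤ N * (8 * D * A1 + 16 * D ^ 2 + 4 * l * R) := by
    nlinarith [sq_nonneg R, mul_nonneg (sub_nonneg.mpr hN1) (sq_nonneg D)]
  have f8 : (N : ℝ) * l ^ 2 ≤ 8 * D * A1 + 16 * D ^ 2 + 4 * l * R :=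
    le_of_mul_le_mul_left f7 (by linarith)
  nlinarith

end Pool.Agent.H74.CC
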