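import Pool.Agent.H74.CD2
import Pool.Agent.H29.Abelian

/-!
# Convex cocompact subgroups are not conjugate to proper subgroups of themselves
-/

open Set Filter Topology Metric
open Pool.Agent.H29

set_option linter.unusedSectionVars false

namespace Pool.Agent.H74.CC

section CoHopf

variable {G : Type*} {X : Type*} [Group G] [MetricSpace X] [IsCAT0 X] [ProperSpace X]
  [MulAction G X] [IsIsometricSMul G X] [ProperlyDiscontinuousSMul G X]

/-- the elements of `C` moving `q` by at most `r` -/
def nearSet (C : Subgroup G) (r : ℝ) (q : X) : Set G := {g | g ∈ C ∧ dist q (g • q) ≤ r}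

lemma nearSet_finite (C : Subgroup G) (r : ℝ) (q : X) : (nearSet C r q).Finite := by
  apply (ProperlyDiscontinuousSMul.finite_disjoint_inter_image (Γ := G)
    (isCompact_singleton (x := q)) (isCompact_closedBall q r)).subset
  rintro g ⟨_, hg⟩
  refine ⟨g • q, ⟨q, rfl, rfl⟩, ?_⟩
  rw [mem_closedBall, dist_comm]
  exact hg

/-- **Co-Hopf property.** -/
theorem cohopf {C : Subgroup G} {Y : Set X} (hY : IsNC C Y) (hYne : Y.Nonempty)
    (hYcoc : CocompactOn C Y) {g : G} (hle : C.map (MulAut.conj g).toMonoidHom ≤ C) :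
    C ≤ C.map (MulAut.conj g).toMonoidHom := by
  classical
  obtain ⟨K, hK, hcov⟩ := hYcoc
  set D := Metric.diam K with hD
  set r := 2 * D + 1 with hr
  have hDnn : 0 ≤ D := Metric.diam_nonneg
  -- uniform bound
  set K' := Metric.cthickening r K with hK'
  have hK'c : IsCompact K' := hK.cthickening
  have hFfin : {h : G | ((fun x => h • x) '' K ∩ K').Nonempty}.Finite :=
    ProperlyDiscontinuousSMul.finite_disjoint_inter_image (Γ := G) hK hK'c
  set B := {h : G | ((fun x => h • x) '' K ∩ K').Nonempty}.ncard with hB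
  have hbound : ∀ q ∈ Y, (nearSet C r q).ncard ≤ B := by
    intro q hq
    obtain ⟨c, hc, hcK⟩ := hcov q hq
    apply Set.ncard_le_ncard_of_injOn (fun h => c * h * c⁻¹) _ _ hFfin
    · rintro h ⟨hh, hd⟩
      refine ⟨(c * h * c⁻¹) • c • q, ⟨c • q, hcK, rfl⟩, ?_⟩
      have e : (c * h * c⁻¹) • c • q = c • h • q := by
        rw [smul_smul, inv_mul_cancel_right, mul_smul]
      rw [e]
      apply Metric.mem_cthickening_of_dist_le _ (c • q) _ _ hcK
      rw [dist_smul, dist_comm]
      exact hd
    · intro h _ h' _ he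
      exact mul_left_cancel (mul_right_cancel he)
  -- a point with maximal number
  obtain ⟨q, hq, hmax⟩ : ∃ q ∈ Y, ∀ q' ∈ Y, (nearSet C r q').ncard ≤ (nearSet C r q).ncard := by
    obtain ⟨q0, hq0⟩ := hYne
    have hbdd : BddAbove ((fun q => (nearSet C r q).ncard) '' Y) := by
      refine ⟨B, ?_⟩
      rintro _ ⟨q, hq, rfl⟩
      exact hbound q hq
    have hmem := Nat.sSup_mem (s := (fun q => (nearSet C r q).ncard) '' Y) ⟨_, q0, hq0, rfl⟩ hbdd
    obtain ⟨q, hq, he⟩ := hmem
    refine ⟨q, hq, fun q' hq' => ?_⟩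
    have he' : (nearSet C r q).ncard = sSup ((fun q => (nearSet C r q).ncard) '' Y) := he
    rw [he']
    exact le_csSup hbdd ⟨q', hq', rfl⟩
  set q' := proj Y (g • q) with hq'
  have hq'Y : q' ∈ Y := proj_mem hY.closed hYne _
  -- the conjugates of the near elements
  have himg : (fun h => g * h * g⁻¹) '' nearSet C r q ⊆ nearSet C r q' := by
    rintro _ ⟨h, ⟨hh, hd⟩, rfl⟩
    have hC : g * h * g⁻¹ ∈ C := hle ⟨h, hh, rfl⟩
    refine ⟨hC, ?_⟩
    have e1 : (g * h * g⁻¹) • q' = proj Y (g • h • q) := by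
      rw [hq', ← hY.proj_smul hYne hC, smul_smul, inv_mul_cancel_right, mul_smul]
    show dist q' ((g * h * g⁻¹) • q') ≤ r
    rw [e1]
    refine (proj_lipschitz hY.closed hYne hY.convex _ _).trans ?_
    rw [dist_smul]
    exact hd
  have hinj : Set.InjOn (fun h => g * h * g⁻¹) (nearSet C r q) := by
    intro h _ h' _ he
    exact mul_left_cancel (mul_right_cancel he)
  have heq : (fun h => g * h * g⁻¹) '' nearSet C r q = nearSet C r q' := by
    apply Set.eq_of_subset_of_ncard_le himg _ (nearSet_finite C r q')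
    rw [hinj.ncard_image]
    exact hmax q' hq'Y
  have hnear : nearSet C r q' ⊆ (C.map (MulAut.conj g).toMonoidHom : Subgroup G) := by
    rw [← heq]
    rintro _ ⟨h, ⟨hh, _⟩, rfl⟩
    exact ⟨h, hh, rfl⟩
  set A := C.map (MulAut.conj g).toMonoidHom with hA
  -- approximation of points by the orbit of `q'`
  have happrox : ∀ p ∈ Y, ∃ c ∈ C, dist (c • q') p ≤ D := by
    intro p hp
    obtain ⟨c1, hc1, h1⟩ := hcov p hp
    obtain ⟨c2, hc2, h2⟩ := hcov q' hq'Y
    refine ⟨c1⁻¹ * c2, C.mul_mem (C.inv_mem hc1) hc2, ?_⟩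
    have := Metric.dist_le_diam_of_mem hK.isBounded h2 h1
    rw [← dist_smul c1, mul_smul, smul_inv_smul]
    exact this
  intro c hc
  obtain ⟨n, hn⟩ := exists_nat_gt (dist q' (c • q'))
  have hnpos : (0 : ℝ) < n := lt_of_le_of_lt dist_nonneg hn
  have hcq : c • q' ∈ Y := hY.inv c hc _ hq'Y
  set p : ℕ → X := fun i => pt q' (c • q') (i / n) with hp
  have hpI : ∀ i ≤ n, (i : ℝ) / n ∈ Icc (0 : ℝ) 1 := by
    intro i hi
    refine ⟨by positivity, (div_le_one hnpos).mpr ?_⟩
    exact_mod_cast hi
  have hpY : ∀ i ≤ n, p i ∈ Y := fun i hi => hY.convex _ hq'Y _ hcq _ (hpI i hi)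
  have hstep : ∀ i, i + 1 ≤ n → dist (p i) (p (i + 1)) ≤ 1 := by
    intro i hi
    rw [hp]
    simp only
    rw [dist_pt_pt _ _ (hpI i (by omega)) (hpI (i + 1) hi)]
    have e : (i : ℝ) / n - ((i + 1 : ℕ) : ℝ) / n = -(1 / n) := by
      push_cast
      field_simp
      ring
    rw [e, abs_neg, abs_of_pos (by positivity), div_mul_eq_mul_div, one_mul,
      div_le_one hnpos]
    exact hn.le
  have key : ∀ i ≤ n, ∀ b ∈ C, dist (b • q') (p i) ≤ D → b ∈ A := by
    intro i
    induction i with
    | zero =>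
      intro _ b hb hbd
      apply hnear
      refine ⟨hb, ?_⟩
      have e : p 0 = q' := by
        show pt q' (c • q') (((0 : ℕ) : ℝ) / n) = q'
        rw [Nat.cast_zero, zero_div, pt_zero]
      rw [e, dist_comm] at hbd
      linarith
    | succ i ih =>
      intro hi b hb hbd
      obtain ⟨b', hb', hbd'⟩ := happrox (p i) (hpY i (by omega))
      have h1 := ih (by omega) b' hb' hbd'
      have h2 : b'⁻¹ * b ∈ A := by
        apply hnear
        refine ⟨C.mul_mem (C.inv_mem hb') hb, ?_⟩
        have e1 : dist q' ((b'⁻¹ * b) • q') = dist (b' • q') (b • q') := by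
          rw [← dist_smul b' q', mul_smul, smul_inv_smul]
        rw [e1]
        have t := dist_triangle4 (b' • q') (p i) (p (i + 1)) (b • q')
        have e2 := hstep i hi
        rw [dist_comm (p (i + 1)) (b • q')] at t
        linarith
      have := A.mul_mem h1 h2
      rwa [mul_inv_cancel_left] at this
  apply key n le_rfl c hc
  have e : p n = c • q' := by
    show pt q' (c • q') ((n : ℝ) / n) = c • q'
    rw [div_self hnpos.ne', pt_one]
  rw [e, dist_self]
  exact hDnn

end CoHopf

section Algebra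

variable {G : Type*} [Group G]

/-- The elements of finite order in a finitely generated abelian subgroup form a finite set. -/
lemma finite_torsion {Z : Subgroup G} (hZ : ∀ a ∈ Z, ∀ b ∈ Z, a * b = b * a) (hfg : Z.FG) :
    {z : G | z ∈ Z ∧ ∃ n : ℕ, 0 < n ∧ z ^ n = 1}.Finite := by
  let iZ : CommGroup Z :=
    { (inferInstance : Group Z) with mul_comm := fun a b => Subtype.ext (hZ a.1 a.2 b.1 b.2) }
  have hfgZ : @Group.FG Z iZ.toGroup := (Group.fg_iff_subgroup_fg Z).mpr hfg
  have hfin : @Module.Finite ℤ (Additive Z) _ _ _ := @finite_int_additive Z iZ hfgZ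
  have hfinT : Finite (Submodule.torsion ℤ (Additive Z)) :=
    Module.finite_of_fg_torsion _ Submodule.torsion_isTorsion
  apply Set.Finite.subset (Set.finite_range
    (fun t : Submodule.torsion ℤ (Additive Z) => ((Additive.toMul (t : Additive Z) : Z) : G)))
  rintro z ⟨hz, n, hn, hzn⟩
  refine ⟨⟨Additive.ofMul (⟨z, hz⟩ : Z), ?_⟩, rfl⟩
  rw [Submodule.mem_torsion_iff]
  refine ⟨⟨(n : ℤ), mem_nonZeroDivisors_of_ne_zero (by exact_mod_cast hn.ne')⟩, ?_⟩
  show (n : ℤ) • Additive.ofMul (⟨z, hz⟩ : Z) = 0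
  rw [natCast_zsmul, ← ofMul_pow]
  have : (⟨z, hz⟩ : Z) ^ n = 1 := Subtype.ext hzn
  rw [this, ofMul_one]

/-- products of commuting subgroups -/
lemma mem_sup_comm {Z H : Subgroup G} (hZH : ∀ z ∈ Z, ∀ h ∈ H, z * h = h * z) {g : G}
    (hg : g ∈ Z ⊔ H) : ∃ z ∈ Z, ∃ h ∈ H, g = z * h := by
  have hle : Z ⊔ H ≤
      { carrier := {g | ∃ z ∈ Z, ∃ h ∈ H, g = z * h}
        mul_mem' := by
          rintro _ _ ⟨z, hz, h, hh, rfl⟩ ⟨z', hz', h', hh', rfl⟩
          refine ⟨z * z', Z.mul_mem hz hz', h * h', H.mul_mem hh hh', ?_⟩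
          calc z * h * (z' * h') = z * (h * z') * h' := by group
            _ = z * (z' * h) * h' := by rw [hZH z' hz' h hh]
            _ = z * z' * (h * h') := by group
        one_mem' := ⟨1, Z.one_mem, 1, H.one_mem, (one_mul 1).symm⟩
        inv_mem' := by
          rintro _ ⟨z, hz, h, hh, rfl⟩
          refine ⟨z⁻¹, Z.inv_mem hz, h⁻¹, H.inv_mem hh, ?_⟩
          rw [mul_inv_rev]
          exact (hZH z⁻¹ (Z.inv_mem hz) h⁻¹ (H.inv_mem hh)).symm } := by
    apply sup_le
    · intro z hz
      exact ⟨z, hz, 1, H.one_mem, (mul_one z).symm⟩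
    · intro h hh
      exact ⟨1, Z.one_mem, h, hh, (one_mul h).symm⟩
  exact hle hg

lemma relIndex_of_finite_cover {A D : Subgroup G} {F : Set G} (hF : F.Finite)
    (f : G → G) (hf : ∀ d ∈ D, f d ∈ F) (h : ∀ d ∈ D, ∀ d' ∈ D, f d = f d' → d⁻¹ * d' ∈ A) :
    A.relIndex D ≠ 0 := by
  have := hF.to_subtype
  have hfinQ : Finite (D ⧸ A.subgroupOf D) := by
    apply Finite.of_injective (fun q : D ⧸ A.subgroupOf D =>
      (⟨f (Quotient.out q : D), hf _ (Quotient.out q : D).2⟩ : F))
    intro q q' he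
    rw [Subtype.mk.injEq] at he
    rw [← QuotientGroup.out_eq' q, ← QuotientGroup.out_eq' q', QuotientGroup.eq]
    exact h _ (Quotient.out q : D).2 _ (Quotient.out q' : D).2 he
  exact Subgroup.index_ne_zero_of_finite

lemma fg_of_subgroupOf {P Z : Subgroup G} (hPZ : P ≤ Z) (h : (P.subgroupOf Z).FG) : P.FG := by
  have h1 : Group.FG (P.subgroupOf Z) := (Group.fg_iff_subgroup_fg _).mpr h
  have h2 : Group.FG P := Group.fg_of_surjective
    (f := (Subgroup.subgroupOfEquivOfLe hPZ).toMonoidHom)
    (Subgroup.subgroupOfEquivOfLe hPZ).surjective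
  exact (Group.fg_iff_subgroup_fg P).mp h2

/-- **Finite-by-abelian groups.** A subgroup of `Z H`, where the finitely generated abelian group
`Z` commutes with `H`, which meets `H` in a finite group, is virtually finitely generated
abelian. -/
theorem exists_abelian {Z H D : Subgroup G} (hZ : ∀ a ∈ Z, ∀ b ∈ Z, a * b = b * a) (hfg : Z.FG)
    (hZH : ∀ z ∈ Z, ∀ h ∈ H, z * h = h * z) (hD : D ≤ Z ⊔ H)
    (hfin : ((D ⊓ H : Subgroup G) : Set G).Finite) :
    ∃ A ≤ D, (∀ a ∈ A, ∀ b ∈ A, a * b = b * a) ∧ A.FG ∧ A.relIndex D ≠ 0 := by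
  classical
  -- the projection of `D` to `Z`
  set P : Subgroup G :=
    { carrier := {z | z ∈ Z ∧ ∃ h ∈ H, z * h ∈ D}
      mul_mem' := by
        rintro z z' ⟨hz, h, hh, hd⟩ ⟨hz', h', hh', hd'⟩
        refine ⟨Z.mul_mem hz hz', h * h', H.mul_mem hh hh', ?_⟩
        have e : z * z' * (h * h') = z * h * (z' * h') := by
          calc z * z' * (h * h') = z * (z' * h) * h' := by group
            _ = z * (h * z') * h' := by rw [hZH z' hz' h hh]
            _ = z * h * (z' * h') := by group
        rw [e]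
        exact D.mul_mem hd hd'
      one_mem' := ⟨Z.one_mem, 1, H.one_mem, by rw [one_mul]; exact D.one_mem⟩
      inv_mem' := by
        rintro z ⟨hz, h, hh, hd⟩
        refine ⟨Z.inv_mem hz, h⁻¹, H.inv_mem hh, ?_⟩
        have e : z⁻¹ * h⁻¹ = (z * h)⁻¹ := by
          rw [mul_inv_rev]
          exact hZH z⁻¹ (Z.inv_mem hz) h⁻¹ (H.inv_mem hh)
        rw [e]
        exact D.inv_mem hd } with hP
  have hPZ : P ≤ Z := fun z hz => hz.1
  have hPfg : P.FG := by
    let iZ : CommGroup Z :=
      { (inferInstance : Group Z) with mul_comm := fun a b => Subtype.ext (hZ a.1 a.2 b.1 b.2) }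
    have hfgZ : @Group.FG Z iZ.toGroup := (Group.fg_iff_subgroup_fg Z).mpr hfg
    have hfin' : @Module.Finite ℤ (Additive Z) _ _ _ := @finite_int_additive Z iZ hfgZ
    have hN : (AddSubgroup.toIntSubmodule (Subgroup.toAddSubgroup (P.subgroupOf Z))).FG :=
      IsNoetherian.noetherian _
    have h1 : (P.subgroupOf Z).FG := by
      rw [Subgroup.fg_iff_add_fg]
      rw [Submodule.fg_iff_addSubgroup_fg] at hN
      exact hN
    exact fg_of_subgroupOf hPZ h1
  obtain ⟨S, hS⟩ := hPfg
  have hSP : ∀ z ∈ S, z ∈ P := fun z hz => by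
    rw [← hS]
    exact Subgroup.subset_closure hz
  choose! η hη1 hη2 using fun z (hz : z ∈ S) => (hSP z hz).2
  set R : Finset G := S.image (fun z => z * η z) ∪ hfin.toFinset with hR
  have hRD : Subgroup.closure (R : Set G) = D := by
    apply le_antisymm
    · rw [Subgroup.closure_le]
      intro g hg
      rw [hR, Finset.coe_union] at hg
      rcases hg with hg | hg
      · rw [Finset.coe_image] at hg
        obtain ⟨z, hz, rfl⟩ := hg
        exact hη2 z hz
      · rw [Set.Finite.coe_toFinset] at hg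
        exact hg.1
    · intro d hd
      -- every element of `P` has a representative in the closure
      have key : ∀ z ∈ Subgroup.closure (S : Set G), ∃ h ∈ H,
          z * h ∈ Subgroup.closure (R : Set G) := by
        intro z hz
        induction hz using Subgroup.closure_induction with
        | mem z hz =>
          refine ⟨η z, hη1 z hz, Subgroup.subset_closure ?_⟩
          rw [hR, Finset.coe_union]
          left
          rw [Finset.coe_image]
          exact ⟨z, hz, rfl⟩
        | one => exact ⟨1, H.one_mem, by rw [one_mul]; exact Subgroup.one_mem _⟩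
        | mul z z' hz hz' ih ih' =>
          obtain ⟨h, hh, hd⟩ := ih
          obtain ⟨h', hh', hd'⟩ := ih'
          refine ⟨h * h', H.mul_mem hh hh', ?_⟩
          have hz'Z : z' ∈ Z := hPZ (by rw [← hS]; exact hz')
          have e : z * z' * (h * h') = z * h * (z' * h') := by
            calc z * z' * (h * h') = z * (z' * h) * h' := by group
              _ = z * (h * z') * h' := by rw [hZH z' hz'Z h hh]
              _ = z * h * (z' * h') := by group
          rw [e]
          exact Subgroup.mul_mem _ hd hd'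
        | inv z hz ih =>
          obtain ⟨h, hh, hd⟩ := ih
          refine ⟨h⁻¹, H.inv_mem hh, ?_⟩
          have hzZ : z ∈ Z := hPZ (by rw [← hS]; exact hz)
          have e : z⁻¹ * h⁻¹ = (z * h)⁻¹ := by
            rw [mul_inv_rev]
            exact hZH z⁻¹ (Z.inv_mem hzZ) h⁻¹ (H.inv_mem hh)
          rw [e]
          exact Subgroup.inv_mem _ hd
      obtain ⟨z, hz, h, hh, rfl⟩ := mem_sup_comm hZH (hD hd)
      have hzP : z ∈ P := ⟨hz, h, hh, hd⟩
      rw [← hS] at hzP
      obtain ⟨h', hh', hd'⟩ := key z hzP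
      have hd'' : z * h' ∈ D := by
        have hle : Subgroup.closure (R : Set G) ≤ D := by
          rw [Subgroup.closure_le]
          intro g hg
          rw [hR, Finset.coe_union] at hg
          rcases hg with hg | hg
          · rw [Finset.coe_image] at hg
            obtain ⟨z, hz, rfl⟩ := hg
            exact hη2 z hz
          · rw [Set.Finite.coe_toFinset] at hg
            exact hg.1
        exact hle hd'
      have e : z * h = z * h' * (h'⁻¹ * h) := by group
      rw [e]
      apply Subgroup.mul_mem _ hd'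
      apply Subgroup.subset_closure
      rw [hR, Finset.coe_union]
      right
      rw [Set.Finite.coe_toFinset]
      refine ⟨?_, H.mul_mem (H.inv_mem hh') hh⟩
      have e2 : h'⁻¹ * h = (z * h')⁻¹ * (z * h) := by group
      rw [e2]
      exact D.mul_mem (D.inv_mem hd'') hd
  -- commutators
  have hcomm : ∀ d ∈ Z ⊔ H, ∀ e ∈ Z ⊔ H, d * e * d⁻¹ * e⁻¹ ∈ H := by
    intro d hd e he
    obtain ⟨z, hz, h, hh, rfl⟩ := mem_sup_comm hZH hd
    obtain ⟨z', hz', h', hh', rfl⟩ := mem_sup_comm hZH he
    have e1 : z * h * (z' * h') = z * z' * (h * h') := by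
      calc z * h * (z' * h') = z * (h * z') * h' := by group
        _ = z * (z' * h) * h' := by rw [hZH z' hz' h hh]
        _ = z * z' * (h * h') := by group
    have e2 : z' * h' * (z * h) = z' * z * (h' * h) := by
      calc z' * h' * (z * h) = z' * (h' * z) * h := by group
        _ = z' * (z * h') * h := by rw [hZH z hz h' hh']
        _ = z' * z * (h' * h) := by group
    have e3 : z * h * (z' * h') * (z * h)⁻¹ * (z' * h')⁻¹ =
        (z * z') * (h * h' * (h' * h)⁻¹) * (z' * z)⁻¹ := by
      calc z * h * (z' * h') * (z * h)⁻¹ * (z' * h')⁻¹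
          = (z * h * (z' * h')) * (z' * h' * (z * h))⁻¹ := by group
        _ = _ := by
          rw [e1, e2]
          group
    have hw : h * h' * (h' * h)⁻¹ ∈ H :=
      H.mul_mem (H.mul_mem hh hh') (H.inv_mem (H.mul_mem hh' hh))
    rw [e3, hZH _ (Z.mul_mem hz hz') _ hw, hZ z' hz' z hz, mul_assoc, mul_inv_cancel, mul_one]
    exact hw
  have hcent : (Subgroup.centralizer (R : Set G)).relIndex D ≠ 0 := by
    apply relIndex_centralizer_finset
    intro e he
    have heD : e ∈ D := by
      rw [← hRD]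
      exact Subgroup.subset_closure he
    apply relIndex_of_finite_cover (F := (fun u => u * e) '' ((D ⊓ H : Subgroup G) : Set G))
      (hfin.image _) (fun d => d * e * d⁻¹)
    · intro d hd
      refine ⟨d * e * d⁻¹ * e⁻¹, ⟨?_, hcomm d (hD hd) e (hD heD)⟩, ?_⟩
      · exact D.mul_mem (D.mul_mem (D.mul_mem hd heD) (D.inv_mem hd)) (D.inv_mem heD)
      · show d * e * d⁻¹ * e⁻¹ * e = d * e * d⁻¹
        rw [inv_mul_cancel_right]
    · intro d _ d' _ hdd
      rw [Subgroup.mem_centralizer_singleton_iff]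
      have hdd' : d * e * d⁻¹ = d' * e * d'⁻¹ := hdd
      calc d⁻¹ * d' * e = d⁻¹ * (d' * e * d'⁻¹) * d' := by group
        _ = d⁻¹ * (d * e * d⁻¹) * d' := by rw [hdd']
        _ = e * (d⁻¹ * d') := by group
  refine ⟨D ⊓ Subgroup.centralizer (R : Set G), inf_le_left, ?_, ?_, ?_⟩
  · intro a ha b hb
    have h1 : a ∈ Subgroup.centralizer (R : Set G) := ha.2
    have h2 : b ∈ Subgroup.closure (R : Set G) := by rw [hRD]; exact hb.1
    rw [← Subgroup.centralizer_closure] at h1
    exact (Subgroup.mem_centralizer_iff.mp h1 b h2).symm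
  · have hDfg : D.FG := ⟨R, hRD⟩
    have hDfg' : Group.FG D := (Group.fg_iff_subgroup_fg D).mpr hDfg
    set A := D ⊓ Subgroup.centralizer (R : Set G) with hA
    have hfi : (A.subgroupOf D).FiniteIndex := ⟨by
      show A.relIndex D ≠ 0
      rw [hA, Subgroup.inf_relIndex_left]
      exact hcent⟩
    have h1 : Group.FG (A.subgroupOf D) := Subgroup.fg_of_index_ne_zero _
    exact fg_of_subgroupOf inf_le_left ((Group.fg_iff_subgroup_fg _).mp h1)
  · rw [Subgroup.inf_relIndex_left]
    exact hcent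

end Algebra

end Pool.Agent.H74.CC
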