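import Pool.Agent.H74.CD4

/-!
# The main theorem for edge groups which are virtually abelian times rank one
-/

open Set Filter Topology Metric
open Pool.Agent.H29

set_option linter.unusedSectionVars false

namespace Pool.Agent.H74.CC

universe u

variable {G : Type*} {X : Type u} {V : Type*} [Group G] [MetricSpace X] [IsCAT0 X] [ProperSpace X]
  [MulAction G X] [IsIsometricSMul G X] [ProperlyDiscontinuousSMul G X] [MulAction G V]
  {T : SimpleGraph V}

lemma all_of_no_flip (hT : T.IsTree) (hadj : ∀ (g : G) v w, T.Adj v w → T.Adj (g • v) (g • w))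
    {τ : G} {x y : V} (h : TAx T.dist τ x y) (hno : ∀ r : G, ¬ Flip T.dist x y r)
    {Y : Set X} (hY : IsNC (stab2 x y : Subgroup G) Y) (hYne : Y.Nonempty)
    (hYc : CocompactOn (stab2 x y : Subgroup G) Y) (g : G) : Cm (stab2 x y : Subgroup G) g := by
  set K : Subgroup G := stab2 x y with hK
  have key : ∀ w : G, K ≤ K.map (MulAut.conj w).toMonoidHom → Cm K w := by
    intro w hw
    have e1 : ∀ a : G, (K.map (MulAut.conj a⁻¹).toMonoidHom).map (MulAut.conj a).toMonoidHom = K := by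
      intro a
      rw [map_conj_conj, mul_inv_cancel]
      ext k
      rw [mem_map_conj]
      simp
    have h1 : K.map (MulAut.conj w⁻¹).toMonoidHom ≤ K := by
      have h2 := Subgroup.map_mono (f := (MulAut.conj w⁻¹).toMonoidHom) hw
      have e2 := e1 w⁻¹
      rw [inv_inv] at e2
      rwa [e2] at h2
    have h2 := cohopf hY hYne hYc h1
    have h3 := Subgroup.map_mono (f := (MulAut.conj w).toMonoidHom) h2
    rw [e1] at h3
    have h4 : K.map (MulAut.conj w).toMonoidHom = K := le_antisymm h3 hw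
    unfold Cm
    rw [h4]
    exact comm2_refl K
  obtain ⟨n1, hn1⟩ := le_of_no_flip hT hadj h hno g
  obtain ⟨n2, hn2⟩ := le_of_no_flip hT hadj h hno 1
  set n := max n1 n2 with hn
  have h1 := key _ (hn1 n (le_max_left _ _))
  have h2 := key _ (hn2 n (le_max_right _ _))
  rw [one_mul] at h2
  exact h2.of_mul_right h1

/-- **Rank one factors of virtually intersecting products are commensurable.** -/
theorem relIndex_factor [Nonempty X] (hcoc : Cocompact G X) {Z H K : Subgroup G} {M : Set X}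
    (h : R1 H M) (hZ : ∀ a ∈ Z, ∀ b ∈ Z, a * b = b * a) (hfg : Z.FG)
    (hZH : ∀ z ∈ Z, ∀ h ∈ H, z * h = h * z) (hidx : (Z ⊔ H).relIndex K ≠ 0) {g : G}
    (hg : (K.map (MulAut.conj g).toMonoidHom).relIndex H ≠ 0) :
    (H.map (MulAut.conj g).toMonoidHom).relIndex H ≠ 0 := by
  classical
  set K1 : Subgroup G := (Z ⊔ H).map (MulAut.conj g).toMonoidHom with hK1
  have h1 : K1.relIndex H ≠ 0 := by
    refine Subgroup.relIndex_ne_zero_trans (K := K.map (MulAut.conj g).toMonoidHom) ?_ hg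
    rw [hK1, relIndex_conj]
    exact hidx
  set H0 := H ⊓ K1 with hH0
  have h2 : H0.relIndex H ≠ 0 := by
    rw [hH0, Subgroup.inf_relIndex_left]
    exact h1
  have hR0 : R1 H0 M := h.finiteIndex inf_le_left h2
  have hrep : ∀ d : G, ∃ z w : G, d ∈ H0 → z ∈ Z ∧ w ∈ H ∧ d = g * (z * w) * g⁻¹ := by
    intro d
    by_cases hd : d ∈ H0
    · have h3 : d ∈ K1 := hd.2
      rw [hK1, mem_map_conj] at h3
      obtain ⟨z, hz, w, hw, he⟩ := mem_sup_comm hZH h3
      refine ⟨z, w, fun _ => ⟨hz, hw, ?_⟩⟩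
      rw [← he]
      group
    · exact ⟨1, 1, fun h => absurd h hd⟩
  choose ζ ω hζω using hrep
  have hcomm : ∀ z ∈ Z, ∀ v ∈ H0, (g * z * g⁻¹) * v = v * (g * z * g⁻¹) := by
    intro z hz v hv
    obtain ⟨hz', hw', he⟩ := hζω v hv
    set z' := ζ v
    set w' := ω v
    rw [he]
    calc g * z * g⁻¹ * (g * (z' * w') * g⁻¹) = g * ((z * z') * w') * g⁻¹ := by group
      _ = g * ((z' * z) * w') * g⁻¹ := by rw [hZ z hz z' hz']
      _ = g * (z' * (z * w')) * g⁻¹ := by group
      _ = g * (z' * (w' * z)) * g⁻¹ := by rw [hZH z hz w' hw']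
      _ = g * (z' * w') * g⁻¹ * (g * z * g⁻¹) := by group
  have h3 : (H.map (MulAut.conj g).toMonoidHom).relIndex H0 ≠ 0 := by
    apply relIndex_of_finite_cover (finite_torsion hZ hfg) ζ
    · intro d hd
      obtain ⟨hz, hw, he⟩ := hζω d hd
      refine ⟨hz, R1.torsion hcoc h hR0 (g := g) (w := ω d) (hZH _ hz) (hcomm _ hz) hw ?_⟩
      rw [← he]
      exact hd
    · intro d hd d' hd' hdd
      obtain ⟨hz, hw, he⟩ := hζω d hd
      obtain ⟨hz', hw', he'⟩ := hζω d' hd'
      rw [mem_map_conj]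
      have e : g⁻¹ * (d⁻¹ * d') * g = (ω d)⁻¹ * ω d' := by
        calc g⁻¹ * (d⁻¹ * d') * g = g⁻¹ * ((g * (ζ d * ω d) * g⁻¹)⁻¹ *
              (g * (ζ d' * ω d') * g⁻¹)) * g := by rw [← he, ← he']
          _ = (ω d)⁻¹ * ((ζ d)⁻¹ * ζ d') * ω d' := by group
          _ = (ω d)⁻¹ * ω d' := by rw [hdd, inv_mul_cancel, mul_one]
      rw [e]
      exact H.mul_mem (H.inv_mem hw) hw'
  exact Subgroup.relIndex_ne_zero_trans h3 h2

/-- finite index in a product -/
lemma relIndex_sup_comm {Z H A : Subgroup G} (hZH : ∀ z ∈ Z, ∀ h ∈ H, z * h = h * z)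
    (hidx : A.relIndex H ≠ 0) : (Z ⊔ A).relIndex (Z ⊔ H) ≠ 0 := by
  classical
  have hfin : Finite (H ⧸ A.subgroupOf H) := by
    have : (A.subgroupOf H).FiniteIndex := ⟨hidx⟩
    exact Subgroup.finite_quotient_of_finiteIndex
  have hrep : ∀ d : G, ∃ (z : G) (q : H), d ∈ Z ⊔ H → z ∈ Z ∧ d = z * (q : G) := by
    intro d
    by_cases hd : d ∈ Z ⊔ H
    · obtain ⟨z, hz, w, hw, he⟩ := mem_sup_comm hZH hd
      exact ⟨z, ⟨w, hw⟩, fun _ => ⟨hz, he⟩⟩
    · exact ⟨1, 1, fun h => absurd h hd⟩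
  choose ζ ω hζω using hrep
  apply relIndex_of_finite_cover
    (F := range (fun q : H ⧸ A.subgroupOf H => ((Quotient.out q : H) : G))) (Set.finite_range _)
    (fun d => ((Quotient.out (QuotientGroup.mk (ω d) : H ⧸ A.subgroupOf H) : H) : G))
  · intro d _
    exact ⟨_, rfl⟩
  · intro d hd d' hd' hdd
    obtain ⟨hz, he⟩ := hζω d hd
    obtain ⟨hz', he'⟩ := hζω d' hd'
    have h1 : (QuotientGroup.mk (ω d) : H ⧸ A.subgroupOf H) = QuotientGroup.mk (ω d') := by
      have h2 : (Quotient.out (QuotientGroup.mk (ω d) : H ⧸ A.subgroupOf H)) =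
          Quotient.out (QuotientGroup.mk (ω d') : H ⧸ A.subgroupOf H) := Subtype.ext hdd
      rw [← QuotientGroup.out_eq' (QuotientGroup.mk (ω d) : H ⧸ A.subgroupOf H), h2,
        QuotientGroup.out_eq']
    rw [QuotientGroup.eq] at h1
    have h3 : ((ω d : G))⁻¹ * (ω d' : G) ∈ A := h1
    have e : d⁻¹ * d' = ((ζ d)⁻¹ * ζ d') * ((ω d : G)⁻¹ * (ω d' : G)) := by
      have hzz : (ζ d)⁻¹ * ζ d' ∈ Z := Z.mul_mem (Z.inv_mem hz) hz'
      have hc := hZH _ hzz _ (H.inv_mem (ω d).2)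
      calc d⁻¹ * d' = (ω d : G)⁻¹ * ((ζ d)⁻¹ * ζ d') * (ω d' : G) := by
            nth_rewrite 1 [he]
            nth_rewrite 1 [he']
            group
        _ = ((ζ d)⁻¹ * ζ d') * (ω d : G)⁻¹ * (ω d' : G) := by rw [hc]
        _ = _ := by group
    rw [e]
    exact Subgroup.mul_mem _ (Subgroup.mem_sup_left (Z.mul_mem (Z.inv_mem hz) hz'))
      (Subgroup.mem_sup_right h3)

theorem rankOne_of_product [Nonempty X] (hgc : GeodesicallyComplete X) (hcoc : Cocompact G X)
    (hirr : MetricIrreducible X) (hT : T.IsTree)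
    (hadj : ∀ (g : G) v w, T.Adj v w → T.Adj (g • v) (g • w)) {τ : G} {x y : V}
    (h : TAx T.dist τ x y)
    {Y : Set X} (hY : IsNC (stab2 x y : Subgroup G) Y) (hYne : Y.Nonempty)
    (hYc : CocompactOn (stab2 x y : Subgroup G) Y)
    {Z H : Subgroup G} (hZ : ∀ a ∈ Z, ∀ b ∈ Z, a * b = b * a) (hfg : Z.FG)
    (hZH : ∀ z ∈ Z, ∀ h ∈ H, z * h = h * z) (hHK : H ≤ stab2 x y)
    (hidx : (Z ⊔ H).relIndex (stab2 x y) ≠ 0)
    {Y' : Set X} (hY' : IsNC H Y') (hY'c : CocompactOn H Y') {k : G} (hk : k ∈ H)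
    {c : ℝ → X} (hc : Isometry c) (hcY : ∀ t, c t ∈ Y') {a : ℝ} (ha : 0 < a)
    (hax : ∀ t, k • c t = c (t + a)) (hnb : ¬ BoundsHalfPlaneIn Y' c) :
    ∃ g : G, IsRankOne (X := X) g := by
  classical
  have hd := treeLike_dist hT
  have hiso : ∀ (g : G) v w, T.dist (g • v) (g • w) = T.dist v w := dist_smul_tree hT hadj
  have hfin : ∀ (σ : G) (z w : V), TAx T.dist σ z w →
      {g : G | g • z = z ∧ g • w = w}.Finite → IsRankOne (X := X) σ := by
    intro σ z w h hf
    exact TAxis.rankOne (T := T) hcoc hT hadj ⟨h.ne, h.ne', h.a1, h.a2⟩ hf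
  set K : Subgroup G := stab2 x y with hK
  by_cases hcyc : (Subgroup.zpowers k).relIndex H ≠ 0
  · -- virtually abelian
    have hle : Subgroup.zpowers k ≤ H := by rw [Subgroup.zpowers_le]; exact hk
    have hZk : ∀ z ∈ Z, ∀ h ∈ Subgroup.zpowers k, z * h = h * z := fun z hz h hh =>
      hZH z hz h (hle hh)
    refine rankOne_of_abelian hgc hcoc hirr hd hiso hfin h (Z ⊔ Subgroup.zpowers k) ?_ ?_ ?_
    · intro g hg g' hg'
      obtain ⟨z, hz, w, hw, rfl⟩ := mem_sup_comm hZk hg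
      obtain ⟨z', hz', w', hw', rfl⟩ := mem_sup_comm hZk hg'
      have e1 : w * w' = w' * w := by
        obtain ⟨i, rfl⟩ := Subgroup.mem_zpowers_iff.mp hw
        obtain ⟨j, rfl⟩ := Subgroup.mem_zpowers_iff.mp hw'
        exact (Commute.refl k).zpow_zpow i j
      calc z * w * (z' * w') = z * (w * z') * w' := by group
        _ = z * (z' * w) * w' := by rw [hZk z' hz' w hw]
        _ = z * z' * (w * w') := by group
        _ = z' * z * (w' * w) := by rw [hZ z hz z' hz', e1]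
        _ = z' * (z * w') * w := by group
        _ = z' * (w' * z) * w := by rw [hZk z hz w' hw']
        _ = z' * w' * (z * w) := by group
    · exact hfg.sup ⟨{k}, by rw [Finset.coe_singleton, Subgroup.zpowers_eq_closure]⟩
    · exact Subgroup.relIndex_ne_zero_trans (relIndex_sup_comm hZH hcyc) hidx
  push Not at hcyc
  obtain ⟨M, hMY, hM, c', hc', hcM, hax', hnb'⟩ := reduce_min hY' hY'c hk hc hcY ha hax hnb
  have hMc : CocompactOn H M := hY'c.mono hMY
  have hR1 : R1 H M := ⟨hM, hMc, k, hk, c', hc', hcM, a, ha, hax', hnb', hcyc⟩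
  -- flips
  by_cases hr : ∃ r : G, Flip T.dist x y r
  swap
  · push Not at hr
    exact ⟨τ, hfin τ x y h (finite_of_all hgc hcoc hirr hd hiso h
      (fun g => all_of_no_flip hT hadj h hr hY hYne hYc g) hY hYne hYc)⟩
  by_cases hl : ∃ l : G, Flip T.dist y x l
  swap
  · push Not at hl
    have e : (stab2 x y : Subgroup G) = stab2 y x := stab2_swap
    refine ⟨τ, hfin τ x y h (finite_of_all hgc hcoc hirr hd hiso h
      (fun g => ?_) hY hYne hYc)⟩
    rw [e]
    rw [hK, e] at hY hYc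
    exact all_of_no_flip hT hadj (h.rev hd hiso) hl hY hYne hYc g
  obtain ⟨r, hr⟩ := hr
  obtain ⟨l, hl⟩ := hl
  -- one-sided stability
  have hstab : (∀ g : G, Cm H g) → False := by
    intro hall
    rcases commensurated_split hgc hcoc hirr hall hM.isNC hM.ne hMc with hf | hi
    · have : Finite H := hf
      exact (Subgroup.index_ne_zero_of_finite (H := (Subgroup.zpowers k).subgroupOf H)) hcyc
    · rw [Subgroup.relIndex_top_right] at hi
      obtain ⟨n, hn, _, hn2⟩ := Subgroup.exists_pow_mem_of_index_ne_zero hi τ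
      have h1 : τ ^ n • x = x := (hHK hn2).1
      have h2 := (h.dist_pow hd hiso n).2
      rw [h1, hd.self] at h2
      omega
  by_cases hR : ∀ g : G, Pos T.dist x y g ∨ Flip T.dist x y g →
      (K.map (MulAut.conj g).toMonoidHom).relIndex H ≠ 0
  · exfalso
    have hS : StabR T.dist H x y := fun g hg =>
      relIndex_factor hcoc hR1 hZ hfg hZH hidx (hR g hg)
    exact hstab (fun g => hS.all hd hiso h hr g)
  by_cases hL : ∀ g : G, Pos T.dist y x g ∨ Flip T.dist y x g →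
      (K.map (MulAut.conj g).toMonoidHom).relIndex H ≠ 0
  · exfalso
    have hS : StabR T.dist H y x := fun g hg =>
      relIndex_factor hcoc hR1 hZ hfg hZH hidx (hL g hg)
    exact hstab (fun g => hS.all hd hiso (h.rev hd hiso) hl g)
  push Not at hR hL
  obtain ⟨g2, hg2, hi2⟩ := hR
  obtain ⟨g1, hg1, hi1⟩ := hL
  obtain ⟨h0, hh0, hF⟩ := exists_finite_inf hM.isNC hMc (isNC_smul hY g1) (hYne.image _)
    (cocompactOn_smul hYc g1) (isNC_smul hY g2) (hYne.image _) (cocompactOn_smul hYc g2)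
    hk hc' hcM ha hax' hnb' hi1 hi2
  rw [map_conj_conj] at hF
  have hh0x : h0 • x = x := (hHK hh0).1
  have hh0y : h0 • y = y := (hHK hh0).2
  have hg2' : Pos T.dist x y (h0 * g2) ∨ Flip T.dist x y (h0 * g2) := by
    rcases hg2 with hg | hg
    · left
      have := Ord.smul hiso hg h0
      rwa [hh0x, hh0y, ← mul_smul, ← mul_smul] at this
    · right
      have := Ord.smul hiso hg h0
      rwa [hh0x, hh0y, ← mul_smul, ← mul_smul] at this
  obtain ⟨R, hR1', hR2, hR3⟩ := exists_extend hd hiso h.ne hl hg2'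
  obtain ⟨L, hL1, hL2, hL3⟩ := exists_extend hd hiso h.ne.symm hr hg1
  -- the translation
  have e1 : Ord T.dist (L • x) (L • y) x y := Ord.symm hd hL1
  have e2 : Ord T.dist x y (R • x) (R • y) := hR1'
  have e3 := Ord.trans hd e1 e2 h.ne
  have e4 := ord_of_bt hd (e1.bt2 hd) (e2.bt1 hd) h.ne
  have hpos := hd.pos h.ne
  have eR : ∀ v : V, (R * L⁻¹) • L • v = R • v := by
    intro v
    rw [mul_smul, inv_smul_smul]
  have hax1 : TAx T.dist (R * L⁻¹) (L • x) (L • y) := by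
    refine ⟨fun he => h.ne (MulAction.injective _ he), ?_, ?_, ?_⟩
    · rw [eR]
      intro he
      unfold Ord at e4
      rw [he, hd.self] at e4
      omega
    · rw [eR]
      exact e3.bt1 hd
    · rw [eR, eR]
      exact e3.bt2 hd
  have hax2 := tax_double hd hiso hax1
  rw [eR] at hax2
  -- its stabiliser is virtually abelian
  set E : Subgroup G := K ⊓ K.map (MulAut.conj g1).toMonoidHom ⊓
    K.map (MulAut.conj (h0 * g2)).toMonoidHom with hE
  have hstabE : (MulAction.stabilizer G (L • x) ⊓ MulAction.stabilizer G (R • y)) ≤ E := by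
    rintro g ⟨hgL, hgR⟩
    have hgL' : g • L • x = L • x := hgL
    have hgR' : g • R • y = R • y := hgR
    have e5 := ord_of_bt hd (e1.bt4 hd) (e2.bt3 hd) h.ne
    have hgx : g • x = x := Bt.fix hd hiso (e5.bt3 hd) hgL' hgR'
    have hgy : g • y = y := Bt.fix hd hiso (e5.bt4 hd) hgL' hgR'
    refine ⟨⟨⟨hgx, hgy⟩, ?_⟩, ?_⟩
    · rw [SetLike.mem_coe, hK, map_stab]
      exact ⟨Bt.fix hd hiso hL3 hgx hgL', Bt.fix hd hiso hL2 hgx hgL'⟩
    · rw [SetLike.mem_coe, hK, map_stab]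
      exact ⟨Bt.fix hd hiso hR2 hgy hgR', Bt.fix hd hiso hR3 hgy hgR'⟩
  have hDfin : (((E ⊓ (Z ⊔ H)) ⊓ H : Subgroup G) : Set G).Finite := by
    apply hF.subset
    rintro g ⟨⟨hgE, _⟩, hgH⟩
    exact ⟨⟨hgH, hgE.1.2⟩, hgE.2⟩
  obtain ⟨A, hAD, hAab, hAfg, hAidx⟩ := exists_abelian hZ hfg hZH (D := E ⊓ (Z ⊔ H))
    inf_le_right hDfin
  refine rankOne_of_abelian hgc hcoc hirr hd hiso hfin hax2 A hAab hAfg ?_
  apply relIndex_mono_right hstabE
  refine Subgroup.relIndex_ne_zero_trans hAidx ?_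
  rw [Subgroup.inf_relIndex_left]
  exact relIndex_mono_right (inf_le_left.trans inf_le_left) hidx

end Pool.Agent.H74.CC
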