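import Pool.Agent.H74.CC3

/-!
# Convex cocompact subgroups
-/

namespace Pool.Agent.H74.CC

/-- The subgroup `H` acts cocompactly on the nonempty closed convex set `Y`: the set `Y` is
closed, contains with two points all points between them, is invariant under `H`, and some compact
set meets all `H`-orbits of points of `Y`. -/
def ConvexCocompactOn {G X : Type*} [Group G] [MetricSpace X] [MulAction G X] (H : Subgroup G)
    (Y : Set X) : Prop :=
  IsClosed Y ∧ Y.Nonempty ∧
  (∀ p ∈ Y, ∀ q ∈ Y, ∀ z : X, dist p z + dist z q = dist p q → z ∈ Y) ∧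
  (∀ h ∈ H, ∀ p ∈ Y, h • p ∈ Y) ∧
  ∃ B : Set X, IsCompact B ∧ ∀ p ∈ Y, ∃ h ∈ H, h • p ∈ B

end Pool.Agent.H74.CC
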