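import Mathlib

set_option autoImplicit false
set_option linter.unusedSectionVars false
set_option linter.unusedVariables false
set_option linter.unusedSimpArgs false

open Finset

namespace Pool.Agent.H74.LipFree

noncomputable section

variable {M : Type*} [MetricSpace M]

/-- `P(M)`: the real vector space with basis `δ(x)`, `x ≠ o`. -/
abbrev Mol (o : M) : Type _ := {x : M // x ≠ o} →₀ ℝ

open Classical in
/-- `δ(x)`, with the convention `δ(o) = 0`. -/
def delta (o x : M) : Mol o := if h : x = o then 0 else Finsupp.single ⟨x, h⟩ 1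

/-- `‖μ‖_p ^ p`, the infimum of `∑ |a_i|^p d(x_i,y_i)^p` over all representations
`μ = ∑ a_i (δ(x_i) - δ(y_i))`. -/
def pcost (p : ℝ) {o : M} (μ : Mol o) : ℝ :=
  sInf {s : ℝ | ∃ (n : ℕ) (a : Fin n → ℝ) (x y : Fin n → M),
    μ = ∑ i, a i • (delta o (x i) - delta o (y i)) ∧
    s = ∑ i, |a i| ^ p * dist (x i) (y i) ^ p}

@[simp] lemma delta_self (o : M) : delta o o = 0 := by simp [delta]

/-- the pairing of a molecule with a function. -/
def pair {o : M} (f : M → ℝ) : Mol o →ₗ[ℝ] ℝ :=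
  Finsupp.linearCombination ℝ (fun x : {x : M // x ≠ o} => f x)

lemma pair_delta {o : M} (f : M → ℝ) (hf : f o = 0) (x : M) : pair f (delta o x) = f x := by
  unfold delta
  split_ifs with h
  · simp [h, hf]
  · simp [pair]

lemma pair_smul_fun {o : M} (c : ℝ) (f : M → ℝ) (u : Mol o) :
    pair (fun x => c * f x) u = c * pair f u := by
  simp only [pair, Finsupp.linearCombination_apply, smul_eq_mul, Finsupp.sum, Finset.mul_sum]
  exact Finset.sum_congr rfl fun i _ => by ring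

lemma pair_add_fun {o : M} (f g : M → ℝ) (u : Mol o) :
    pair (fun x => f x + g x) u = pair f u + pair g u := by
  simp only [pair, Finsupp.linearCombination_apply, smul_eq_mul, Finsupp.sum,
    ← Finset.sum_add_distrib]
  exact Finset.sum_congr rfl fun i _ => by ring

lemma pair_neg_fun {o : M} (f : M → ℝ) (u : Mol o) :
    pair (fun x => - f x) u = - pair f u := by
  simpa using pair_smul_fun (-1) f u

/-- two functions agreeing at the support points give the same pairing -/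
lemma pair_congr {o : M} (f g : M → ℝ) (u : Mol o) (h : ∀ x ∈ u.support, f x = g x) :
    pair f u = pair g u := by
  simp only [pair, Finsupp.linearCombination_apply, smul_eq_mul, Finsupp.sum]
  exact Finset.sum_congr rfl fun i hi => by rw [h i hi]

lemma mol_eq_sum {o : M} (μ : Mol o) : μ = ∑ x ∈ μ.support, μ x • delta o (x : M) := by
  conv_lhs => rw [← Finsupp.sum_single μ]
  rw [Finsupp.sum]
  refine Finset.sum_congr rfl fun x _ => ?_
  have : ¬ ((x : M) = o) := x.2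
  simp [delta, this]

lemma cost_nonneg {p : ℝ} {ι : Type*} (s : Finset ι) (a : ι → ℝ) (x y : ι → M) :
    0 ≤ ∑ i ∈ s, |a i| ^ p * dist (x i) (y i) ^ p :=
  Finset.sum_nonneg fun i _ => by positivity

lemma costSet_bdd (p : ℝ) {o : M} (μ : Mol o) : BddBelow {s : ℝ | ∃ (n : ℕ) (a : Fin n → ℝ)
    (x y : Fin n → M), μ = ∑ i, a i • (delta o (x i) - delta o (y i)) ∧
    s = ∑ i, |a i| ^ p * dist (x i) (y i) ^ p} := by
  refine ⟨0, ?_⟩
  rintro s ⟨n, a, x, y, -, rfl⟩
  exact cost_nonneg _ _ _ _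

/-- reindexing to `Fin n` -/
lemma mem_costSet {p : ℝ} {o : M} {ι : Type*} [Fintype ι] (a : ι → ℝ) (x y : ι → M) :
    ∃ (n : ℕ) (a' : Fin n → ℝ) (x' y' : Fin n → M),
      (∑ i, a i • (delta o (x i) - delta o (y i))) =
        ∑ i, a' i • (delta o (x' i) - delta o (y' i)) ∧
      (∑ i, |a i| ^ p * dist (x i) (y i) ^ p) = ∑ i, |a' i| ^ p * dist (x' i) (y' i) ^ p := by
  classical
  let e := Fintype.equivFin ι
  refine ⟨Fintype.card ι, a ∘ e.symm, x ∘ e.symm, y ∘ e.symm, ?_, ?_⟩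
  · exact (Equiv.sum_comp e.symm (fun i => a i • (delta o (x i) - delta o (y i)))).symm
  · exact (Equiv.sum_comp e.symm (fun i => |a i| ^ p * dist (x i) (y i) ^ p)).symm

lemma pcost_le {p : ℝ} {o : M} {ι : Type*} [Fintype ι] (μ : Mol o) (a : ι → ℝ) (x y : ι → M)
    (h : μ = ∑ i, a i • (delta o (x i) - delta o (y i))) :
    pcost p μ ≤ ∑ i, |a i| ^ p * dist (x i) (y i) ^ p := by
  obtain ⟨n, a', x', y', h1, h2⟩ := mem_costSet (p := p) (o := o) a x y
  rw [h2]
  exact csInf_le (costSet_bdd p μ) ⟨n, a', x', y', h.trans h1, rfl⟩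

lemma costSet_nonempty (p : ℝ) {o : M} (μ : Mol o) : {s : ℝ | ∃ (n : ℕ) (a : Fin n → ℝ)
    (x y : Fin n → M), μ = ∑ i, a i • (delta o (x i) - delta o (y i)) ∧
    s = ∑ i, |a i| ^ p * dist (x i) (y i) ^ p}.Nonempty := by
  have h : μ = ∑ x : μ.support, μ x • (delta o (x : M) - delta o o) := by
    conv_lhs => rw [mol_eq_sum μ]
    rw [← Finset.sum_coe_sort]
    simp
  obtain ⟨n, a', x', y', h1, h2⟩ := mem_costSet (p := p) (o := o)
    (fun x : μ.support => μ x) (fun x => (x : M)) (fun _ => o)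
  exact ⟨_, n, a', x', y', h.trans h1, rfl⟩

lemma pcost_nonneg (p : ℝ) {o : M} (μ : Mol o) : 0 ≤ pcost p μ := by
  refine le_csInf (costSet_nonempty p μ) ?_
  rintro s ⟨n, a, x, y, -, rfl⟩
  exact cost_nonneg _ _ _ _

lemma exists_rep (p : ℝ) {o : M} (μ : Mol o) {ε : ℝ} (hε : 0 < ε) :
    ∃ (n : ℕ) (a : Fin n → ℝ) (x y : Fin n → M),
      μ = ∑ i, a i • (delta o (x i) - delta o (y i)) ∧
      ∑ i, |a i| ^ p * dist (x i) (y i) ^ p < pcost p μ + ε := by
  obtain ⟨s, ⟨n, a, x, y, h1, rfl⟩, hs⟩ :=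
    exists_lt_of_csInf_lt (costSet_nonempty p μ) (lt_add_of_pos_right (pcost p μ) hε)
  exact ⟨n, a, x, y, h1, hs⟩

lemma pcost_zero (p : ℝ) (o : M) : pcost p (0 : Mol o) = 0 := by
  refine le_antisymm ?_ (pcost_nonneg p _)
  have := pcost_le (p := p) (0 : Mol o) (fun i : Fin 0 => (0 : ℝ)) (fun _ => o) (fun _ => o)
    (by simp)
  simpa using this

lemma pcost_add_le (p : ℝ) {o : M} (μ ν : Mol o) : pcost p (μ + ν) ≤ pcost p μ + pcost p ν := by
  refine le_of_forall_pos_le_add fun ε hε => ?_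
  obtain ⟨n, a, x, y, h1, h2⟩ := exists_rep p μ (half_pos hε)
  obtain ⟨m, b, z, w, h3, h4⟩ := exists_rep p ν (half_pos hε)
  have := pcost_le (p := p) (μ + ν) (Sum.elim a b) (Sum.elim x z) (Sum.elim y w)
    (by rw [Fintype.sum_sum_type]; simp [← h1, ← h3])
  rw [Fintype.sum_sum_type] at this
  simp only [Sum.elim_inl, Sum.elim_inr] at this
  linarith

lemma pcost_smul_le {p : ℝ} (hp : 0 < p) {o : M} (t : ℝ) (μ : Mol o) :
    pcost p (t • μ) ≤ |t| ^ p * pcost p μ := by
  refine le_of_forall_pos_le_add fun ε hε => ?_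
  have ht : 0 < |t| ^ p + 1 := by positivity
  obtain ⟨n, a, x, y, h1, h2⟩ := exists_rep p μ (div_pos hε ht)
  have h3 := pcost_le (p := p) (t • μ) (fun i => t * a i) x y
    (by rw [h1, Finset.smul_sum]; exact Finset.sum_congr rfl fun i _ => by rw [smul_smul])
  have h4 : ∑ i, |t * a i| ^ p * dist (x i) (y i) ^ p =
      |t| ^ p * ∑ i, |a i| ^ p * dist (x i) (y i) ^ p := by
    rw [Finset.mul_sum]
    refine Finset.sum_congr rfl fun i _ => ?_
    rw [abs_mul, Real.mul_rpow (abs_nonneg _) (abs_nonneg _)]; ring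
  have h5 : |t| ^ p * ∑ i, |a i| ^ p * dist (x i) (y i) ^ p ≤
      |t| ^ p * (pcost p μ + ε / (|t| ^ p + 1)) :=
    mul_le_mul_of_nonneg_left h2.le (by positivity)
  have h6 : |t| ^ p * (ε / (|t| ^ p + 1)) ≤ ε := by
    rw [mul_div_assoc', div_le_iff₀ ht]
    have : 0 ≤ |t| ^ p := by positivity
    nlinarith
  calc pcost p (t • μ) ≤ _ := h3
    _ = _ := h4
    _ ≤ _ := h5
    _ ≤ _ := by rw [mul_add]; linarith

lemma pcost_smul {p : ℝ} (hp : 0 < p) {o : M} (t : ℝ) (μ : Mol o) :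
    pcost p (t • μ) = |t| ^ p * pcost p μ := by
  refine le_antisymm (pcost_smul_le hp t μ) ?_
  rcases eq_or_ne t 0 with rfl | ht
  · simp [pcost_zero, Real.zero_rpow hp.ne']
  · have h := pcost_smul_le hp t⁻¹ (t • μ)
    rw [smul_smul, inv_mul_cancel₀ ht, one_smul] at h
    have h2 : 0 < |t| ^ p := by positivity
    rw [abs_inv, Real.inv_rpow (abs_nonneg _)] at h
    calc |t| ^ p * pcost p μ ≤ |t| ^ p * ((|t| ^ p)⁻¹ * pcost p (t • μ)) :=
          mul_le_mul_of_nonneg_left h h2.le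
      _ = pcost p (t • μ) := by field_simp

lemma pcost_neg {p : ℝ} (hp : 0 < p) {o : M} (μ : Mol o) : pcost p (-μ) = pcost p μ := by
  have := pcost_smul hp (-1) μ
  simpa using this

/-- `L(u) ≤ g`: every `1`-Lipschitz function vanishing at `o` pairs with `u` to at most `g`. -/
def LB {o : M} (u : Mol o) (g : ℝ) : Prop :=
  ∀ f : M → ℝ, LipschitzWith 1 f → f o = 0 → pair f u ≤ g

lemma lip_abs {f : M → ℝ} (hf : LipschitzWith 1 f) (x y : M) : |f x - f y| ≤ dist x y := by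
  have := hf.dist_le_mul x y
  simpa [Real.dist_eq] using this

lemma lip_of_abs {f : M → ℝ} (hf : ∀ x y, |f x - f y| ≤ dist x y) : LipschitzWith 1 f :=
  LipschitzWith.of_dist_le_mul fun x y => by simpa [Real.dist_eq] using hf x y

lemma LB.neg {o : M} {u : Mol o} {g : ℝ} (h : LB u g) : LB (-u) g := by
  intro f hf hfo
  have := h (fun x => - f x) (hf.neg) (by simp [hfo])
  rw [pair_neg_fun] at this
  rw [map_neg]; exact this

lemma LB.abs {o : M} {u : Mol o} {g : ℝ} (h : LB u g) {f : M → ℝ} (hf : LipschitzWith 1 f)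
    (hfo : f o = 0) : |pair f u| ≤ g := by
  rw [abs_le]
  refine ⟨?_, h f hf hfo⟩
  have := h.neg f hf hfo
  rw [map_neg] at this
  linarith

lemma LB.nonneg {o : M} {u : Mol o} {g : ℝ} (h : LB u g) : 0 ≤ g := by
  have := h (fun _ => 0) (LipschitzWith.const 0 |>.weaken zero_le_one) rfl
  have h2 : pair (fun _ : M => (0 : ℝ)) u = 0 := by
    simp [pair, Finsupp.linearCombination_apply]
  linarith

lemma LB.add {o : M} {u v : Mol o} {g h : ℝ} (hu : LB u g) (hv : LB v h) : LB (u + v) (g + h) := by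
  intro f hf hfo
  rw [map_add]
  exact add_le_add (hu f hf hfo) (hv f hf hfo)

lemma LB.sub {o : M} {u v : Mol o} {g h : ℝ} (hu : LB u g) (hv : LB v h) : LB (u - v) (g + h) := by
  rw [sub_eq_add_neg]; exact hu.add hv.neg

lemma LB.mono {o : M} {u : Mol o} {g h : ℝ} (hu : LB u g) (hgh : g ≤ h) : LB u h :=
  fun f hf hfo => (hu f hf hfo).trans hgh

lemma LB.smul {o : M} {u : Mol o} {g : ℝ} (t : ℝ) (hu : LB u g) : LB (t • u) (|t| * g) := by
  intro f hf hfo
  rw [map_smul, smul_eq_mul]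
  calc t * pair f u ≤ |t * pair f u| := le_abs_self _
    _ = |t| * |pair f u| := abs_mul _ _
    _ ≤ |t| * g := mul_le_mul_of_nonneg_left (hu.abs hf hfo) (abs_nonneg _)

lemma LB.sum {o : M} {ι : Type*} (s : Finset ι) (u : ι → Mol o) (g : ι → ℝ)
    (h : ∀ i ∈ s, LB (u i) (g i)) : LB (∑ i ∈ s, u i) (∑ i ∈ s, g i) := by
  intro f hf hfo
  rw [map_sum]
  exact Finset.sum_le_sum fun i hi => h i hi f hf hfo

lemma LB_dipole (o x y : M) (a : ℝ) : LB (a • (delta o x - delta o y)) (|a| * dist x y) := by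
  apply LB.smul
  intro f hf hfo
  rw [map_sub, pair_delta f hfo, pair_delta f hfo]
  exact (le_abs_self _).trans (lip_abs hf x y)

/-- `(∑ w)^p ≤ ∑ w^p` -/
lemma rpow_sum_le {ι : Type*} (s : Finset ι) (w : ι → ℝ) (hw : ∀ i ∈ s, 0 ≤ w i) {p : ℝ}
    (hp0 : 0 < p) (hp1 : p ≤ 1) : (∑ i ∈ s, w i) ^ p ≤ ∑ i ∈ s, w i ^ p := by
  classical
  induction s using Finset.induction_on with
  | empty => simp [Real.zero_rpow hp0.ne']
  | insert a s ha ih =>
    rw [Finset.sum_insert ha, Finset.sum_insert ha]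
    have h1 : 0 ≤ w a := hw a (Finset.mem_insert_self _ _)
    have h2 : ∀ i ∈ s, 0 ≤ w i := fun i hi => hw i (Finset.mem_insert_of_mem hi)
    refine (Real.rpow_add_le_add_rpow h1 (Finset.sum_nonneg h2) hp0.le hp1).trans ?_
    have := ih h2
    linarith

lemma sum_le_rpow {ι : Type*} (s : Finset ι) (w : ι → ℝ) (hw : ∀ i ∈ s, 0 ≤ w i) {p : ℝ}
    (hp0 : 0 < p) (hp1 : p ≤ 1) {C : ℝ} (hC : ∑ i ∈ s, w i ^ p ≤ C) :
    ∑ i ∈ s, w i ≤ C ^ (1 / p) := by
  have h0 : 0 ≤ ∑ i ∈ s, w i := Finset.sum_nonneg hw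
  calc ∑ i ∈ s, w i = ((∑ i ∈ s, w i) ^ p) ^ (1 / p) := by
        rw [← Real.rpow_mul h0, mul_one_div_cancel hp0.ne', Real.rpow_one]
    _ ≤ C ^ (1 / p) :=
        Real.rpow_le_rpow (by positivity) ((rpow_sum_le s w hw hp0 hp1).trans hC) (by positivity)

lemma LB_of_lt {p : ℝ} (hp0 : 0 < p) (hp1 : p ≤ 1) {o : M} (μ : Mol o) {g : ℝ} (hg : 0 ≤ g)
    (h : pcost p μ < g ^ p) : LB μ g := by
  obtain ⟨n, a, x, y, h1, h2⟩ := exists_rep p μ (sub_pos.2 h)
  have h2' : ∑ i, |a i| ^ p * dist (x i) (y i) ^ p ≤ g ^ p := by linarith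
  have h3 : LB μ (∑ i, |a i| * dist (x i) (y i)) := by
    rw [h1]
    exact LB.sum _ _ _ fun i _ => LB_dipole o (x i) (y i) (a i)
  refine h3.mono ?_
  have h4 := sum_le_rpow Finset.univ (fun i => |a i| * dist (x i) (y i))
    (fun i _ => by positivity) hp0 hp1 (C := g ^ p) (by
      refine le_trans (le_of_eq ?_) h2'
      exact Finset.sum_congr rfl fun i _ => Real.mul_rpow (abs_nonneg _) dist_nonneg)
  rwa [← Real.rpow_mul hg, mul_one_div_cancel hp0.ne', Real.rpow_one] at h4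

lemma LB_pcost {p : ℝ} (hp0 : 0 < p) (hp1 : p ≤ 1) {o : M} (μ : Mol o) :
    LB μ (pcost p μ ^ (1 / p)) := by
  intro f hf hfo
  refine le_of_forall_gt_imp_ge_of_dense fun g hg => ?_
  have h0 : 0 ≤ pcost p μ ^ (1 / p) := Real.rpow_nonneg (pcost_nonneg p μ) _
  have hg0 : 0 ≤ g := h0.trans hg.le
  refine LB_of_lt hp0 hp1 μ hg0 ?_ f hf hfo
  have := Real.rpow_lt_rpow h0 hg hp0
  rwa [← Real.rpow_mul (pcost_nonneg p μ), one_div_mul_cancel hp0.ne', Real.rpow_one] at this

/-- bump function: separates `x` from a finite set -/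
lemma exists_bump (x : M) (F : Finset M) (hx : x ∉ F) :
    ∃ (r : ℝ) (f : M → ℝ), 0 < r ∧ LipschitzWith 1 f ∧ f x = r ∧ ∀ y ∈ F, f y = 0 := by
  have h1 : ∃ r : ℝ, 0 < r ∧ ∀ y ∈ F, r ≤ dist y x := by
    classical
    induction F using Finset.induction_on with
    | empty => exact ⟨1, one_pos, by simp⟩
    | insert a s ha ih =>
      obtain ⟨r, hr, h⟩ := ih (fun h => hx (Finset.mem_insert_of_mem h))
      have hax : 0 < dist a x := dist_pos.2 (fun h => hx (h ▸ Finset.mem_insert_self _ _))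
      refine ⟨min r (dist a x), lt_min hr hax, fun y hy => ?_⟩
      rcases Finset.mem_insert.1 hy with rfl | hy
      · exact min_le_right _ _
      · exact (min_le_left _ _).trans (h y hy)
  obtain ⟨r, hr, h⟩ := h1
  refine ⟨r, fun y => max (r - dist y x) 0, hr, ?_, ?_, ?_⟩
  · refine lip_of_abs fun y z => ?_
    refine (abs_max_sub_max_le_abs _ _ _).trans ?_
    have : r - dist y x - (r - dist z x) = dist z x - dist y x := by ring
    rw [this, abs_sub_comm]
    exact abs_dist_sub_le y z x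
  · simp [hr.le]
  · intro y hy
    exact max_eq_right (by linarith [h y hy])

lemma eq_zero_of_LB {o : M} (μ : Mol o) (h : LB μ 0) : μ = 0 := by
  classical
  by_contra hμ
  obtain ⟨x, hx⟩ : ∃ x, x ∈ μ.support := Finset.nonempty_iff_ne_empty.2
    (fun h => hμ (Finsupp.support_eq_empty.1 h))
  let F : Finset M := insert o
    (Finset.image (fun y : {x : M // x ≠ o} => (y : M)) (μ.support.erase x))
  have hxF : (x : M) ∉ F := by
    simp only [F, Finset.mem_insert, Finset.mem_image, Finset.mem_erase, not_or, not_exists,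
      not_and]
    refine ⟨x.2, fun y hy hyx => hy.1 (Subtype.ext hyx)⟩
  obtain ⟨r, f, hr, hf, hfx, hfF⟩ := exists_bump (x : M) F hxF
  have hfo : f o = 0 := hfF o (Finset.mem_insert_self _ _)
  have h1 := h.abs hf hfo
  have h2 : pair f μ = μ x * r := by
    simp only [pair, Finsupp.linearCombination_apply, smul_eq_mul, Finsupp.sum]
    rw [Finset.sum_eq_single x]
    · rw [hfx]
    · intro y hy hyx
      rw [hfF y (Finset.mem_insert_of_mem (Finset.mem_image.2
        ⟨y, Finset.mem_erase.2 ⟨hyx, hy⟩, rfl⟩)), mul_zero]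
    · intro h; exact absurd hx h
  rw [h2] at h1
  have h3 : μ x * r = 0 := abs_nonpos_iff.1 h1
  rcases mul_eq_zero.1 h3 with h4 | h4
  · exact (Finsupp.mem_support_iff.1 hx) h4
  · exact hr.ne' h4

lemma pcost_eq_zero {p : ℝ} (hp0 : 0 < p) (hp1 : p ≤ 1) {o : M} (μ : Mol o)
    (h : pcost p μ = 0) : μ = 0 := by
  apply eq_zero_of_LB
  have := LB_pcost hp0 hp1 μ
  rwa [h, Real.zero_rpow (by positivity)] at this

end

end Pool.Agent.H74.LipFree
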