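import Pool.Agent.H74.LipFree1

set_option autoImplicit false
set_option linter.unusedSectionVars false
set_option linter.unusedVariables false
set_option linter.unusedSimpArgs false

open Finset Pointwise

namespace Pool.Agent.H74.LipFree

noncomputable section

variable {M : Type*} [MetricSpace M]

/-- McShane extension for indexed families -/
lemma exists_lip_extension {ι : Type*} (pt : ι → M) (val : ι → ℝ)
    (h : ∀ a b, |val a - val b| ≤ dist (pt a) (pt b)) :
    ∃ G : M → ℝ, LipschitzWith 1 G ∧ ∀ a, G (pt a) = val a := by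
  classical
  let f : M → ℝ := fun x => if hx : ∃ a, pt a = x then val hx.choose else 0
  have hf : ∀ a, f (pt a) = val a := by
    intro a
    have hx : ∃ b, pt b = pt a := ⟨a, rfl⟩
    have h1 : f (pt a) = val hx.choose := dif_pos hx
    have h2 := h hx.choose a
    rw [hx.choose_spec, dist_self] at h2
    rw [h1]
    exact sub_eq_zero.1 (abs_nonpos_iff.1 h2)
  have hL : LipschitzOnWith 1 f (Set.range pt) := by
    refine LipschitzOnWith.of_dist_le_mul ?_
    rintro _ ⟨a, rfl⟩ _ ⟨b, rfl⟩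
    rw [hf, hf, Real.dist_eq]
    simpa using h a b
  obtain ⟨G, hG, hGf⟩ := hL.extend_real
  exact ⟨G, hG, fun a => by rw [← hGf ⟨a, rfl⟩, hf]⟩

/-- atoms in `ℝ^S` -/
def atoms (S : Finset M) [DecidableEq S] : Set (S → ℝ) :=
  Set.range fun xy : S × S =>
    (dist (xy.1 : M) (xy.2 : M))⁻¹ • ((Pi.single xy.1 1 : S → ℝ) - Pi.single xy.2 1)

lemma finite_duality {o : M} (Q S : Finset M) [DecidableEq S] (ho : o ∈ Q) (hQS : Q ⊆ S)
    (v : S → ℝ) (g : ℝ) (hg : 0 < g)
    (h : ∀ f : M → ℝ, LipschitzWith 1 f → (∀ q ∈ Q, f q = 0) → ∑ s : S, v s * f s ≤ g) :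
    ∃ w : S → ℝ, (∀ s : S, (s : M) ∉ Q → w s = 0) ∧
      ∃ z ∈ convexHull ℝ (atoms S), v - w = g • z := by
  classical
  let W : Submodule ℝ (S → ℝ) :=
    { carrier := {w | ∀ s : S, (s : M) ∉ Q → w s = 0}
      add_mem' := fun {a b} ha hb s hs => by simp [ha s hs, hb s hs]
      zero_mem' := fun s hs => rfl
      smul_mem' := fun c a ha s hs => by simp [ha s hs] }
  let A : Set (S → ℝ) := (fun z => g • z) '' convexHull ℝ (atoms S)
  have hfin : (atoms S).Finite := Set.finite_range _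
  have hAc : IsCompact A := (hfin.isCompact_convexHull (𝕜 := ℝ)).image (continuous_const_smul g)
  have hAconv : Convex ℝ A := (convex_convexHull ℝ (atoms S)).smul g
  have hWc : IsClosed (W : Set (S → ℝ)) := W.closed_of_finiteDimensional
  have hKc : IsClosed (A + (W : Set (S → ℝ))) := hWc.add_left_of_isCompact hAc
  have hKconv : Convex ℝ (A + (W : Set (S → ℝ))) := hAconv.add W.convex
  by_cases hv : v ∈ A + (W : Set (S → ℝ))
  · obtain ⟨a, ⟨z, hz, rfl⟩, w, hw, rfl⟩ := Set.mem_add.1 hv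
    exact ⟨w, hw, z, hz, by simp⟩
  exfalso
  obtain ⟨φ, u, hφ, hφv⟩ := geometric_hahn_banach_closed_point hKconv hKc hv
  -- atoms
  have hatom : ∀ x y : S, (dist (x : M) (y : M))⁻¹ •
      ((Pi.single x 1 : S → ℝ) - Pi.single y 1) ∈ atoms S := fun x y => ⟨(x, y), rfl⟩
  have hA : ∀ x y : S, g • ((dist (x : M) (y : M))⁻¹ •
      ((Pi.single x 1 : S → ℝ) - Pi.single y 1)) ∈ A := fun x y =>
    ⟨_, subset_convexHull ℝ _ (hatom x y), rfl⟩
  let so : S := ⟨o, hQS ho⟩
  have h0A : (0 : S → ℝ) ∈ A := by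
    have := hA so so
    simpa using this
  have hu : 0 < u := by
    have := hφ 0 (by simpa using Set.add_mem_add h0A W.zero_mem)
    simpa using this
  have hφW : ∀ w ∈ W, φ w = 0 := by
    intro w hw
    by_contra hne
    have := hφ ((u / φ w) • w) (by
      simpa using Set.add_mem_add h0A (W.smul_mem (u / φ w) hw))
    rw [map_smul, smul_eq_mul, div_mul_cancel₀ _ hne] at this
    exact lt_irrefl _ this
  let F : S → ℝ := fun s => φ (Pi.single s 1)
  have hφF : ∀ x : S → ℝ, φ x = ∑ s, x s * F s := by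
    intro x
    conv_lhs => rw [← Finset.univ_sum_single x]
    rw [map_sum]
    refine Finset.sum_congr rfl fun s _ => ?_
    have : (Pi.single s (x s) : S → ℝ) = x s • Pi.single s 1 := by
      rw [← Pi.single_smul]; simp
    rw [this, map_smul, smul_eq_mul]
  have hFQ : ∀ s : S, (s : M) ∈ Q → F s = 0 := by
    intro s hs
    refine hφW _ fun t ht => ?_
    rw [Pi.single_apply, if_neg]
    rintro rfl; exact ht hs
  have hFle : ∀ x y : S, g * (F x - F y) ≤ u * dist (x : M) (y : M) := by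
    intro x y
    rcases eq_or_ne x y with rfl | hxy
    · simp
    · have hd : 0 < dist (x : M) (y : M) := dist_pos.2 (fun h => hxy (Subtype.ext h))
      have h1 := hφ _ (by simpa using Set.add_mem_add (hA x y) W.zero_mem)
      rw [map_smul, map_smul, map_sub, smul_eq_mul, smul_eq_mul] at h1
      have h2 : g * ((dist (x : M) (y : M))⁻¹ * (F x - F y)) < u := h1
      have h3 : g * (F x - F y) = g * ((dist (x : M) (y : M))⁻¹ * (F x - F y)) *
          dist (x : M) (y : M) := by field_simp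
      rw [h3]
      exact mul_le_mul_of_nonneg_right h2.le hd.le
  obtain ⟨G, hG, hGF⟩ := exists_lip_extension (fun s : S => (s : M)) (fun s => (g / u) * F s) (by
    intro x y
    rw [← mul_sub, abs_mul, abs_of_pos (div_pos hg hu), abs_eq_max_neg, mul_max_of_nonneg _ _
      (div_pos hg hu).le]
    refine max_le ?_ ?_
    · rw [div_mul_eq_mul_div, div_le_iff₀ hu, mul_comm (dist _ _)]
      exact hFle x y
    · rw [div_mul_eq_mul_div, div_le_iff₀ hu, mul_comm (dist _ _), dist_comm, neg_sub]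
      exact hFle y x)
  have h1 := h G hG (fun q hq => by
    have := hGF ⟨q, hQS hq⟩
    simp only at this
    rw [this, hFQ _ hq, mul_zero])
  have h2 : ∑ s : S, v s * G s = (g / u) * φ v := by
    rw [hφF, Finset.mul_sum]
    refine Finset.sum_congr rfl fun s _ => ?_
    rw [hGF s]; ring
  rw [h2, div_mul_eq_mul_div, div_le_iff₀ hu] at h1
  have := (mul_le_mul_iff_right₀ hg).1 h1
  linarith

/-- duality for molecules -/
lemma duality_mol {o : M} (Q : Finset M) (ho : o ∈ Q) (u : Mol o) (g : ℝ) (hg : 0 < g)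
    (h : ∀ f : M → ℝ, LipschitzWith 1 f → (∀ q ∈ Q, f q = 0) → pair f u ≤ g) :
    ∃ (b : Q → ℝ) (n : ℕ) (x y : Fin n → M) (l : Fin n → ℝ), (∀ i, 0 < l i) ∧
      ∑ i, l i = 1 ∧ n ≤ Q.card + u.support.card + 1 ∧
      u = ∑ q : Q, b q • delta o (q : M) +
        ∑ i, (g * l i * (dist (x i) (y i))⁻¹) • (delta o (x i) - delta o (y i)) := by
  classical
  let S : Finset M := Q ∪ Finset.image (fun y : {x : M // x ≠ o} => (y : M)) u.support
  have hQS : Q ⊆ S := Finset.subset_union_left
  let v : S → ℝ := fun s => if hs : (s : M) ≠ o then u ⟨s, hs⟩ else 0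
  let Φ : (S → ℝ) →ₗ[ℝ] Mol o :=
    { toFun := fun x => ∑ s, x s • delta o (s : M)
      map_add' := fun x y => by simp [add_smul, Finset.sum_add_distrib]
      map_smul' := fun c x => by simp [Finset.smul_sum, smul_smul] }
  have hΦ : ∀ x, Φ x = ∑ s, x s • delta o (s : M) := fun _ => rfl
  have hΦv : Φ v = u := by
    rw [hΦ]
    conv_rhs => rw [mol_eq_sum u]
    symm
    refine Finset.sum_bij_ne_zero (fun (x : {x : M // x ≠ o}) _ _ =>
      (if hx : (x : M) ∈ S then (⟨x, hx⟩ : S) else ⟨o, hQS ho⟩)) ?_ ?_ ?_ ?_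
    · intro x _ _; exact Finset.mem_univ _
    · intro x hx _ y hy _ hxy
      have hxS : (x : M) ∈ S := Finset.mem_union_right _ (Finset.mem_image.2 ⟨x, hx, rfl⟩)
      have hyS : (y : M) ∈ S := Finset.mem_union_right _ (Finset.mem_image.2 ⟨y, hy, rfl⟩)
      simp only [hxS, hyS, dif_pos] at hxy
      exact Subtype.ext (by simpa using hxy)
    · intro s _ hs
      have hso : (s : M) ≠ o := by
        intro hso
        apply hs
        simp only [v, hso, ne_eq, not_true_eq_false, dite_false, zero_smul]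
      have hvs : v s = u ⟨s, hso⟩ := by simp [v, hso]
      have hne : u ⟨s, hso⟩ ≠ 0 := by
        intro h0; apply hs; rw [hvs, h0, zero_smul]
      refine ⟨⟨s, hso⟩, Finsupp.mem_support_iff.2 hne, ?_, ?_⟩
      · rw [← hvs]; exact hs
      · simp
    · intro x hx _
      have hxS : (x : M) ∈ S := Finset.mem_union_right _ (Finset.mem_image.2 ⟨x, hx, rfl⟩)
      have hxo : (x : M) ≠ o := x.2
      simp [hxS, v, hxo]
  have hpair : ∀ (f : M → ℝ), f o = 0 → ∀ x, pair f (Φ x) = ∑ s, x s * f s := by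
    intro f hf x
    rw [hΦ, map_sum]
    refine Finset.sum_congr rfl fun s _ => ?_
    rw [map_smul, pair_delta f hf, smul_eq_mul]
  obtain ⟨w, hw, z, hz, hvw⟩ := finite_duality Q S ho hQS v g hg (fun f hf hfQ => by
    rw [← hpair f (hfQ o ho), hΦv]; exact h f hf hfQ)
  obtain ⟨ι, hι, zz, l, hzz, haff, hl, hlsum, hlz⟩ := eq_pos_convex_span_of_mem_convexHull hz
  have hcard : Fintype.card ι ≤ Q.card + u.support.card + 1 := by
    refine (haff.card_le_finrank_succ).trans ?_
    have h1 : Module.finrank ℝ (vectorSpan ℝ (Set.range zz)) ≤ S.card := by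
      refine (Submodule.finrank_le _).trans ?_
      simp
    have h2 : S.card ≤ Q.card + u.support.card :=
      (Finset.card_union_le _ _).trans (Nat.add_le_add_left Finset.card_image_le _)
    omega
  have hxy : ∀ i, ∃ xy : S × S, zz i = (dist (xy.1 : M) (xy.2 : M))⁻¹ •
      ((Pi.single xy.1 1 : S → ℝ) - Pi.single xy.2 1) := by
    intro i
    obtain ⟨xy, h⟩ := hzz ⟨i, rfl⟩
    exact ⟨xy, h.symm⟩
  choose xy hxy using hxy
  let e := Fintype.equivFin ι
  have hΦs : ∀ s : S, Φ (Pi.single s 1) = delta o (s : M) := by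
    intro s
    rw [hΦ, Finset.sum_eq_single s]
    · simp
    · intro t _ hts
      rw [Pi.single_apply, if_neg hts, zero_smul]
    · simp
  refine ⟨fun q => w ⟨q, hQS q.2⟩, Fintype.card ι, fun i => ((xy (e.symm i)).1 : M),
    fun i => ((xy (e.symm i)).2 : M), fun i => l (e.symm i), fun i => hl _, ?_, hcard, ?_⟩
  · rw [Equiv.sum_comp e.symm l]; exact hlsum
  · rw [Equiv.sum_comp e.symm (fun i => (g * l i * (dist ((xy i).1 : M) ((xy i).2 : M))⁻¹) •
      (delta o ((xy i).1 : M) - delta o ((xy i).2 : M)))]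
    have h1 : u = Φ w + Φ (v - w) := by rw [← map_add, add_sub_cancel, hΦv]
    rw [h1]
    congr 1
    · rw [hΦ]
      symm
      refine Finset.sum_bij_ne_zero (fun (q : Q) _ _ => (⟨q, hQS q.2⟩ : S)) ?_ ?_ ?_ ?_
      · intro x _ _; exact Finset.mem_univ _
      · intro x _ _ y _ _ hxy
        exact Subtype.ext (by simpa using hxy)
      · intro s _ hs
        have hsQ : (s : M) ∈ Q := by
          by_contra hsQ
          apply hs; rw [hw s hsQ, zero_smul]
        exact ⟨⟨s, hsQ⟩, Finset.mem_univ _, hs, rfl⟩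
      · intro x _ _; rfl
    · rw [hvw, ← hlz, Finset.smul_sum, map_sum]
      refine Finset.sum_congr rfl fun i _ => ?_
      rw [hxy i, map_smul, map_smul, map_smul, map_sub, hΦs, hΦs, smul_smul, smul_smul,
        mul_assoc]

/-- power mean -/
lemma sum_rpow_le {p : ℝ} (hp0 : 0 < p) (hp1 : p ≤ 1) {n : ℕ} (l : Fin n → ℝ)
    (hl : ∀ i, 0 ≤ l i) (hsum : ∑ i, l i = 1) : ∑ i, l i ^ p ≤ (n : ℝ) ^ (1 - p) := by
  have hq : 1 ≤ 1 / p := by rw [le_div_iff₀ hp0]; linarith
  have h1 := Real.rpow_sum_le_const_mul_sum_rpow_of_nonneg (s := Finset.univ)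
    (f := fun i : Fin n => l i ^ p) hq (fun i _ => Real.rpow_nonneg (hl i) _)
  have h2 : ∀ i, (l i ^ p) ^ (1 / p) = l i := fun i => by
    rw [← Real.rpow_mul (hl i), mul_one_div_cancel hp0.ne', Real.rpow_one]
  simp only [h2, hsum, mul_one, Finset.card_univ, Fintype.card_fin] at h1
  have h0 : 0 ≤ ∑ i, l i ^ p := Finset.sum_nonneg fun i _ => Real.rpow_nonneg (hl i) _
  have h3 := Real.rpow_le_rpow (Real.rpow_nonneg h0 _) h1 hp0.le
  rw [← Real.rpow_mul h0, one_div_mul_cancel hp0.ne', Real.rpow_one,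
    ← Real.rpow_mul (Nat.cast_nonneg n)] at h3
  have h4 : (1 / p - 1) * p = 1 - p := by field_simp
  rwa [h4] at h3

/-- Lemma 0 -/
lemma pcost_le_of_LB {p : ℝ} (hp0 : 0 < p) (hp1 : p ≤ 1) {o : M} (u : Mol o) {g : ℝ}
    (hg : 0 < g) (hu : LB u g) :
    pcost p u ≤ ((u.support.card : ℝ) + 2) ^ (1 - p) * g ^ p := by
  classical
  obtain ⟨b, n, x, y, l, hl, hlsum, hn, hrep⟩ := duality_mol {o} (Finset.mem_singleton_self o) u g
    hg (fun f hf hfo => hu f hf (hfo o (Finset.mem_singleton_self o)))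
  have hb : ∑ q : ({o} : Finset M), b q • delta o (q : M) = 0 := by
    refine Finset.sum_eq_zero fun q _ => ?_
    have : (q : M) = o := Finset.mem_singleton.1 q.2
    rw [this, delta_self, smul_zero]
  rw [hb, zero_add] at hrep
  have h1 := pcost_le (p := p) u _ x y hrep
  refine h1.trans ?_
  have h2 : ∀ i, |g * l i * (dist (x i) (y i))⁻¹| ^ p * dist (x i) (y i) ^ p ≤
      g ^ p * l i ^ p := by
    intro i
    rw [← Real.mul_rpow (abs_nonneg _) dist_nonneg, ← Real.mul_rpow hg.le (hl i).le]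
    refine Real.rpow_le_rpow (by positivity) ?_ hp0.le
    have hgl : 0 ≤ g * l i := mul_nonneg hg.le (hl i).le
    rw [abs_mul, abs_of_nonneg hgl, abs_of_nonneg (inv_nonneg.2 dist_nonneg)]
    rcases eq_or_ne (dist (x i) (y i)) 0 with hd | hd
    · rw [hd]; simpa using hgl
    · rw [mul_assoc, inv_mul_cancel₀ hd, mul_one]
  refine (Finset.sum_le_sum fun i _ => h2 i).trans ?_
  rw [← Finset.mul_sum, mul_comm]
  refine mul_le_mul_of_nonneg_right ?_ (by positivity)
  refine (sum_rpow_le hp0 hp1 l (fun i => (hl i).le) hlsum).trans ?_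
  refine Real.rpow_le_rpow (Nat.cast_nonneg _) ?_ (by linarith)
  simp only [Finset.card_singleton] at hn
  have : (n : ℝ) ≤ ((1 + u.support.card + 1 : ℕ) : ℝ) := by exact_mod_cast hn
  push_cast at this
  linarith

/-- Lemma T -/
lemma threshold {p C η e0 : ℝ} (hp0 : 0 < p) (hp1 : p < 1) (hC : 0 ≤ C) (hη : 0 < η)
    (he0 : 0 < e0) : ∃ emin : ℝ, 0 < emin ∧ ∀ (n : ℕ) (w : Fin n → ℝ), (∀ i, 0 ≤ w i) →
      ∑ i, w i ^ p ≤ C → ∃ e, emin ≤ e ∧ e ≤ e0 ∧
        ((univ.filter (fun i => e ≤ w i)).card : ℝ) * e ^ p ≤ η ∧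
        ∑ i ∈ univ.filter (fun i => w i < e), w i ≤ η * e ^ (1 - p) := by
  -- choose r
  have hlim1 : ∃ r : ℝ, 0 < r ∧ r < 1 ∧ C * r ^ p ≤ η / 2 ∧ C * r ^ (1 - p) ≤ η / 2 := by
    have h1 : Filter.Tendsto (fun r : ℝ => C * r ^ p) (nhdsWithin 0 (Set.Ioi 0)) (nhds 0) := by
      have : Filter.Tendsto (fun r : ℝ => C * r ^ p) (nhds 0) (nhds (C * 0 ^ p)) :=
        ((Real.continuous_rpow_const hp0.le).tendsto 0).const_mul C
      rw [Real.zero_rpow hp0.ne', mul_zero] at this
      exact this.mono_left nhdsWithin_le_nhds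
    have hp1' : 0 < 1 - p := by linarith
    have h2 : Filter.Tendsto (fun r : ℝ => C * r ^ (1 - p)) (nhdsWithin 0 (Set.Ioi 0))
        (nhds 0) := by
      have : Filter.Tendsto (fun r : ℝ => C * r ^ (1 - p)) (nhds 0) (nhds (C * 0 ^ (1 - p))) :=
        ((Real.continuous_rpow_const hp1'.le).tendsto 0).const_mul C
      rw [Real.zero_rpow hp1'.ne', mul_zero] at this
      exact this.mono_left nhdsWithin_le_nhds
    have h3 := h1.eventually (gt_mem_nhds (half_pos hη))
    have h4 := h2.eventually (gt_mem_nhds (half_pos hη))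
    have h5 : ∀ᶠ r : ℝ in nhdsWithin 0 (Set.Ioi 0), r < 1 :=
      nhdsWithin_le_nhds (gt_mem_nhds one_pos)
    have h6 : ∀ᶠ r : ℝ in nhdsWithin 0 (Set.Ioi 0), 0 < r := self_mem_nhdsWithin
    obtain ⟨r, ⟨⟨hr1, hr2⟩, hr3⟩, hr4⟩ := (((h3.and h4).and h5).and h6).exists
    exact ⟨r, hr4, hr3, hr1.le, hr2.le⟩
  obtain ⟨r, hr0, hr1, hrp, hrp'⟩ := hlim1
  obtain ⟨m, hm⟩ := exists_nat_gt (C / (η / 2))
  have hm0 : (0 : ℝ) < m := lt_of_le_of_lt (by positivity) hm
  have hmpos : 0 < m := by exact_mod_cast hm0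
  have hCm : C / m ≤ η / 2 := by
    rw [div_lt_iff₀ (by positivity)] at hm
    rw [div_le_iff₀ hm0]; linarith
  refine ⟨e0 * r ^ (2 * m), by positivity, fun n w hw hwC => ?_⟩
  let Sf : ℕ → ℝ := fun k => ∑ i ∈ univ.filter (fun i => w i < e0 * r ^ (2 * k)), w i ^ p
  have hS0 : Sf 0 ≤ C := by
    refine le_trans (Finset.sum_le_sum_of_subset_of_nonneg (Finset.filter_subset _ _) ?_) hwC
    intro i _ _; exact Real.rpow_nonneg (hw i) _
  have hSm : 0 ≤ Sf m := Finset.sum_nonneg fun i _ => Real.rpow_nonneg (hw i) _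
  obtain ⟨k, hk, hkS⟩ : ∃ k, k < m ∧ Sf k - Sf (k + 1) ≤ C / m := by
    by_contra hcon
    push Not at hcon
    have h1 : ∑ k ∈ range m, (Sf k - Sf (k + 1)) = Sf 0 - Sf m := Finset.sum_range_sub' Sf m
    have h2 : ∑ k ∈ range m, (C / m) < ∑ k ∈ range m, (Sf k - Sf (k + 1)) :=
      Finset.sum_lt_sum_of_nonempty (Finset.nonempty_range_iff.2 hmpos.ne')
        (fun k hk => hcon k (Finset.mem_range.1 hk))
    rw [Finset.sum_const, Finset.card_range, nsmul_eq_mul, mul_div_cancel₀ _ hm0.ne', h1] at h2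
    linarith
  set a := e0 * r ^ (2 * k) with ha
  have ha0 : 0 < a := by positivity
  have hb : e0 * r ^ (2 * (k + 1)) = a * r * r := by rw [ha]; ring
  set e := a * r with he
  have he00 : 0 < e := by positivity
  have hea : e ≤ a := by rw [he]; nlinarith
  -- the band
  have hband : Sf k - Sf (k + 1) =
      ∑ i, (if e * r ≤ w i ∧ w i < a then w i ^ p else 0) := by
    have h1 : Sf k = ∑ i, (if w i < a then w i ^ p else 0) := by
      simp only [Sf]; rw [Finset.sum_filter]
    have h2 : Sf (k + 1) = ∑ i, (if w i < e * r then w i ^ p else 0) := by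
      simp only [Sf]; rw [Finset.sum_filter, hb]
    rw [h1, h2, ← Finset.sum_sub_distrib]
    refine Finset.sum_congr rfl fun i _ => ?_
    have her : e * r ≤ a := by nlinarith
    by_cases h3 : w i < e * r
    · have h4 : w i < a := h3.trans_le her
      have h5 : ¬ (e * r ≤ w i ∧ w i < a) := fun h => absurd h.1 (not_le.2 h3)
      rw [if_pos h4, if_pos h3, if_neg h5, sub_self]
    · rw [if_neg h3, sub_zero]
      by_cases h4 : w i < a
      · rw [if_pos h4, if_pos ⟨not_lt.1 h3, h4⟩]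
      · rw [if_neg h4, if_neg (fun h => h4 h.2)]
  have hbandC : ∑ i, (if e * r ≤ w i ∧ w i < a then w i ^ p else 0) ≤ C / m := by
    rw [← hband]; exact hkS
  have hrpp : 0 ≤ r ^ p := by positivity
  have her0 : 0 < e * r := by positivity
  refine ⟨e, ?_, ?_, ?_, ?_⟩
  · have h1 : r ^ (2 * m) ≤ r ^ (2 * k + 1) := pow_le_pow_of_le_one hr0.le hr1.le (by omega)
    calc e0 * r ^ (2 * m) ≤ e0 * r ^ (2 * k + 1) := mul_le_mul_of_nonneg_left h1 he0.le
      _ = e := by rw [he, ha]; ring
  · have h1 : r ^ (2 * k + 1) ≤ 1 := pow_le_one₀ hr0.le hr1.le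
    calc e = e0 * r ^ (2 * k + 1) := by rw [he, ha]; ring
      _ ≤ e0 * 1 := mul_le_mul_of_nonneg_left h1 he0.le
      _ = e0 := mul_one _
  · rw [← nsmul_eq_mul, ← Finset.sum_const, Finset.sum_filter]
    have hpt : ∀ i, (if e ≤ w i then e ^ p else 0) ≤
        (if e * r ≤ w i ∧ w i < a then w i ^ p else 0) + r ^ p * w i ^ p := by
      intro i
      have hwi : 0 ≤ w i ^ p := Real.rpow_nonneg (hw i) _
      have h0 : 0 ≤ r ^ p * w i ^ p := by positivity
      by_cases h1 : e ≤ w i
      · rw [if_pos h1]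
        by_cases h2 : w i < a
        · have h3 : e * r ≤ w i := le_trans (by nlinarith) h1
          rw [if_pos ⟨h3, h2⟩]
          have := Real.rpow_le_rpow he00.le h1 hp0.le
          linarith
        · rw [if_neg (fun h => h2 h.2), zero_add]
          have : e ^ p = r ^ p * a ^ p := by
            rw [he, mul_comm a r, Real.mul_rpow hr0.le ha0.le]
          rw [this]
          exact mul_le_mul_of_nonneg_left (Real.rpow_le_rpow ha0.le (not_lt.1 h2) hp0.le) hrpp
      · rw [if_neg h1]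
        have : (0 : ℝ) ≤ (if e * r ≤ w i ∧ w i < a then w i ^ p else 0) := by
          split_ifs
          · exact hwi
          · exact le_rfl
        linarith
    refine (Finset.sum_le_sum fun i _ => hpt i).trans ?_
    rw [Finset.sum_add_distrib, ← Finset.mul_sum]
    have : r ^ p * ∑ i, w i ^ p ≤ r ^ p * C := mul_le_mul_of_nonneg_left hwC hrpp
    linarith
  · rw [Finset.sum_filter]
    have h1p : 0 < 1 - p := by linarith
    have hsplit : ∀ i, w i = w i ^ p * w i ^ (1 - p) := by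
      intro i
      rcases (hw i).eq_or_lt with h0 | h0
      · rw [← h0, Real.zero_rpow hp0.ne', zero_mul]
      · rw [← Real.rpow_add h0]; simp
    have hpt : ∀ i, (if w i < e then w i else 0) ≤
        e ^ (1 - p) * (if e * r ≤ w i ∧ w i < a then w i ^ p else 0) +
          (e * r) ^ (1 - p) * w i ^ p := by
      intro i
      have hwi : 0 ≤ w i ^ p := Real.rpow_nonneg (hw i) _
      have h0 : 0 ≤ (e * r) ^ (1 - p) * w i ^ p := by positivity
      have h00 : 0 ≤ e ^ (1 - p) := by positivity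
      by_cases h1 : w i < e
      · rw [if_pos h1]
        by_cases h2 : e * r ≤ w i
        · rw [if_pos ⟨h2, h1.trans_le hea⟩]
          have h3 : w i ≤ w i ^ p * e ^ (1 - p) := by
            conv_lhs => rw [hsplit i]
            exact mul_le_mul_of_nonneg_left (Real.rpow_le_rpow (hw i) h1.le h1p.le) hwi
          nlinarith
        · rw [if_neg (fun h => h2 h.1), mul_zero, zero_add]
          conv_lhs => rw [hsplit i, mul_comm]
          exact mul_le_mul_of_nonneg_right
            (Real.rpow_le_rpow (hw i) (not_le.1 h2).le h1p.le) hwi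
      · rw [if_neg h1]
        have : (0 : ℝ) ≤ (if e * r ≤ w i ∧ w i < a then w i ^ p else 0) := by
          split_ifs
          · exact hwi
          · exact le_rfl
        have := mul_nonneg h00 this
        linarith
    refine (Finset.sum_le_sum fun i _ => hpt i).trans ?_
    rw [Finset.sum_add_distrib, ← Finset.mul_sum, ← Finset.mul_sum,
      Real.mul_rpow he00.le hr0.le]
    have hepos : 0 ≤ e ^ (1 - p) := by positivity
    have h2 : e ^ (1 - p) * ∑ i, (if e * r ≤ w i ∧ w i < a then w i ^ p else 0) ≤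
        e ^ (1 - p) * (η / 2) := mul_le_mul_of_nonneg_left (hbandC.trans hCm) hepos
    have h3 : e ^ (1 - p) * r ^ (1 - p) * ∑ i, w i ^ p ≤ e ^ (1 - p) * (η / 2) := by
      rw [mul_assoc]
      refine mul_le_mul_of_nonneg_left ?_ hepos
      have : r ^ (1 - p) * ∑ i, w i ^ p ≤ r ^ (1 - p) * C :=
        mul_le_mul_of_nonneg_left hwC (by positivity)
      linarith
    linarith

end

end Pool.Agent.H74.LipFree
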