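import Pool.Agent.H74.LipFree2

set_option autoImplicit false
set_option linter.unusedSectionVars false
set_option linter.unusedVariables false
set_option linter.unusedSimpArgs false

open Finset

namespace Pool.Agent.H74.LipFree

noncomputable section

variable {M : Type*} [MetricSpace M]

lemma card_delta (o x : M) : (delta o x).support.card ≤ 1 := by
  unfold delta
  split_ifs with h
  · simp
  · exact (Finset.card_le_card Finsupp.support_single_subset).trans (by simp)

lemma card_add {o : M} (u v : Mol o) :
    (u + v).support.card ≤ u.support.card + v.support.card := by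
  classical
  exact (Finset.card_le_card Finsupp.support_add).trans (Finset.card_union_le _ _)

lemma card_neg {o : M} (u : Mol o) : (-u).support.card = u.support.card := by
  rw [Finsupp.support_neg]

lemma card_sub {o : M} (u v : Mol o) :
    (u - v).support.card ≤ u.support.card + v.support.card := by
  rw [sub_eq_add_neg, ← card_neg v]; exact card_add _ _

lemma card_smul {o : M} (t : ℝ) (u : Mol o) : (t • u).support.card ≤ u.support.card :=
  Finset.card_le_card Finsupp.support_smul

lemma card_sum {o : M} {ι : Type*} (s : Finset ι) (u : ι → Mol o) :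
    (∑ i ∈ s, u i).support.card ≤ ∑ i ∈ s, (u i).support.card := by
  classical
  induction s using Finset.induction_on with
  | empty => simp
  | insert a s ha ih =>
    rw [Finset.sum_insert ha, Finset.sum_insert ha]
    exact (card_add _ _).trans (Nat.add_le_add_left ih _)

lemma card_dipole (o x y : M) (a : ℝ) : (a • (delta o x - delta o y)).support.card ≤ 2 := by
  refine (card_smul _ _).trans ((card_sub _ _).trans ?_)
  have := card_delta o x
  have := card_delta o y
  omega

lemma card_dipoles {o : M} {ι : Type*} (s : Finset ι) (a : ι → ℝ) (x y : ι → M) :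
    (∑ i ∈ s, a i • (delta o (x i) - delta o (y i))).support.card ≤ 2 * s.card := by
  refine (card_sum _ _).trans ?_
  refine (Finset.sum_le_sum fun i _ => card_dipole o (x i) (y i) (a i)).trans ?_
  rw [Finset.sum_const, smul_eq_mul, mul_comm]

/-- Lemma 1: almost additivity of the p-cost for perturbations small in the `L` sense. -/
lemma almost_additive {p : ℝ} (hp0 : 0 < p) (hp1 : p < 1) {o : M} (u : Mol o) {R δ : ℝ}
    (hR : 0 ≤ R) (hδ : 0 < δ) : ∃ τ > 0, ∀ x : Mol o, pcost p x ≤ R → LB x τ →
      pcost p u + pcost p x - δ ≤ pcost p (u + x) := by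
  classical
  set η : ℝ := δ / 12 with hη
  have hη0 : 0 < η := by positivity
  set C : ℝ := pcost p u + R + δ / 3 with hC
  have hC0 : 0 ≤ C := by have := pcost_nonneg p u; positivity
  set e0 : ℝ := (η / (u.support.card + 2)) ^ (1 / p) with he0
  have he00 : 0 < e0 := by positivity
  obtain ⟨emin, hemin, hT⟩ := threshold hp0 hp1 hC0 hη0 he00
  have h1p : 0 < 1 - p := by linarith
  refine ⟨η * emin ^ (1 - p), by positivity, fun x hx hLx => ?_⟩
  obtain ⟨n, a, y, z, hrep, hcost⟩ := exists_rep p (u + x) (show 0 < δ / 3 by positivity)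
  have hsub := pcost_add_le p u x
  obtain ⟨e, he1, he2, hbig, hsmall⟩ := hT n (fun i => |a i| * dist (y i) (z i))
    (fun i => by positivity) (by
      refine le_trans (le_of_eq ?_) (show ∑ i, |a i| ^ p * dist (y i) (z i) ^ p ≤ C by
        rw [hC]; linarith)
      exact Finset.sum_congr rfl fun i _ => Real.mul_rpow (abs_nonneg _) dist_nonneg)
  have he : 0 < e := hemin.trans_le he1
  set big := univ.filter (fun i : Fin n => e ≤ |a i| * dist (y i) (z i)) with hbigdef
  set small := univ.filter (fun i : Fin n => |a i| * dist (y i) (z i) < e) with hsmalldef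
  have hfilt : univ.filter (fun i : Fin n => ¬ e ≤ |a i| * dist (y i) (z i)) = small := by
    ext i; simp [small]
  have hsplit : ∀ (F : Fin n → Mol o), ∑ i, F i = ∑ i ∈ big, F i + ∑ i ∈ small, F i := by
    intro F
    rw [← Finset.sum_filter_add_sum_filter_not univ
      (fun i : Fin n => e ≤ |a i| * dist (y i) (z i)), hfilt]
  have hsplitR : ∀ (F : Fin n → ℝ), ∑ i, F i = ∑ i ∈ big, F i + ∑ i ∈ small, F i := by
    intro F
    rw [← Finset.sum_filter_add_sum_filter_not univ
      (fun i : Fin n => e ≤ |a i| * dist (y i) (z i)), hfilt]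
  let F : Fin n → Mol o := fun i => a i • (delta o (y i) - delta o (z i))
  let B : Mol o := ∑ i ∈ big, F i
  let s : Mol o := ∑ i ∈ small, F i
  have hBs : u + x = B + s := hrep.trans (hsplit F)
  have hcostB : pcost p B ≤ ∑ i ∈ big, |a i| ^ p * dist (y i) (z i) ^ p := by
    have := pcost_le (p := p) B (fun i : big => a i) (fun i => y i) (fun i => z i)
      (by simp only [B, F]; rw [← Finset.sum_coe_sort big])
    rwa [Finset.sum_coe_sort big (fun i => |a i| ^ p * dist (y i) (z i) ^ p)] at this
  have hcosts : pcost p s ≤ ∑ i ∈ small, |a i| ^ p * dist (y i) (z i) ^ p := by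
    have := pcost_le (p := p) s (fun i : small => a i) (fun i => y i) (fun i => z i)
      (by simp only [s, F]; rw [← Finset.sum_coe_sort small])
    rwa [Finset.sum_coe_sort small (fun i => |a i| ^ p * dist (y i) (z i) ^ p)] at this
  have hcsplit := hsplitR (fun i => |a i| ^ p * dist (y i) (z i) ^ p)
  -- D = B - u = x - s
  have hD : B - u = x - s := by
    rw [sub_eq_sub_iff_add_eq_add, ← hBs, add_comm]
  have hLs : LB s (η * e ^ (1 - p)) := by
    refine (LB.sum small F (fun i => |a i| * dist (y i) (z i))
      (fun i _ => LB_dipole o _ _ _)).mono hsmall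
  have hLD : LB (B - u) (4 * η * e ^ (1 - p)) := by
    rw [hD]
    refine (hLx.sub hLs).mono ?_
    have h1 : emin ^ (1 - p) ≤ e ^ (1 - p) := Real.rpow_le_rpow hemin.le he1 h1p.le
    have h2 : 0 ≤ e ^ (1 - p) := by positivity
    have h3 : η * emin ^ (1 - p) ≤ η * e ^ (1 - p) := mul_le_mul_of_nonneg_left h1 hη0.le
    nlinarith [mul_nonneg hη0.le h2]
  have hcardD : (((B - u).support.card : ℝ) + 2) * e ^ p ≤ 4 * η := by
    have h1 : (B - u).support.card ≤ 2 * big.card + u.support.card :=
      (card_sub _ _).trans (Nat.add_le_add_right (card_dipoles big a y z) _)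
    have h2 : ((B - u).support.card : ℝ) ≤ 2 * big.card + u.support.card := by
      exact_mod_cast h1
    have h3 : ((u.support.card : ℝ) + 2) * e ^ p ≤ η := by
      have h4 : e ^ p ≤ e0 ^ p := Real.rpow_le_rpow he.le he2 hp0.le
      have h5 : e0 ^ p = η / (u.support.card + 2) := by
        rw [he0, ← Real.rpow_mul (by positivity), one_div_mul_cancel hp0.ne', Real.rpow_one]
      rw [h5, le_div_iff₀ (by positivity)] at h4
      linarith
    have hep : 0 ≤ e ^ p := by positivity
    calc (((B - u).support.card : ℝ) + 2) * e ^ p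
        ≤ (2 * big.card + u.support.card + 2) * e ^ p :=
          mul_le_mul_of_nonneg_right (by linarith) hep
      _ = 2 * ((big.card : ℝ) * e ^ p) + ((u.support.card : ℝ) + 2) * e ^ p := by ring
      _ ≤ 4 * η := by linarith
  have hep : 0 < e ^ p := by positivity
  have hcardD' : ((B - u).support.card : ℝ) + 2 ≤ 4 * η / e ^ p := by
    rwa [le_div_iff₀ hep]
  have hND : pcost p (B - u) ≤ 4 * η := by
    have h1 := pcost_le_of_LB hp0 hp1.le (B - u) (g := 4 * η * e ^ (1 - p)) (by positivity) hLD
    refine h1.trans ?_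
    have h2 : (((B - u).support.card : ℝ) + 2) ^ (1 - p) ≤ (4 * η / e ^ p) ^ (1 - p) :=
      Real.rpow_le_rpow (by positivity) hcardD' h1p.le
    have h3 : (4 * η / e ^ p) ^ (1 - p) * (4 * η * e ^ (1 - p)) ^ p = 4 * η := by
      rw [Real.div_rpow (by positivity) hep.le,
        Real.mul_rpow (x := 4 * η) (y := e ^ (1 - p)) (by positivity) (by positivity),
        ← Real.rpow_mul he.le, ← Real.rpow_mul he.le, mul_comm (1 - p) p]
      have h4 : (4 * η) ^ (1 - p) * (4 * η) ^ p = 4 * η := by
        rw [← Real.rpow_add (by positivity)]; simp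
      have h5 : 0 < e ^ (p * (1 - p)) := by positivity
      calc (4 * η) ^ (1 - p) / e ^ (p * (1 - p)) * ((4 * η) ^ p * e ^ (p * (1 - p)))
          = ((4 * η) ^ (1 - p) * (4 * η) ^ p) := by field_simp
        _ = 4 * η := h4
    calc _ ≤ (4 * η / e ^ p) ^ (1 - p) * (4 * η * e ^ (1 - p)) ^ p :=
          mul_le_mul_of_nonneg_right h2 (by positivity)
      _ = 4 * η := h3
  have hu : pcost p u ≤ pcost p B + pcost p (B - u) := by
    have h1 := pcost_add_le p B (-(B - u))
    rw [pcost_neg hp0] at h1
    have h2 : B + -(B - u) = u := by abel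
    rwa [h2] at h1
  have hx' : pcost p x ≤ pcost p s + pcost p (B - u) := by
    have h1 := pcost_add_le p s (x - s)
    rw [← hD] at h1
    have h2 : s + (B - u) = x := by rw [hD]; abel
    rwa [h2] at h1
  have : η = δ / 12 := hη
  linarith

/-- Step 2: sparse approximation in the `L` sense. -/
lemma sparse_approx {p : ℝ} (hp0 : 0 < p) (hp1 : p < 1) (o : M) {ε R : ℝ} (hε : 0 < ε)
    (hR : 0 ≤ R) : ∃ K : ℕ, ∀ μ : Mol o, pcost p μ ≤ R →
      ∃ h : Mol o, h.support.card ≤ K ∧ LB (μ - h) ε := by
  classical
  have h1p : 0 < 1 - p := by linarith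
  set t : ℝ := (ε / (R + 1)) ^ (1 / (1 - p)) with ht
  have ht0 : 0 < t := by positivity
  have htp : t ^ (1 - p) * (R + 1) = ε := by
    rw [ht, ← Real.rpow_mul (by positivity), one_div_mul_cancel h1p.ne', Real.rpow_one]
    field_simp
  obtain ⟨K, hK⟩ := exists_nat_ge (2 * ((R + 1) / t ^ p))
  refine ⟨K, fun μ hμ => ?_⟩
  obtain ⟨n, a, y, z, hrep, hcost⟩ := exists_rep p μ one_pos
  have hcost' : ∑ i, (|a i| * dist (y i) (z i)) ^ p ≤ R + 1 := by
    refine le_trans (le_of_eq ?_) (show ∑ i, |a i| ^ p * dist (y i) (z i) ^ p ≤ R + 1 by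
      linarith)
    exact Finset.sum_congr rfl fun i _ => Real.mul_rpow (abs_nonneg _) dist_nonneg
  set big := univ.filter (fun i : Fin n => t ≤ |a i| * dist (y i) (z i)) with hbigdef
  set small := univ.filter (fun i : Fin n => ¬ t ≤ |a i| * dist (y i) (z i)) with hsmalldef
  let F : Fin n → Mol o := fun i => a i • (delta o (y i) - delta o (z i))
  have hsplit : ∑ i, F i = ∑ i ∈ big, F i + ∑ i ∈ small, F i :=
    (Finset.sum_filter_add_sum_filter_not univ _ _).symm
  refine ⟨∑ i ∈ big, F i, ?_, ?_⟩
  · have h1 : (∑ i ∈ big, F i).support.card ≤ 2 * big.card := card_dipoles big a y z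
    have h2 : (big.card : ℝ) * t ^ p ≤ R + 1 := by
      rw [← nsmul_eq_mul, ← Finset.sum_const]
      refine le_trans (Finset.sum_le_sum fun i hi => ?_) (le_trans
        (Finset.sum_le_sum_of_subset_of_nonneg (Finset.filter_subset _ _)
          (fun i _ _ => Real.rpow_nonneg (by positivity) _)) hcost')
      exact Real.rpow_le_rpow ht0.le (Finset.mem_filter.1 hi).2 hp0.le
    have h3 : (big.card : ℝ) ≤ (R + 1) / t ^ p := by
      rwa [le_div_iff₀ (by positivity)]
    have h4 : ((∑ i ∈ big, F i).support.card : ℝ) ≤ 2 * big.card := by exact_mod_cast h1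
    have h5 : ((∑ i ∈ big, F i).support.card : ℝ) ≤ K := by linarith
    exact_mod_cast h5
  · have h1 : μ - ∑ i ∈ big, F i = ∑ i ∈ small, F i := by
      rw [hrep, hsplit, add_sub_cancel_left]
    rw [h1]
    refine (LB.sum small F (fun i => |a i| * dist (y i) (z i))
      (fun i _ => LB_dipole o _ _ _)).mono ?_
    have hpt : ∀ i ∈ small, |a i| * dist (y i) (z i) ≤
        t ^ (1 - p) * (|a i| * dist (y i) (z i)) ^ p := by
      intro i hi
      have h2 : |a i| * dist (y i) (z i) < t := not_le.1 (Finset.mem_filter.1 hi).2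
      have h0 : 0 ≤ |a i| * dist (y i) (z i) := by positivity
      rcases h0.eq_or_lt with h0 | h0
      · rw [← h0, Real.zero_rpow hp0.ne', mul_zero]
      · calc |a i| * dist (y i) (z i)
            = (|a i| * dist (y i) (z i)) ^ (1 - p) * (|a i| * dist (y i) (z i)) ^ p := by
              rw [← Real.rpow_add h0]; simp
          _ ≤ t ^ (1 - p) * (|a i| * dist (y i) (z i)) ^ p :=
              mul_le_mul_of_nonneg_right (Real.rpow_le_rpow h0.le h2.le h1p.le) (by positivity)
    refine (Finset.sum_le_sum hpt).trans ?_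
    rw [← Finset.mul_sum, ← htp]
    refine mul_le_mul_of_nonneg_left ?_ (by positivity)
    exact (Finset.sum_le_sum_of_subset_of_nonneg (Finset.filter_subset _ _)
          (fun i _ _ => Real.rpow_nonneg (by positivity) _)).trans hcost'

end

end Pool.Agent.H74.LipFree
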