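import Pool.Agent.H74.LipFree3

set_option autoImplicit false
set_option linter.unusedSectionVars false
set_option linter.unusedVariables false
set_option linter.unusedSimpArgs false

open Finset

namespace Pool.Agent.H74.LipFree

noncomputable section

variable {M : Type*} [MetricSpace M]

/-- Lemma Z -/
lemma exists_center [CompleteSpace M] [Nonempty M] (U : Ultrafilter ℕ) (x : ℕ → M) :
    ∃ z0 : M, ∀ z : M, ∀ᶠ m in (U : Filter ℕ), dist z z0 ≤ 3 * dist z (x m) := by
  by_cases hA : ∃ ρ : ℝ, 0 < ρ ∧ ∃ z0 : M, (∀ z, ∀ᶠ m in (U : Filter ℕ), ρ ≤ dist z (x m)) ∧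
      ∀ᶠ m in (U : Filter ℕ), dist z0 (x m) < 2 * ρ
  · obtain ⟨ρ, hρ, z0, h1, h2⟩ := hA
    refine ⟨z0, fun z => ?_⟩
    filter_upwards [h1 z, h2] with m a b
    have := dist_triangle_right z z0 (x m)
    linarith
  by_cases hB : ∃ (z : M) (t : ℝ), ∀ᶠ m in (U : Filter ℕ), dist z (x m) < t
  · obtain ⟨z1, t, hz1⟩ := hB
    have ht : 0 < t := by
      obtain ⟨m, hm⟩ := hz1.exists
      exact dist_nonneg.trans_lt hm
    have hn : ∀ n : ℕ, ∃ z : M, ∀ᶠ m in (U : Filter ℕ), dist z (x m) < t / 2 ^ n := by
      intro n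
      induction n with
      | zero => exact ⟨z1, by simpa using hz1⟩
      | succ n ih =>
        obtain ⟨z, hz⟩ := ih
        by_contra hcon
        push Not at hcon
        refine hA ⟨t / 2 ^ (n + 1), by positivity, z, fun w => ?_, ?_⟩
        · exact hcon w
        · have : 2 * (t / 2 ^ (n + 1)) = t / 2 ^ n := by rw [pow_succ]; field_simp
          rw [this]; exact hz
    have hcau : Cauchy (Filter.map x (U : Filter ℕ)) := by
      rw [Metric.cauchy_iff]
      refine ⟨inferInstance, fun ε hε => ?_⟩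
      obtain ⟨n, hn'⟩ : ∃ n : ℕ, t / 2 ^ n < ε / 2 := by
        obtain ⟨n, hn⟩ := exists_nat_gt (t / (ε / 2))
        refine ⟨n, ?_⟩
        have h2 : (n : ℝ) < 2 ^ n := by exact_mod_cast Nat.lt_two_pow_self
        rw [div_lt_iff₀ (by positivity)] at hn ⊢
        nlinarith
      obtain ⟨z, hz⟩ := hn n
      refine ⟨Metric.ball z (ε / 2), ?_, ?_⟩
      · rw [Filter.mem_map]
        filter_upwards [hz] with m hm
        rw [Set.mem_preimage, Metric.mem_ball, dist_comm]
        exact hm.trans hn'
      · intro a ha b hb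
        rw [Metric.mem_ball] at ha hb
        have := dist_triangle_right a b z
        linarith
    obtain ⟨z0, hz0⟩ := cauchy_iff_exists_le_nhds.1 hcau
    refine ⟨z0, fun z => ?_⟩
    rcases eq_or_ne z z0 with rfl | hne
    · exact Filter.Eventually.of_forall fun m => by rw [dist_self]; positivity
    · have hd : 0 < dist z z0 := dist_pos.2 hne
      have h1 : ∀ᶠ m in (U : Filter ℕ), dist (x m) z0 < dist z z0 / 2 := by
        have := hz0 (Metric.ball_mem_nhds z0 (half_pos hd))
        rw [Filter.mem_map] at this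
        filter_upwards [this] with m hm using hm
      filter_upwards [h1] with m hm
      have := dist_triangle z (x m) z0
      linarith
  · push Not at hB
    obtain ⟨z0⟩ := ‹Nonempty M›
    refine ⟨z0, fun z => ?_⟩
    filter_upwards [hB z (dist z z0)] with m hm
    have h2 : 0 ≤ dist z (x m) := dist_nonneg
    linarith

lemma exists_fin_rep {o : M} (u : Mol o) {K : ℕ} (h : u.support.card ≤ K) :
    ∃ (x : Fin K → M) (a : Fin K → ℝ), u = ∑ i, a i • delta o (x i) := by
  obtain ⟨d, rfl⟩ := Nat.exists_eq_add_of_le h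
  let e := u.support.equivFin
  refine ⟨Fin.append (fun i => ((e.symm i : u.support) : {x : M // x ≠ o}).1) (fun _ => o),
    Fin.append (fun i => u (e.symm i)) (fun _ => 0), ?_⟩
  rw [Fin.sum_univ_add]
  simp only [Fin.append_left, Fin.append_right, delta_self, smul_zero, Finset.sum_const_zero,
    add_zero]
  rw [Equiv.sum_comp e.symm (fun i : u.support => u i • delta o ((i : {x : M // x ≠ o}) : M)),
    Finset.sum_coe_sort u.support (fun i => u i • delta o (i : M))]
  exact mol_eq_sum u

/-- Case A of the main combinatorial step. -/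
lemma caseA {o : M} (u : ℕ → Mol o) (K K' : ℕ) (ε : ℝ) (hε : 0 < ε)
    (x : ℕ → Fin K → M) (a : ℕ → Fin K → ℝ) (hu : ∀ n, u n = ∑ i, a n i • delta o (x n i))
    (nn : ℕ → ℕ) (f : ℕ → M → ℝ) (hf : ∀ j, LipschitzWith 1 (f j)) (hfo : ∀ j, f j o = 0)
    (z : Fin K → M) (hfz : ∀ j i, f j (z i) = 0) (hfu : ∀ j, 13 * ε ≤ pair (f j) (u (nn j)))
    (hnn : ∀ j l, j < l → nn j ≠ nn l) (hfx : ∀ j l, j < l → ∀ i, f l (x (nn j) i) = 0)
    (hz : ∀ j l, j < l → ∀ i k, dist (x (nn j) i) (z k) ≤ 3 * dist (x (nn j) i) (x (nn l) k))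
    (hS : ∀ S : Finset ℕ, S.Nonempty → ∃ h : Mol o, h.support.card ≤ K' ∧
      LB (∑ n ∈ S, u n - (S.card : ℝ) • h) (ε * S.card)) : False := by
  classical
  set N : ℕ := 2 * K' + 1 with hN
  have hinj : Function.Injective nn := by
    intro j l h
    by_contra hne
    rcases lt_or_gt_of_ne hne with h1 | h1
    · exact hnn j l h1 h
    · exact hnn l j h1 h.symm
  obtain ⟨h, hcard, hLB⟩ := hS ((range N).image nn) ⟨nn 0, Finset.mem_image.2
    ⟨0, by simp [N], rfl⟩⟩
  rw [Finset.sum_image (fun _ _ _ _ h => hinj h), Finset.card_image_of_injective _ hinj,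
    Finset.card_range] at hLB
  -- values
  let V : ℕ → Fin K → ℝ := fun j i => f j (x (nn j) i) / 6
  have hV1 : ∀ j l, j < l → ∀ i k, |V l k| ≤ dist (x (nn l) k) (x (nn j) i) / 6 := by
    intro j l hjl i k
    have h1 := lip_abs (hf l) (x (nn l) k) (x (nn j) i)
    rw [hfx j l hjl i, sub_zero] at h1
    simp only [V]
    rw [abs_div, abs_of_pos (show (0 : ℝ) < 6 by norm_num)]
    linarith
  have hV2 : ∀ j l, j < l → ∀ i k, |V j i| ≤ dist (x (nn j) i) (x (nn l) k) / 2 := by
    intro j l hjl i k
    have h1 := lip_abs (hf j) (x (nn j) i) (z k)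
    rw [hfz j k, sub_zero] at h1
    have h2 := hz j l hjl i k
    simp only [V]
    rw [abs_div, abs_of_pos (show (0 : ℝ) < 6 by norm_num)]
    linarith
  have hV : ∀ j l, j ≠ l → ∀ i k, |V j i| + |V l k| ≤
      2 / 3 * dist (x (nn j) i) (x (nn l) k) := by
    intro j l hjl i k
    rcases lt_or_gt_of_ne hjl with h1 | h1
    · have h2 := hV1 j l h1 i k
      have h3 := hV2 j l h1 i k
      rw [dist_comm] at h2
      linarith
    · have h2 := hV1 l j h1 k i
      have h3 := hV2 l j h1 k i
      rw [dist_comm (x (nn l) k)] at h3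
      linarith
  have hVo : ∀ j i, |V j i| ≤ dist (x (nn j) i) o := by
    intro j i
    have h1 := lip_abs (hf j) (x (nn j) i) o
    rw [hfo j, sub_zero] at h1
    simp only [V]
    rw [abs_div, abs_of_pos (show (0 : ℝ) < 6 by norm_num)]
    have : 0 ≤ dist (x (nn j) i) o := dist_nonneg
    linarith
  -- dropped indices
  let Y : Finset {x : M // x ≠ o} := h.support
  let bad : ℕ → Prop := fun j => ∃ i, ∃ y ∈ Y, dist (x (nn j) i) (y : M) < |V j i|
  let D : Finset ℕ := (range N).filter bad
  have hDcard : D.card ≤ K' := by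
    refine le_trans ?_ hcard
    have hch : ∀ j ∈ D, ∃ y ∈ Y, ∃ i, dist (x (nn j) i) (y : M) < |V j i| := by
      intro j hj
      obtain ⟨i, y, hy, hi⟩ := (Finset.mem_filter.1 hj).2
      exact ⟨y, hy, i, hi⟩
    rcases D.eq_empty_or_nonempty with hD0 | ⟨j0, hj0⟩
    · rw [hD0]; simp
    haveI : Nonempty {x : M // x ≠ o} := ⟨(hch j0 hj0).choose⟩
    choose! y hyY hyi using hch
    refine Finset.card_le_card_of_injOn y (fun j hj => hyY j hj) ?_
    intro j hj l hl hyjl
    by_contra hne
    obtain ⟨i, hi⟩ := hyi j hj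
    obtain ⟨k, hk⟩ := hyi l hl
    rw [hyjl] at hi
    have h1 := dist_triangle_right (x (nn j) i) (x (nn l) k) (y l : M)
    have h2 := hV j l hne i k
    have h3 : 0 ≤ dist (x (nn j) i) (x (nn l) k) := dist_nonneg
    linarith
  let val : (ℕ × Fin K) ⊕ (Option Y) → ℝ :=
    Sum.elim (fun ji => if bad ji.1 then 0 else V ji.1 ji.2) (fun _ => 0)
  let pt : (ℕ × Fin K) ⊕ (Option Y) → M :=
    Sum.elim (fun ji => x (nn ji.1) ji.2)
      (fun t => match t with
        | none => o
        | some y => ((y : {x : M // x ≠ o}) : M))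
  have hval : ∀ ji : ℕ × Fin K, |val (Sum.inl ji)| ≤ |V ji.1 ji.2| := by
    intro ji
    simp only [val, Sum.elim_inl]
    split_ifs
    · simp
    · exact le_rfl
  have hmix : ∀ (ji : ℕ × Fin K) (t : Option Y),
      |val (Sum.inl ji)| ≤ dist (pt (Sum.inl ji)) (pt (Sum.inr t)) := by
    intro ji t
    rcases t with _ | y
    · exact (hval ji).trans (hVo ji.1 ji.2)
    · simp only [val, pt, Sum.elim_inl, Sum.elim_inr]
      split_ifs with hb
      · simp
      · by_contra hcon
        push Not at hcon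
        exact hb ⟨ji.2, y, y.2, hcon⟩
  obtain ⟨G, hG, hGpt⟩ := exists_lip_extension pt val (by
    rintro (⟨j, i⟩ | t) (⟨l, k⟩ | t')
    · by_cases hjl : j = l
      · subst hjl
        simp only [val, pt, Sum.elim_inl]
        split_ifs with hb
        · simp
        · have h1 := lip_abs (hf j) (x (nn j) i) (x (nn j) k)
          have h2 : V j i - V j k = (f j (x (nn j) i) - f j (x (nn j) k)) / 6 := by
            simp only [V]; ring
          rw [h2, abs_div, abs_of_pos (show (0 : ℝ) < 6 by norm_num)]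
          have : 0 ≤ dist (x (nn j) i) (x (nn j) k) := dist_nonneg
          linarith
      · have h1 := hval (j, i)
        have h2 := hval (l, k)
        have h3 := hV j l hjl i k
        have h4 := abs_sub (val (Sum.inl (j, i))) (val (Sum.inl (l, k)))
        have h5 : 0 ≤ dist (x (nn j) i) (x (nn l) k) := dist_nonneg
        simp only at h1 h2
        change _ ≤ dist (x (nn j) i) (x (nn l) k)
        linarith
    · have : val (Sum.inr t') = 0 := rfl
      rw [this, sub_zero]; exact hmix (j, i) t'
    · have : val (Sum.inr t) = 0 := rfl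
      rw [this, zero_sub, abs_neg, dist_comm]; exact hmix (l, k) t
    · have h1 : val (Sum.inr t) = 0 := rfl
      have h2 : val (Sum.inr t') = 0 := rfl
      rw [h1, h2]; simp)
  have hGo : G o = 0 := hGpt (Sum.inr none)
  have hGh : pair G h = 0 := by
    rw [pair_congr G (fun _ => 0) h (fun y hy => hGpt (Sum.inr (some ⟨y, hy⟩)))]
    simp [pair, Finsupp.linearCombination_apply]
  have hkey := hLB G hG hGo
  rw [map_sub, map_smul, hGh, smul_zero, sub_zero, map_sum] at hkey
  have hterm : ∀ j, pair G (u (nn j)) = if bad j then 0 else pair (f j) (u (nn j)) / 6 := by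
    intro j
    have h1 : pair G (u (nn j)) = ∑ i, a (nn j) i * G (x (nn j) i) := by
      rw [hu (nn j), map_sum]
      refine Finset.sum_congr rfl fun i _ => ?_
      rw [map_smul, pair_delta G hGo, smul_eq_mul]
    have h2 : pair (f j) (u (nn j)) = ∑ i, a (nn j) i * f j (x (nn j) i) := by
      rw [hu (nn j), map_sum]
      refine Finset.sum_congr rfl fun i _ => ?_
      rw [map_smul, pair_delta (f j) (hfo j), smul_eq_mul]
    have h3 : ∀ i, G (x (nn j) i) = if bad j then 0 else V j i := fun i =>
      hGpt (Sum.inl (j, i))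
    rw [h1, h2]
    simp only [h3]
    split_ifs
    · simp
    · rw [Finset.sum_div]
      refine Finset.sum_congr rfl fun i _ => ?_
      simp only [V]; ring
  have hlow : ∀ j ∈ range N, (if bad j then 0 else 13 * ε / 6) ≤ pair G (u (nn j)) := by
    intro j _
    rw [hterm j]
    split_ifs
    · exact le_rfl
    · have := hfu j
      linarith
  have hsum := Finset.sum_le_sum hlow
  have hsum2 : ∑ j ∈ range N, (if bad j then 0 else 13 * ε / 6) =
      ((range N).filter (fun j => ¬ bad j)).card * (13 * ε / 6) := by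
    rw [Finset.sum_ite, Finset.sum_const_zero, zero_add, Finset.sum_const, nsmul_eq_mul]
  have hcards : D.card + ((range N).filter (fun j => ¬ bad j)).card = N := by
    have := Finset.card_filter_add_card_filter_not (s := range N) bad
    rw [Finset.card_range] at this
    exact this
  have h8 : K' + 1 ≤ ((range N).filter (fun j => ¬ bad j)).card := by omega
  have h9 : ((K' : ℝ) + 1) ≤ (((range N).filter (fun j => ¬ bad j)).card : ℝ) := by
    exact_mod_cast h8
  rw [hsum2] at hsum
  have h10 : ((K' : ℝ) + 1) * (13 * ε / 6) ≤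
      (((range N).filter (fun j => ¬ bad j)).card : ℝ) * (13 * ε / 6) :=
    mul_le_mul_of_nonneg_right h9 (by positivity)
  have h11 : (N : ℝ) = 2 * K' + 1 := by rw [hN]; push_cast; ring
  rw [h11] at hkey
  have h12 : (0 : ℝ) ≤ K' := Nat.cast_nonneg _
  nlinarith [mul_nonneg h12 hε.le]

end

end Pool.Agent.H74.LipFree
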