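import Pool.Agent.H74.LipFree4

set_option autoImplicit false
set_option linter.unusedSectionVars false
set_option linter.unusedVariables false
set_option linter.unusedSimpArgs false

open Finset

namespace Pool.Agent.H74.LipFree

noncomputable section

variable {M : Type*} [MetricSpace M]

/-- an ordering-free extraction: two indices whose coefficient vectors are close -/
lemma exists_close {ι : Type*} [Fintype ι] (c : ℕ → ι → ℝ) (C : ι → ℝ)
    (hc : ∀ n i, |c n i| ≤ C i) {σ : ℝ} (hσ : 0 < σ) :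
    ∃ n m, n ≠ m ∧ ∀ i, |c n i - c m i| ≤ σ := by
  have hb : Bornology.IsBounded (Set.pi Set.univ fun i => Metric.closedBall (0 : ℝ) (C i)) :=
    Bornology.IsBounded.pi fun i => Metric.isBounded_closedBall
  obtain ⟨a, -, φ, hφ, hlim⟩ := tendsto_subseq_of_bounded hb (x := c) (fun n => by
    intro i _
    rw [mem_closedBall_zero_iff, Real.norm_eq_abs]
    exact hc n i)
  have hcau := hlim.cauchySeq
  rw [Metric.cauchySeq_iff] at hcau
  obtain ⟨N, hN⟩ := hcau σ hσ
  refine ⟨φ N, φ (N + 1), (hφ (Nat.lt_succ_self N)).ne, fun i => ?_⟩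
  have h1 := hN N le_rfl (N + 1) (Nat.le_succ N)
  have h2 := dist_le_pi_dist ((c ∘ φ) N) ((c ∘ φ) (N + 1)) i
  rw [Real.dist_eq] at h2
  exact h2.trans h1.le

/-- Case B. -/
lemma caseB {o : M} (u : ℕ → Mol o) (B ε : ℝ) (hε : 0 < ε) (hB : ∀ n, LB (u n) B)
    (Q : Finset M) (ho : o ∈ Q) (g : ℕ → ℕ) (hg : StrictMono g)
    (hQ : ∀ k, ∀ f : M → ℝ, LipschitzWith 1 f → (∀ q ∈ Q, f q = 0) →
      pair f (u (g k)) ≤ 13 * ε) :
    ∃ n m, n ≠ m ∧ LB (u n - u m) (27 * ε) := by
  classical
  have hdual : ∀ k, ∃ b : Q → ℝ, LB (u (g k) - ∑ q : Q, b q • delta o (q : M)) (13 * ε) := by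
    intro k
    obtain ⟨b, n, x, y, l, hl, hlsum, -, hrep⟩ := duality_mol Q ho (u (g k)) (13 * ε)
      (by positivity) (hQ k)
    refine ⟨b, ?_⟩
    have h1 : u (g k) - ∑ q : Q, b q • delta o (q : M) =
        ∑ i, (13 * ε * l i * (dist (x i) (y i))⁻¹) • (delta o (x i) - delta o (y i)) := by
      conv_lhs => rw [hrep]
      rw [add_sub_cancel_left]
    rw [h1]
    refine (LB.sum univ _ (fun i => 13 * ε * l i) (fun i _ => ?_)).mono (le_of_eq ?_)
    · refine (LB_dipole o (x i) (y i) _).mono ?_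
      have h2 : 0 ≤ 13 * ε * l i := by have := hl i; positivity
      rw [abs_mul, abs_of_nonneg h2, abs_of_nonneg (inv_nonneg.2 dist_nonneg)]
      rcases eq_or_ne (dist (x i) (y i)) 0 with hd | hd
      · rw [hd]; simpa using h2
      · rw [mul_assoc, inv_mul_cancel₀ hd, mul_one]
    · rw [← Finset.mul_sum, hlsum, mul_one]
  choose b hb using hdual
  have hw : ∀ k, LB (∑ q : Q, b k q • delta o (q : M)) (B + 13 * ε) := by
    intro k
    have := (hB (g k)).sub (hb k)
    rwa [sub_sub_cancel] at this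
  -- bound of the coefficients
  have hbd : ∀ q : Q, ∃ C : ℝ, ∀ k, |b k q * dist (q : M) o| ≤ C := by
    intro q
    rcases eq_or_ne (q : M) o with hqo | hqo
    · exact ⟨0, fun k => by rw [hqo, dist_self, mul_zero, abs_zero]⟩
    · obtain ⟨r, f, hr, hf, hfq, hfQ⟩ := exists_bump (q : M) (Q.erase q)
        (Finset.notMem_erase _ _)
      have hfo : f o = 0 := hfQ o (Finset.mem_erase.2 ⟨hqo.symm, ho⟩)
      refine ⟨(B + 13 * ε) / r * dist (q : M) o, fun k => ?_⟩
      rw [abs_mul, abs_of_nonneg (dist_nonneg : 0 ≤ dist (q : M) o)]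
      refine mul_le_mul_of_nonneg_right ?_ dist_nonneg
      rw [le_div_iff₀ hr]
      have h1 := (hw k).abs hf hfo
      rw [map_sum, Finset.sum_eq_single q] at h1
      · rw [map_smul, pair_delta f hfo, hfq, smul_eq_mul, abs_mul, abs_of_pos hr] at h1
        exact h1
      · intro t _ htq
        rw [map_smul, pair_delta f hfo, hfQ t (Finset.mem_erase.2
          ⟨fun h => htq (Subtype.ext h), t.2⟩), smul_zero]
      · intro h; exact absurd (Finset.mem_univ _) h
  choose C hC using hbd
  have hcardpos : (0 : ℝ) < Q.card := by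
    exact_mod_cast Finset.card_pos.2 ⟨o, ho⟩
  obtain ⟨n, m, hnm, hclose⟩ := exists_close (fun k (q : Q) => b k q * dist (q : M) o) C
    (fun k q => hC q k) (σ := ε / Q.card) (by positivity)
  refine ⟨g n, g m, fun h => hnm (hg.injective h), ?_⟩
  have h1 : LB (∑ q : Q, b n q • delta o (q : M) - ∑ q : Q, b m q • delta o (q : M)) ε := by
    have h2 : ∑ q : Q, b n q • delta o (q : M) - ∑ q : Q, b m q • delta o (q : M) =
        ∑ q : Q, (b n q - b m q) • (delta o (q : M) - delta o o) := by
      rw [← Finset.sum_sub_distrib]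
      refine Finset.sum_congr rfl fun q _ => ?_
      rw [delta_self, sub_zero, sub_smul]
    rw [h2]
    refine (LB.sum univ _ (fun _ => ε / Q.card) (fun q _ => ?_)).mono (le_of_eq ?_)
    · refine (LB_dipole o (q : M) o _).mono ?_
      have h3 := hclose q
      rw [← sub_mul, abs_mul, abs_of_nonneg (dist_nonneg : 0 ≤ dist (q : M) o)] at h3
      exact h3
    · rw [Finset.sum_const, Finset.card_univ, Fintype.card_coe, nsmul_eq_mul]
      field_simp
  have h2 := ((hb n).sub (hb m)).add h1
  have h3 : u (g n) - ∑ q : Q, b n q • delta o (q : M) -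
      (u (g m) - ∑ q : Q, b m q • delta o (q : M)) +
      (∑ q : Q, b n q • delta o (q : M) - ∑ q : Q, b m q • delta o (q : M)) =
      u (g n) - u (g m) := by abel
  rw [h3] at h2
  exact h2.mono (by linarith)

lemma star_complete [CompleteSpace M] {o : M} (u : ℕ → Mol o) (K K' : ℕ) (B ε : ℝ)
    (hε : 0 < ε) (hK : ∀ n, (u n).support.card ≤ K) (hB : ∀ n, LB (u n) B)
    (hS : ∀ S : Finset ℕ, S.Nonempty → ∃ h : Mol o, h.support.card ≤ K' ∧
      LB (∑ n ∈ S, u n - (S.card : ℝ) • h) (ε * S.card)) :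
    ∃ n m, n ≠ m ∧ LB (u n - u m) (27 * ε) := by
  classical
  haveI : Nonempty M := ⟨o⟩
  have hrep := fun n => exists_fin_rep (u n) (hK n)
  choose x a hu using hrep
  let U : Ultrafilter ℕ := Filter.hyperfilter ℕ
  have hUtop : (U : Filter ℕ) ≤ Filter.atTop := Nat.hyperfilter_le_atTop
  have hcen := fun i : Fin K => exists_center U (fun n => x n i)
  choose z hz using hcen
  by_cases hA : ∀ Q : Finset M, o ∈ Q → ∀ᶠ n in (U : Filter ℕ), ∃ f : M → ℝ,
      LipschitzWith 1 f ∧ (∀ q ∈ Q, f q = 0) ∧ 13 * ε ≤ pair f (u n)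
  · exfalso
    obtain ⟨s, hs1, hs2⟩ := exists_seq_of_forall_finset_exists (α := ℕ × (M → ℝ))
      (fun nf => LipschitzWith 1 nf.2 ∧ nf.2 o = 0 ∧ (∀ i, nf.2 (z i) = 0) ∧
        13 * ε ≤ pair nf.2 (u nf.1))
      (fun nf nf' => nf.1 ≠ nf'.1 ∧ (∀ i, nf'.2 (x nf.1 i) = 0) ∧
        (∀ i k, dist (x nf.1 i) (z k) ≤ 3 * dist (x nf.1 i) (x nf'.1 k))) (by
      intro s hs
      let Q : Finset M := insert o (univ.image z ∪
        s.biUnion (fun nf => univ.image (fun i => x nf.1 i)))
      have hoQ : o ∈ Q := Finset.mem_insert_self _ _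
      have h1 := hA Q hoQ
      have h2 : ∀ᶠ n in (U : Filter ℕ), ∀ nf ∈ s, nf.1 ≠ n := by
        rw [Filter.eventually_all_finset]
        intro nf _
        exact hUtop ((Filter.eventually_gt_atTop nf.1).mono fun n hn => hn.ne)
      have h3 : ∀ᶠ n in (U : Filter ℕ), ∀ nf ∈ s, ∀ i k,
          dist (x nf.1 i) (z k) ≤ 3 * dist (x nf.1 i) (x n k) := by
        rw [Filter.eventually_all_finset]
        intro nf _
        rw [Filter.eventually_all]
        intro i
        rw [Filter.eventually_all]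
        intro k
        exact hz k (x nf.1 i)
      obtain ⟨n, ⟨⟨f, hf, hfQ, hfu⟩, hn2⟩, hn3⟩ := ((h1.and h2).and h3).exists
      refine ⟨(n, f), ⟨hf, hfQ o hoQ, fun i => hfQ _ ?_, hfu⟩, fun nf hnf =>
        ⟨hn2 nf hnf, fun i => hfQ _ ?_, hn3 nf hnf⟩⟩
      · exact Finset.mem_insert_of_mem (Finset.mem_union_left _
          (Finset.mem_image.2 ⟨i, Finset.mem_univ _, rfl⟩))
      · exact Finset.mem_insert_of_mem (Finset.mem_union_right _
          (Finset.mem_biUnion.2 ⟨nf, hnf, Finset.mem_image.2 ⟨i, Finset.mem_univ _, rfl⟩⟩)))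
    exact caseA u K K' ε hε x a hu (fun j => (s j).1) (fun j => (s j).2)
      (fun j => (hs1 j).1) (fun j => (hs1 j).2.1) z (fun j => (hs1 j).2.2.1)
      (fun j => (hs1 j).2.2.2) (fun j l hjl => (hs2 j l hjl).1)
      (fun j l hjl => (hs2 j l hjl).2.1) (fun j l hjl => (hs2 j l hjl).2.2) hS
  · push Not at hA
    obtain ⟨Q, hoQ, hQ⟩ := hA
    have hfreq : ∃ᶠ n in Filter.atTop, ∀ f : M → ℝ, LipschitzWith 1 f →
        (∀ q ∈ Q, f q = 0) → pair f (u n) < 13 * ε :=
      (hQ.frequently).filter_mono hUtop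
    obtain ⟨g, hg, hgQ⟩ := Filter.extraction_of_frequently_atTop hfreq
    exact caseB u B ε hε hB Q hoQ g hg (fun k f hf hfQ => (hgQ k f hf hfQ).le)

/-- push forward to the completion of `M` -/
def push (o : M) : Mol o →ₗ[ℝ] Mol ((o : UniformSpace.Completion M)) :=
  Finsupp.linearCombination ℝ
    (fun x : {x : M // x ≠ o} => delta (o : UniformSpace.Completion M) ((x : M) :
      UniformSpace.Completion M))

lemma pair_push {o : M} (f : UniformSpace.Completion M → ℝ)
    (hf : f (o : UniformSpace.Completion M) = 0) (u : Mol o) :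
    pair f (push o u) = pair (fun x : M => f (x : UniformSpace.Completion M)) u := by
  have h1 : push o u = ∑ x ∈ u.support, u x • delta (o : UniformSpace.Completion M)
      ((x : M) : UniformSpace.Completion M) := by
    rw [push, Finsupp.linearCombination_apply, Finsupp.sum]
  rw [h1, map_sum]
  rw [pair, pair, Finsupp.linearCombination_apply (R := ℝ) (v := fun x : {x : M // x ≠ o} =>
    f ((x : M) : UniformSpace.Completion M)), Finsupp.sum]
  refine Finset.sum_congr rfl fun x _ => ?_
  rw [map_smul]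
  congr 1
  exact pair_delta f hf _

lemma card_push {o : M} (u : Mol o) : (push o u).support.card ≤ u.support.card := by
  have h1 : push o u = ∑ x ∈ u.support, u x • delta (o : UniformSpace.Completion M)
      ((x : M) : UniformSpace.Completion M) := by
    rw [push, Finsupp.linearCombination_apply, Finsupp.sum]
  rw [h1]
  refine (card_sum _ _).trans ?_
  refine (Finset.sum_le_sum fun x _ => (card_smul _ _).trans (card_delta _ _)).trans ?_
  simp

lemma LB_push {o : M} {u : Mol o} {g : ℝ} (h : LB u g) : LB (push o u) g := by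
  intro f hf hfo
  rw [pair_push f hfo]
  refine h _ (lip_of_abs fun x y => ?_) hfo
  have := lip_abs hf (x : UniformSpace.Completion M) (y : UniformSpace.Completion M)
  rwa [UniformSpace.Completion.dist_eq] at this

lemma LB_of_push {o : M} {u : Mol o} {g : ℝ} (h : LB (push o u) g) : LB u g := by
  intro f hf hfo
  obtain ⟨G, hG, hGf⟩ := exists_lip_extension (fun x : M => (x : UniformSpace.Completion M)) f
    (fun x y => by rw [UniformSpace.Completion.dist_eq]; exact lip_abs hf x y)
  have h1 := h G hG (by rw [hGf o, hfo])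
  rw [pair_push G (by rw [hGf o, hfo])] at h1
  have h2 : (fun x : M => G (x : UniformSpace.Completion M)) = f := funext hGf
  rwa [h2] at h1

lemma star {o : M} (u : ℕ → Mol o) (K K' : ℕ) (B ε : ℝ)
    (hε : 0 < ε) (hK : ∀ n, (u n).support.card ≤ K) (hB : ∀ n, LB (u n) B)
    (hS : ∀ S : Finset ℕ, S.Nonempty → ∃ h : Mol o, h.support.card ≤ K' ∧
      LB (∑ n ∈ S, u n - (S.card : ℝ) • h) (ε * S.card)) :
    ∃ n m, n ≠ m ∧ LB (u n - u m) (27 * ε) := by
  obtain ⟨n, m, hnm, h⟩ := star_complete (o := (o : UniformSpace.Completion M))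
    (fun n => push o (u n)) K K' B ε hε (fun n => (card_push _).trans (hK n))
    (fun n => LB_push (hB n)) (fun S hne => by
      obtain ⟨h, h1, h2⟩ := hS S hne
      refine ⟨push o h, (card_push _).trans h1, ?_⟩
      have := LB_push h2
      rwa [map_sub, map_sum, map_smul] at this)
  refine ⟨n, m, hnm, LB_of_push ?_⟩
  rwa [map_sub]

end

end Pool.Agent.H74.LipFree
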