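import Pool.Agent.H74.LipFree5

set_option autoImplicit false
set_option linter.unusedSectionVars false
set_option linter.unusedVariables false
set_option linter.unusedSimpArgs false

open Finset

namespace Pool.Agent.H74.LipFree

noncomputable section

variable {M : Type*} [MetricSpace M]

section abstract_version

variable {p : ℝ} {o : M} {F : Type*} [SeminormedAddCommGroup F] [Module ℝ F]
  {X : Type*} [NormedAddCommGroup X] [NormedSpace ℝ X]

/-- Step 1: lower bound in the `L` sense. -/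
lemma step_one (hp0 : 0 < p) (hp1 : p < 1) (hsm : ∀ (t : ℝ) (z : F), ‖t • z‖ = |t| ^ p * ‖z‖)
    (inc : Mol o →ₗ[ℝ] F) (hinc : ∀ μ, ‖inc μ‖ = pcost p μ)
    (T : X →ₗ[ℝ] F) (c C : ℝ) (hc : 0 < c) (hC : 0 ≤ C)
    (h1 : ∀ x, (c * ‖x‖) ^ p ≤ ‖T x‖) (h2 : ∀ x, ‖T x‖ ≤ (C * ‖x‖) ^ p) :
    ∃ κ > 0, ∀ x : X, 1 ≤ ‖x‖ → ∀ μ : Mol o, ‖T x - inc μ‖ ≤ κ → ¬ LB μ κ := by
  by_contra hcon
  push Not at hcon
  have H : ∀ κ > 0, ∃ x : X, ‖x‖ = 1 ∧ ∃ μ : Mol o, ‖T x - inc μ‖ ≤ κ ∧ LB μ κ := by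
    intro κ hκ
    obtain ⟨x, hx, μ, hμ, hL⟩ := hcon κ hκ
    have hx0 : 0 < ‖x‖ := by linarith
    have hinv : ‖x‖⁻¹ ≤ 1 := inv_le_one_of_one_le₀ hx
    have hinv0 : 0 ≤ ‖x‖⁻¹ := by positivity
    refine ⟨‖x‖⁻¹ • x, ?_, ‖x‖⁻¹ • μ, ?_, ?_⟩
    · rw [norm_smul, norm_inv, norm_norm, inv_mul_cancel₀ hx0.ne']
    · rw [map_smul, map_smul, ← smul_sub, hsm, abs_of_nonneg hinv0]
      have h3 : ‖x‖⁻¹ ^ p ≤ 1 := Real.rpow_le_one hinv0 hinv hp0.le
      calc ‖x‖⁻¹ ^ p * ‖T x - inc μ‖ ≤ 1 * κ :=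
            mul_le_mul h3 hμ (norm_nonneg _) zero_le_one
        _ = κ := one_mul _
    · refine (hL.smul ‖x‖⁻¹).mono ?_
      rw [abs_of_nonneg hinv0]
      nlinarith
  set c' : ℝ := c ^ p with hc'
  have hc'0 : 0 < c' := by positivity
  set ε0 : ℝ := c' / 6 with hε0
  have hε00 : 0 < ε0 := by positivity
  have hCp : 0 ≤ C ^ p := by positivity
  have hind : ∀ j : ℕ, ∃ (x : X) (μ : Mol o), ‖x‖ ≤ j ∧ ‖T x - inc μ‖ ≤ j * ε0 ∧
      j * (c' - 2 * ε0) ≤ pcost p μ := by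
    intro j
    induction j with
    | zero =>
      refine ⟨0, 0, by simp, by simp, ?_⟩
      rw [pcost_zero]; simp
    | succ j ih =>
      obtain ⟨x, μ, hx, hTx, hμ⟩ := ih
      obtain ⟨τ, hτ, hadd⟩ := almost_additive hp0 hp1 μ (R := C ^ p + ε0) (δ := ε0)
        (by positivity) hε00
      obtain ⟨x', hx', μ', hμ', hL'⟩ := H (min ε0 τ) (lt_min hε00 hτ)
      have h3 : ‖T x' - inc μ'‖ ≤ ε0 := hμ'.trans (min_le_left _ _)
      have h4 := h1 x'
      have h5 := h2 x'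
      rw [hx', mul_one] at h4 h5
      have h6 : ‖inc μ'‖ ≤ ‖T x'‖ + ‖T x' - inc μ'‖ := by
        have := norm_sub_le (T x') (T x' - inc μ')
        rwa [sub_sub_cancel] at this
      have h7 : ‖T x'‖ ≤ ‖inc μ'‖ + ‖T x' - inc μ'‖ := by
        have := norm_add_le (inc μ') (T x' - inc μ')
        rwa [add_sub_cancel] at this
      rw [hinc] at h6 h7
      have h8 := hadd μ' (by linarith) (hL'.mono (min_le_right _ _))
      refine ⟨x + x', μ + μ', ?_, ?_, ?_⟩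
      · have := norm_add_le x x'
        push_cast; linarith
      · have h9 : T (x + x') - inc (μ + μ') = (T x - inc μ) + (T x' - inc μ') := by
          rw [map_add, map_add]; abel
        rw [h9]
        have := norm_add_le (T x - inc μ) (T x' - inc μ')
        push_cast; linarith
      · push_cast; linarith
  have h1p : 0 < 1 - p := by linarith
  obtain ⟨j, hj⟩ := exists_nat_gt ((2 * C ^ p / c') ^ (1 / (1 - p)))
  have hj0 : (0 : ℝ) < j := lt_of_le_of_lt (by positivity) hj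
  obtain ⟨x, μ, hx, hTx, hμ⟩ := hind j
  have h3 : pcost p μ ≤ ‖T x‖ + ‖T x - inc μ‖ := by
    rw [← hinc]
    have := norm_sub_le (T x) (T x - inc μ)
    rwa [sub_sub_cancel] at this
  have h4 : ‖T x‖ ≤ (C * j) ^ p :=
    (h2 x).trans (Real.rpow_le_rpow (by positivity) (mul_le_mul_of_nonneg_left hx hC) hp0.le)
  rw [Real.mul_rpow hC hj0.le] at h4
  have h5 : (j : ℝ) * (c' / 2) ≤ C ^ p * (j : ℝ) ^ p := by
    have : c' = 6 * ε0 := by rw [hε0]; ring
    nlinarith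
  have h6 : 2 * C ^ p / c' < (j : ℝ) ^ (1 - p) := by
    have h7 := Real.rpow_lt_rpow (by positivity) hj h1p
    rwa [← Real.rpow_mul (by positivity), one_div_mul_cancel h1p.ne', Real.rpow_one] at h7
  have h7 : (j : ℝ) = (j : ℝ) ^ (1 - p) * (j : ℝ) ^ p := by
    rw [← Real.rpow_add hj0]; simp
  have h8 : 0 < (j : ℝ) ^ p := by positivity
  rw [div_lt_iff₀ hc'0] at h6
  have h9 : (j : ℝ) ^ (1 - p) * (j : ℝ) ^ p * (c' / 2) ≤ C ^ p * (j : ℝ) ^ p := by
    rw [← h7]; exact h5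
  nlinarith [mul_lt_mul_of_pos_right h6 h8]

/-- The main theorem, for any `p`-normed space containing `P(M)` isometrically and densely. -/
theorem main_abstract (hp0 : 0 < p) (hp1 : p < 1)
    (hsm : ∀ (t : ℝ) (z : F), ‖t • z‖ = |t| ^ p * ‖z‖)
    (inc : Mol o →ₗ[ℝ] F) (hinc : ∀ μ, ‖inc μ‖ = pcost p μ)
    (hdense : ∀ (z : F) (ε : ℝ), 0 < ε → ∃ μ, ‖z - inc μ‖ ≤ ε)
    (T : X →ₗ[ℝ] F) (c C : ℝ) (hc : 0 < c) (hC : 0 ≤ C)
    (h1 : ∀ x, (c * ‖x‖) ^ p ≤ ‖T x‖) (h2 : ∀ x, ‖T x‖ ≤ (C * ‖x‖) ^ p) :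
    FiniteDimensional ℝ X := by
  classical
  by_contra hfd
  obtain ⟨R0, f, hR0, hfR, hfpair⟩ := exists_seq_norm_le_one_le_norm_sub hfd
  obtain ⟨κ, hκ, hstep⟩ := step_one hp0 hp1 hsm inc hinc T c C hc hC h1 h2
  set ε : ℝ := κ / 100 with hε
  have hε0 : 0 < ε := by positivity
  set R1 : ℝ := (C * R0) ^ p with hR1
  have hR10 : 0 ≤ R1 := by
    have : 0 ≤ C * R0 := mul_nonneg hC (by linarith)
    positivity
  have hTb : ∀ x : X, ‖x‖ ≤ R0 → ‖T x‖ ≤ R1 := fun x hx =>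
    (h2 x).trans (Real.rpow_le_rpow (by positivity) (mul_le_mul_of_nonneg_left hx hC) hp0.le)
  obtain ⟨K, hK⟩ := sparse_approx hp0 hp1 o hε0 (R := R1 + 1) (by positivity)
  set δ0 : ℝ := min (min 1 (κ / 2)) (ε ^ p / 2) with hδ0
  have hδ00 : 0 < δ0 := lt_min (lt_min one_pos (by positivity)) (by positivity)
  have hδ1 : δ0 ≤ 1 := (min_le_left _ _).trans (min_le_left _ _)
  have hδκ : δ0 ≤ κ / 2 := (min_le_left _ _).trans (min_le_right _ _)
  have hδε : δ0 ≤ ε ^ p / 2 := min_le_right _ _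
  -- approximants
  have hμex : ∀ n : ℕ, ∃ μ : Mol o, ‖T (f n) - inc μ‖ ≤ δ0 * (1 / 2) ^ (n + 1) := fun n =>
    hdense _ _ (by positivity)
  choose μ hμ using hμex
  have hμδ : ∀ n, ‖T (f n) - inc (μ n)‖ ≤ δ0 := fun n => (hμ n).trans (by
    have : ((1 : ℝ) / 2) ^ (n + 1) ≤ 1 := pow_le_one₀ (by norm_num) (by norm_num)
    nlinarith)
  have hnormle : ∀ (x : X) (ν : Mol o), ‖x‖ ≤ R0 → ‖T x - inc ν‖ ≤ 1 → pcost p ν ≤ R1 + 1 := by
    intro x ν hx hν
    rw [← hinc]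
    have := norm_sub_le (T x) (T x - inc ν)
    rw [sub_sub_cancel] at this
    have := hTb x hx
    linarith
  have hμR : ∀ n, pcost p (μ n) ≤ R1 + 1 := fun n =>
    hnormle (f n) (μ n) (hfR n) ((hμδ n).trans hδ1)
  have huex : ∀ n, ∃ h : Mol o, h.support.card ≤ K ∧ LB (μ n - h) ε := fun n => hK (μ n) (hμR n)
  choose u huK huL using huex
  have hLBof : ∀ ν : Mol o, pcost p ν ≤ R1 + 1 → LB ν ((R1 + 1) ^ (1 / p)) := fun ν hν =>
    (LB_pcost hp0 hp1.le ν).mono (Real.rpow_le_rpow (pcost_nonneg p ν) hν (by positivity))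
  have huB : ∀ n, LB (u n) ((R1 + 1) ^ (1 / p) + ε) := by
    intro n
    have := (hLBof (μ n) (hμR n)).sub (huL n)
    rwa [sub_sub_cancel] at this
  have hS : ∀ S : Finset ℕ, S.Nonempty → ∃ h : Mol o, h.support.card ≤ K ∧
      LB (∑ n ∈ S, u n - (S.card : ℝ) • h) (3 * ε * S.card) := by
    intro S hSne
    have hcard : (1 : ℝ) ≤ S.card := by exact_mod_cast Finset.card_pos.2 hSne
    have hcard0 : (0 : ℝ) < S.card := by linarith
    let z : X := (S.card : ℝ)⁻¹ • ∑ n ∈ S, f n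
    have hz : ‖z‖ ≤ R0 := by
      have h3 : ‖∑ n ∈ S, f n‖ ≤ S.card * R0 := by
        refine (norm_sum_le _ _).trans ((Finset.sum_le_sum fun n _ => hfR n).trans ?_)
        rw [Finset.sum_const, nsmul_eq_mul]
      calc ‖z‖ = (S.card : ℝ)⁻¹ * ‖∑ n ∈ S, f n‖ := by
            rw [norm_smul, Real.norm_of_nonneg (by positivity)]
        _ ≤ (S.card : ℝ)⁻¹ * (S.card * R0) := mul_le_mul_of_nonneg_left h3 (by positivity)
        _ = R0 := by field_simp
    have hTz : (S.card : ℝ) • T z = ∑ n ∈ S, T (f n) := by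
      simp only [z]
      rw [map_smul, smul_smul, mul_inv_cancel₀ hcard0.ne', one_smul, map_sum]
    obtain ⟨ν, hν⟩ := hdense (T z) (δ0 / S.card) (by positivity)
    have hν1 : ‖T z - inc ν‖ ≤ 1 := hν.trans (by
      rw [div_le_iff₀ hcard0]; nlinarith)
    obtain ⟨h, hhK, hhL⟩ := hK ν (hnormle z ν hz hν1)
    refine ⟨h, hhK, ?_⟩
    -- the middle term
    have hmid : pcost p (∑ n ∈ S, μ n - (S.card : ℝ) • ν) ≤ ε ^ p := by
      rw [← hinc, map_sub, map_sum, map_smul]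
      have h3 : ∑ n ∈ S, inc (μ n) - (S.card : ℝ) • inc ν =
          (S.card : ℝ) • (T z - inc ν) - ∑ n ∈ S, (T (f n) - inc (μ n)) := by
        rw [smul_sub, hTz, Finset.sum_sub_distrib]; abel
      rw [h3]
      have h4 := norm_sub_le ((S.card : ℝ) • (T z - inc ν)) (∑ n ∈ S, (T (f n) - inc (μ n)))
      have h5 : ‖(S.card : ℝ) • (T z - inc ν)‖ ≤ δ0 := by
        rw [hsm, abs_of_pos hcard0]
        have h6 : (S.card : ℝ) ^ p ≤ S.card := by
          calc (S.card : ℝ) ^ p ≤ (S.card : ℝ) ^ (1 : ℝ) :=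
                Real.rpow_le_rpow_of_exponent_le hcard hp1.le
            _ = S.card := Real.rpow_one _
        calc (S.card : ℝ) ^ p * ‖T z - inc ν‖ ≤ S.card * (δ0 / S.card) :=
              mul_le_mul h6 hν (norm_nonneg _) hcard0.le
          _ = δ0 := by field_simp
      have h7 : ‖∑ n ∈ S, (T (f n) - inc (μ n))‖ ≤ δ0 := by
        refine (norm_sum_le _ _).trans ((Finset.sum_le_sum fun n _ => hμ n).trans ?_)
        rw [← Finset.mul_sum]
        have h8 : ∑ n ∈ S, ((1 : ℝ) / 2) ^ (n + 1) ≤ 1 := by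
          have hsum : Summable (fun n : ℕ => ((1 : ℝ) / 2) ^ (n + 1)) :=
            (summable_nat_add_iff 1).2 summable_geometric_two
          have h9 := hsum.sum_le_tsum S (fun n _ => by positivity)
          refine h9.trans (le_of_eq ?_)
          have h10 : ∑' n : ℕ, ((1 : ℝ) / 2) ^ (n + 1) = 1 / 2 * ∑' n : ℕ, ((1 : ℝ) / 2) ^ n := by
            rw [← tsum_mul_left]
            exact tsum_congr fun n => by rw [pow_succ]; ring
          rw [h10, tsum_geometric_two]; norm_num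
        nlinarith
      linarith
    have hmidL : LB (∑ n ∈ S, μ n - (S.card : ℝ) • ν) ε := by
      refine (LB_pcost hp0 hp1.le _).mono ?_
      have := Real.rpow_le_rpow (pcost_nonneg p _) hmid (show 0 ≤ 1 / p by positivity)
      rwa [← Real.rpow_mul hε0.le, mul_one_div_cancel hp0.ne', Real.rpow_one] at this
    have hA : LB (∑ n ∈ S, (μ n - u n)) (∑ n ∈ S, ε) := LB.sum S _ _ fun n _ => huL n
    have hB := hhL.smul (S.card : ℝ)
    have hfin := (hmidL.sub hA).add hB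
    have heq : ∑ n ∈ S, μ n - (S.card : ℝ) • ν - ∑ n ∈ S, (μ n - u n) +
        (S.card : ℝ) • (ν - h) = ∑ n ∈ S, u n - (S.card : ℝ) • h := by
      rw [Finset.sum_sub_distrib, smul_sub]; abel
    rw [heq] at hfin
    refine hfin.mono ?_
    rw [Finset.sum_const, nsmul_eq_mul, abs_of_pos hcard0]
    nlinarith
  obtain ⟨n, m, hnm, hL⟩ := star u K K ((R1 + 1) ^ (1 / p) + ε) (3 * ε) (by positivity)
    huK huB hS
  have h3 : LB (μ n - μ m) κ := by
    have h4 := (hL.add (huL n)).sub (huL m)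
    have h5 : u n - u m + (μ n - u n) - (μ m - u m) = μ n - μ m := by abel
    rw [h5] at h4
    exact h4.mono (by rw [hε]; linarith)
  refine hstep (f n - f m) (hfpair hnm) (μ n - μ m) ?_ h3
  have h4 : T (f n - f m) - inc (μ n - μ m) = (T (f n) - inc (μ n)) - (T (f m) - inc (μ m)) := by
    rw [map_sub, map_sub]; abel
  rw [h4]
  have h5 := norm_sub_le (T (f n) - inc (μ n)) (T (f m) - inc (μ m))
  have h6 := hμδ n
  have h7 := hμδ m
  linarith

end abstract_version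

end

end Pool.Agent.H74.LipFree
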