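import Mathlib

/-!
# A unimodular class `ω ∈ H⁴(ℤ⁸)` with `φ_ω ≅ E₈ ⊕ 10H` (computations)

`H^*(ℤⁿ) = H^*(Tⁿ; ℤ)` is the exterior algebra over `ℤ` on `x₁, …, xₙ ∈ H¹`, and
`[T] = x₁ x₂ ⋯ xₙ` generates `Hⁿ`.  A class `ω ∈ H^{n-4}` defines a symmetric bilinear form
`φ_ω` on `H²` by `x y ω = φ_ω(x, y) [T]`.  We give an explicit `ω ∈ H⁴(ℤ⁸)` for which `φ_ω`
is unimodular and isometric to `E₈ ⊕ 10H`.
-/

set_option maxRecDepth 100000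

namespace Pool.Agent.H74.TorusE8

open ExteriorAlgebra Module

variable {V : Type} [AddCommGroup V]

/-- The generator `x₁ x₂ ⋯ xₙ` of `Hⁿ(ℤⁿ)` (the product of the basis of `H¹`). -/
noncomputable def topClass {n : ℕ} (x : Basis (Fin n) ℤ V) : ExteriorAlgebra ℤ V :=
  ιMulti ℤ n x

/-- A bilinear form on an abelian group `V` is unimodular if its adjoint `V → Hom(V, ℤ)` is
bijective. -/
def IsUnimodular {V : Type*} [AddCommGroup V] (φ : LinearMap.BilinForm ℤ V) : Prop :=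
  Function.Bijective (fun v : V => (φ v : V →ₗ[ℤ] ℤ))

/-- The Gram matrix of `E₈ ⊕ kH`: the Cartan matrix `E₈` and `k` blocks `!![0, 1; 1, 0]`. -/
def E8H (k : ℕ) : Matrix (Fin 8 ⊕ Fin k × Fin 2) (Fin 8 ⊕ Fin k × Fin 2) ℤ :=
  Matrix.fromBlocks CartanMatrix.E₈ 0 0
    (Matrix.of fun p q => if p.1 = q.1 ∧ p.2 ≠ q.2 then 1 else 0)

/-! ### Sanity: `[T]` generates `Hⁿ(ℤⁿ) ≅ ℤ`, so `φ_ω` is determined by `ω` -/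

lemma smul_topClass_injective {n : ℕ} (x : Basis (Fin n) ℤ V) :
    Function.Injective fun c : ℤ => c • topClass x := by
  have key : ∀ c : ℤ, ExteriorAlgebra.liftAlternating (R := ℤ) (M := V) (N := ℤ)
      (fun i => if h : i = n then h ▸ x.det else 0) (c • topClass x) = c := by
    intro c
    rw [map_smul, topClass, ExteriorAlgebra.liftAlternating_apply_ιMulti]
    simp only [dite_true, smul_eq_mul]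
    rw [Basis.det_self, mul_one]
  intro c d h
  have := congrArg (ExteriorAlgebra.liftAlternating (R := ℤ) (M := V) (N := ℤ)
      (fun i => if h : i = n then h ▸ x.det else 0)) h
  simpa only [key] using this

/-! ### Signs -/

/-- comparison sign of two natural numbers -/
def cmp (a b : ℕ) : ℤ := if a < b then 1 else if a = b then 0 else -1

/-- the sign of a list of naturals, `0` when an entry is repeated -/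
def sgnL : List ℕ → ℤ
  | [] => 1
  | a :: t => if (t.map (cmp a)).prod = 0 then 0 else (t.map (cmp a)).prod * sgnL t

lemma sgnL_cons (a : ℕ) (t : List ℕ) : sgnL (a :: t) = (t.map (cmp a)).prod * sgnL t := by
  rw [sgnL]
  split_ifs with h
  · rw [h, zero_mul]
  · rfl

/-- the sign of a function -/
def sgnF {n : ℕ} (a : Fin n → ℕ) : ℤ := ∏ i, ∏ j ∈ Finset.Ioi i, cmp (a i) (a j)

lemma sgnF_eq {n : ℕ} (a : Fin n → ℕ) : sgnF a = sgnL (List.ofFn a) := by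
  induction n with
  | zero => simp [sgnF, sgnL]
  | succ n ih =>
    rw [List.ofFn_succ, sgnL_cons, ← ih]
    unfold sgnF
    rw [Fin.prod_univ_succ]
    congr 1
    · rw [Fin.prod_Ioi_zero, List.map_ofFn, List.prod_ofFn]; rfl
    · refine Finset.prod_congr rfl fun i _ => ?_
      rw [Fin.prod_Ioi_succ]

lemma ιMulti_single_comp {n : ℕ} (x : Basis (Fin n) ℤ V) (a : Fin n → Fin n) :
    ιMulti ℤ n (fun i : Fin n => x (a i)) =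
      sgnL (List.ofFn fun i => (a i : ℕ)) • topClass x := by
  rw [← sgnF_eq]
  by_cases ha : Function.Injective a
  · have hb : Function.Bijective a := Finite.injective_iff_bijective.mp ha
    set σ : Equiv.Perm (Fin n) := Equiv.ofBijective a hb with hσ
    have h1 : (fun i : Fin n => x (a i)) = x ∘ σ := by
      funext i; rfl
    rw [h1, AlternatingMap.map_perm]
    have h2 : sgnF (fun i => (a i : ℕ)) = ((Equiv.Perm.sign σ : ℤˣ) : ℤ) := by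
      rw [Equiv.Perm.sign_eq_prod_prod_Ioi]
      unfold sgnF
      push_cast
      refine Finset.prod_congr rfl fun j _ => Finset.prod_congr rfl fun i hi => ?_
      have hij : j ≠ i := (Finset.mem_Ioi.mp hi).ne
      have hne : a j ≠ a i := fun h => hij (ha h)
      have hσ' : ∀ k, σ k = a k := fun k => rfl
      unfold cmp
      by_cases hlt : a j < a i
      · have h3 : (a j : ℕ) < (a i : ℕ) := hlt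
        simp [hlt, hσ']
      · have h4 : (a j : ℕ) ≠ (a i : ℕ) := fun h => hne (Fin.ext h)
        have h3 : ¬ (a j : ℕ) < (a i : ℕ) := hlt
        rw [if_neg h3, if_neg h4]
        simp [hlt, hσ']
    rw [h2]; rfl
  · rw [ιMulti_eq_zero_of_not_inj]
    · have : sgnF (fun i => (a i : ℕ)) = 0 := by
        unfold Function.Injective at ha
        push Not at ha
        obtain ⟨i, j, hij, hne⟩ := ha
        rcases lt_or_gt_of_ne hne with h | h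
        · refine Finset.prod_eq_zero (Finset.mem_univ i)
            (Finset.prod_eq_zero (Finset.mem_Ioi.mpr h) ?_)
          simp [cmp, hij]
        · refine Finset.prod_eq_zero (Finset.mem_univ j)
            (Finset.prod_eq_zero (Finset.mem_Ioi.mpr h) ?_)
          simp [cmp, hij]
      rw [this, zero_smul]
    · intro h
      apply ha
      intro i j hij
      apply h
      simp [hij]

/-! ### The standard basis of `H²(ℤ⁸)` -/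

/-- the 28 pairs `i < j` -/
def prs : Fin 28 → Fin 8 × Fin 8 :=
  ![(0,1),(0,2),(0,3),(0,4),(0,5),(0,6),(0,7),(1,2),(1,3),(1,4),(1,5),(1,6),(1,7),(2,3),
    (2,4),(2,5),(2,6),(2,7),(3,4),(3,5),(3,6),(3,7),(4,5),(4,6),(4,7),(5,6),(5,7),(6,7)]

lemma prs_lt : ∀ p, (prs p).1 < (prs p).2 := by decide

/-- the order embedding `Fin 2 ↪o Fin 8` with values `i < j` -/
def emb2 (i j : Fin 8) (h : i < j) : Fin 2 ↪o Fin 8 :=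
  OrderEmbedding.ofStrictMono ![i, j] (by
    intro a b hab
    fin_cases a <;> fin_cases b <;> simp_all)

/-- the `p`-th pair as an order embedding -/
def prsEmb (p : Fin 28) : Fin 2 ↪o Fin 8 := emb2 (prs p).1 (prs p).2 (prs_lt p)

lemma prsEmb_injective : Function.Injective prsEmb := by
  intro p q h
  have h0 : (prs p).1 = (prs q).1 := congrArg (fun f : Fin 2 ↪o Fin 8 => f 0) h
  have h1 : (prs p).2 = (prs q).2 := congrArg (fun f : Fin 2 ↪o Fin 8 => f 1) h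
  have : ∀ p q : Fin 28, (prs p).1 = (prs q).1 → (prs p).2 = (prs q).2 → p = q := by
    decide +kernel
  exact this p q h0 h1

lemma prsEmb_bijective : Function.Bijective prsEmb := by
  have : Finite (Fin 2 ↪o Fin 8) :=
    Finite.of_injective _ (Set.powersetCard.ofFinEmbEquiv (I := Fin 8) (n := 2)).injective
  refine prsEmb_injective.bijective_of_nat_card_le ?_
  rw [Nat.card_congr (Set.powersetCard.ofFinEmbEquiv (I := Fin 8) (n := 2)),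
    Set.powersetCard.card]
  simp
  decide

/-- the standard basis `x_i x_j`, `i < j`, of `H²(ℤ⁸)` -/
noncomputable def B (x : Basis (Fin 8) ℤ V) : Basis (Fin 28) ℤ (⋀[ℤ]^2 V) :=
  (x.exteriorPower 2).reindex
    ((Set.powersetCard.ofFinEmbEquiv (I := Fin 8) (n := 2)).symm.trans
      (Equiv.ofBijective prsEmb prsEmb_bijective).symm)

lemma B_apply (x : Basis (Fin 8) ℤ V) (p : Fin 28) : (B x p : ExteriorAlgebra ℤ V) =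
    ιMulti ℤ 2 (fun i => x (prsEmb p i)) := by
  unfold B
  rw [Basis.reindex_apply, exteriorPower.basis_apply, exteriorPower.ιMulti_family_apply_coe]
  unfold ExteriorAlgebra.ιMulti_family
  congr 1
  funext i
  simp [Equiv.ofBijective]

/-! ### The explicit data -/

/-- Gram matrix of `φ_ω` in the standard basis -/
def G : Fin 28 → Fin 28 → ℤ := ![![0, 0, 0, 0, 0, 0, 0, 0, 0, 0, 0, 0, 0, 0, 0, 0, 0, 0, 0, 0, 0, 0, -2, -1, 0, 2, 0, 1],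
  ![0, 0, 0, 0, 0, 0, 0, 0, 0, 0, 0, 0, 0, 0, 0, 0, 0, 0, 0, 0, 0, 0, 0, 1, 0, -1, 2, 1],
  ![0, 0, 0, 0, 0, 0, 0, 0, 0, 0, 0, 0, 0, 0, 0, 0, 0, 0, 0, 0, 0, 0, 0, 1, -1, 0, 1, -1],
  ![0, 0, 0, 0, 0, 0, 0, 0, 0, 0, 2, 1, 0, 0, 0, 0, -1, 0, 0, 0, -1, 1, 0, 0, 0, 0, 0, 0],
  ![0, 0, 0, 0, 0, 0, 0, 0, 0, -2, 0, -2, 0, 0, 0, 0, 1, -2, 0, 0, 0, -1, 0, 0, 0, 0, 0, 0],
  ![0, 0, 0, 0, 0, 0, 0, 0, 0, -1, 2, 0, -1, 0, 1, -1, 0, -1, 1, 0, 0, 1, 0, 0, 0, 0, 0, 0],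
  ![0, 0, 0, 0, 0, 0, 0, 0, 0, 0, 0, 1, 0, 0, 0, 2, 1, 0, -1, 1, -1, 0, 0, 0, 0, 0, 0, 0],
  ![0, 0, 0, 0, 0, 0, 0, 0, 0, 0, 0, 0, 0, 0, 0, 0, 0, 0, 0, 0, 0, 0, 1, -1, 1, -1, -2, 0],
  ![0, 0, 0, 0, 0, 0, 0, 0, 0, 0, 0, 0, 0, 0, 0, 0, 0, 0, 0, 0, 0, 0, 0, 0, 1, -1, 1, 1],
  ![0, 0, 0, 0, -2, -1, 0, 0, 0, 0, 0, 0, 0, 0, 0, -1, 1, -1, 0, 0, 0, -1, 0, 0, 0, 0, 0, 0],
  ![0, 0, 0, 2, 0, 2, 0, 0, 0, 0, 0, 0, 0, 0, 1, 0, 1, 2, 0, 0, 1, -1, 0, 0, 0, 0, 0, 0],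
  ![0, 0, 0, 1, -2, 0, 1, 0, 0, 0, 0, 0, 0, 0, -1, -1, 0, 0, 0, -1, 0, -1, 0, 0, 0, 0, 0, 0],
  ![0, 0, 0, 0, 0, -1, 0, 0, 0, 0, 0, 0, 0, 0, 1, -2, 0, 0, 1, 1, 1, 0, 0, 0, 0, 0, 0, 0],
  ![0, 0, 0, 0, 0, 0, 0, 0, 0, 0, 0, 0, 0, 0, 0, 0, 0, 0, 0, 0, 0, 0, 1, 0, 0, -1, 0, -1],
  ![0, 0, 0, 0, 0, 1, 0, 0, 0, 0, 1, -1, 1, 0, 0, 0, 0, 0, 0, -1, 0, 0, 0, 0, 0, 0, 0, 0],
  ![0, 0, 0, 0, 0, -1, 2, 0, 0, -1, 0, -1, -2, 0, 0, 0, 0, 0, 1, 0, 1, 0, 0, 0, 0, 0, 0, 0],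
  ![0, 0, 0, -1, 1, 0, 1, 0, 0, 1, 1, 0, 0, 0, 0, 0, 0, 0, 0, -1, 0, 1, 0, 0, 0, 0, 0, 0],
  ![0, 0, 0, 0, -2, -1, 0, 0, 0, -1, 2, 0, 0, 0, 0, 0, 0, 0, 0, 0, -1, 0, 0, 0, 0, 0, 0, 0],
  ![0, 0, 0, 0, 0, 1, -1, 0, 0, 0, 0, 0, 1, 0, 0, 1, 0, 0, 0, 0, 0, 0, 0, 0, 0, 0, 0, 0],
  ![0, 0, 0, 0, 0, 0, 1, 0, 0, 0, 0, -1, 1, 0, -1, 0, -1, 0, 0, 0, 0, 0, 0, 0, 0, 0, 0, 0],
  ![0, 0, 0, -1, 0, 0, -1, 0, 0, 0, 1, 0, 1, 0, 0, 1, 0, -1, 0, 0, 0, 0, 0, 0, 0, 0, 0, 0],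
  ![0, 0, 0, 1, -1, 1, 0, 0, 0, -1, -1, -1, 0, 0, 0, 0, 1, 0, 0, 0, 0, 0, 0, 0, 0, 0, 0, 0],
  ![-2, 0, 0, 0, 0, 0, 0, 1, 0, 0, 0, 0, 0, 1, 0, 0, 0, 0, 0, 0, 0, 0, 0, 0, 0, 0, 0, 0],
  ![-1, 1, 1, 0, 0, 0, 0, -1, 0, 0, 0, 0, 0, 0, 0, 0, 0, 0, 0, 0, 0, 0, 0, 0, 0, 0, 0, 0],
  ![0, 0, -1, 0, 0, 0, 0, 1, 1, 0, 0, 0, 0, 0, 0, 0, 0, 0, 0, 0, 0, 0, 0, 0, 0, 0, 0, 0],
  ![2, -1, 0, 0, 0, 0, 0, -1, -1, 0, 0, 0, 0, -1, 0, 0, 0, 0, 0, 0, 0, 0, 0, 0, 0, 0, 0, 0],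
  ![0, 2, 1, 0, 0, 0, 0, -2, 1, 0, 0, 0, 0, 0, 0, 0, 0, 0, 0, 0, 0, 0, 0, 0, 0, 0, 0, 0],
  ![1, 1, -1, 0, 0, 0, 0, 0, 1, 0, 0, 0, 0, -1, 0, 0, 0, 0, 0, 0, 0, 0, 0, 0, 0, 0, 0, 0]]

/-- the new basis of `H²(ℤ⁸)` (rows) in terms of the standard one -/
def P : Fin 28 → Fin 28 → ℤ := ![![0, 0, 0, 0, 0, 0, 0, 0, 0, 1, 1, -1, -1, 0, -2, 0, 1, 1, 2, 1, -1, -1, 0, 0, 0, 0, 0, 0],
  ![0, 0, 0, 0, 0, 0, 0, 0, 0, 3, 2, -2, -1, 0, -5, 0, 3, 0, 2, 1, 0, 1, 0, 0, 0, 0, 0, 0],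
  ![0, 0, 0, 0, 0, 0, 0, 0, 0, -1, -1, 1, 0, 0, 1, -1, -1, 0, 0, 1, -1, -1, 0, 0, 0, 0, 0, 0],
  ![0, 0, 0, 0, 0, 0, 0, 0, 0, 0, 0, 0, 1, 0, 0, 1, 1, 0, 1, -2, 0, 1, 0, 0, 0, 0, 0, 0],
  ![0, 0, 0, 0, 0, 0, 0, 0, 0, -2, -1, 1, 0, 0, 4, -1, -3, 0, -4, 1, 1, -1, 0, 0, 0, 0, 0, 0],
  ![0, 0, 0, 0, 0, 0, 0, 0, 0, 0, 0, 0, -1, 0, -1, 0, 0, 0, 0, 0, 0, 0, 0, 0, 0, 0, 0, 0],
  ![0, 0, 0, 0, 0, 0, 0, 0, 0, 3, 1, -2, 1, 0, -2, 2, 2, -1, 3, -1, 0, 2, 0, 0, 0, 0, 0, 0],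
  ![0, 0, 0, 0, 0, 0, 0, 0, 0, -2, -1, 2, 0, 0, 3, -1, -2, 0, -2, 0, 0, -2, 0, 0, 0, 0, 0, 0],
  ![0, 0, 0, 1, 0, 0, 0, 0, 0, 0, 0, 0, 0, 0, 0, 0, 0, 0, 0, 0, 0, 0, 0, 0, 0, 0, 0, 0],
  ![0, 0, 0, 30, 20, -42, -26, 0, 0, 28, 12, -19, 2, 0, -28, 14, 23, -6, 25, -9, -2, 17, 0, 0, 0, 0, 0, 0],
  ![0, 0, 0, 0, 1, 0, 0, 0, 0, 0, 0, 0, 0, 0, 0, 0, 0, 0, 0, 0, 0, 0, 0, 0, 0, 0, 0, 0],
  ![0, 0, 0, 0, 4, -14, -10, 0, 0, 10, 5, -7, 0, 0, -13, 4, 10, -1, 11, -2, -2, 5, 0, 0, 0, 0, 0, 0],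
  ![0, 0, 0, 0, 0, 1, 0, 0, 0, 0, 0, 0, 0, 0, 0, 0, 0, 0, 0, 0, 0, 0, 0, 0, 0, 0, 0, 0],
  ![0, 0, 0, 0, 0, 15, 18, 0, 0, -19, -8, 13, -2, 0, 19, -10, -16, 4, -17, 7, 1, -12, 0, 0, 0, 0, 0, 0],
  ![0, 0, 0, 0, 0, 0, 1, 0, 0, 0, 0, 0, 0, 0, 0, 0, 0, 0, 0, 0, 0, 0, 0, 0, 0, 0, 0, 0],
  ![0, 0, 0, 0, 0, 0, 7, 0, 0, -14, -7, 10, 1, 0, 18, -5, -13, 1, -14, 2, 2, -7, 0, 0, 0, 0, 0, 0],
  ![1, 0, 0, 0, 0, 0, 0, 0, 0, 0, 0, 0, 0, 0, 0, 0, 0, 0, 0, 0, 0, 0, 0, 0, 0, 0, 0, 0],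
  ![0, 0, 0, 0, 0, 0, 0, 0, 0, 0, 0, 0, 0, 0, 0, 0, 0, 0, 0, 0, 0, 0, -1, -1, -1, -1, 0, 0],
  ![0, 1, 0, 0, 0, 0, 0, 0, 0, 0, 0, 0, 0, 0, 0, 0, 0, 0, 0, 0, 0, 0, 0, 0, 0, 0, 0, 0],
  ![0, 0, 0, 0, 0, 0, 0, 0, 0, 0, 0, 0, 0, 0, 0, 0, 0, 0, 0, 0, 0, 0, 0, -1, -2, -1, 0, 1],
  ![0, 0, 1, 0, 0, 0, 0, 0, 0, 0, 0, 0, 0, 0, 0, 0, 0, 0, 0, 0, 0, 0, 0, 0, 0, 0, 0, 0],
  ![0, 0, 0, 0, 0, 0, 0, 0, 0, 0, 0, 0, 0, 0, 0, 0, 0, 0, 0, 0, 0, 0, -3, 1, 0, -2, -1, -1],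
  ![0, 0, 0, 0, 0, 0, 0, 1, 0, 0, 0, 0, 0, 0, 0, 0, 0, 0, 0, 0, 0, 0, 0, 0, 0, 0, 0, 0],
  ![0, 0, 0, 0, 0, 0, 0, 0, 0, 0, 0, 0, 0, 0, 0, 0, 0, 0, 0, 0, 0, 0, -2, 0, -1, -2, -1, 0],
  ![0, 0, 0, 0, 0, 0, 0, 0, 1, 0, 0, 0, 0, 0, 0, 0, 0, 0, 0, 0, 0, 0, 0, 0, 0, 0, 0, 0],
  ![0, 0, 0, 0, 0, 0, 0, 0, 0, 0, 0, 0, 0, 0, 0, 0, 0, 0, 0, 0, 0, 0, -1, 1, 2, 0, 0, -1],
  ![0, 0, 0, 0, 0, 0, 0, 0, 0, 0, 0, 0, 0, 1, 0, 0, 0, 0, 0, 0, 0, 0, 0, 0, 0, 0, 0, 0],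
  ![0, 0, 0, 0, 0, 0, 0, 0, 0, 0, 0, 0, 0, 0, 0, 0, 0, 0, 0, 0, 0, 0, 1, -2, -1, 0, 1, 0]]

/-- the inverse of `P` -/
def Q : Fin 28 → Fin 28 → ℤ := ![![0, 0, 0, 0, 0, 0, 0, 0, 0, 0, 0, 0, 0, 0, 0, 0, 1, 0, 0, 0, 0, 0, 0, 0, 0, 0, 0, 0],
  ![0, 0, 0, 0, 0, 0, 0, 0, 0, 0, 0, 0, 0, 0, 0, 0, 0, 0, 1, 0, 0, 0, 0, 0, 0, 0, 0, 0],
  ![0, 0, 0, 0, 0, 0, 0, 0, 0, 0, 0, 0, 0, 0, 0, 0, 0, 0, 0, 0, 1, 0, 0, 0, 0, 0, 0, 0],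
  ![0, 0, 0, 0, 0, 0, 0, 0, 1, 0, 0, 0, 0, 0, 0, 0, 0, 0, 0, 0, 0, 0, 0, 0, 0, 0, 0, 0],
  ![0, 0, 0, 0, 0, 0, 0, 0, 0, 0, 1, 0, 0, 0, 0, 0, 0, 0, 0, 0, 0, 0, 0, 0, 0, 0, 0, 0],
  ![0, 0, 0, 0, 0, 0, 0, 0, 0, 0, 0, 0, 1, 0, 0, 0, 0, 0, 0, 0, 0, 0, 0, 0, 0, 0, 0, 0],
  ![0, 0, 0, 0, 0, 0, 0, 0, 0, 0, 0, 0, 0, 0, 1, 0, 0, 0, 0, 0, 0, 0, 0, 0, 0, 0, 0, 0],
  ![0, 0, 0, 0, 0, 0, 0, 0, 0, 0, 0, 0, 0, 0, 0, 0, 0, 0, 0, 0, 0, 0, 1, 0, 0, 0, 0, 0],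
  ![0, 0, 0, 0, 0, 0, 0, 0, 0, 0, 0, 0, 0, 0, 0, 0, 0, 0, 0, 0, 0, 0, 0, 0, 1, 0, 0, 0],
  ![1, 1, 1, 0, -1, -1, -1, 0, 0, 0, 8, -2, -13, -1, -2, 0, 0, 0, 0, 0, 0, 0, 0, 0, 0, 0, 0, 0],
  ![-3, -7, -7, -11, -8, -8, -7, -2, -60, 2, -40, 0, 54, 2, 16, 0, 0, 0, 0, 0, 0, 0, 0, 0, 0, 0, 0, 0],
  ![1, 1, 0, -1, -3, -2, -2, -1, -30, 1, -12, -2, 14, 0, -1, 1, 0, 0, 0, 0, 0, 0, 0, 0, 0, 0, 0, 0],
  ![-3, -7, -6, -12, -8, -8, -7, -2, 0, 0, 0, 0, 15, -1, 18, 0, 0, 0, 0, 0, 0, 0, 0, 0, 0, 0, 0, 0],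
  ![0, 0, 0, 0, 0, 0, 0, 0, 0, 0, 0, 0, 0, 0, 0, 0, 0, 0, 0, 0, 0, 0, 0, 0, 0, 0, 1, 0],
  ![3, 7, 6, 12, 8, 7, 7, 2, 0, 0, 0, 0, -15, 1, -18, 0, 0, 0, 0, 0, 0, 0, 0, 0, 0, 0, 0, 0],
  ![2, 2, 1, 1, 0, 1, 0, -1, 0, 0, 0, 0, 15, -1, 4, 2, 0, 0, 0, 0, 0, 0, 0, 0, 0, 0, 0, 0],
  ![5, 12, 10, 19, 13, 12, 11, 3, 30, -1, 16, 1, -28, 0, -23, 1, 0, 0, 0, 0, 0, 0, 0, 0, 0, 0, 0, 0],
  ![1, 0, 0, -1, -2, -2, -2, -1, 0, 0, 8, -2, -13, -1, -2, 0, 0, 0, 0, 0, 0, 0, 0, 0, 0, 0, 0, 0],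
  ![0, 1, 1, 3, 2, 2, 3, 1, 0, 0, 0, 0, -15, 1, -11, -1, 0, 0, 0, 0, 0, 0, 0, 0, 0, 0, 0, 0],
  ![2, 4, 3, 5, 3, 3, 3, 0, 0, 0, 0, 0, 0, 0, -7, 1, 0, 0, 0, 0, 0, 0, 0, 0, 0, 0, 0, 0],
  ![1, 4, 3, 7, 5, 5, 6, 2, 30, -1, 20, 0, -42, 0, -19, -1, 0, 0, 0, 0, 0, 0, 0, 0, 0, 0, 0, 0],
  ![0, 0, 0, 0, -1, -1, -1, -1, -30, 1, -16, -1, 13, 1, -2, 0, 0, 0, 0, 0, 0, 0, 0, 0, 0, 0, 0, 0],
  ![0, 0, 0, 0, 0, 0, 0, 0, 0, 0, 0, 0, 0, 0, 0, 0, 0, -2, 0, 0, 0, 0, 0, 1, 0, 0, 0, 1],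
  ![0, 0, 0, 0, 0, 0, 0, 0, 0, 0, 0, 0, 0, 0, 0, 0, 0, -1, 0, 1, 0, 1, 0, -1, 0, 0, 0, 0],
  ![0, 0, 0, 0, 0, 0, 0, 0, 0, 0, 0, 0, 0, 0, 0, 0, 0, 0, 0, 0, 0, -1, 0, 1, 0, 1, 0, 0],
  ![0, 0, 0, 0, 0, 0, 0, 0, 0, 0, 0, 0, 0, 0, 0, 0, 0, 2, 0, -1, 0, 0, 0, -1, 0, -1, 0, -1],
  ![0, 0, 0, 0, 0, 0, 0, 0, 0, 0, 0, 0, 0, 0, 0, 0, 0, 0, 0, 2, 0, 1, 0, -2, 0, 1, 0, 0],
  ![0, 0, 0, 0, 0, 0, 0, 0, 0, 0, 0, 0, 0, 0, 0, 0, 0, 1, 0, 1, 0, -1, 0, 0, 0, 1, 0, -1]]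

/-- the coefficients of the class `ω` on the monomials `x_i x_j x_k x_l` -/
def omData : List ((Fin 4 → Fin 8) × ℤ) := [(![0, 1, 4, 5], -1),
  (![0, 1, 4, 7], -1),
  (![0, 1, 6, 7], 1),
  (![0, 2, 4, 5], -1),
  (![0, 2, 4, 6], 1),
  (![0, 2, 4, 7], 1),
  (![0, 2, 5, 6], -1),
  (![0, 3, 4, 6], 2),
  (![0, 3, 4, 7], -1),
  (![0, 3, 5, 6], 1),
  (![0, 3, 5, 7], 1),
  (![0, 3, 6, 7], 1),
  (![1, 2, 4, 5], -1),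
  (![1, 2, 4, 6], -1),
  (![1, 2, 5, 6], -1),
  (![1, 2, 5, 7], -1),
  (![1, 3, 4, 5], -1),
  (![1, 3, 4, 6], 2),
  (![1, 3, 4, 7], 1),
  (![1, 3, 5, 7], 1),
  (![2, 3, 4, 5], 1),
  (![2, 3, 4, 7], 2),
  (![2, 3, 5, 7], 1),
  (![2, 3, 6, 7], -2)]

/-- the class `ω ∈ H⁴(ℤ⁸)` -/
noncomputable def om (x : Basis (Fin 8) ℤ V) : ExteriorAlgebra ℤ V :=
  (omData.map fun t => t.2 • ιMulti ℤ 4 (fun i => x (t.1 i))).sum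

lemma om_mem (x : Basis (Fin 8) ℤ V) : om x ∈ ⋀[ℤ]^4 V := by
  unfold om
  refine list_sum_mem ?_
  intro x hx
  rw [List.mem_map] at hx
  obtain ⟨t, -, rfl⟩ := hx
  exact Submodule.smul_mem _ _ (ιMulti_range ℤ 4 (Set.mem_range_self _))

/-- the coefficient of `[T]` in `(B p) (B q) ω` -/
def gramEntry (p q : Fin 28) : ℤ :=
  (omData.map fun t => t.2 * sgnL [(prs p).1, (prs p).2, (prs q).1, (prs q).2,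
    t.1 0, t.1 1, t.1 2, t.1 3]).sum

theorem gramEntry_eq : ∀ p q, gramEntry p q = G p q := by decide +kernel

lemma mono_mul (x : Basis (Fin 8) ℤ V) (p q : Fin 28) (s : Fin 4 → Fin 8) :
    (B x p : ExteriorAlgebra ℤ V) * (B x q : ExteriorAlgebra ℤ V) *
        ιMulti ℤ 4 (fun i => x (s i)) =
      sgnL [(prs p).1, (prs p).2, (prs q).1, (prs q).2, s 0, s 1, s 2, s 3] • topClass x := by
  rw [B_apply, B_apply, ιMulti_mul_ιMulti, ιMulti_mul_ιMulti]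
  have h := ιMulti_single_comp (n := 8) x
    (Fin.append (Fin.append (prsEmb p) (prsEmb q)) s : Fin (2 + 2 + 4) → Fin 8)
  have h2 : (fun i : Fin (2 + 2 + 4) => x
      ((Fin.append (Fin.append (prsEmb p) (prsEmb q)) s : Fin (2 + 2 + 4) → Fin 8) i)) =
      Fin.append (Fin.append (fun i => x (prsEmb p i)) (fun i => x (prsEmb q i)))
        (fun i => x (s i)) := by
    funext i
    refine Fin.addCases (fun i => ?_) (fun i => ?_) i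
    · refine Fin.addCases (fun i => ?_) (fun i => ?_) i
      · simp only [Fin.append_left]
      · simp only [Fin.append_left, Fin.append_right]
    · simp only [Fin.append_right]
  rw [← h2]
  refine h.trans ?_
  congr 1

lemma gram_basis (x : Basis (Fin 8) ℤ V) (p q : Fin 28) :
    (B x p : ExteriorAlgebra ℤ V) * (B x q : ExteriorAlgebra ℤ V) * om x =
      G p q • topClass x := by
  rw [← gramEntry_eq, om, gramEntry]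
  generalize omData = l
  induction l with
  | nil => simp
  | cons t l ih =>
    simp only [List.map_cons, List.sum_cons, mul_add, add_smul]
    rw [ih, mul_smul_comm, mono_mul, smul_smul]

/-- the form `φ_ω` -/
noncomputable def phi (x : Basis (Fin 8) ℤ V) : LinearMap.BilinForm ℤ (⋀[ℤ]^2 V) :=
  Matrix.toBilin (B x) (Matrix.of G)

lemma phi_basis (x : Basis (Fin 8) ℤ V) (p q : Fin 28) : phi x (B x p) (B x q) = G p q := by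
  have h := LinearMap.BilinForm.toMatrix_apply (B x) (phi x) p q
  rw [← h, phi, LinearMap.BilinForm.toMatrix_toBilin]
  rfl

lemma isFormOf_phi (x : Basis (Fin 8) ℤ V) (a b : ⋀[ℤ]^2 V) :
    (a : ExteriorAlgebra ℤ V) * (b : ExteriorAlgebra ℤ V) * om x = phi x a b • topClass x := by
  let L1 : ⋀[ℤ]^2 V →ₗ[ℤ] ⋀[ℤ]^2 V →ₗ[ℤ] ExteriorAlgebra ℤ V :=
    LinearMap.mk₂ ℤ (fun a b => (a : ExteriorAlgebra ℤ V) * (b : ExteriorAlgebra ℤ V) * om x)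
      (by intro a b c; simp [add_mul])
      (by intro a b c; simp only [Submodule.coe_smul, smul_mul_assoc])
      (by intro a b c; simp [add_mul, mul_add])
      (by intro a b c; simp only [Submodule.coe_smul, smul_mul_assoc, mul_smul_comm])
  let L2 : ⋀[ℤ]^2 V →ₗ[ℤ] ⋀[ℤ]^2 V →ₗ[ℤ] ExteriorAlgebra ℤ V :=
    LinearMap.mk₂ ℤ (fun a b => phi x a b • topClass x)
      (by intro a b c; simp [add_smul])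
      (by intro a b c; simp [mul_smul])
      (by intro a b c; simp [add_smul])
      (by intro a b c; simp [mul_smul])
  have hL : L1 = L2 := by
    refine LinearMap.ext_basis (B x) (B x) fun i j => ?_
    change (B x i : ExteriorAlgebra ℤ V) * (B x j : ExteriorAlgebra ℤ V) * om x =
      phi x (B x i) (B x j) • topClass x
    rw [gram_basis, phi_basis]
  exact congrArg (fun L => L a b) hL

/-! ### The isometry -/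

/-- the index bijection -/
def eqv : Fin 8 ⊕ Fin 10 × Fin 2 ≃ Fin 28 :=
  (Equiv.sumCongr (Equiv.refl _) finProdFinEquiv).trans finSumFinEquiv

/-- target Gram matrix on `Fin 28` -/
def T : Fin 28 → Fin 28 → ℤ := ![![2, 0, -1, 0, 0, 0, 0, 0, 0, 0, 0, 0, 0, 0, 0, 0, 0, 0, 0, 0, 0, 0, 0, 0, 0, 0, 0, 0],
  ![0, 2, 0, -1, 0, 0, 0, 0, 0, 0, 0, 0, 0, 0, 0, 0, 0, 0, 0, 0, 0, 0, 0, 0, 0, 0, 0, 0],
  ![-1, 0, 2, -1, 0, 0, 0, 0, 0, 0, 0, 0, 0, 0, 0, 0, 0, 0, 0, 0, 0, 0, 0, 0, 0, 0, 0, 0],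
  ![0, -1, -1, 2, -1, 0, 0, 0, 0, 0, 0, 0, 0, 0, 0, 0, 0, 0, 0, 0, 0, 0, 0, 0, 0, 0, 0, 0],
  ![0, 0, 0, -1, 2, -1, 0, 0, 0, 0, 0, 0, 0, 0, 0, 0, 0, 0, 0, 0, 0, 0, 0, 0, 0, 0, 0, 0],
  ![0, 0, 0, 0, -1, 2, -1, 0, 0, 0, 0, 0, 0, 0, 0, 0, 0, 0, 0, 0, 0, 0, 0, 0, 0, 0, 0, 0],
  ![0, 0, 0, 0, 0, -1, 2, -1, 0, 0, 0, 0, 0, 0, 0, 0, 0, 0, 0, 0, 0, 0, 0, 0, 0, 0, 0, 0],
  ![0, 0, 0, 0, 0, 0, -1, 2, 0, 0, 0, 0, 0, 0, 0, 0, 0, 0, 0, 0, 0, 0, 0, 0, 0, 0, 0, 0],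
  ![0, 0, 0, 0, 0, 0, 0, 0, 0, 1, 0, 0, 0, 0, 0, 0, 0, 0, 0, 0, 0, 0, 0, 0, 0, 0, 0, 0],
  ![0, 0, 0, 0, 0, 0, 0, 0, 1, 0, 0, 0, 0, 0, 0, 0, 0, 0, 0, 0, 0, 0, 0, 0, 0, 0, 0, 0],
  ![0, 0, 0, 0, 0, 0, 0, 0, 0, 0, 0, 1, 0, 0, 0, 0, 0, 0, 0, 0, 0, 0, 0, 0, 0, 0, 0, 0],
  ![0, 0, 0, 0, 0, 0, 0, 0, 0, 0, 1, 0, 0, 0, 0, 0, 0, 0, 0, 0, 0, 0, 0, 0, 0, 0, 0, 0],
  ![0, 0, 0, 0, 0, 0, 0, 0, 0, 0, 0, 0, 0, 1, 0, 0, 0, 0, 0, 0, 0, 0, 0, 0, 0, 0, 0, 0],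
  ![0, 0, 0, 0, 0, 0, 0, 0, 0, 0, 0, 0, 1, 0, 0, 0, 0, 0, 0, 0, 0, 0, 0, 0, 0, 0, 0, 0],
  ![0, 0, 0, 0, 0, 0, 0, 0, 0, 0, 0, 0, 0, 0, 0, 1, 0, 0, 0, 0, 0, 0, 0, 0, 0, 0, 0, 0],
  ![0, 0, 0, 0, 0, 0, 0, 0, 0, 0, 0, 0, 0, 0, 1, 0, 0, 0, 0, 0, 0, 0, 0, 0, 0, 0, 0, 0],
  ![0, 0, 0, 0, 0, 0, 0, 0, 0, 0, 0, 0, 0, 0, 0, 0, 0, 1, 0, 0, 0, 0, 0, 0, 0, 0, 0, 0],
  ![0, 0, 0, 0, 0, 0, 0, 0, 0, 0, 0, 0, 0, 0, 0, 0, 1, 0, 0, 0, 0, 0, 0, 0, 0, 0, 0, 0],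
  ![0, 0, 0, 0, 0, 0, 0, 0, 0, 0, 0, 0, 0, 0, 0, 0, 0, 0, 0, 1, 0, 0, 0, 0, 0, 0, 0, 0],
  ![0, 0, 0, 0, 0, 0, 0, 0, 0, 0, 0, 0, 0, 0, 0, 0, 0, 0, 1, 0, 0, 0, 0, 0, 0, 0, 0, 0],
  ![0, 0, 0, 0, 0, 0, 0, 0, 0, 0, 0, 0, 0, 0, 0, 0, 0, 0, 0, 0, 0, 1, 0, 0, 0, 0, 0, 0],
  ![0, 0, 0, 0, 0, 0, 0, 0, 0, 0, 0, 0, 0, 0, 0, 0, 0, 0, 0, 0, 1, 0, 0, 0, 0, 0, 0, 0],
  ![0, 0, 0, 0, 0, 0, 0, 0, 0, 0, 0, 0, 0, 0, 0, 0, 0, 0, 0, 0, 0, 0, 0, 1, 0, 0, 0, 0],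
  ![0, 0, 0, 0, 0, 0, 0, 0, 0, 0, 0, 0, 0, 0, 0, 0, 0, 0, 0, 0, 0, 0, 1, 0, 0, 0, 0, 0],
  ![0, 0, 0, 0, 0, 0, 0, 0, 0, 0, 0, 0, 0, 0, 0, 0, 0, 0, 0, 0, 0, 0, 0, 0, 0, 1, 0, 0],
  ![0, 0, 0, 0, 0, 0, 0, 0, 0, 0, 0, 0, 0, 0, 0, 0, 0, 0, 0, 0, 0, 0, 0, 0, 1, 0, 0, 0],
  ![0, 0, 0, 0, 0, 0, 0, 0, 0, 0, 0, 0, 0, 0, 0, 0, 0, 0, 0, 0, 0, 0, 0, 0, 0, 0, 0, 1],
  ![0, 0, 0, 0, 0, 0, 0, 0, 0, 0, 0, 0, 0, 0, 0, 0, 0, 0, 0, 0, 0, 0, 0, 0, 0, 0, 1, 0]]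

/-- the Cartan matrix `E₈` as a function -/
def E8fun : Fin 8 → Fin 8 → ℤ := CartanMatrix.E₈

theorem T_eqv (i j : Fin 8 ⊕ Fin 10 × Fin 2) : T (eqv i) (eqv j) = E8H 10 i j := by
  have h1 : ∀ i j : Fin 8, T (eqv (Sum.inl i)) (eqv (Sum.inl j)) = E8fun i j := by
    decide +kernel
  have h2 : ∀ (i : Fin 8) (j : Fin 10) (f : Fin 2),
      T (eqv (Sum.inl i)) (eqv (Sum.inr (j, f))) = 0 := by decide +kernel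
  have h3 : ∀ (j : Fin 10) (f : Fin 2) (i : Fin 8),
      T (eqv (Sum.inr (j, f))) (eqv (Sum.inl i)) = 0 := by decide +kernel
  have h4 : ∀ (i : Fin 10) (e : Fin 2) (j : Fin 10) (f : Fin 2),
      T (eqv (Sum.inr (i, e))) (eqv (Sum.inr (j, f))) = if i = j ∧ e ≠ f then 1 else 0 := by
    decide +kernel
  rcases i with i | ⟨i, e⟩ <;> rcases j with j | ⟨j, f⟩
  · exact h1 i j
  · exact h2 i j f
  · exact h3 i e j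
  · exact h4 i e j f

theorem PQ : ∀ i j : Fin 28, (∑ k, P i k * Q k j) = if i = j then 1 else 0 := by decide +kernel

theorem PG : ∀ i j : Fin 28, (∑ k, P i k * G k j) = ∑ k, T i k * Q j k := by decide +kernel

/-- `P`, `Q`, `T` as matrices -/
abbrev PM : Matrix (Fin 28) (Fin 28) ℤ := Matrix.of P

abbrev QM : Matrix (Fin 28) (Fin 28) ℤ := Matrix.of Q

abbrev GM : Matrix (Fin 28) (Fin 28) ℤ := Matrix.of G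

abbrev TM : Matrix (Fin 28) (Fin 28) ℤ := Matrix.of T

lemma PM_mul_QM : PM * QM = 1 := by
  ext i j
  rw [Matrix.mul_apply, Matrix.one_apply]
  exact PQ i j

lemma QM_mul_PM : QM * PM = 1 := mul_eq_one_comm.mp PM_mul_QM

lemma PGP : PM * GM * PM.transpose = TM := by
  have h : PM * GM = TM * QM.transpose := by
    ext i j
    rw [Matrix.mul_apply, Matrix.mul_apply]
    exact PG i j
  rw [h, Matrix.mul_assoc, ← Matrix.transpose_mul, PM_mul_QM, Matrix.transpose_one,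
    Matrix.mul_one]

lemma isUnit_PT : IsUnit PM.transpose.det := by
  rw [Matrix.det_transpose]
  exact Matrix.isUnit_det_of_right_inverse PM_mul_QM

/-- the new basis, indexed by `Fin 28` -/
noncomputable def C' (x : Basis (Fin 8) ℤ V) : Basis (Fin 28) ℤ (⋀[ℤ]^2 V) :=
  (B x).map (Matrix.toLinearEquiv (B x) PM.transpose isUnit_PT)

lemma toMatrix_C' (x : Basis (Fin 8) ℤ V) : (B x).toMatrix (C' x) = PM.transpose := by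
  ext i j
  rw [Basis.toMatrix_apply, C', Basis.map_apply]
  change (B x).repr (Matrix.toLin (B x) (B x) PM.transpose (B x j)) i = _
  rw [Matrix.toLin_self, map_sum, Finsupp.finsetSum_apply]
  simp [Finsupp.single_apply]

lemma gram_C' (x : Basis (Fin 8) ℤ V) :
    LinearMap.BilinForm.toMatrix (C' x) (phi x) = TM := by
  rw [← LinearMap.BilinForm.toMatrix_mul_basis_toMatrix (B x) (C' x) (phi x), toMatrix_C',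
    Matrix.transpose_transpose]
  have : LinearMap.BilinForm.toMatrix (B x) (phi x) = GM := by
    rw [phi, LinearMap.BilinForm.toMatrix_toBilin]
  rw [this]
  exact PGP

/-- the new basis -/
noncomputable def C (x : Basis (Fin 8) ℤ V) :
    Basis (Fin 8 ⊕ Fin 10 × Fin 2) ℤ (⋀[ℤ]^2 V) := (C' x).reindex eqv.symm

lemma gram_C (x : Basis (Fin 8) ℤ V) :
    LinearMap.BilinForm.toMatrix (C x) (phi x) = E8H 10 := by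
  ext i j
  rw [LinearMap.BilinForm.toMatrix_apply, C, Basis.reindex_apply, Basis.reindex_apply]
  have h := congrFun (congrFun (gram_C' x) (eqv i)) (eqv j)
  rw [LinearMap.BilinForm.toMatrix_apply] at h
  simp only [Equiv.symm_symm]
  rw [h]
  exact T_eqv i j

/-! ### Unimodularity -/

/-- A form with a unimodular Gram matrix is unimodular. -/
lemma isUnimodular_of_gram {V ι : Type*} [AddCommGroup V] [Fintype ι] [DecidableEq ι]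
    (b : Basis ι ℤ V) (φ : LinearMap.BilinForm ℤ V) (S : Matrix ι ι ℤ)
    (h1 : LinearMap.BilinForm.toMatrix b φ * S = 1) : IsUnimodular φ := by
  have h2 : S * LinearMap.BilinForm.toMatrix b φ = 1 := mul_eq_one_comm.mp h1
  have key : ∀ v i, φ v (b i) = ∑ j, b.repr v j * LinearMap.BilinForm.toMatrix b φ j i := by
    intro v i
    calc φ v (b i) = φ (∑ j, b.repr v j • b j) (b i) := by rw [b.sum_repr]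
      _ = ∑ j, b.repr v j * φ (b j) (b i) := by
        simp only [map_sum, map_smul, LinearMap.sum_apply, LinearMap.smul_apply, smul_eq_mul]
      _ = _ := by simp only [LinearMap.BilinForm.toMatrix_apply]
  constructor
  · intro v w hvw
    have hvw' : ∀ i, φ v (b i) = φ w (b i) := fun i => by
      have := congrArg (fun f : V →ₗ[ℤ] ℤ => f (b i)) hvw
      simpa using this
    have h3 : Matrix.vecMul (b.repr v) (LinearMap.BilinForm.toMatrix b φ) =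
        Matrix.vecMul (b.repr w) (LinearMap.BilinForm.toMatrix b φ) := by
      funext i
      rw [Matrix.vecMul, Matrix.vecMul, dotProduct, dotProduct, ← key, ← key, hvw' i]
    have h4 := congrArg (fun u => Matrix.vecMul u S) h3
    simp only [Matrix.vecMul_vecMul, h1, Matrix.vecMul_one] at h4
    exact b.repr.injective (DFunLike.coe_injective h4)
  · intro f
    refine ⟨∑ j, (Matrix.vecMul (fun i => f (b i)) S) j • b j, ?_⟩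
    refine b.ext fun i => ?_
    show φ _ (b i) = f (b i)
    rw [key]
    have h5 : ∀ j, b.repr (∑ j, (Matrix.vecMul (fun i => f (b i)) S) j • b j) j =
        (Matrix.vecMul (fun i => f (b i)) S) j := by
      intro j
      simp [Finsupp.single_apply]
    have h6 : Matrix.vecMul (Matrix.vecMul (fun i => f (b i)) S)
        (LinearMap.BilinForm.toMatrix b φ) = fun i => f (b i) := by
      rw [Matrix.vecMul_vecMul, h2, Matrix.vecMul_one]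
    have h7 := congrFun h6 i
    rw [← h7, Matrix.vecMul, dotProduct]
    refine Finset.sum_congr rfl fun j _ => ?_
    rw [h5]

/-- the inverse of the Cartan matrix `E₈` -/
def E8inv : Matrix (Fin 8) (Fin 8) ℤ :=
  !![ 4, 5, 7, 10, 8, 6, 4, 2;
      5, 8, 10, 15, 12, 9, 6, 3;
      7, 10, 14, 20, 16, 12, 8, 4;
      10, 15, 20, 30, 24, 18, 12, 6;
      8, 12, 16, 24, 20, 15, 10, 5;
      6, 9, 12, 18, 15, 12, 8, 4;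
      4, 6, 8, 12, 10, 8, 6, 3;
      2, 3, 4, 6, 5, 4, 3, 2]

/-- the inverse of the Gram matrix of `E₈ ⊕ kH` -/
def E8Hinv (k : ℕ) : Matrix (Fin 8 ⊕ Fin k × Fin 2) (Fin 8 ⊕ Fin k × Fin 2) ℤ :=
  Matrix.fromBlocks E8inv 0 0
    (Matrix.of fun p q => if p.1 = q.1 ∧ p.2 ≠ q.2 then 1 else 0)

lemma E8_mul_inv : CartanMatrix.E₈ * E8inv = 1 := by decide +kernel

lemma hyp_mul_hyp (k : ℕ) :
    (Matrix.of fun p q : Fin k × Fin 2 => if p.1 = q.1 ∧ p.2 ≠ q.2 then (1 : ℤ) else 0) *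
      (Matrix.of fun p q : Fin k × Fin 2 => if p.1 = q.1 ∧ p.2 ≠ q.2 then (1 : ℤ) else 0) = 1 := by
  ext ⟨i, e⟩ ⟨j, f⟩
  rw [Matrix.mul_apply, Fintype.sum_prod_type, Finset.sum_eq_single i]
  · fin_cases e <;> fin_cases f <;> simp [Matrix.one_apply]
  · intro l _ hl
    simp [Ne.symm hl]
  · simp

lemma E8H_mul_inv (k : ℕ) : E8H k * E8Hinv k = 1 := by
  rw [E8H, E8Hinv, Matrix.fromBlocks_multiply, E8_mul_inv, hyp_mul_hyp]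
  simp

/-- The main statement. -/
theorem main (x : Basis (Fin 8) ℤ V) :
    ∃ ω ∈ ⋀[ℤ]^4 V, ∃ φ : LinearMap.BilinForm ℤ (⋀[ℤ]^2 V),
      (∀ a b : ⋀[ℤ]^2 V,
        (a : ExteriorAlgebra ℤ V) * (b : ExteriorAlgebra ℤ V) * ω = φ a b • topClass x) ∧
      IsUnimodular φ ∧
      ∃ b : Basis (Fin 8 ⊕ Fin 10 × Fin 2) ℤ (⋀[ℤ]^2 V), ∀ i j, φ (b i) (b j) = E8H 10 i j :=
  ⟨om x, om_mem x, phi x, isFormOf_phi x,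
    isUnimodular_of_gram (C x) (phi x) (E8Hinv 10) (by rw [gram_C, E8H_mul_inv]), C x,
    fun i j => by rw [← gram_C x, LinearMap.BilinForm.toMatrix_apply]⟩

end Pool.Agent.H74.TorusE8
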